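import Pool.Agent.H95.HK.Gr

/-!
Module GLa (project HK, helper95).  Parity lemmas; first part of the core lemma (`w` is small).
PROOFS.
* par_deg: compare the degrees.
* par_ord, par_ord': induction on m.  (X - c) | U ^ 2, so (X - c) | U, so (X - c) ^ 2 | W ^ 2 (X - c) G, (X - c) | W ^ 2 G, (X - c) | W (G.eval c ≠ 0);
  divide U and W by X - c.
* gl_deg: the degrees of u ^ 2 and w ^ 2 F have different parity, so 2 deg w + (2 g + 1) ≤ deg Q ^ (2 N) = 2 N |I| (w ≠ 0).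
* gl1.  (a) gn u ≤ 1 and gn w ≤ 1: otherwise let M = max (gn u) (gn w) > 1, v c = M (exists_gn), u₁ = C c⁻¹ * u, w₁ = C c⁻¹ * w; then gn u₁, gn w₁ ≤ 1, one of
  them is 1, and rd u₁ ^ 2 - rd w₁ ^ 2 * rd F = rd (C (c⁻¹) ^ 2 * Q ^ (2 N)) = 0 (gn < 1), rd F = ∏ (X - C (re a_i)) of odd degree: par_deg, rd_eq_zero.
  (b) rd w = 0: rd u ^ 2 - rd w ^ 2 rd F = (∏_{i ∈ I} (X - C (re a_i))) ^ (2 N) (re t_i = re a_i); par_ord for every i ∈ I (the re a_i are different),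
  so ∏_{i ∈ I} (X - C (re a_i)) ^ N divides rd w (Finset.prod_dvd_of_coprime), of degree |I| N > deg w (gl_deg) if w ≠ 0.  So gn w < 1.
  (c) rd u ^ 2 = (rd Q ^ N) ^ 2, so rd (C s * u) = rd Q ^ N with s = 1 or -1, and q := C s * u - Q ^ N has gn q < 1, q * (q + 2 Q ^ N) = w ^ 2 F,
  gn (q + 2 Q ^ N) = gn (2 Q ^ N) = v 2 = 1, gn F = 1.
-/

namespace HK

open Polynomial

section parity

variable {κ : Type*} [Field κ]

theorem par_deg (U W G : κ[X]) (hG : Odd G.natDegree) (h : U ^ 2 = W ^ 2 * G) : U = 0 ∧ W = 0 := by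
  by_cases hW : W = 0
  · subst hW
    rw [zero_pow two_ne_zero, zero_mul] at h
    exact ⟨pow_eq_zero_iff two_ne_zero |>.mp h, rfl⟩
  · exfalso
    have hG0 : G ≠ 0 := by
      rintro rfl
      rw [natDegree_zero] at hG
      exact (Nat.not_odd_zero) hG
    have h1 := congrArg natDegree h
    rw [natDegree_pow, natDegree_mul (pow_ne_zero 2 hW) hG0, natDegree_pow] at h1
    obtain ⟨k, hk⟩ := hG
    omega

theorem par_ord (c : κ) (U W G : κ[X]) (hG : G.eval c ≠ 0) (m : ℕ)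
    (h : (X - C c) ^ (2 * m) ∣ U ^ 2 - W ^ 2 * ((X - C c) * G)) :
    (X - C c) ^ m ∣ U ∧ (X - C c) ^ m ∣ W := by
  induction m generalizing U W with
  | zero =>
    rw [pow_zero]
    exact ⟨one_dvd _, one_dvd _⟩
  | succ m ih =>
    have hp : Prime (X - C c) := prime_X_sub_C c
    have h2 : (X - C c) ^ (2 * (m + 1)) = (X - C c) ^ 2 * (X - C c) ^ (2 * m) := by ring
    rw [h2] at h
    have hd2 : (X - C c) ^ 2 ∣ U ^ 2 - W ^ 2 * ((X - C c) * G) := (dvd_mul_right _ _).trans h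
    have hd1 : (X - C c) ∣ U ^ 2 - W ^ 2 * ((X - C c) * G) :=
      (dvd_pow_self _ two_ne_zero).trans hd2
    have hU : (X - C c) ∣ U := by
      refine hp.dvd_of_dvd_pow (n := 2) ?_
      have h3 : (X - C c) ∣ W ^ 2 * ((X - C c) * G) := ⟨W ^ 2 * G, by ring⟩
      have h4 := dvd_add hd1 h3
      rwa [sub_add_cancel] at h4
    obtain ⟨U', hU'⟩ := hU
    have hW : (X - C c) ∣ W := by
      have h3 : (X - C c) ^ 2 ∣ U ^ 2 := ⟨U' ^ 2, by rw [hU']; ring⟩
      have h4 := dvd_sub h3 hd2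
      rw [sub_sub_cancel] at h4
      have h5 : W ^ 2 * ((X - C c) * G) = (X - C c) * (W ^ 2 * G) := by ring
      rw [h5, pow_two (X - C c)] at h4
      have h6 := (mul_dvd_mul_iff_left hp.ne_zero).mp h4
      rcases hp.dvd_or_dvd h6 with h7 | h7
      · exact hp.dvd_of_dvd_pow h7
      · exact absurd (dvd_iff_isRoot.mp h7) hG
    obtain ⟨W', hW'⟩ := hW
    have h3 : U ^ 2 - W ^ 2 * ((X - C c) * G) =
        (X - C c) ^ 2 * (U' ^ 2 - W' ^ 2 * ((X - C c) * G)) := by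
      rw [hU', hW']
      ring
    rw [h3] at h
    have h4 := (mul_dvd_mul_iff_left (pow_ne_zero 2 hp.ne_zero)).mp h
    obtain ⟨h5, h6⟩ := ih U' W' h4
    rw [hU', hW', pow_succ']
    exact ⟨mul_dvd_mul_left _ h5, mul_dvd_mul_left _ h6⟩

theorem par_ord' (c : κ) (U W G : κ[X]) (hG : G.eval c ≠ 0) (m : ℕ)
    (h : (X - C c) ^ (2 * m + 1) ∣ U ^ 2 - W ^ 2 * ((X - C c) * G)) :
    (X - C c) ^ (m + 1) ∣ U ∧ (X - C c) ^ m ∣ W := by
  have hp : Prime (X - C c) := prime_X_sub_C c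
  have h0 : (X - C c) ^ (2 * m + 1) = (X - C c) ^ (2 * m) * (X - C c) := by ring
  rw [h0] at h
  obtain ⟨⟨U', hU'⟩, ⟨W', hW'⟩⟩ := par_ord c U W G hG m ((dvd_mul_right _ _).trans h)
  refine ⟨?_, ⟨W', hW'⟩⟩
  have h3 : U ^ 2 - W ^ 2 * ((X - C c) * G) =
      (X - C c) ^ (2 * m) * (U' ^ 2 - W' ^ 2 * ((X - C c) * G)) := by
    rw [hU', hW']
    ring
  rw [h3] at h
  have h4 := (mul_dvd_mul_iff_left (pow_ne_zero (2 * m) hp.ne_zero)).mp h
  have h5 : (X - C c) ∣ U' ^ 2 := by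
    have h6 : (X - C c) ∣ W' ^ 2 * ((X - C c) * G) := ⟨W' ^ 2 * G, by ring⟩
    have h7 := dvd_add h4 h6
    rwa [sub_add_cancel] at h7
  have h6 := hp.dvd_of_dvd_pow h5
  rw [hU', pow_succ]
  exact mul_dvd_mul_left _ h6

end parity

variable {K : Type*} [Field K] {Γ : Type*} [LinearOrderedCommGroupWithZero Γ] (v : Valuation K Γ)
  {g : ℕ} (a : Fin (2 * g + 1) → K)

/-- The polynomial `∏ (X - a_i)`. -/
noncomputable def FF : K[X] := ∏ i, (X - C (a i))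

/-- The polynomial `∏_{i ∈ I} (X - t_i)`. -/
noncomputable def QQ (I : Finset (Fin (2 * g + 1))) (t : Fin (2 * g + 1) → K) : K[X] :=
  ∏ i ∈ I, (X - C (t i))

private theorem GLa_FF_deg : (FF a).natDegree = 2 * g + 1 := by
  unfold FF
  rw [natDegree_finsetProd_X_sub_C_eq_card, Finset.card_univ, Fintype.card_fin]

private theorem GLa_FF_ne : FF a ≠ 0 := by
  unfold FF
  exact Finset.prod_ne_zero_iff.mpr (fun i _ => X_sub_C_ne_zero _)

private theorem GLa_QQ_deg (I : Finset (Fin (2 * g + 1))) (t : Fin (2 * g + 1) → K) :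
    (QQ I t).natDegree = I.card := by
  unfold QQ
  rw [natDegree_finsetProd_X_sub_C_eq_card]

theorem gl_deg (I : Finset (Fin (2 * g + 1))) (t : Fin (2 * g + 1) → K) (N : ℕ) (u w : K[X])
    (h : u ^ 2 - w ^ 2 * FF a = QQ I t ^ (2 * N)) (hw : w ≠ 0) :
    w.natDegree + g + 1 ≤ I.card * N := by
  have hF : (w ^ 2 * FF a).natDegree = 2 * w.natDegree + (2 * g + 1) := by
    rw [natDegree_mul (pow_ne_zero 2 hw) (GLa_FF_ne a), natDegree_pow, GLa_FF_deg]
  have hQ : (QQ I t ^ (2 * N)).natDegree = 2 * N * I.card := by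
    rw [natDegree_pow, GLa_QQ_deg]
  have hle : (w ^ 2 * FF a).natDegree ≤ (QQ I t ^ (2 * N)).natDegree := by
    by_contra hlt
    push Not at hlt
    have h1 : u ^ 2 = QQ I t ^ (2 * N) + w ^ 2 * FF a := by
      rw [← h]
      ring
    have h2 := natDegree_add_eq_right_of_natDegree_lt hlt
    rw [← h1, natDegree_pow, hF] at h2
    omega
  rw [hF, hQ] at hle
  have h3 : 2 * N * I.card = 2 * (I.card * N) := by ring
  rw [h3] at hle
  omega

private theorem GLa_FF_gn (ha : ∀ i, v (a i) ≤ 1) : gn v (FF a) = 1 := by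
  unfold FF
  rw [gn_prod]
  exact Finset.prod_eq_one (fun i _ => gn_X_sub_C v (ha i))

private theorem GLa_t_le (ha : ∀ i, v (a i) ≤ 1) (I : Finset (Fin (2 * g + 1)))
    (t : Fin (2 * g + 1) → K) (ht : ∀ i ∈ I, v (t i - a i) < 1) : ∀ i ∈ I, v (t i) ≤ 1 := by
  intro i hi
  have h1 := v.map_add (t i - a i) (a i)
  rw [sub_add_cancel] at h1
  exact h1.trans (max_le (ht i hi).le (ha i))

private theorem GLa_QQ_gn (I : Finset (Fin (2 * g + 1))) (t : Fin (2 * g + 1) → K)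
    (ht : ∀ i ∈ I, v (t i) ≤ 1) : gn v (QQ I t) = 1 := by
  unfold QQ
  rw [gn_prod]
  exact Finset.prod_eq_one (fun i hi => gn_X_sub_C v (ht i hi))

private theorem GLa_rd_FF (ha : ∀ i, v (a i) ≤ 1) : rd v (FF a) = ∏ i, (X - C (re v (a i))) := by
  unfold FF
  rw [rd_prod v _ _ (fun i _ => (gn_X_sub_C v (ha i)).le)]
  exact Finset.prod_congr rfl (fun i _ => rd_X_sub_C v (ha i))

private theorem GLa_rd_QQ (ha : ∀ i, v (a i) ≤ 1) (I : Finset (Fin (2 * g + 1)))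
    (t : Fin (2 * g + 1) → K) (ht : ∀ i ∈ I, v (t i - a i) < 1) :
    rd v (QQ I t) = ∏ i ∈ I, (X - C (re v (a i))) := by
  have ht1 := GLa_t_le v a ha I t ht
  unfold QQ
  rw [rd_prod v _ _ (fun i hi => (gn_X_sub_C v (ht1 i hi)).le)]
  refine Finset.prod_congr rfl (fun i hi => ?_)
  rw [rd_X_sub_C v (ht1 i hi), (re_eq_iff v (ht1 i hi) (ha i)).mpr (ht i hi)]

private theorem GLa_rd_expr (ha : ∀ i, v (a i) ≤ 1) (u w : K[X]) (hu : gn v u ≤ 1)
    (hw : gn v w ≤ 1) :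
    rd v (u ^ 2 - w ^ 2 * FF a) = rd v u ^ 2 - rd v w ^ 2 * rd v (FF a) := by
  have hF := (GLa_FF_gn v a ha).le
  have h1 : gn v (u ^ 2) ≤ 1 := by
    rw [gn_pow]
    exact pow_le_one₀ zero_le hu
  have h2 : gn v (w ^ 2) ≤ 1 := by
    rw [gn_pow]
    exact pow_le_one₀ zero_le hw
  have h3 : gn v (w ^ 2 * FF a) ≤ 1 := by
    rw [gn_mul, GLa_FF_gn v a ha, mul_one]
    exact h2
  rw [rd_sub v h1 h3, rd_mul v h2 hF, rd_pow v hu, rd_pow v hw]

/-- part (a) -/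
private theorem GLa_int (ha : ∀ i, v (a i) ≤ 1) (P u w : K[X]) (hP : gn v P ≤ 1)
    (h : u ^ 2 - w ^ 2 * FF a = P) : gn v u ≤ 1 ∧ gn v w ≤ 1 := by
  by_contra hcon
  have hM : 1 < max (gn v u) (gn v w) := by
    by_contra h1
    push Not at h1
    exact hcon ⟨(le_max_left _ _).trans h1, (le_max_right _ _).trans h1⟩
  obtain ⟨c, hc⟩ : ∃ c : K, v c = max (gn v u) (gn v w) := by
    rcases max_choice (gn v u) (gn v w) with h1 | h1
    · obtain ⟨i, hi⟩ := exists_gn v u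
      exact ⟨u.coeff i, by rw [h1, hi]⟩
    · obtain ⟨i, hi⟩ := exists_gn v w
      exact ⟨w.coeff i, by rw [h1, hi]⟩
  have hc1 : 1 < v c := by rw [hc]; exact hM
  have hvc : v c ≠ 0 := (zero_lt_one.trans hc1).ne'
  have key : ∀ p : K[X], gn v (C c⁻¹ * p) = (v c)⁻¹ * gn v p := by
    intro p
    rw [gn_mul, gn_C, map_inv₀]
  have hle : ∀ p : K[X], gn v p ≤ v c → gn v (C c⁻¹ * p) ≤ 1 := by
    intro p hp
    rw [key]
    calc (v c)⁻¹ * gn v p ≤ (v c)⁻¹ * v c := by gcongr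
      _ = 1 := inv_mul_cancel₀ hvc
  have hu1 : gn v (C c⁻¹ * u) ≤ 1 := hle u (by rw [hc]; exact le_max_left _ _)
  have hw1 : gn v (C c⁻¹ * w) ≤ 1 := hle w (by rw [hc]; exact le_max_right _ _)
  have e : (C c⁻¹ * u) ^ 2 - (C c⁻¹ * w) ^ 2 * FF a = (C c⁻¹) ^ 2 * P := by
    rw [← h]
    ring
  have hsm : gn v ((C c⁻¹) ^ 2 * P) < 1 := by
    rw [gn_mul, gn_pow, gn_C, map_inv₀]
    have h1 : (v c)⁻¹ < 1 := inv_lt_one_of_one_lt₀ hc1
    have h2 : (v c)⁻¹ ^ 2 < 1 := pow_lt_one₀ zero_le h1 two_ne_zero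
    calc (v c)⁻¹ ^ 2 * gn v P ≤ (v c)⁻¹ ^ 2 * 1 := by gcongr
      _ = (v c)⁻¹ ^ 2 := mul_one _
      _ < 1 := h2
  have h3 := GLa_rd_expr v a ha (C c⁻¹ * u) (C c⁻¹ * w) hu1 hw1
  rw [e, (rd_eq_zero v hsm.le).mpr hsm] at h3
  have h4 : rd v (C c⁻¹ * u) ^ 2 = rd v (C c⁻¹ * w) ^ 2 * rd v (FF a) := (sub_eq_zero.mp h3.symm)
  have hodd : Odd (rd v (FF a)).natDegree := by
    rw [GLa_rd_FF v a ha, natDegree_finsetProd_X_sub_C_eq_card, Finset.card_univ, Fintype.card_fin]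
    exact ⟨g, rfl⟩
  obtain ⟨h5, h6⟩ := par_deg _ _ _ hodd h4
  rw [rd_eq_zero v hu1, key] at h5
  rw [rd_eq_zero v hw1, key] at h6
  have h7 : (v c)⁻¹ * v c < 1 := by
    rcases max_choice (gn v u) (gn v w) with h8 | h8
    · rw [hc, h8] at h5 ⊢
      exact h5
    · rw [hc, h8] at h6 ⊢
      exact h6
  rw [inv_mul_cancel₀ hvc] at h7
  exact lt_irrefl _ h7

theorem gl1 (h2 : v 2 = 1) (ha : ∀ i, v (a i) ≤ 1) (hd : ∀ i j, i ≠ j → v (a i - a j) = 1)
    (I : Finset (Fin (2 * g + 1))) (t : Fin (2 * g + 1) → K) (ht : ∀ i ∈ I, v (t i - a i) < 1)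
    (N : ℕ) (u w : K[X]) (h : u ^ 2 - w ^ 2 * FF a = QQ I t ^ (2 * N)) :
    gn v w < 1 ∧ ∃ s : K, s ^ 2 = 1 ∧ gn v (C s * u - QQ I t ^ N) = gn v w ^ 2 := by
  classical
  have ht1 := GLa_t_le v a ha I t ht
  have hQ1 : gn v (QQ I t) = 1 := GLa_QQ_gn v I t ht1
  have hF1 : gn v (FF a) = 1 := GLa_FF_gn v a ha
  have hQN : ∀ m : ℕ, gn v (QQ I t ^ m) = 1 := by
    intro m
    rw [gn_pow, hQ1, one_pow]
  obtain ⟨hu, hw⟩ := GLa_int v a ha _ u w (hQN (2 * N)).le h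
  have hre : ∀ i j, i ≠ j → re v (a i) ≠ re v (a j) := by
    intro i j hij he
    rw [re_eq_iff v (ha i) (ha j), hd i j hij] at he
    exact lt_irrefl _ he
  have hrd : rd v u ^ 2 - rd v w ^ 2 * rd v (FF a) = (rd v (QQ I t)) ^ (2 * N) := by
    rw [← GLa_rd_expr v a ha u w hu hw, h, rd_pow v hQ1.le]
  -- (b)
  have hw0 : rd v w = 0 := by
    by_contra hne
    have hwne : w ≠ 0 := by
      rintro rfl
      apply hne
      rw [rd_eq_zero v hw, gn_zero]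
      exact zero_lt_one
    have hdiv : ∀ i ∈ I, (X - C (re v (a i))) ^ N ∣ rd v w := by
      intro i hi
      have hFi : rd v (FF a) = (X - C (re v (a i))) *
          ∏ j ∈ Finset.univ.erase i, (X - C (re v (a j))) := by
        rw [GLa_rd_FF v a ha]
        exact (Finset.mul_prod_erase Finset.univ (fun j => X - C (re v (a j)))
          (Finset.mem_univ i)).symm
      have hev : (∏ j ∈ Finset.univ.erase i, (X - C (re v (a j)))).eval (re v (a i)) ≠ 0 := by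
        rw [eval_prod, Finset.prod_ne_zero_iff]
        intro j hj
        rw [eval_sub, eval_X, eval_C]
        exact sub_ne_zero.mpr (hre i j (Finset.ne_of_mem_erase hj).symm)
      refine (par_ord (re v (a i)) (rd v u) (rd v w) _ hev N ?_).2
      rw [← hFi, hrd, GLa_rd_QQ v a ha I t ht]
      refine pow_dvd_pow_of_dvd ?_ _
      exact Finset.dvd_prod_of_mem (fun j => X - C (re v (a j))) hi
    have hprod : ∏ i ∈ I, (X - C (re v (a i))) ^ N ∣ rd v w := by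
      refine Finset.prod_dvd_of_coprime ?_ hdiv
      intro i _ j _ hij
      exact (isCoprime_X_sub_C_of_isUnit_sub (sub_ne_zero.mpr (hre i j hij)).isUnit).pow
    have hdeg := natDegree_le_of_dvd hprod hne
    rw [Finset.prod_pow, natDegree_pow, natDegree_finsetProd_X_sub_C_eq_card] at hdeg
    have h1 := rd_natDegree_le v w
    have h2 := gl_deg a I t N u w h hwne
    have h3 : N * I.card = I.card * N := mul_comm _ _
    omega
  have hwlt : gn v w < 1 := (rd_eq_zero v hw).mp hw0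
  refine ⟨hwlt, ?_⟩
  -- (c)
  have hsq : rd v u ^ 2 = (rd v (QQ I t ^ N)) ^ 2 := by
    rw [hw0] at hrd
    rw [rd_pow v hQ1.le, ← pow_mul, mul_comm N 2, ← hrd]
    ring
  have hfin : ∀ s : K, s ^ 2 = 1 → gn v (C s * u - QQ I t ^ N) < 1 →
      gn v (C s * u - QQ I t ^ N) = gn v w ^ 2 := by
    intro s hs hlt
    have h1 : (C s * u - QQ I t ^ N) * (C (2 : K) * QQ I t ^ N + (C s * u - QQ I t ^ N)) =
        w ^ 2 * FF a := by
      have h3 : (C s : K[X]) ^ 2 = 1 := by rw [← C_pow, hs, C_1]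
      have h4 : (C (2 : K) : K[X]) = 2 := rfl
      have h5 : QQ I t ^ (2 * N) = (QQ I t ^ N) ^ 2 := by rw [← pow_mul, mul_comm]
      rw [h5] at h
      rw [h4]
      linear_combination (u ^ 2) * h3 + h
    have h2' : gn v (C (2 : K) * QQ I t ^ N) = 1 := by
      rw [gn_mul, gn_C, h2, hQN, one_mul]
    have h3 : gn v (C (2 : K) * QQ I t ^ N + (C s * u - QQ I t ^ N)) = 1 := by
      rw [gn_add_eq v (by rw [h2']; exact hlt), h2']
    have h4 := congrArg (gn v) h1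
    rw [gn_mul, h3, mul_one, gn_mul, hF1, mul_one, gn_pow] at h4
    exact h4
  rcases sq_eq_sq_iff_eq_or_eq_neg.mp hsq with h1 | h1
  · refine ⟨1, one_pow 2, hfin 1 (one_pow 2) ?_⟩
    rw [C_1, one_mul]
    have h3 : gn v (u - QQ I t ^ N) ≤ 1 := (gn_sub_le v _ _).trans (max_le hu (hQN N).le)
    rw [← rd_eq_zero v h3, rd_sub v hu (hQN N).le, h1, sub_self]
  · have hs : (-1 : K) ^ 2 = 1 := by ring
    refine ⟨-1, hs, hfin (-1) hs ?_⟩
    have h3 : C (-1 : K) * u - QQ I t ^ N = -(u + QQ I t ^ N) := by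
      rw [C_neg, C_1]
      ring
    rw [h3, gn_neg]
    have h4 : gn v (u + QQ I t ^ N) ≤ 1 := (gn_add_le v _ _).trans (max_le hu (hQN N).le)
    rw [← rd_eq_zero v h4, rd_add v hu (hQN N).le, h1, neg_add_cancel]

end HK
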