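import Mathlib

/-!
Module FinA1 (project HK, helper95).  Non-squares by parity of a valuation; conjugation.
PROOFS.
* exists_conj.  AK / L is a Galois extension (algebraic, separable, normal); x ∉ L, so some σ in Gal(AK / L) = (AK ≃ₐ[L] AK) moves x (InfiniteGalois.mem_bot_iff_fixed or similar);
  (σ x) ^ 2 = σ (x ^ 2) = x ^ 2, so σ x = - x.
* not_mem_of_val.  Suppose y ∈ L.  t - z' = (t - z) + (z - z') has ν = 1 (ν (t - z) = exp (-1) < 1).  s ∈ L.  In L: (y / s) ^ 2 = κ (t - z) ∏ (t - z'), so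
  ν (y / s) ^ 2 = exp (-1): impossible (WithZero.log: 2 * log = -1).
-/

namespace HK

/-- The field of algebraic numbers. -/
abbrev AK : Type := AlgebraicClosure ℚ

theorem exists_conj (L : IntermediateField ℚ AK) (x : AK) (hx : x ∉ L) (hx2 : x ^ 2 ∈ L) :
    ∃ σ : AK ≃+* AK, (∀ y ∈ L, σ y = y) ∧ σ x = -x := by
  have h0 : Algebra.IsAlgebraic ℚ AK := AlgebraicClosure.isAlgebraic ℚ
  have h1 : Algebra.IsAlgebraic L AK := Algebra.IsAlgebraic.tower_top (K := ℚ) L
  have h2 : IsAlgClosure L AK := ⟨inferInstance, h1⟩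
  have h3 : Normal L AK := IsAlgClosure.normal L AK
  have h4 : Algebra.IsSeparable L AK := inferInstance
  have h5 : IsGalois L AK := ⟨⟩
  have h6 : ∃ σ : AK ≃ₐ[L] AK, σ x ≠ x := by
    by_contra hcon
    push Not at hcon
    obtain ⟨y, hy⟩ := (InfiniteGalois.mem_range_algebraMap_iff_fixed (k := L) x).2 hcon
    exact hx (hy ▸ y.2)
  obtain ⟨σ, hσ⟩ := h6
  have hfix : ∀ y ∈ L, σ y = y := fun y hy => σ.commutes ⟨y, hy⟩
  refine ⟨σ.toRingEquiv, hfix, ?_⟩
  have h7 : (σ x) ^ 2 = x ^ 2 := by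
    rw [← map_pow]
    exact hfix _ hx2
  have h8 : (σ x - x) * (σ x + x) = 0 := by
    linear_combination h7
  rcases mul_eq_zero.1 h8 with h | h
  · exact absurd (sub_eq_zero.1 h) hσ
  · exact eq_neg_of_add_eq_zero_left h

private theorem finA1_prod (L : IntermediateField ℚ AK)
    (ν : Valuation L (WithZero (Multiplicative ℤ))) (z t : AK)
    (htz : ∃ x : L, (x : AK) = t - z ∧ ν x = WithZero.exp (-1 : ℤ)) :
    ∀ zs : Multiset AK, (∀ z' ∈ zs, ∃ x : L, (x : AK) = z - z' ∧ ν x = 1) →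
      ∃ x : L, (x : AK) = (zs.map fun z' => t - z').prod ∧ ν x = 1 := by
  intro zs
  induction zs using Multiset.induction_on with
  | empty => intro _; exact ⟨1, by simp, by simp⟩
  | cons a zs ih =>
    intro h
    obtain ⟨x, hx, hx1⟩ := ih (fun z' hz' => h z' (Multiset.mem_cons_of_mem hz'))
    obtain ⟨y, hy, hy1⟩ := h a (Multiset.mem_cons_self a zs)
    obtain ⟨w, hw, hw1⟩ := htz
    have hlt : ν w < ν y := by
      rw [hw1, hy1, ← WithZero.exp_zero, WithZero.exp_lt_exp]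
      norm_num
    have hsum : ν (w + y) = 1 := by
      rw [add_comm, Valuation.map_add_eq_of_lt_left ν hlt, hy1]
    refine ⟨(w + y) * x, ?_, ?_⟩
    · rw [Multiset.map_cons, Multiset.prod_cons]
      push_cast
      rw [hx, hw, hy]
      ring
    · rw [map_mul, hsum, hx1, one_mul]

theorem not_mem_of_val (L : IntermediateField ℚ AK)
    (ν : Valuation L (WithZero (Multiplicative ℤ))) (κ z t s : AK) (zs : Multiset AK)
    (hκ : ∃ x : L, (x : AK) = κ ∧ ν x = 1)
    (htz : ∃ x : L, (x : AK) = t - z ∧ ν x = WithZero.exp (-1 : ℤ))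
    (hzs : ∀ z' ∈ zs, ∃ x : L, (x : AK) = z - z' ∧ ν x = 1) (hs : s ∈ L) (hs0 : s ≠ 0) (y : AK)
    (hy : y ^ 2 = κ * s ^ 2 * (t - z) * (zs.map fun z' => t - z').prod) : y ∉ L := by
  intro hyL
  obtain ⟨P, hP, hP1⟩ := finA1_prod L ν z t htz zs hzs
  obtain ⟨k, hk, hk1⟩ := hκ
  obtain ⟨w, hw, hw1⟩ := htz
  set Y : L := ⟨y, hyL⟩ with hY
  set S : L := ⟨s, hs⟩ with hS
  have hS0 : S ≠ 0 := by
    intro h
    apply hs0
    have := congrArg (fun a : L => (a : AK)) h
    simpa [hS] using this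
  have hrel : Y ^ 2 = k * S ^ 2 * w * P := by
    apply Subtype.ext
    push_cast
    rw [hk, hw, hP]
    exact hy
  have hv := congrArg ν hrel
  rw [map_pow, map_mul, map_mul, map_mul, map_pow, hk1, hw1, hP1, one_mul, mul_one] at hv
  have hS1 : ν S ≠ 0 := (Valuation.ne_zero_iff ν).2 hS0
  have hl := congrArg WithZero.log hv
  rw [WithZero.log_pow, WithZero.log_mul (pow_ne_zero 2 hS1) WithZero.exp_ne_zero,
    WithZero.log_pow, WithZero.log_exp] at hl
  simp only [nsmul_eq_mul, Nat.cast_ofNat] at hl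
  omega

end HK
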