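import Pool.Agent.H95.HJ.LemB
import Pool.Agent.H95.HJ.Defs3

/-!
Module Gal (project HK, helper95).  Automorphisms of the ground field act on zero-cycles.
PROOFS.
* cyc_tors.  cycMap maps ratZero into ratZero (closure induction), it is enough to map principal cycles to principal cycles.  Let K, J, i, T, f be the data of a
  principal cycle c.  Give K the new algebra structure a ↦ algebraMap k K (σ.symm a) (RingHom.toAlgebra; use letI / @ with care, or a type synonym of K).
  H.F is the same for both structures since σ.symm fixes the r i j, so the T j are again points (same v and y).  The places are the same valuations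
  (triv: σ.symm a ≠ 0), w.ord is the same; Spec' w T p' ↔ Spec w T p for p' = ptMap p (t ↦ triMap t: algebraMap' (σ x) = algebraMap x);
  IsFunctionField: same t; the subfields generated by the constants and t are the same sets (Transcendental: polynomials with coefficients moved by σ).
  So the finsum for the new structure and the multiset s.map ptsMap is the finsum for s: the new principal cycle is mapDomain of c (injective map).
-/

namespace HK

open ZC HJ
open scoped Classical

variable {k : Type} [Field k] [IsAlgClosed k] [CharZero k] {n : ℕ} (H : Hyp k n) (σ : k ≃+* k)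
  (hσ : ∀ i j, σ (H.r i j) = H.r i j)

/-- The conjugate of a system of coordinates. -/
def triMap (t : H.Tri k) : H.Tri k where
  v := fun j => σ (t.v j)
  y := σ t.y
  ne := fun h => t.ne (funext fun j => by
    have := congrFun h j
    simpa using this)
  eq := by
    rw [← map_pow, t.eq, Hyp.F, Hyp.F, map_prod]
    refine Finset.prod_congr rfl fun i _ => ?_
    simp only [dt, map_sub, map_mul, Algebra.algebraMap_self, RingHom.id_apply, hσ]

/-- The conjugate of a point. -/
def ptMap : H.Pt → H.Pt :=
  Quotient.map (triMap H σ hσ) (by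
    rintro s t ⟨c, hc, h1, h2⟩
    refine ⟨σ c, by simpa using hc, ?_, ?_⟩
    · funext j
      simp [triMap, h1]
    · simp [triMap, h2])

/-- The conjugate of a point of the family. -/
def ptsMap (P : Pts (fun _ : Unit => H)) : Pts (fun _ : Unit => H) := ⟨(), ptMap H σ hσ P.2⟩

/-- The conjugate of a zero-cycle. -/
noncomputable def cycMap : Cyc (fun _ : Unit => H) →+ Cyc (fun _ : Unit => H) :=
  Finsupp.mapDomain.addMonoidHom (Multiset.map (ptsMap H σ hσ))

theorem ptMap_mk (t : H.Tri k) : ptMap H σ hσ t.mk' = (triMap H σ hσ t).mk' := rfl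

theorem ptMap_inv (P : H.Pt) : ptMap H σ hσ P.inv = (ptMap H σ hσ P).inv := by
  obtain ⟨t, rfl⟩ := exists_mk' P
  rw [← mk'_neg, ptMap_mk, ptMap_mk, ← mk'_neg]
  congr 1
  simp [triMap, Hyp.Tri.neg]

theorem cycMap_ee (P : Pts (fun _ : Unit => H)) :
    cycMap H σ hσ (ee P) = ee (ptsMap H σ hσ P) := by
  have h1 : ∀ Q : Pts (fun _ : Unit => H), cycMap H σ hσ (pt Q) = pt (ptsMap H σ hσ Q) := by
    intro Q
    show Finsupp.mapDomain (Multiset.map (ptsMap H σ hσ)) (Finsupp.single {Q} 1) = _
    rw [Finsupp.mapDomain_single, Multiset.map_singleton]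
    rfl
  have h2 : ptsMap H σ hσ (inv P) = inv (ptsMap H σ hσ P) := by
    show (⟨(), ptMap H σ hσ P.2.inv⟩ : Pts (fun _ : Unit => H)) = ⟨(), (ptMap H σ hσ P.2).inv⟩
    rw [ptMap_inv]
  unfold ee
  rw [map_sub, h1, h1, h2]

section transfer

omit [IsAlgClosed k] [CharZero k]

theorem Gal_hσ' (i : Fin (2 * n)) (j : Fin 2) (hσ : ∀ i j, σ (H.r i j) = H.r i j) :
    σ.symm (H.r i j) = H.r i j := by
  rw [RingEquiv.symm_apply_eq, hσ]

variable {K K' : Type} [Field K] [Algebra k K] [Field K'] [Algebra k K'] (e : K ≃+* K')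
  (he : ∀ a : k, e (algebraMap k K a) = algebraMap k K' (σ a))

include he

omit H in
theorem Gal_he' (a : k) : e.symm (algebraMap k K' a) = algebraMap k K (σ.symm a) := by
  rw [RingEquiv.symm_apply_eq, he, RingEquiv.apply_symm_apply]

omit H in
theorem Gal_adj (t x : K) (hx : x ∈ IntermediateField.adjoin k {t}) :
    e x ∈ IntermediateField.adjoin k {e t} := by
  induction hx using IntermediateField.adjoin_induction with
  | mem x hx =>
    rw [Set.mem_singleton_iff] at hx
    rw [hx]
    exact IntermediateField.mem_adjoin_simple_self k (e t)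
  | algebraMap a =>
    rw [he]
    exact IntermediateField.algebraMap_mem _ _
  | add x y _ _ h1 h2 => rw [map_add]; exact add_mem h1 h2
  | inv x _ h1 => rw [map_inv₀]; exact inv_mem h1
  | mul x y _ _ h1 h2 => rw [map_mul]; exact mul_mem h1 h2

omit H in
theorem Gal_ff (h : IsFunctionField k K) : IsFunctionField k K' := by
  obtain ⟨t, ht, hfin⟩ := h
  refine ⟨e t, ?_, ?_⟩
  · intro halg
    apply ht
    obtain ⟨p, hp, hp0⟩ := halg
    refine ⟨p.map (σ.symm : k →+* k), ?_, ?_⟩
    · exact (Polynomial.map_ne_zero_iff σ.symm.injective).2 hp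
    · have h1 : e (Polynomial.aeval t (p.map (σ.symm : k →+* k))) = Polynomial.aeval (e t) p := by
        rw [Polynomial.aeval_def, Polynomial.eval₂_map, Polynomial.aeval_def]
        have h2 := Polynomial.hom_eval₂ p ((algebraMap k K).comp (σ.symm : k →+* k))
          (e : K →+* K') t
        have h3 : (e : K →+* K').comp ((algebraMap k K).comp (σ.symm : k →+* k))
            = algebraMap k K' := by
          ext a
          show e (algebraMap k K (σ.symm a)) = algebraMap k K' a
          rw [he, RingEquiv.apply_symm_apply]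
        rw [h3] at h2
        exact h2
      rw [hp0] at h1
      exact (map_eq_zero_iff e e.injective).1 h1
  · let e₁ : IntermediateField.adjoin k {t} ≃+* IntermediateField.adjoin k {e t} :=
      { toFun := fun x => ⟨e x.1, Gal_adj σ e he t x.1 x.2⟩
        invFun := fun y => ⟨e.symm y.1, by
          have h1 := Gal_adj σ.symm e.symm (Gal_he' σ e he) (e t) y.1 y.2
          rwa [RingEquiv.symm_apply_apply] at h1⟩
        left_inv := fun x => Subtype.ext (e.symm_apply_apply x.1)
        right_inv := fun y => Subtype.ext (e.apply_symm_apply y.1)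
        map_mul' := fun x y => Subtype.ext (map_mul e x.1 y.1)
        map_add' := fun x y => Subtype.ext (map_add e x.1 y.1) }
    have h1 : RingHom.comp (algebraMap (IntermediateField.adjoin k {e t}) K') ↑e₁
        = RingHom.comp ↑e (algebraMap (IntermediateField.adjoin k {t}) K) := by
      ext x
      rfl
    exact Module.Finite.of_equiv_equiv e₁ e h1

/-- transport of a place -/
def Gal_place (w : Place k K) : Place k K' where
  v := w.v.comap (e.symm : K' →+* K)
  surj := by
    intro g
    obtain ⟨x, hx⟩ := w.surj g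
    refine ⟨e x, ?_⟩
    show w.v (e.symm (e x)) = g
    rw [RingEquiv.symm_apply_apply, hx]
  triv := by
    intro c hc
    show w.v (e.symm (algebraMap k K' c)) = 1
    rw [Gal_he' σ e he]
    exact w.triv _ ((map_ne_zero_iff σ.symm σ.symm.injective).2 hc)

omit H in
theorem Gal_place_v (w : Place k K) (x : K) : (Gal_place σ e he w).v (e x) = w.v x := by
  show w.v (e.symm (e x)) = w.v x
  rw [RingEquiv.symm_apply_apply]

omit H in
theorem Gal_place_ord (w : Place k K) (x : K) : (Gal_place σ e he w).ord (e x) = w.ord x := by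
  unfold Place.ord
  rw [Gal_place_v]

omit he in
theorem Gal_place_ext {w w' : Place k K} (h : ∀ x, w.v x = w'.v x) : w = w' := by
  obtain ⟨v, h1, h2⟩ := w
  obtain ⟨v', h1', h2'⟩ := w'
  have : v = v' := Valuation.ext h
  subst this
  rfl

/-- the bijection of the places -/
def Gal_places : Place k K ≃ Place k K' where
  toFun := Gal_place σ e he
  invFun := Gal_place σ.symm e.symm (Gal_he' σ e he)
  left_inv := fun w => Gal_place_ext fun x => by
    show w.v (e.symm (e.symm.symm x)) = w.v x
    rw [RingEquiv.symm_symm, RingEquiv.symm_apply_apply]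
  right_inv := fun w => Gal_place_ext fun x => by
    show w.v (e.symm.symm (e.symm x)) = w.v x
    rw [RingEquiv.symm_symm, RingEquiv.apply_symm_apply]

include hσ

theorem Gal_F (v : Fin 2 → K) : e (H.F v) = H.F (fun j => e (v j)) := by
  rw [Hyp.F, Hyp.F, map_prod]
  refine Finset.prod_congr rfl fun i _ => ?_
  simp only [dt, map_sub, map_mul, he, hσ]

/-- transport of coordinates -/
def Gal_tri (T : H.Tri K) : H.Tri K' where
  v := fun j => e (T.v j)
  y := e T.y
  ne := fun h => T.ne (funext fun j => by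
    have h1 := congrFun h j
    exact (map_eq_zero_iff e e.injective).1 h1)
  eq := by
    rw [← map_pow, T.eq, Gal_F H σ hσ e he]

end transfer

section points

omit [IsAlgClosed k]

theorem Gal_spec {K K' : Type} [Field K] [Algebra k K] [Field K'] [Algebra k K']
    (e : K ≃+* K') (he : ∀ a : k, e (algebraMap k K a) = algebraMap k K' (σ a))
    (w : Place k K) (T : H.Tri K) (p : H.Pt) (h : Spec w T p) :
    Spec (Gal_place σ e he w) (Gal_tri H σ hσ e he T) (ptMap H σ hσ p) := by
  obtain ⟨c, t, ht, h1, h2⟩ := h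
  refine ⟨e c, triMap H σ hσ t, ?_, ?_, ?_⟩
  · rw [← ht]
    rfl
  · intro j
    have e1 : e c * (Gal_tri H σ hσ e he T).v j - algebraMap k K' ((triMap H σ hσ t).v j)
        = e (c * T.v j - algebraMap k K (t.v j)) := by
      show e c * e (T.v j) - algebraMap k K' (σ (t.v j)) = _
      rw [map_sub, map_mul, he]
    rw [e1, Gal_place_v]
    exact h1 j
  · have e1 : e c ^ n * (Gal_tri H σ hσ e he T).y - algebraMap k K' (triMap H σ hσ t).y
        = e (c ^ n * T.y - algebraMap k K t.y) := by
      show e c ^ n * e T.y - algebraMap k K' (σ t.y) = _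
      rw [map_sub, map_mul, map_pow, he]
    rw [e1, Gal_place_v]
    exact h2

theorem Gal_pt_symm (hσ' : ∀ i j, σ.symm (H.r i j) = H.r i j) (P : H.Pt) :
    ptMap H σ.symm hσ' (ptMap H σ hσ P) = P := by
  obtain ⟨t, rfl⟩ := exists_mk' P
  show (triMap H σ.symm hσ' (triMap H σ hσ t)).mk' = t.mk'
  congr 1
  obtain ⟨v, y, h1, h2⟩ := t
  simp [triMap]

theorem Gal_pt_symm' (hσ' : ∀ i j, σ.symm (H.r i j) = H.r i j) (P : H.Pt) :
    ptMap H σ hσ (ptMap H σ.symm hσ' P) = P := by
  obtain ⟨t, rfl⟩ := exists_mk' P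
  show (triMap H σ hσ (triMap H σ.symm hσ' t)).mk' = t.mk'
  congr 1
  obtain ⟨v, y, h1, h2⟩ := t
  simp [triMap]

theorem Gal_pts_inj : Function.Injective (ptsMap H σ hσ) := by
  have hσ' : ∀ i j, σ.symm (H.r i j) = H.r i j := fun i j => Gal_hσ' H σ i j hσ
  have h : Function.LeftInverse (ptsMap H σ.symm hσ') (ptsMap H σ hσ) := by
    rintro ⟨⟨⟩, P⟩
    show (⟨(), ptMap H σ.symm hσ' (ptMap H σ hσ P)⟩ : Pts (fun _ : Unit => H)) = ⟨(), P⟩
    rw [Gal_pt_symm]
  exact h.injective

theorem Gal_pts_surj : Function.Surjective (ptsMap H σ hσ) := by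
  have hσ' : ∀ i j, σ.symm (H.r i j) = H.r i j := fun i j => Gal_hσ' H σ i j hσ
  have h : Function.RightInverse (ptsMap H σ.symm hσ') (ptsMap H σ hσ) := by
    rintro ⟨⟨⟩, P⟩
    show (⟨(), ptMap H σ hσ (ptMap H σ.symm hσ' P)⟩ : Pts (fun _ : Unit => H)) = ⟨(), P⟩
    rw [Gal_pt_symm']
  exact h.surjective

theorem Gal_spec_iff {K K' : Type} [Field K] [Algebra k K] [Field K'] [Algebra k K']
    (e : K ≃+* K') (he : ∀ a : k, e (algebraMap k K a) = algebraMap k K' (σ a))
    (w : Place k K) (T : H.Tri K) (p : H.Pt) :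
    Spec (Gal_place σ e he w) (Gal_tri H σ hσ e he T) (ptMap H σ hσ p) ↔ Spec w T p := by
  have hσ' : ∀ i j, σ.symm (H.r i j) = H.r i j := fun i j => Gal_hσ' H σ i j hσ
  constructor
  · intro h
    have h1 := Gal_spec H σ.symm hσ' e.symm (Gal_he' σ e he) _ _ _ h
    rw [Gal_pt_symm] at h1
    have h2 : Gal_place σ.symm e.symm (Gal_he' σ e he) (Gal_place σ e he w) = w :=
      (Gal_places σ e he).left_inv w
    have h3 : Gal_tri H σ.symm hσ' e.symm (Gal_he' σ e he) (Gal_tri H σ hσ e he T) = T := by
      obtain ⟨v, y, a, b⟩ := T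
      simp [Gal_tri]
    rw [h2, h3] at h1
    exact h1
  · exact Gal_spec H σ hσ e he w T p

theorem Gal_principal (c : Cyc (fun _ : Unit => H)) (hc : IsPrincipal (fun _ : Unit => H) c) :
    IsPrincipal (fun _ : Unit => H) (cycMap H σ hσ c) := by
  obtain ⟨K, fK, aK, hff, J, fJ, i, T, f, hf, hcs⟩ := hc
  -- the new algebra structure
  let aK' : Algebra k K := ((algebraMap k K).comp (σ.symm : k →+* k)).toAlgebra
  have he : ∀ a : k, (RingEquiv.refl K) (@algebraMap k K _ _ aK a)
      = @algebraMap k K _ _ aK' (σ a) := by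
    intro a
    show @algebraMap k K _ _ aK a = @algebraMap k K _ _ aK (σ.symm (σ a))
    rw [RingEquiv.symm_apply_apply]
  refine ⟨K, fK, aK', @Gal_ff k _ σ K K fK aK fK aK' (RingEquiv.refl K) he hff, J, fJ, i,
    fun j => @Gal_tri k _ n H σ hσ K K fK aK fK aK' (RingEquiv.refl K) he (T j), f, hf, ?_⟩
  intro s'
  obtain ⟨s, rfl⟩ := Multiset.map_surjective_of_surjective (Gal_pts_surj H σ hσ) s'
  have h1 : (cycMap H σ hσ c) (s.map (ptsMap H σ hσ)) = c s := by
    show Finsupp.mapDomain (Multiset.map (ptsMap H σ hσ)) c (s.map (ptsMap H σ hσ)) = c s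
    exact Finsupp.mapDomain_apply (Multiset.map_injective (Gal_pts_inj H σ hσ)) c s
  rw [h1, hcs s]
  rw [← finsum_comp_equiv (@Gal_places k _ σ K K fK aK fK aK' (RingEquiv.refl K) he)]
  refine finsum_congr fun w => ?_
  have h2 : @Place.ord k K _ fK aK' (@Gal_places k _ σ K K fK aK fK aK' (RingEquiv.refl K) he w) f
      = @Place.ord k K _ fK aK w f := @Gal_place_ord k _ σ K K fK aK fK aK' (RingEquiv.refl K) he w f
  rw [h2]
  refine finsum_congr_Prop ?_ fun _ => rfl
  apply propext
  constructor
  · rintro ⟨p, hp, rfl⟩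
    refine ⟨fun j => ptMap H σ hσ (p j), fun j => ?_, ?_⟩
    · exact @Gal_spec k _ _ n H σ hσ K K fK aK fK aK' (RingEquiv.refl K) he w (T j) (p j) (hp j)
    · rw [Multiset.map_map]
      rfl
  · rintro ⟨p', hp', hs⟩
    have hσ' : ∀ i j, σ.symm (H.r i j) = H.r i j := fun i j => Gal_hσ' H σ i j hσ
    refine ⟨fun j => ptMap H σ.symm hσ' (p' j), fun j => ?_, ?_⟩
    · rw [← @Gal_spec_iff k _ _ n H σ hσ K K fK aK fK aK' (RingEquiv.refl K) he w (T j)
        (ptMap H σ.symm hσ' (p' j)), Gal_pt_symm']
      exact hp' j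
    · apply Multiset.map_injective (Gal_pts_inj H σ hσ)
      rw [hs, Multiset.map_map]
      refine Multiset.map_congr rfl fun j _ => ?_
      show (⟨i j, p' j⟩ : Pts (fun _ : Unit => H))
        = ⟨(), ptMap H σ hσ (ptMap H σ.symm hσ' (p' j))⟩
      rw [Gal_pt_symm']

end points

theorem cyc_tors (c : Cyc (fun _ : Unit => H)) (hc : Tors (fun _ : Unit => H) c) :
    Tors (fun _ : Unit => H) (cycMap H σ hσ c) := by
  obtain ⟨N, hN, h⟩ := hc
  refine ⟨N, hN, ?_⟩
  rw [← map_nsmul]
  have h1 : HJ.ratZero (fun _ : Unit => H)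
      ≤ (HJ.ratZero (fun _ : Unit => H)).comap (cycMap H σ hσ) := by
    unfold HJ.ratZero
    rw [AddSubgroup.closure_le]
    intro c' hc'
    exact AddSubgroup.subset_closure (Gal_principal H σ hσ c' hc')
  exact h1 h

end HK
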