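import Pool.Agent.H95.HK.PhiB
import Pool.Agent.H95.HJ.SpecV
import Pool.Agent.H95.HJ.Fib
import Pool.Agent.H95.HJ.Defs3

/-!
Module PhiC (project HK, helper95).  The homomorphism from the zero-cycles to the class group of the affine curve y ^ 2 = ∏ (x - a_i).
PROOFS.
* cp_mk: two representatives (c v, c ^ 3 y) give the same x = v 0 / v 1, y / v 1 ^ 3.
* quint_F: F(v) = v 1 * ∏ (v 0 - a_i v 1) (the factor of (-1, 0) is - v 1, the five others are - (v 0 - a_i v 1)).  Fin.prod_univ_six or Fin.prod_univ_castSucc.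
  So a point with t.v 1 ≠ 0 has (y / v 1 ^ 3) ^ 2 = (FF a).eval (v 0 / v 1), and a point with v 1 = 0 has y = 0.
* cp_inv: cls_conj; for v 1 = 0 both are 1.
* phi_princ.  K, J, i, T, f.  If c s ≠ 0 then the finsum is not empty, so s = map over J has card s = card J.  If card J ≠ 1 then phi c = 0.  If J = {j}: for every
  place w let val_w be the value of T j (Spec.exists, Spec.unique); c {⟨(), p⟩} = Σᶠ_{w : val_w = p} ord_w f and phi c = Σᶠ_w ord_w f • ofMul (cp val_w), where only
  finitely many w have ord_w f ≠ 0 (deg_zero for f transcendental; for f algebraic over k, f ∈ k and ord = 0).  Let X = T.v 0 / T.v 1, Y = T.y / T.v 1 ^ 3.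
  (1) T.v 1 = 0: all values are at infinity (value (1, 0)): cp = 1.  (2) X algebraic over k: X, Y ∈ k (k algebraically closed), the value is constant p (spec_bc),
  the sum is (Σ_w ord_w f) • cp p = 0 by deg_zero (all ord are 0 for f ∈ k; otherwise the sum over zeros plus the sum over poles is N - N).
  (3) X transcendental: if w.v X ≤ 1 then Y is integral too, the value is (x, y, 1) with the residues x, y of X, Y (res_const), cp = cls a x y; if w.v X > 1 the value is
  infinite (v ≡ (1, 0) after scaling), cp = 1.  So the sum is the one of place_class.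
* phi_rat: closure induction.
-/

namespace HK

open Polynomial ZC HJ

variable {k : Type} [Field k] [IsAlgClosed k] [CharZero k] (a : Fin 5 → k)
  [ha : Fact (Function.Injective a)]

/-- The class of a point. -/
noncomputable def cp (p : (quint a ha.out).Pt) : ClassGroup (CR (FF (g := 2) a)) :=
  open scoped Classical in
  if (Quotient.out p).v 1 = 0 then 1
  else cls (g := 2) a ((Quotient.out p).v 0 / (Quotient.out p).v 1)
    ((Quotient.out p).y / (Quotient.out p).v 1 ^ 3)

/-- The homomorphism from the zero-cycles (on all symmetric powers) to the class group. -/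
noncomputable def phi :
    Cyc (fun _ : Unit => quint a ha.out) →+ Additive (ClassGroup (CR (FF (g := 2) a))) :=
  open scoped Classical in
  Finsupp.liftAddHom fun s => zmultiplesHom _ (Additive.ofMul
    (if Multiset.card s = 1 then (s.map fun P => cp a P.2).prod else 1))

theorem cp_mk (t : (quint a ha.out).Tri k) (h : t.v 1 ≠ 0) :
    cp a t.mk' = cls (g := 2) a (t.v 0 / t.v 1) (t.y / t.v 1 ^ 3) := by
  have h1 : Hyp.Tri.mk' (Quotient.out t.mk') = t.mk' := Quotient.out_eq t.mk'
  obtain ⟨c, hc, h2, h3⟩ := (mk'_eq_iff _ _).1 h1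
  have e0 : t.v 0 = c * (Quotient.out t.mk').v 0 := by rw [h2]; rfl
  have e1 : t.v 1 = c * (Quotient.out t.mk').v 1 := by rw [h2]; rfl
  have h4 : (Quotient.out t.mk').v 1 ≠ 0 := by
    intro h5
    apply h
    rw [e1, h5, mul_zero]
  unfold cp
  rw [if_neg h4, e0, e1, h3]
  have h6 : c * (Quotient.out t.mk').v 0 / (c * (Quotient.out t.mk').v 1) =
      (Quotient.out t.mk').v 0 / (Quotient.out t.mk').v 1 := mul_div_mul_left _ _ hc
  have h7 : c ^ 3 * (Quotient.out t.mk').y / (c * (Quotient.out t.mk').v 1) ^ 3 =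
      (Quotient.out t.mk').y / (Quotient.out t.mk').v 1 ^ 3 := by
    rw [mul_pow]
    exact mul_div_mul_left _ _ (pow_ne_zero 3 hc)
  rw [h6, h7]

private theorem phc_inf (t : (quint a ha.out).Tri k) (h : t.v 1 = 0) : cp a t.mk' = 1 := by
  have h1 : Hyp.Tri.mk' (Quotient.out t.mk') = t.mk' := Quotient.out_eq t.mk'
  obtain ⟨c, hc, h2, h3⟩ := (mk'_eq_iff _ _).1 h1
  have e1 : t.v 1 = c * (Quotient.out t.mk').v 1 := by rw [h2]; rfl
  have h4 : (Quotient.out t.mk').v 1 = 0 := by
    rw [h] at e1
    exact (mul_eq_zero.1 e1.symm).resolve_left hc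
  unfold cp
  rw [if_pos h4]

theorem quint_F {L : Type} [Field L] [Algebra k L] (v : Fin 2 → L) :
    (quint a ha.out).F v = v 1 * ∏ i, (v 0 - algebraMap k L (a i) * v 1) := by
  have h1 : (quint a ha.out).F v = ∏ i : Fin (5 + 1),
      dt (fun j => algebraMap k L ((quint a ha.out).r i j)) v := rfl
  have h2 : ∀ i : Fin 5, dt (fun j => algebraMap k L ((quint a ha.out).r i.castSucc j)) v =
      (-1) * (v 0 - algebraMap k L (a i) * v 1) := by
    intro i
    have h3 : (quint a ha.out).r i.castSucc = ![a i, 1] := by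
      have h4 : ((i.castSucc : Fin 6) : ℕ) < 5 := i.2
      exact dif_pos h4
    have h5 : ((quint a ha.out).r i.castSucc) 0 = a i := by rw [h3]; rfl
    have h6 : ((quint a ha.out).r i.castSucc) 1 = 1 := by rw [h3]; rfl
    unfold dt
    simp only []
    rw [h5, h6, map_one]
    ring
  have h3 : dt (fun j => algebraMap k L ((quint a ha.out).r (Fin.last 5) j)) v = - v 1 := by
    have h3 : (quint a ha.out).r (Fin.last 5) = ![-1, 0] := by
      simp [quint]
    have h5 : ((quint a ha.out).r (Fin.last 5)) 0 = -1 := by rw [h3]; rfl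
    have h6 : ((quint a ha.out).r (Fin.last 5)) 1 = 0 := by rw [h3]; rfl
    unfold dt
    simp only []
    rw [h5, h6, map_zero, map_neg, map_one]
    ring
  rw [h1, Fin.prod_univ_castSucc, Finset.prod_congr rfl fun i _ => h2 i, h3,
    Finset.prod_mul_distrib, Finset.prod_const, Finset.card_univ, Fintype.card_fin]
  ring

private theorem phc_eq {L : Type} [Field L] [Algebra k L] (t : (quint a ha.out).Tri L)
    (h : t.v 1 ≠ 0) :
    (t.y / t.v 1 ^ 3) ^ 2 = aeval (t.v 0 / t.v 1) (FF (g := 2) a) := by
  have h1 := t.eq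
  rw [quint_F] at h1
  have h2 : aeval (t.v 0 / t.v 1) (FF (g := 2) a) =
      ∏ i : Fin 5, (t.v 0 / t.v 1 - algebraMap k L (a i)) := by
    unfold FF
    rw [map_prod]
    refine Finset.prod_congr rfl fun i _ => ?_
    rw [map_sub, aeval_X, aeval_C]
  have h3 : ∏ i : Fin 5, (t.v 0 / t.v 1 - algebraMap k L (a i)) =
      (∏ i : Fin 5, (t.v 0 - algebraMap k L (a i) * t.v 1)) / t.v 1 ^ 5 := by
    have h4 : t.v 1 ^ 5 = ∏ _i : Fin 5, t.v 1 := by
      rw [Finset.prod_const, Finset.card_univ, Fintype.card_fin]
    rw [h4, ← Finset.prod_div_distrib]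
    refine Finset.prod_congr rfl fun i _ => ?_
    rw [sub_div, mul_div_cancel_right₀ _ h]
  rw [h2, h3, div_pow, h1]
  field_simp

theorem quint_eq (t : (quint a ha.out).Tri k) (h : t.v 1 ≠ 0) :
    (t.y / t.v 1 ^ 3) ^ 2 = (FF (g := 2) a).eval (t.v 0 / t.v 1) := by
  rw [phc_eq a t h, coe_aeval_eq_eval]

theorem cp_inv (p : (quint a ha.out).Pt) : cp a p * cp a p.inv = 1 := by
  obtain ⟨t, rfl⟩ := exists_mk' p
  rw [← mk'_neg]
  by_cases h : t.v 1 = 0
  · rw [phc_inf a t h, phc_inf a t.neg h, mul_one]
  · have h1 := cp_mk a t.neg h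
    have h2 : t.neg.v = t.v := rfl
    have h3 : t.neg.y = - t.y := rfl
    rw [h2, h3, neg_div] at h1
    rw [cp_mk a t h, h1]
    exact cls_conj (g := 2) a (quint_eq a t h)

theorem phi_pt (P : Pts (fun _ : Unit => quint a ha.out)) :
    phi a (pt P) = Additive.ofMul (cp a P.2) := by
  unfold phi pt
  rw [Finsupp.liftAddHom_apply_single, zmultiplesHom_apply, one_zsmul,
    if_pos (Multiset.card_singleton _), Multiset.map_singleton, Multiset.prod_singleton]

theorem phi_ee (P : Pts (fun _ : Unit => quint a ha.out)) :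
    phi a (ee P) = (2 : ℤ) • Additive.ofMul (cp a P.2) := by
  unfold ee
  rw [map_sub, phi_pt, phi_pt]
  have h1 : (inv P).2 = (show (quint a ha.out).Pt from P.2).inv := rfl
  have h2 := cp_inv a (show (quint a ha.out).Pt from P.2)
  have h3 : cp a (inv P).2 = (cp a P.2)⁻¹ := by
    rw [h1]
    exact eq_inv_of_mul_eq_one_right h2
  rw [h3, ofMul_inv, sub_neg_eq_add, two_zsmul]

private theorem phc_alg {K : Type} [Field K] [Algebra k K] (X : K) (hX : ¬ Transcendental k X) :
    ∃ x : k, X = algebraMap k K x := by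
  rw [transcendental_iff] at hX
  push Not at hX
  obtain ⟨P, hP, hP0⟩ := hX
  have hs := IsAlgClosed.splits P
  rw [hs.eq_prod_roots, map_mul, Polynomial.aeval_C, map_multiset_prod, Multiset.map_map] at hP
  rcases mul_eq_zero.1 hP with h | h
  · exfalso
    apply hP0
    rw [← Polynomial.leadingCoeff_eq_zero]
    exact (map_eq_zero (algebraMap k K)).1 h
  · rw [Multiset.prod_eq_zero_iff, Multiset.mem_map] at h
    obtain ⟨r, -, hr⟩ := h
    refine ⟨r, ?_⟩
    simp only [Function.comp_apply, map_sub, Polynomial.aeval_X, Polynomial.aeval_C] at hr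
    exact sub_eq_zero.1 hr

private theorem phc_const_le {K : Type} [Field K] [Algebra k K] (w : Place k K) (x : k) :
    w.v (algebraMap k K x) ≤ 1 := by
  by_cases hx : x = 0
  · subst hx; simp
  · rw [w.triv x hx]

private theorem phc_le {K : Type} [Field K] [Algebra k K] (w : Place k K) {X : K} {x : k}
    (h : w.v (X - algebraMap k K x) < 1) : w.v X ≤ 1 := by
  have : X = (X - algebraMap k K x) + algebraMap k K x := by ring
  rw [this]
  exact (Valuation.map_add _ _ _).trans (max_le h.le (phc_const_le w x))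

/-- If the second coordinate of the value is not zero then `X / Z` is regular at the place. -/
private theorem phc_fin {K : Type} [Field K] [Algebra k K] (w : Place k K)
    (T : (quint a ha.out).Tri K) (p : (quint a ha.out).Pt) (h : Spec w T p)
    (h1 : T.v 1 = 0 ∨ 1 < w.v (T.v 0 / T.v 1)) : cp a p = 1 := by
  obtain ⟨c, t, rfl, h2, h3⟩ := h
  apply phc_inf a t
  by_contra h4
  have h5 := h2 1
  rcases h1 with h1 | h1
  · rw [h1, mul_zero, zero_sub, Valuation.map_neg, w.triv _ h4] at h5
    exact lt_irrefl _ h5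
  · have h6 : w.v (c * T.v 1) = 1 := by
      have h7 : c * T.v 1 = (c * T.v 1 - algebraMap k K (t.v 1)) + algebraMap k K (t.v 1) := by
        ring
      rw [h7, Valuation.map_add_eq_of_lt_right _ (by rw [w.triv _ h4]; exact h5), w.triv _ h4]
    have h7 : w.v (c * T.v 0) ≤ 1 := phc_le w (h2 0)
    have h8 : T.v 0 / T.v 1 = (c * T.v 0) / (c * T.v 1) := by
      have hc : c ≠ 0 := by
        rintro rfl
        rw [zero_mul, map_zero] at h6
        exact zero_ne_one h6
      rw [mul_div_mul_left _ _ hc]
    rw [h8, map_div₀, h6, div_one] at h1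
    exact absurd h7 (not_le.2 h1)

private theorem phc_ord {K : Type} [Field K] [Algebra k K] (hK : IsFunctionField k K) (f : K)
    (hf : f ≠ 0) : ∃ S : Finset (Place k K), (∀ w, w ∉ S → w.ord f = 0) ∧
      ∑ w ∈ S, w.ord f = 0 := by
  by_cases ht : Transcendental k f
  · obtain ⟨N, hN, f0, f1, s0, s1⟩ := deg_zero hK f ht
    set A0 : Finset (Place k K) := f0.toFinset with hA0
    set A1 : Finset (Place k K) := f1.toFinset with hA1
    have m0 : ∀ w, w ∈ A0 ↔ w.v f < 1 := fun w => by
      rw [hA0, Set.Finite.mem_toFinset]; rfl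
    have m1 : ∀ w, w ∈ A1 ↔ 1 < w.v f := fun w => by
      rw [hA1, Set.Finite.mem_toFinset]; rfl
    have hdis : Disjoint A0 A1 := by
      rw [Finset.disjoint_left]
      intro w h h'
      rw [m0] at h
      rw [m1] at h'
      exact lt_asymm h h'
    classical
    refine ⟨A0 ∪ A1, fun w hw => ?_, ?_⟩
    · rw [Finset.mem_union, m0, m1, not_or, not_lt, not_lt] at hw
      have h1 : w.v f = 1 := le_antisymm hw.2 hw.1
      unfold Place.ord
      rw [h1, WithZero.log_one, neg_zero]
    · have t0 : ∑ w ∈ A0, w.ord f = (N : ℤ) := by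
        rw [← s0]
        exact (finsum_mem_eq_finite_toFinset_sum (fun w : Place k K => w.ord f) f0).symm
      have t1 : ∑ w ∈ A1, w.ord f = -(N : ℤ) := by
        rw [← s1]
        exact (finsum_mem_eq_finite_toFinset_sum (fun w : Place k K => w.ord f) f1).symm
      rw [Finset.sum_union hdis, t0, t1, add_neg_cancel]
  · obtain ⟨x, rfl⟩ := phc_alg f ht
    refine ⟨∅, fun w _ => ?_, Finset.sum_empty⟩
    have hx : x ≠ 0 := by
      rintro rfl
      exact hf (map_zero _)
    unfold Place.ord
    rw [w.triv x hx, WithZero.log_one, neg_zero]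

private theorem phc_main {K : Type} [Field K] [Algebra k K] (hK : IsFunctionField k K) (f : K)
    (hf : f ≠ 0) (T : (quint a ha.out).Tri K) (val : Place k K → (quint a ha.out).Pt)
    (hval : ∀ w, Spec w T (val w)) (S : Finset (Place k K)) (hS : ∀ w, w ∉ S → w.ord f = 0)
    (hS0 : ∑ w ∈ S, w.ord f = 0) :
    ∑ w ∈ S, w.ord f • Additive.ofMul (cp a (val w)) = 0 := by
  by_cases h1 : T.v 1 = 0
  · refine Finset.sum_eq_zero fun w _ => ?_
    rw [phc_fin a w T _ (hval w) (Or.inl h1), ofMul_one, smul_zero]
  set X : K := T.v 0 / T.v 1 with hXd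
  set Y : K := T.y / T.v 1 ^ 3 with hYd
  have hXY : Y ^ 2 = aeval X (FF (g := 2) a) := phc_eq a T h1
  have e0 : (T.v 1)⁻¹ * T.v 0 = X := by rw [hXd, div_eq_inv_mul]
  have e1 : (T.v 1)⁻¹ * T.v 1 = 1 := inv_mul_cancel₀ h1
  have e2 : ((T.v 1)⁻¹) ^ 3 * T.y = Y := by rw [hYd, div_eq_inv_mul, inv_pow]
  by_cases hX : Transcendental k X
  · -- the point is not constant
    have key : ∀ w : Place k K, w.v X ≤ 1 → ∃ xy : k × k,
        (w.v (X - algebraMap k K xy.1) < 1 ∧ w.v (Y - algebraMap k K xy.2) < 1) ∧
        cp a (val w) = cls (g := 2) a xy.1 xy.2 := by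
      intro w hw
      obtain ⟨x, hx⟩ := res_const hK w X hw
      have hne : (![x, 1] : Fin 2 → k) ≠ 0 := by
        intro h
        have := congrFun h 1
        exact one_ne_zero this
      have hcong : Cong w ((T.v 1)⁻¹ • T.v) ![x, 1] := by
        intro j
        fin_cases j
        · change w.v ((T.v 1)⁻¹ * T.v 0 - algebraMap k K x) < 1
          rw [e0]
          exact hx
        · change w.v ((T.v 1)⁻¹ * T.v 1 - algebraMap k K 1) < 1
          rw [e1, map_one, sub_self, map_zero]
          exact zero_lt_one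
      obtain ⟨t, ht1, ht2, ht3⟩ := spec_lift hK w T (T.v 1)⁻¹ ![x, 1] hne hcong
      rw [e2] at ht2
      have h2 : val w = t.mk' := Spec.unique hK w T (hval w) ht3
      have t0 : t.v 0 = x := by rw [ht1]; rfl
      have t1 : t.v 1 = 1 := by rw [ht1]; rfl
      refine ⟨(x, t.y), ⟨hx, ht2⟩, ?_⟩
      have t2 : t.v 1 ≠ 0 := by rw [t1]; exact one_ne_zero
      rw [h2, cp_mk a t t2, t0, t1, div_one, one_pow, div_one]
    classical
    let val' : Place k K → k × k := fun w => if h : w.v X ≤ 1 then (key w h).choose else (0, 0)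
    have hval' : ∀ w (h : w.v X ≤ 1), val' w = (key w h).choose := fun w h => dif_pos h
    obtain ⟨-, hsum⟩ := place_class (g := 2) a hK X Y hX hXY f hf val' (by
      intro w hw
      rw [hval' w hw]
      exact (key w hw).choose_spec.1)
    rw [← hsum]
    have h3 : ∀ w : Place k K, (∑ᶠ (_ : w.v X ≤ 1),
        w.ord f • Additive.ofMul (cls (g := 2) a (val' w).1 (val' w).2)) =
        w.ord f • Additive.ofMul (cp a (val w)) := by
      intro w
      by_cases hw : w.v X ≤ 1
      · rw [finsum_eq_if, if_pos hw, (key w hw).choose_spec.2, hval' w hw]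
      · rw [finsum_eq_if, if_neg hw, phc_fin a w T _ (hval w) (Or.inr (not_le.1 hw)), ofMul_one,
          smul_zero]
    rw [finsum_congr h3, finsum_eq_sum_of_support_subset (s := S)]
    intro w hw
    rw [Function.mem_support] at hw
    by_contra h2
    apply hw
    rw [hS w h2, zero_smul]
  · -- the point is constant
    obtain ⟨x, hx⟩ := phc_alg X hX
    have hY2 : ¬ Transcendental k Y := by
      intro hY
      have h2 : Transcendental k (Y ^ 2) := hY.pow two_pos
      apply h2
      rw [hXY, hx]
      rw [aeval_algebraMap_apply]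
      exact isAlgebraic_algebraMap _
    obtain ⟨y, hy⟩ := phc_alg Y hY2
    have hne : (![x, 1] : Fin 2 → k) ≠ 0 := by
      intro h
      have := congrFun h 1
      exact one_ne_zero this
    have heq : y ^ 2 = (quint a ha.out).F (![x, 1] : Fin 2 → k) := by
      rw [quint_F]
      change y ^ 2 = 1 * ∏ i, (x - algebraMap k k (a i) * 1)
      rw [hx, hy, aeval_algebraMap_apply, ← map_pow] at hXY
      have h2 := (algebraMap k K).injective hXY
      rw [h2, one_mul, coe_aeval_eq_eval]
      unfold FF
      rw [eval_prod]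
      refine Finset.prod_congr rfl fun i _ => ?_
      rw [eval_sub, eval_X, eval_C, mul_one]
      rfl
    let t : (quint a ha.out).Tri k := ⟨![x, 1], y, hne, heq⟩
    have h2 : ∀ w : Place k K, val w = t.mk' := by
      intro w
      refine Spec.unique hK w T (hval w) ⟨(T.v 1)⁻¹, t, rfl, ?_, ?_⟩
      · intro j
        fin_cases j
        · change w.v ((T.v 1)⁻¹ * T.v 0 - algebraMap k K x) < 1
          rw [e0, hx, sub_self, map_zero]
          exact zero_lt_one
        · change w.v ((T.v 1)⁻¹ * T.v 1 - algebraMap k K 1) < 1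
          rw [e1, map_one, sub_self, map_zero]
          exact zero_lt_one
      · change w.v (((T.v 1)⁻¹) ^ 3 * T.y - algebraMap k K y) < 1
        rw [e2, hy, sub_self, map_zero]
        exact zero_lt_one
    simp only [h2]
    rw [← Finset.sum_smul, hS0, zero_smul]

theorem phi_princ (c : Cyc (fun _ : Unit => quint a ha.out))
    (hc : IsPrincipal (fun _ : Unit => quint a ha.out) c) : phi a c = 0 := by
  classical
  obtain ⟨K, _, _, hK, J, _, i, T, f, hf, hcs⟩ := hc
  obtain ⟨S, hS, hS0⟩ := phc_ord hK f hf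
  choose P hP using fun (w : Place k K) (j : J) => Spec.exists hK w (T j)
  let x : Place k K → Multiset (Pts (fun _ : Unit => quint a ha.out)) := fun w =>
    (Finset.univ : Finset J).val.map
      (fun j => (⟨i j, P w j⟩ : Pts (fun _ : Unit => quint a ha.out)))
  have hx : ∀ w s, (∃ p : ∀ j, ((fun _ : Unit => quint a ha.out) (i j)).Pt,
      (∀ j, Spec w (T j) (p j)) ∧ s = (Finset.univ : Finset J).val.map
        (fun j => (⟨i j, p j⟩ : Pts (fun _ : Unit => quint a ha.out)))) ↔ x w = s := by
    intro w s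
    constructor
    · rintro ⟨p, hp, rfl⟩
      have h1 : p = P w := funext fun j => Spec.unique hK w (T j) (hp j) (hP w j)
      rw [h1]
    · rintro rfl
      exact ⟨P w, hP w, rfl⟩
  have hD : c = ∑ w ∈ S, Finsupp.single (x w) (w.ord f) := by
    ext s
    rw [hcs s]
    have h1 : ∀ w : Place k K, (∑ᶠ (_ : ∃ p : ∀ j, ((fun _ : Unit => quint a ha.out) (i j)).Pt,
        (∀ j, Spec w (T j) (p j)) ∧ s = (Finset.univ : Finset J).val.map
        (fun j => (⟨i j, p j⟩ : Pts (fun _ : Unit => quint a ha.out)))), w.ord f) =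
        if x w = s then w.ord f else 0 := by
      intro w
      rw [finsum_eq_if]
      by_cases h2 : x w = s
      · rw [if_pos h2, if_pos ((hx w s).2 h2)]
      · rw [if_neg h2, if_neg fun h3 => h2 ((hx w s).1 h3)]
    rw [finsum_congr h1, finsum_eq_sum_of_support_subset (s := S)]
    · rw [Finsupp.finsetSum_apply]
      refine Finset.sum_congr rfl fun w _ => ?_
      rw [Finsupp.single_apply]
    · intro w hw
      rw [Function.mem_support] at hw
      by_contra h2
      apply hw
      rw [hS w h2]
      split_ifs <;> rfl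
  have h3 : phi a c = ∑ w ∈ S, w.ord f • Additive.ofMul
      (if Multiset.card (x w) = 1 then ((x w).map fun P => cp a P.2).prod else 1) := by
    rw [hD, map_sum]
    refine Finset.sum_congr rfl fun w _ => ?_
    unfold phi
    rw [Finsupp.liftAddHom_apply_single, zmultiplesHom_apply]
  rw [h3]
  have hcard : ∀ w, Multiset.card (x w) = Fintype.card J := by
    intro w
    change Multiset.card (Multiset.map _ _) = _
    rw [Multiset.card_map]
    rfl
  by_cases hJ : Fintype.card J = 1
  · obtain ⟨j, hj⟩ := Fintype.card_eq_one_iff.1 hJ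
    have huniv : (Finset.univ : Finset J) = {j} := by
      ext y
      simp [hj y]
    have h4 : ∀ w, x w = {(⟨i j, P w j⟩ : Pts (fun _ : Unit => quint a ha.out))} := by
      intro w
      change Multiset.map _ _ = _
      rw [huniv, Finset.singleton_val, Multiset.map_singleton]
    have h5 := phc_main a hK f hf (T j) (fun w => P w j) (fun w => hP w j) S hS hS0
    rw [← h5]
    refine Finset.sum_congr rfl fun w _ => ?_
    rw [if_pos ((hcard w).trans hJ), h4, Multiset.map_singleton, Multiset.prod_singleton]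
  · refine Finset.sum_eq_zero fun w _ => ?_
    rw [if_neg (by rw [hcard]; exact hJ), ofMul_one, smul_zero]

theorem phi_rat (c : Cyc (fun _ : Unit => quint a ha.out))
    (hc : c ∈ ratZero (fun _ : Unit => quint a ha.out)) : phi a c = 0 := by
  unfold HJ.ratZero at hc
  induction hc using AddSubgroup.closure_induction with
  | mem x hx => exact phi_princ a x hx
  | zero => exact map_zero _
  | add x y _ _ hx hy => rw [map_add, hx, hy, add_zero]
  | neg x _ hx => rw [map_neg, hx, neg_zero]

end HK
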