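import Pool.Agent.H95.HK.TA2

/-!
Module TB2 (project HK, helper95).  Sums of points near different Weierstrass points at two residue characteristics are not torsion (generalises module TB).
PROOFS.
* descent2.  Choose I₀ ⊇ I₁ with |I₀| = g (|I₁| ≤ g ≤ 2 g + 1, Finset.exists_superset_card_eq).  rep_class2 for M; by cls_conj
  cls a (t i) (-y i) = (cls a (t i) (y i))⁻¹, and (cls a (a i) 0) ^ 2 = 1.  The hypothesis gives, after raising to the power 2 N₁,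
  (∏_{I₀} cls (t' i) (y' i)) ^ (2 N₁) = 1.  Let I = {i ∈ I₀ | t' i ≠ a i}; for i ∈ I₀ \ I: y' i = 0 and cls ^ 2 = 1.  So (∏_I cls (t' i) (y' i)) ^ (2 N₁) = 1;
  coprime_of_principal with m = 2 N₁ and gl_core (N = N₁) give I = ∅.  So (∏_{I₁} cls (t i) (-y i)) ^ (2 M) = (∏_{I₀} cls (a i) 0 ^ 2)⁻¹ = 1.
* not_torsion2.  Suppose (∏ cls) ^ N = 1, so (∏ cls) ^ (2 N) = 1.  N = p ^ α N₁ with p ∤ N₁, so v N₁ = 1 (r N₁ + s p = 1 and v p < 1).  descent2 for v: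
  (∏ cls) ^ (2 p ^ α) = 1; descent2 for v' with M = 1 and N₁ = p ^ α (v' p = 1 because r p + s q = 1): (∏ cls) ^ 2 = 1.  coprime_of_principal with m = 2 and gl_core with N = 1
  (v 1 = 1) give I₁ = ∅, a contradiction.
-/

namespace HK

open Polynomial

variable {K : Type*} [Field K] [IsAlgClosed K] [CharZero K] {g : ℕ} (a : Fin (2 * g + 1) → K)
  [Fact (Function.Injective a)] {Γ : Type*} [LinearOrderedCommGroupWithZero Γ] (v : Valuation K Γ)

private theorem tb2_grp {G : Type*} [CommGroup G] {x : G} (h : x * x = 1) : x ^ 2 = 1 := by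
  rw [sq, h]

private theorem tb2_grp2 {G : Type*} [CommGroup G] {A B D : G} {M N₁ : ℕ} (hB : B ^ 2 = 1)
    (hBD : A⁻¹ ^ (2 * M) * B * D = 1) (h : A ^ (2 * M * N₁) = 1) : D ^ (2 * N₁) = 1 := by
  have hD : D = A ^ (2 * M) * B⁻¹ := by
    have h3 : D = (A⁻¹ ^ (2 * M) * B)⁻¹ := (inv_eq_of_mul_eq_one_right hBD).symm
    rw [h3, mul_inv, inv_pow, inv_inv]
  rw [hD, mul_pow, ← pow_mul, inv_pow, pow_mul B, hB, one_pow, inv_one, mul_one,
    show 2 * M * (2 * N₁) = 2 * M * N₁ * 2 by ring, pow_mul, h, one_pow]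

private theorem tb2_grp3 {G : Type*} [CommGroup G] {A B : G} {m : ℕ} (hB : B ^ 2 = 1)
    (hBD : A⁻¹ ^ m * B * B = 1) : A ^ m = 1 := by
  rw [mul_assoc, ← sq, hB, mul_one, inv_pow, inv_eq_one] at hBD
  exact hBD

private theorem tb2_grp4 {G : Type*} [CommGroup G] {D I J : G} {n : ℕ} (h : I * J = D)
    (hJ : J ^ 2 = 1) (hD : D ^ (2 * n) = 1) : I ^ (2 * n) = 1 := by
  have h1 : I ^ 2 = D ^ 2 := by rw [← h, mul_pow, hJ, mul_one]
  rw [pow_mul, h1, ← pow_mul, hD]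

private theorem tb2_grp5 {G : Type*} [CommGroup G] {D : G} {q n N : ℕ} (hN : N = q * n)
    (hD : D ^ N = 1) : D ^ (2 * q * n) = 1 := by
  rw [mul_assoc, ← hN, mul_comm, pow_mul, hD, one_pow]

omit [IsAlgClosed K] [CharZero K] [Fact (Function.Injective a)] in
private theorem tb2_FF (i : Fin (2 * g + 1)) : (FF a).eval (a i) = 0 := by
  unfold FF
  rw [eval_prod]
  exact Finset.prod_eq_zero (Finset.mem_univ i) (by simp)

private theorem tb2_sq {x : K} (hx : (FF a).eval x = 0) : cls a x 0 ^ 2 = 1 := by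
  have h := cls_conj a (x := x) (y := 0) (by rw [hx]; ring)
  rw [neg_zero] at h
  exact tb2_grp h

omit [IsAlgClosed K] [CharZero K] in
private theorem tb2_val {Γ' : Type*} [LinearOrderedCommGroupWithZero Γ'] (w : Valuation K Γ')
    {p n : ℕ} (hw : w (p : K) < 1) (h : p.Coprime n) : w (n : K) = 1 := by
  obtain ⟨r, s, hrs⟩ := Nat.isCoprime_iff_coprime.2 h
  have hle : ∀ z : ℤ, w (z : K) ≤ 1 := fun z => intCast_mem w.integer z
  have hn : w (n : K) ≤ 1 := by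
    have := hle (n : ℤ)
    rwa [Int.cast_natCast] at this
  refine le_antisymm hn ?_
  by_contra hlt
  rw [not_le] at hlt
  have h1 : (r : K) * p + (s : K) * n = 1 := by exact_mod_cast congrArg (Int.cast : ℤ → K) hrs
  have h2 : w ((r : K) * p + (s : K) * n) < 1 := by
    refine (w.map_add _ _).trans_lt (max_lt ?_ ?_)
    · rw [map_mul]
      calc w (r : K) * w (p : K) ≤ 1 * w (p : K) := mul_le_mul' (hle r) le_rfl
        _ = w (p : K) := one_mul _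
        _ < 1 := hw
    · rw [map_mul]
      calc w (s : K) * w (n : K) ≤ 1 * w (n : K) := mul_le_mul' (hle s) le_rfl
        _ = w (n : K) := one_mul _
        _ < 1 := hlt
  rw [h1, map_one] at h2
  exact lt_irrefl _ h2

theorem descent2 (h2 : v 2 = 1) (ha : ∀ i, v (a i) ≤ 1)
    (hd : ∀ i j, i ≠ j → v (a i - a j) = 1) (I₁ : Finset (Fin (2 * g + 1))) (hI₁ : I₁.card ≤ g)
    (t y : Fin (2 * g + 1) → K) (hy : ∀ i ∈ I₁, y i ^ 2 = (FF a).eval (t i))
    (ht : ∀ i ∈ I₁, v (t i - a i) < 1) (hne : ∀ i ∈ I₁, t i ≠ a i) (M N₁ : ℕ)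
    (hN : v (N₁ : K) = 1) (h : (∏ i ∈ I₁, cls a (t i) (y i)) ^ (2 * M * N₁) = 1) :
    (∏ i ∈ I₁, cls a (t i) (y i)) ^ (2 * M) = 1 := by
  classical
  obtain ⟨I₀, hsub, hI₀⟩ : ∃ I₀ : Finset (Fin (2 * g + 1)), I₁ ⊆ I₀ ∧ I₀.card = g := by
    obtain ⟨I₀, h3, h4⟩ := Finset.exists_superset_card_eq hI₁
      (by rw [Fintype.card_fin]; omega)
    exact ⟨I₀, h3, h4⟩
  obtain ⟨t', y', h1, hprod⟩ := rep_class2 a v ha hd I₀ I₁ hI₀ hsub t y hy ht hne M
  have hinv : ∏ i ∈ I₁, cls a (t i) (-y i) = (∏ i ∈ I₁, cls a (t i) (y i))⁻¹ := by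
    rw [← Finset.prod_inv_distrib]
    refine Finset.prod_congr rfl fun i hi => ?_
    exact (inv_eq_of_mul_eq_one_right (cls_conj a (hy i hi))).symm
  have hB : (∏ i ∈ I₀, cls a (a i) 0) ^ 2 = 1 := by
    rw [← Finset.prod_pow]
    exact Finset.prod_eq_one fun i _ => tb2_sq a (tb2_FF a i)
  rw [hinv] at hprod
  have hDN := tb2_grp2 hB hprod h
  have h4 : (∏ i ∈ I₀.filter (fun i => ¬ t' i ≠ a i), cls a (t' i) (y' i)) ^ 2 = 1 := by
    rw [← Finset.prod_pow]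
    refine Finset.prod_eq_one fun i hi => ?_
    rw [Finset.mem_filter, not_not] at hi
    have h5 := (h1 i hi.1).1
    rw [hi.2, tb2_FF] at h5
    have h6 : y' i = 0 := (pow_eq_zero_iff two_ne_zero).1 h5
    rw [hi.2, h6]
    exact tb2_sq a (tb2_FF a i)
  have hI := tb2_grp4 (Finset.prod_filter_mul_prod_filter_not I₀ (fun i => t' i ≠ a i)
    (fun i => cls a (t' i) (y' i))) h4 hDN
  have hempty : I₀.filter (fun i => t' i ≠ a i) = ∅ := by
    have hy' : ∀ i ∈ I₀.filter (fun i => t' i ≠ a i), y' i ^ 2 = (FF a).eval (t' i) :=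
      fun i hi => (h1 i (Finset.mem_filter.1 hi).1).1
    have ht' : ∀ i ∈ I₀.filter (fun i => t' i ≠ a i), v (t' i - a i) < 1 :=
      fun i hi => (h1 i (Finset.mem_filter.1 hi).1).2
    have hne' : ∀ i ∈ I₀.filter (fun i => t' i ≠ a i), t' i ≠ a i :=
      fun i hi => (Finset.mem_filter.1 hi).2
    obtain ⟨u, w, hc, he⟩ := coprime_of_principal a v ha hd _ t' y' hy' ht' hne' (2 * N₁) hI
    exact gl_core v a h2 ha hd _ ((Finset.card_filter_le _ _).trans hI₀.le) t' ht' hne' N₁ hN u w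
      hc he
  have hDB : ∏ i ∈ I₀, cls a (t' i) (y' i) = ∏ i ∈ I₀, cls a (a i) 0 := by
    refine Finset.prod_congr rfl fun i hi => ?_
    have h3 : t' i = a i := by
      by_contra h4
      have h5 : i ∈ I₀.filter (fun i => t' i ≠ a i) := Finset.mem_filter.2 ⟨hi, h4⟩
      rw [hempty] at h5
      exact Finset.notMem_empty _ h5
    have h5 := (h1 i hi).1
    rw [h3, tb2_FF] at h5
    have h6 : y' i = 0 := (pow_eq_zero_iff two_ne_zero).1 h5
    rw [h3, h6]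
  rw [hDB] at hprod
  exact tb2_grp3 hB hprod

theorem not_torsion2 {Γ' : Type*} [LinearOrderedCommGroupWithZero Γ'] (v' : Valuation K Γ')
    (h2 : v 2 = 1) (ha : ∀ i, v (a i) ≤ 1) (hd : ∀ i j, i ≠ j → v (a i - a j) = 1)
    (h2' : v' 2 = 1) (ha' : ∀ i, v' (a i) ≤ 1) (hd' : ∀ i j, i ≠ j → v' (a i - a j) = 1)
    (p q : ℕ) (hp : p.Prime) (hq : q.Prime) (hpq : p ≠ q) (hvp : v (p : K) < 1)
    (hvq : v' (q : K) < 1) (I₁ : Finset (Fin (2 * g + 1))) (hI₁ : I₁.card ≤ g)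
    (hI : I₁.Nonempty) (t y : Fin (2 * g + 1) → K) (hy : ∀ i ∈ I₁, y i ^ 2 = (FF a).eval (t i))
    (ht : ∀ i ∈ I₁, v (t i - a i) < 1) (ht' : ∀ i ∈ I₁, v' (t i - a i) < 1)
    (hne : ∀ i ∈ I₁, t i ≠ a i) (N : ℕ) (hN : 0 < N) :
    (∏ i ∈ I₁, cls a (t i) (y i)) ^ N ≠ 1 := by
  intro hN1
  obtain ⟨α, N₁, hpN, hNe⟩ := Nat.exists_eq_pow_mul_and_not_dvd hN.ne' p hp.ne_one
  have hvN : v (N₁ : K) = 1 := tb2_val v hvp ((Nat.Prime.coprime_iff_not_dvd hp).2 hpN)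
  have hvp' : v' ((p ^ α : ℕ) : K) = 1 :=
    tb2_val v' hvq (Nat.Coprime.pow_right α ((Nat.coprime_primes hq hp).2 (Ne.symm hpq)))
  have e1 := tb2_grp5 hNe hN1
  have e2 := descent2 a v h2 ha hd I₁ hI₁ t y hy ht hne (p ^ α) N₁ hvN e1
  have e4 := descent2 a v' h2' ha' hd' I₁ hI₁ t y hy ht' hne 1 (p ^ α) hvp'
    (by rw [Nat.mul_one]; exact e2)
  rw [Nat.mul_one] at e4
  obtain ⟨u, w, hc, he⟩ := coprime_of_principal a v ha hd I₁ t y hy ht hne 2 e4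
  have e5 := gl_core v a h2 ha hd I₁ hI₁ t ht hne 1 (by rw [Nat.cast_one, map_one]) u w hc he
  rw [e5] at hI
  exact Finset.not_nonempty_empty hI

end HK
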