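import Pool.Agent.H95.HK.Aut
import Pool.Agent.H95.HJ.RingL

/-!
Module Blk (project HK, helper95).  Two linear algebra lemmas for the independence.
PROOFS.
* sgn2.  Fix j.  By induction over a finite set B of indices b with ¬ R j b: T (∑_{l} c_l n_l • e l) with integers c_l, where c_l = 2 ^ |B| for R j l and c_l = 0 for R b l,
  b ∈ B (start B = ∅, c = 1; step: for b take Θ, s for the pair j, b and form x + s_j Θ x: the coefficient of e_l is multiplied by 1 + s_j s_l, which is 2 for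
  R j l (s_l = s_j) and 0 for R b l (s_l = s_b = - s_j)).  For B = all b with ¬ R j b: T (∑_{R j l} (2 ^ |B| n_l) • e l), so n_l = 0 for R j l by hblock, in particular n_j = 0.
* pair_block.  Let μ = mapDomain (Multiset.map m) as an additive map.  μ (ee P) = ε ee Q, μ (ee Q) = ε' ee P with signs ε, ε' (map_ee, ee (inv P) = - ee P).  x = b ee P + b' ee Q and
  μ x = b' ε' ee P + b ε ee Q are torsion, so b ε x - b' μ x = (b ^ 2 ε - b' ^ 2 ε') ee P is torsion, b ^ 2 ε = b' ^ 2 ε' (hP).  If ε ≠ ε': b = b' = 0.  If ε = ε': b' = ± b, and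
  x = b (ee P ± ee Q): b = 0 by hPQ, hPQ'.
-/

namespace HK

open HJ
open scoped Classical

private theorem Blk_ind {V : Type*} [AddCommGroup V] (T : V → Prop)
    (hadd : ∀ x y, T x → T y → T (x + y)) (hsmul : ∀ (n : ℤ) x, T x → T (n • x))
    {J : Type*} [Fintype J] (e : J → V) (R : J → J → Prop) (hR : Equivalence R)
    (hΘ : ∀ j j', ¬ R j j' → ∃ (Θ : V →+ V) (s : J → ℤ), (∀ x, T x → T (Θ x)) ∧
      (∀ l, s l = 1 ∨ s l = -1) ∧ (∀ l, Θ (e l) = s l • e l) ∧ (∀ l l', R l l' → s l = s l') ∧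
      s j ≠ s j') (n : J → ℤ) (hn : T (∑ j, n j • e j)) (j : J) (B : Finset J) :
    (∀ b ∈ B, ¬ R j b) → ∃ c : J → ℤ, T (∑ l, (c l * n l) • e l) ∧
      (∀ l, R j l → c l = 2 ^ B.card) ∧ ∀ b ∈ B, ∀ l, R b l → c l = 0 := by
  induction B using Finset.induction_on with
  | empty =>
    intro _
    refine ⟨fun _ => 1, ?_, fun l _ => ?_, fun b hb => absurd hb (Finset.notMem_empty b)⟩
    · simpa only [one_mul] using hn
    · rw [Finset.card_empty, pow_zero]
  | insert b B hb ih =>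
    intro hB
    obtain ⟨c, hc1, hc2, hc3⟩ := ih fun x hx => hB x (Finset.mem_insert_of_mem hx)
    obtain ⟨Θ, s, hT, hs1, hs2, hs3, hs4⟩ := hΘ j b (hB b (Finset.mem_insert_self b B))
    refine ⟨fun l => (1 + s j * s l) * c l, ?_, fun l hl => ?_, fun x hx l hl => ?_⟩
    · have h1 : ∑ l, ((1 + s j * s l) * c l * n l) • e l =
          ∑ l, (c l * n l) • e l + s j • Θ (∑ l, (c l * n l) • e l) := by
        rw [map_sum, Finset.smul_sum, ← Finset.sum_add_distrib]
        refine Finset.sum_congr rfl fun l _ => ?_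
        rw [map_zsmul, hs2 l, smul_smul, smul_smul, ← add_smul]
        congr 1
        ring
      show T (∑ l, ((1 + s j * s l) * c l * n l) • e l)
      rw [h1]
      exact hadd _ _ hc1 (hsmul _ _ (hT _ hc1))
    · show (1 + s j * s l) * c l = 2 ^ (insert b B).card
      rw [Finset.card_insert_of_notMem hb, hc2 l hl, ← hs3 j l hl, pow_succ]
      rcases hs1 j with h | h <;> rw [h] <;> ring
    · show (1 + s j * s l) * c l = 0
      rcases Finset.mem_insert.1 hx with rfl | hx'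
      · have h1 : s l = s x := (hs3 x l hl).symm
        rw [h1]
        have h2 : 1 + s j * s x = 0 := by
          rcases hs1 j with h | h <;> rcases hs1 x with h' | h' <;> rw [h, h'] at hs4 ⊢ <;>
            first
            | exact absurd rfl hs4
            | norm_num
        rw [h2, zero_mul]
      · rw [hc3 x hx' l hl, mul_zero]

theorem sgn2 {V : Type*} [AddCommGroup V] (T : V → Prop) (hadd : ∀ x y, T x → T y → T (x + y))
    (hsmul : ∀ (n : ℤ) x, T x → T (n • x)) {J : Type*} [Fintype J] (e : J → V)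
    (R : J → J → Prop) (hR : Equivalence R)
    (hblock : ∀ j (n : J → ℤ), T (∑ l ∈ Finset.univ.filter (R j), n l • e l) →
      ∀ l, R j l → n l = 0)
    (hΘ : ∀ j j', ¬ R j j' → ∃ (Θ : V →+ V) (s : J → ℤ), (∀ x, T x → T (Θ x)) ∧
      (∀ l, s l = 1 ∨ s l = -1) ∧ (∀ l, Θ (e l) = s l • e l) ∧ (∀ l l', R l l' → s l = s l') ∧
      s j ≠ s j') (n : J → ℤ) (hn : T (∑ j, n j • e j)) : n = 0 := by
  funext j
  obtain ⟨c, hc1, hc2, hc3⟩ := Blk_ind T hadd hsmul e R hR hΘ n hn j
    (Finset.univ.filter fun b => ¬ R j b) (fun b hb => (Finset.mem_filter.1 hb).2)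
  have h1 : ∑ l, (c l * n l) • e l = ∑ l ∈ Finset.univ.filter (R j), (c l * n l) • e l := by
    symm
    refine Finset.sum_subset (Finset.filter_subset _ _) fun l _ hl => ?_
    have h2 : ¬ R j l := fun h => hl (Finset.mem_filter.2 ⟨Finset.mem_univ l, h⟩)
    rw [hc3 l (Finset.mem_filter.2 ⟨Finset.mem_univ l, h2⟩) l (hR.refl l), zero_mul, zero_smul]
  rw [h1] at hc1
  have h3 := hblock j (fun l => c l * n l) hc1 j (hR.refl j)
  have h4 : c j * n j = 0 := h3
  rw [hc2 j (hR.refl j)] at h4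
  rcases mul_eq_zero.1 h4 with h5 | h5
  · exact absurd h5 (pow_ne_zero _ (by norm_num))
  · exact h5

variable {k : Type} [Field k] [IsAlgClosed k] [CharZero k] {n : ℕ} (H : Hyp k n)

private theorem Blk_inv (P : Pts (fun _ : Unit => H)) : ee (inv P) = - ee P := by
  have h1 : inv (inv P) = P := by
    show (⟨P.1, P.2.inv.inv⟩ : Pts (fun _ : Unit => H)) = P
    rw [Pt.inv_inv]
  unfold ee
  rw [h1]
  abel

private theorem Blk_sign (m : Pts (fun _ : Unit => H) → Pts (fun _ : Unit => H))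
    (hm : ∀ P, m (inv P) = inv (m P)) (P Q : Pts (fun _ : Unit => H))
    (h : m P = Q ∨ m P = inv Q) :
    ∃ ε : ℤ, (ε = 1 ∨ ε = -1) ∧ Finsupp.mapDomain (Multiset.map m) (ee P) = ε • ee Q := by
  rcases h with h | h
  · exact ⟨1, Or.inl rfl, by rw [map_ee H m hm P, h, one_smul]⟩
  · exact ⟨-1, Or.inr rfl, by rw [map_ee H m hm P, h, Blk_inv, neg_smul, one_smul]⟩

theorem pair_block (m : Pts (fun _ : Unit => H) → Pts (fun _ : Unit => H))
    (hm : ∀ P, m (inv P) = inv (m P))
    (hT : ∀ c : Cyc (fun _ : Unit => H), Tors (fun _ : Unit => H) c →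
      Tors (fun _ : Unit => H) (Finsupp.mapDomain (Multiset.map m) c))
    (P Q : Pts (fun _ : Unit => H)) (h1 : m P = Q ∨ m P = inv Q) (h2 : m Q = P ∨ m Q = inv P)
    (hP : ∀ b : ℤ, Tors (fun _ : Unit => H) (b • ee P) → b = 0)
    (hPQ : ∀ b : ℤ, Tors (fun _ : Unit => H) (b • (ee P + ee Q)) → b = 0)
    (hPQ' : ∀ b : ℤ, Tors (fun _ : Unit => H) (b • (ee P - ee Q)) → b = 0) (b b' : ℤ)
    (h : Tors (fun _ : Unit => H) (b • ee P + b' • ee Q)) : b = 0 ∧ b' = 0 := by
  obtain ⟨ε, hε, hε'⟩ := Blk_sign H m hm P Q h1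
  obtain ⟨η, hη, hη'⟩ := Blk_sign H m hm Q P h2
  have hz : ∀ (z : ℤ) (c : Cyc (fun _ : Unit => H)),
      Finsupp.mapDomain (Multiset.map m) (z • c) = z • Finsupp.mapDomain (Multiset.map m) c :=
    fun z c => map_zsmul (Finsupp.mapDomain.addMonoidHom (Multiset.map m)) z c
  have hx := hT _ h
  rw [Finsupp.mapDomain_add, hz, hz, hε', hη'] at hx
  have h3 : Tors (fun _ : Unit => H) ((b ^ 2 * ε - b' ^ 2 * η) • ee P) := by
    have h4 := (h.zsmul (b * ε)).sub (hx.zsmul b')
    have h5 : (b * ε) • (b • ee P + b' • ee Q) - b' • (b • ε • ee Q + b' • η • ee P) =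
        (b ^ 2 * ε - b' ^ 2 * η) • ee P := by
      simp only [smul_add, smul_smul]
      rw [show b * ε * b' = b' * (b * ε) by ring, sub_smul,
        show b * ε * b = b ^ 2 * ε by ring, show b' * (b' * η) = b' ^ 2 * η by ring]
      abel
    rw [h5] at h4
    exact h4
  have h6 := hP _ h3
  have key : b ^ 2 = b' ^ 2 → b = 0 ∧ b' = 0 := by
    intro h7
    rcases sq_eq_sq_iff_eq_or_eq_neg.1 h7 with h8 | h8
    · have h9 : Tors (fun _ : Unit => H) (b' • (ee P + ee Q)) := by
        rw [smul_add]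
        rw [h8] at h
        exact h
      have h10 := hPQ _ h9
      exact ⟨by rw [h8, h10], h10⟩
    · have h9 : Tors (fun _ : Unit => H) (b • (ee P - ee Q)) := by
        have h11 : b' = -b := by rw [h8, neg_neg]
        rw [h11, neg_smul] at h
        rw [smul_sub, sub_eq_add_neg]
        exact h
      have h10 := hPQ' _ h9
      exact ⟨h10, by rw [h10] at h8; omega⟩
  rcases hε with rfl | rfl <;> rcases hη with rfl | rfl
  · exact key (by linarith)
  · have h7 : b ^ 2 = 0 ∧ b' ^ 2 = 0 := by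
      constructor <;> nlinarith [sq_nonneg b, sq_nonneg b']
    exact ⟨pow_eq_zero_iff (two_ne_zero) |>.1 h7.1, pow_eq_zero_iff (two_ne_zero) |>.1 h7.2⟩
  · have h7 : b ^ 2 = 0 ∧ b' ^ 2 = 0 := by
      constructor <;> nlinarith [sq_nonneg b, sq_nonneg b']
    exact ⟨pow_eq_zero_iff (two_ne_zero) |>.1 h7.1, pow_eq_zero_iff (two_ne_zero) |>.1 h7.2⟩
  · exact key (by linarith)

end HK
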