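import Mathlib

/-!
Module Sgn (project HK, helper95).  Elements with different signs under suitable endomorphisms are independent.
PROOF.  Let n with T (∑ n j • e j) be given and fix j.  By induction over a finite set B of indices not containing j: T (∑_{l} c_l n_l • e l) with integers c_l where c_j ≠ 0 and
c_l = 0 for l ∈ B (start B = ∅, c = 1; step: for b ∉ B, b ≠ j take Θ, s for the pair j, b and form x + s_j Θ x: the coefficient of e_l is c_l n_l (1 + s_j s_l),
which is 2 c_j n_j for l = j and 0 for l = b, because s_b = - s_j).  For B = all l ≠ j: T ((c_j n_j) • e j), so c_j n_j = 0, n_j = 0.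
-/

namespace HK

theorem sgn {V : Type*} [AddCommGroup V] (T : V → Prop) (hadd : ∀ x y, T x → T y → T (x + y))
    (hsmul : ∀ (n : ℤ) x, T x → T (n • x)) {J : Type*} [Fintype J] [DecidableEq J] (e : J → V)
    (hne : ∀ j (n : ℤ), T (n • e j) → n = 0)
    (hΘ : ∀ j j', j ≠ j' → ∃ (Θ : V →+ V) (s : J → ℤ), (∀ x, T x → T (Θ x)) ∧
      (∀ l, s l = 1 ∨ s l = -1) ∧ (∀ l, Θ (e l) = s l • e l) ∧ s j ≠ s j') (n : J → ℤ)
    (hn : T (∑ j, n j • e j)) : n = 0 := by
  funext j
  have key : ∀ B : Finset J, j ∉ B → ∃ c : J → ℤ, c j ≠ 0 ∧ (∀ l ∈ B, c l = 0) ∧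
      T (∑ l, (c l * n l) • e l) := by
    intro B
    induction B using Finset.induction_on with
    | empty =>
      intro _
      exact ⟨fun _ => 1, one_ne_zero, by simp, by simpa using hn⟩
    | insert b B hb ih =>
      intro hj
      have hjb : j ≠ b := fun h => hj (by simp [h])
      have hjB : j ∉ B := fun h => hj (Finset.mem_insert_of_mem h)
      obtain ⟨c, hcj, hcB, hT⟩ := ih hjB
      obtain ⟨Θ, s, hΘT, hs, hΘe, hne'⟩ := hΘ j b hjb
      refine ⟨fun l => c l * (1 + s j * s l), ?_, ?_, ?_⟩
      · have h1 : s j * s j = 1 := by rcases hs j with h | h <;> simp [h]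
        show c j * (1 + s j * s j) ≠ 0
        rw [h1]
        exact mul_ne_zero hcj (by norm_num)
      · intro l hl
        rcases Finset.mem_insert.mp hl with rfl | hl
        · have h1 : s j * s l = -1 := by
            rcases hs j with h | h <;> rcases hs l with h' | h' <;> simp [h, h'] at hne' ⊢
          show c l * (1 + s j * s l) = 0
          rw [h1]; ring
        · show c l * (1 + s j * s l) = 0
          rw [hcB l hl, zero_mul]
      · have h2 : ∑ l, (c l * (1 + s j * s l) * n l) • e l =
            ∑ l, (c l * n l) • e l + s j • Θ (∑ l, (c l * n l) • e l) := by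
          rw [map_sum, Finset.smul_sum, ← Finset.sum_add_distrib]
          refine Finset.sum_congr rfl fun l _ => ?_
          rw [map_zsmul, hΘe, smul_smul, smul_smul, ← add_smul]
          congr 1
          ring
        show T (∑ l, (c l * (1 + s j * s l) * n l) • e l)
        rw [h2]
        exact hadd _ _ hT (hsmul _ _ (hΘT _ hT))
  obtain ⟨c, hcj, hc, hT⟩ := key (Finset.univ.erase j) (by simp)
  have h3 : ∑ l, (c l * n l) • e l = (c j * n j) • e j := by
    rw [Finset.sum_eq_single j]
    · intro l _ hl
      rw [hc l (by simp [hl]), zero_mul, zero_smul]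
    · simp
  rw [h3] at hT
  have h4 := hne j _ hT
  rcases mul_eq_zero.mp h4 with h | h
  · exact absurd h hcj
  · simpa using h

end HK
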