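import Pool.Agent.H95.HK.Gal
import Pool.Agent.H95.HK.Sgn
import Pool.Agent.H95.HJ.RingL
import Pool.Agent.H95.HJ.Final

/-!
Module FinB1 (project HK, helper95).  Two parts of the final assembly for one curve.
PROOFS.
* bb_of_linked: theorem `main` of HJ/Final.lean for the family (fun _ : Unit => H), A = Set.range (fun j => ⟨(), P j⟩), m = fun _ => m.  A.Pairwise (Linked ..): Linked.inv, Linked.iso
  (P j ≠ P j' implies j ≠ j').  part () s = s (Multiset.filter_true / filter_eq_self); ee '' A = range.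
* indep: `sgn` with T = Tors (Tors.add, Tors.zsmul of HJ/RingL), Θ = cycMap H σ hσ (cyc_tors), cycMap_ee, ee (inv P) = - ee P (ee P = pt P - pt (inv P), inv_inv').
-/

namespace HK

open HJ

variable {k : Type} [Field k] [IsAlgClosed k] [CharZero k] {n : ℕ} (H : Hyp k n)

private theorem FinB1_filter {α : Type} (p : α → Prop) (inst : DecidablePred p)
    (s : Multiset α) (hp : ∀ a, p a) : @Multiset.filter α p inst s = s :=
  Multiset.filter_eq_self.2 fun a _ => hp a

private theorem FinB1_part (s : Multiset (Pts (fun _ : Unit => H))) (i : Unit) :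
    part i s = s := by
  unfold part
  exact FinB1_filter _ _ s fun _ => Subsingleton.elim _ _

theorem bb_of_linked {J : Type} (P : J → H.Pt)
    (hP : ∀ i j, i ≠ j → InvLinked (P i) (P j) ∨ IsoLinked (P i) (P j)) (m : ℕ)
    (c : Cyc (fun _ : Unit => H)) (hm : ∀ s ∈ c.support, Multiset.card s = m)
    (hsupp : ∀ s ∈ c.support, ∃ N : ℕ, 0 < N ∧ N • (s.map ee).sum ∈
      AddSubgroup.closure (Set.range fun j => ee (⟨(), P j⟩ : Pts (fun _ : Unit => H))) ⊔
        ratZero (fun _ : Unit => H))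
    (hdeg : (c.sum fun _ b => b) = 0)
    (halb : Tors (fun _ : Unit => H) (c.sum fun s b => b • (s.map pt).sum)) :
    Tors (fun _ : Unit => H) c := by
  refine main (fun _ : Unit => H)
    (Set.range fun j => (⟨(), P j⟩ : Pts (fun _ : Unit => H))) ?_ (fun _ => m) c ?_ ?_ hdeg ?_
  · rintro _ ⟨i, rfl⟩ _ ⟨j, rfl⟩ hne
    have hij : i ≠ j := fun h => hne (by rw [h])
    rcases hP i j hij with h | h
    · exact Linked.inv () _ _ h
    · exact Linked.iso () () _ _ h
  · intro s hs i
    rw [FinB1_part]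
    exact hm s hs
  · intro s hs i
    rw [FinB1_part, ← Set.range_comp]
    exact hsupp s hs
  · intro i
    have h1 : (c.sum fun s a => a • ((part i s).map pt).sum) =
        c.sum fun s b => b • (s.map pt).sum := by
      refine Finsupp.sum_congr fun s _ => ?_
      rw [FinB1_part]
    rw [h1]
    exact halb

private theorem FinB1_ee (P : Pts (fun _ : Unit => H)) : ee (HJ.inv P) = -ee P := by
  unfold ee
  rw [inv_inv', neg_sub]

theorem indep {J : Type} [Fintype J] (P : J → Pts (fun _ : Unit => H))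
    (hne : ∀ j (b : ℤ), Tors (fun _ : Unit => H) (b • ee (P j)) → b = 0)
    (hs : ∀ j j', j ≠ j' → ∃ (σ : k ≃+* k) (hσ : ∀ i j, σ (H.r i j) = H.r i j) (s : J → ℤ),
      (∀ l, (s l = 1 ∧ ptsMap H σ hσ (P l) = P l) ∨ (s l = -1 ∧ ptsMap H σ hσ (P l) = inv (P l))) ∧
      s j ≠ s j') (b : J → ℤ) (hb : Tors (fun _ : Unit => H) (∑ j, b j • ee (P j))) : b = 0 := by
  classical
  refine sgn (Tors (fun _ : Unit => H)) (fun x y hx hy => hx.add hy) (fun n x hx => hx.zsmul n)
    (fun j => ee (P j)) hne ?_ b hb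
  intro j j' hjj
  obtain ⟨σ, hσ, s, h1, h2⟩ := hs j j' hjj
  refine ⟨cycMap H σ hσ, s, fun x hx => cyc_tors H σ hσ x hx, fun l => ?_, fun l => ?_, h2⟩
  · rcases h1 l with ⟨h, -⟩ | ⟨h, -⟩
    · exact Or.inl h
    · exact Or.inr h
  · rcases h1 l with ⟨h, h'⟩ | ⟨h, h'⟩
    · rw [cycMap_ee, h', h, one_smul]
    · rw [cycMap_ee, h', h, FinB1_ee, neg_smul, one_smul]

end HK
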