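import Pool.Agent.H95.HK.OrbG

/-!
Module Good (project HK, helper95).  The choice of the four branch points.
NOTATION as in OrbG.  Every injective e : ZMod 2 × ZMod 2 → Fin 5 gives matrices M by HJ.orbit (quint a ha) (fun x => i5 (e x)).
PROOFS.
* aut_closed: products.  M_b M_c and M_(b+c) agree up to factors on the four points r (e x), so M_(b + c) is a multiple of M_b M_c, and IsAut is closed under products and multiples
  (composition of the permutations).  M 0 is a multiple of 1 (fixes four points): IsAut.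
* good_choice.  Let e, e' be injective with the complements j = 4 and j' = 3 (e x = 2 x.1 + x.2; e' = e composed with the transposition of 3 and 4).  CLAIM: for one
  of the two, not all M_d are automorphisms.  Suppose all M_d for e are automorphisms.  They preserve the set {r (e x)} and so the set {r_j, r_∞}.  Every M_d acts on this set of two
  points; among M_d1, M_d2, M_(d1 + d2) (a multiple of M_d1 M_d2) one acts trivially: A = M_d (d ≠ 0) fixes r_j = (a j, 1) and ∞ = (-1, 0), and A ^ 2 is scalar (A ^ 2 fixes the four points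
  r (e x)), A not scalar, so A acts on the line as x ↦ 2 a_j - x, and it permutes the finite set {a i}.  In the same way x ↦ 2 a_j' - x permutes {a i}.  The composition is
  x ↦ x + 2 (a_j - a_j') (or its inverse), which permutes the finite set {a i}: sum over the set, 5 * 2 (a_j - a_j') = 0, contradiction (CharZero, a injective).
* The statement gives everything that is needed: e, M and the properties from HJ.orbit.
-/

namespace HK

open HJ
open scoped Classical

variable {k : Type} [Field k] [IsAlgClosed k] [CharZero k] (a : Fin 5 → k)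
  (ha : Function.Injective a)

omit [IsAlgClosed k] [CharZero k] in
private theorem Good_trans {u v w : Fin 2 → k} (hv : v ≠ 0) (h1 : dt u v = 0)
    (h2 : dt v w = 0) : dt u w = 0 := by
  by_cases hu : u = 0
  · rw [hu]; simp [dt]
  by_cases hw : w = 0
  · rw [hw]; simp [dt]
  obtain ⟨c, -, rfl⟩ := exists_smul_of_dt hu hv h1
  rw [dt_smul_left] at h2
  have hc : c ≠ 0 := by
    rintro rfl
    exact hv (zero_smul _ _)
  exact (mul_eq_zero.1 h2).resolve_left hc

omit [IsAlgClosed k] [CharZero k] in
private theorem Good_symm {u v : Fin 2 → k} (h : dt u v = 0) : dt v u = 0 := by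
  rw [dt_comm, h, neg_zero]

omit [IsAlgClosed k] [CharZero k] in
private theorem Good_mulVec (M : Matrix (Fin 2) (Fin 2) k) {u v : Fin 2 → k} (h : dt u v = 0) :
    dt (M.mulVec u) (M.mulVec v) = 0 := by
  rw [dt_mulVec, h, mul_zero]

private theorem Good_three : ∃ x y z : ZMod 2 × ZMod 2, x ≠ y ∧ x ≠ z ∧ y ≠ z := by
  decide

private theorem Good_i5 {i j : Fin 5} (h : i5 i = i5 j) : i = j := by
  unfold i5 at h
  rw [Fin.mk.injEq] at h
  exact Fin.ext h

/-- `M b * M c` and `M (b + c)` are proportional. -/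
private theorem Good_prod (e : ZMod 2 × ZMod 2 → Fin 5) (he : Function.Injective e)
    (M : ZMod 2 × ZMod 2 → Matrix (Fin 2) (Fin 2) k) (hdet : ∀ b, (M b).det ≠ 0)
    (hM : ∀ b x, dt ((M b).mulVec ((quint a ha).r (i5 (e x))))
      ((quint a ha).r (i5 (e (b + x)))) = 0) (b c : ZMod 2 × ZMod 2) (v : Fin 2 → k) :
    dt ((M (b + c)).mulVec v) ((M b).mulVec ((M c).mulVec v)) = 0 := by
  obtain ⟨x, y, z, hxy, hxz, hyz⟩ := Good_three
  have hd : ∀ x y : ZMod 2 × ZMod 2, x ≠ y →
      dt ((quint a ha).r (i5 (e x))) ((quint a ha).r (i5 (e y))) ≠ 0 :=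
    fun x y h => (quint a ha).indep _ _ (fun hh => h (he (Good_i5 hh)))
  have key : ∀ x, dt ((M (b + c)).mulVec ((quint a ha).r (i5 (e x))))
      ((M b * M c).mulVec ((quint a ha).r (i5 (e x)))) = 0 := by
    intro x
    rw [← Matrix.mulVec_mulVec]
    have h1 := hM (b + c) x
    have h2 := Good_mulVec (M b) (hM c x)
    have h3 := hM b (c + x)
    rw [← add_assoc] at h3
    have h4 : dt ((M b).mulVec ((M c).mulVec ((quint a ha).r (i5 (e x)))))
        ((quint a ha).r (i5 (e (b + c + x)))) = 0 :=
      Good_trans (mulVec_ne_zero (hdet b) ((quint a ha).r_ne _)) h2 h3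
    exact Good_trans ((quint a ha).r_ne _) h1 (Good_symm h4)
  have h := eq_of_three (M (b + c)) (M b * M c) (hdet _)
    (by rw [Matrix.det_mul]; exact mul_ne_zero (hdet b) (hdet c)) _ _ _
    (hd x y hxy) (hd x z hxz) (hd y z hyz) (key x) (key y) (key z) v
  rwa [← Matrix.mulVec_mulVec] at h

theorem aut_closed (e : ZMod 2 × ZMod 2 → Fin 5) (he : Function.Injective e)
    (M : ZMod 2 × ZMod 2 → Matrix (Fin 2) (Fin 2) k) (hdet : ∀ b, (M b).det ≠ 0)
    (hM : ∀ b x, dt ((M b).mulVec ((quint a ha).r (i5 (e x))))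
      ((quint a ha).r (i5 (e (b + x)))) = 0) (b c : ZMod 2 × ZMod 2)
    (hb : IsAut a ha (M b)) (hc : IsAut a ha (M c)) : IsAut a ha (M (b + c)) := by
  obtain ⟨σ, hσ⟩ := hb
  obtain ⟨τ, hτ⟩ := hc
  refine ⟨τ.trans σ, fun i => ?_⟩
  have h1 := Good_prod a ha e he M hdet hM b c ((quint a ha).r i)
  have h2 := Good_mulVec (M b) (hτ i)
  have h3 := hσ (τ i)
  have h4 : dt ((M b).mulVec ((M c).mulVec ((quint a ha).r i))) ((quint a ha).r (σ (τ i))) = 0 :=
    Good_trans (mulVec_ne_zero (hdet b) ((quint a ha).r_ne _)) h2 h3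
  exact Good_trans (mulVec_ne_zero (hdet b) (mulVec_ne_zero (hdet c) ((quint a ha).r_ne _))) h1 h4

/-- the index of the branch point at infinity. -/
private def Good_inf : Fin (2 * 3) := ⟨5, by norm_num⟩

omit [IsAlgClosed k] [CharZero k] in
private theorem Good_rinf : (quint a ha).r Good_inf = ![-1, 0] := by
  unfold Good_inf quint
  simp

private theorem Good_cases (e : ZMod 2 × ZMod 2 → Fin 5) (he : Function.Injective e) (j : Fin 5)
    (hj : ∀ x, e x ≠ j) (i : Fin (2 * 3)) :
    (∃ x, i = i5 (e x)) ∨ i = i5 j ∨ i = Good_inf := by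
  by_cases hi : (i : ℕ) < 5
  · have hs : Function.Surjective (fun o : Option (ZMod 2 × ZMod 2) => o.elim j e) := by
      have hinj : Function.Injective (fun o : Option (ZMod 2 × ZMod 2) => o.elim j e) := by
        rintro (_ | x) (_ | y) h
        · rfl
        · exact absurd h.symm (hj y)
        · exact absurd h (hj x)
        · exact congrArg some (he h)
      exact ((Fintype.bijective_iff_injective_and_card _).2 ⟨hinj, by decide⟩).2
    obtain ⟨o, ho⟩ := hs ⟨i, hi⟩
    rcases o with _ | x
    · right; left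
      have h1 : j = ⟨i, hi⟩ := ho
      rw [h1]
      rfl
    · left
      refine ⟨x, ?_⟩
      have h1 : e x = ⟨i, hi⟩ := ho
      rw [h1]
      rfl
  · right; right
    apply Fin.ext
    have := i.isLt
    show (i : ℕ) = 5
    omega

private theorem Good_i5_ne_inf (i : Fin 5) : i5 i ≠ Good_inf := by
  intro h
  have := congrArg Fin.val h
  have h2 := i.isLt
  simp only [i5, Good_inf] at this
  omega

/-- If all matrices are automorphisms, then the fifth point is the centre of the four. -/
private theorem Good_sum (e : ZMod 2 × ZMod 2 → Fin 5) (he : Function.Injective e) (j : Fin 5)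
    (hj : ∀ x, e x ≠ j)
    (M : ZMod 2 × ZMod 2 → Matrix (Fin 2) (Fin 2) k) (hdet : ∀ b, (M b).det ≠ 0)
    (hM : ∀ b x, dt ((M b).mulVec ((quint a ha).r (i5 (e x))))
      ((quint a ha).r (i5 (e (b + x)))) = 0) (hall : ∀ d, IsAut a ha (M d)) :
    ∑ x, a (e x) = 4 * a j := by
  -- the action on the two remaining points
  have hact : ∀ d, (dt ((M d).mulVec ((quint a ha).r Good_inf)) ((quint a ha).r Good_inf) = 0 ∧
        dt ((M d).mulVec ((quint a ha).r (i5 j))) ((quint a ha).r (i5 j)) = 0) ∨
      (dt ((M d).mulVec ((quint a ha).r Good_inf)) ((quint a ha).r (i5 j)) = 0 ∧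
        dt ((M d).mulVec ((quint a ha).r (i5 j))) ((quint a ha).r Good_inf) = 0) := by
    intro d
    obtain ⟨π, hπ⟩ := hall d
    have h1 : ∀ x, π (i5 (e x)) = i5 (e (d + x)) := by
      intro x
      by_contra hne
      refine (quint a ha).indep _ _ hne ?_
      exact Good_trans (mulVec_ne_zero (hdet d) ((quint a ha).r_ne _)) (Good_symm (hπ _)) (hM d x)
    have h2 : ∀ i, (∀ x, i ≠ i5 (e x)) → (∀ x, π i ≠ i5 (e x)) := by
      intro i hi x hx
      have hdd : d + (d + x) = x := by
        have : ∀ d x : ZMod 2 × ZMod 2, d + (d + x) = x := by decide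
        exact this d x
      have h3 := h1 (d + x)
      rw [hdd, ← hx] at h3
      exact hi (d + x) (π.injective h3).symm
    have hinf : ∀ x, Good_inf ≠ i5 (e x) := fun x h => Good_i5_ne_inf _ h.symm
    have hjj : ∀ x, i5 j ≠ i5 (e x) := fun x h => hj x (Good_i5 h).symm
    have h3 := hπ Good_inf
    have h4 := hπ (i5 j)
    rcases Good_cases e he j hj (π Good_inf) with ⟨x, hx⟩ | hx | hx
    · exact absurd hx (h2 _ hinf x)
    · right
      rw [hx] at h3
      refine ⟨h3, ?_⟩
      rcases Good_cases e he j hj (π (i5 j)) with ⟨y, hy⟩ | hy | hy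
      · exact absurd hy (h2 _ hjj y)
      · exact absurd (π.injective (hx.trans hy.symm)).symm (Good_i5_ne_inf j)
      · rw [hy] at h4; exact h4
    · left
      rw [hx] at h3
      refine ⟨h3, ?_⟩
      rcases Good_cases e he j hj (π (i5 j)) with ⟨y, hy⟩ | hy | hy
      · exact absurd hy (h2 _ hjj y)
      · rw [hy] at h4; exact h4
      · exact absurd (π.injective (hx.trans hy.symm)).symm (Good_i5_ne_inf j)
  -- one of the three acts trivially
  obtain ⟨d, hd0, hdinf, hdj⟩ : ∃ d : ZMod 2 × ZMod 2, d ≠ 0 ∧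
      dt ((M d).mulVec ((quint a ha).r Good_inf)) ((quint a ha).r Good_inf) = 0 ∧
        dt ((M d).mulVec ((quint a ha).r (i5 j))) ((quint a ha).r (i5 j)) = 0 := by
    rcases hact (0, 1) with h | h
    · exact ⟨(0, 1), by decide, h⟩
    rcases hact (1, 0) with h' | h'
    · exact ⟨(1, 0), by decide, h'⟩
    refine ⟨(0, 1) + (1, 0), by decide, ?_, ?_⟩
    · have h1 := Good_prod a ha e he M hdet hM (0, 1) (1, 0) ((quint a ha).r Good_inf)
      have h2 := Good_mulVec (M (0, 1)) h'.1
      have h3 := Good_trans (mulVec_ne_zero (hdet (0, 1)) ((quint a ha).r_ne _)) h2 h.2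
      exact Good_trans (mulVec_ne_zero (hdet _) (mulVec_ne_zero (hdet _)
        ((quint a ha).r_ne _))) h1 h3
    · have h1 := Good_prod a ha e he M hdet hM (0, 1) (1, 0) ((quint a ha).r (i5 j))
      have h2 := Good_mulVec (M (0, 1)) h'.2
      have h3 := Good_trans (mulVec_ne_zero (hdet (0, 1)) ((quint a ha).r_ne _)) h2 h.1
      exact Good_trans (mulVec_ne_zero (hdet _) (mulVec_ne_zero (hdet _)
        ((quint a ha).r_ne _))) h1 h3
  -- coordinates
  set p := M d 0 0 with hp
  set q := M d 0 1 with hq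
  set s := M d 1 0 with hs
  set t := M d 1 1 with ht
  have hs0 : s = 0 := by
    rw [Good_rinf] at hdinf
    simp [dt, Matrix.mulVec, dotProduct, Fin.sum_univ_two] at hdinf
    exact hdinf
  have hdet' : p * t ≠ 0 := by
    have := hdet d
    rw [Matrix.det_fin_two, ← hp, ← hq, ← hs, ← ht, hs0, mul_zero, sub_zero] at this
    exact this
  have hp0 : p ≠ 0 := left_ne_zero_of_mul hdet'
  have ht0 : t ≠ 0 := right_ne_zero_of_mul hdet'
  have hj1 : p * a j + q = a j * t := by
    rw [quint_r5] at hdj
    simp only [dt, Matrix.mulVec, dotProduct, Fin.sum_univ_two, Matrix.cons_val_zero,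
      Matrix.cons_val_one] at hdj
    rw [← hp, ← hq, ← hs, ← ht, hs0] at hdj
    linear_combination hdj
  have hx1 : ∀ x, p * a (e x) + q = a (e (d + x)) * t := by
    intro x
    have h1 := hM d x
    rw [quint_r5, quint_r5] at h1
    simp only [dt, Matrix.mulVec, dotProduct, Fin.sum_univ_two, Matrix.cons_val_zero,
      Matrix.cons_val_one] at h1
    rw [← hp, ← hq, ← hs, ← ht, hs0] at h1
    linear_combination h1
  -- differences from the centre
  have hy : ∀ x, p * (a (e x) - a j) = t * (a (e (d + x)) - a j) := by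
    intro x
    linear_combination hx1 x - hj1
  have hdd : ∀ x : ZMod 2 × ZMod 2, d + (d + x) = x := by
    have : ∀ d x : ZMod 2 × ZMod 2, d + (d + x) = x := by decide
    exact this d
  have hne : ∀ x, a (e x) - a j ≠ 0 := fun x h => hj x (ha (sub_eq_zero.1 h))
  have hsq : p ^ 2 = t ^ 2 := by
    have h1 := hy 0
    have h2 := hy (d + 0)
    rw [hdd 0] at h2
    have h3 : (p ^ 2 - t ^ 2) * (a (e 0) - a j) = 0 := by
      linear_combination p * h1 + t * h2
    have h4 := (mul_eq_zero.1 h3).resolve_right (hne 0)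
    exact sub_eq_zero.1 h4
  have hpt : p = -t := by
    rcases sq_eq_sq_iff_eq_or_eq_neg.1 hsq with h | h
    · exfalso
      have h1 := hy 0
      rw [h] at h1
      have h2 := mul_left_cancel₀ ht0 h1
      have h3 : a (e 0) = a (e (d + 0)) := by linear_combination h2
      have h4 := he (ha h3)
      rw [add_zero] at h4
      exact hd0 h4.symm
    · exact h
  have hfin : ∀ x, a (e x) + a (e (d + x)) = 2 * a j := by
    intro x
    have h1 := hy x
    rw [hpt] at h1
    have h2 : t * (a (e x) + a (e (d + x)) - 2 * a j) = 0 := by linear_combination -h1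
    have h3 := (mul_eq_zero.1 h2).resolve_left ht0
    linear_combination h3
  have hsum : ∑ x, a (e (d + x)) = ∑ x, a (e x) :=
    Equiv.sum_comp (Equiv.addLeft d) (fun x => a (e x))
  have h1 : ∑ x : ZMod 2 × ZMod 2, (a (e x) + a (e (d + x))) = ∑ x : ZMod 2 × ZMod 2, 2 * a j :=
    Finset.sum_congr rfl fun x _ => hfin x
  rw [Finset.sum_add_distrib, hsum, Finset.sum_const, Finset.card_univ] at h1
  have hcard : Fintype.card (ZMod 2 × ZMod 2) = 4 := by decide
  rw [hcard, nsmul_eq_mul] at h1
  push_cast at h1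
  have h2 : (2 : k) ≠ 0 := two_ne_zero
  apply mul_left_cancel₀ h2
  linear_combination h1

private theorem Good_univ : (Finset.univ : Finset (ZMod 2 × ZMod 2)) =
    {(0, 0), (0, 1), (1, 0), (1, 1)} := by decide

/-- the first choice. -/
private def Good_e : ZMod 2 × ZMod 2 → Fin 5 :=
  fun x => if x = (0, 0) then 0 else if x = (0, 1) then 1 else if x = (1, 0) then 2 else 3

/-- the second choice. -/
private def Good_e' : ZMod 2 × ZMod 2 → Fin 5 :=
  fun x => if x = (0, 0) then 0 else if x = (0, 1) then 1 else if x = (1, 0) then 2 else 4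

private theorem Good_e_inj : Function.Injective Good_e := by
  have : ∀ x y : ZMod 2 × ZMod 2, Good_e x = Good_e y → x = y := by decide
  exact fun x y h => this x y h

private theorem Good_e'_inj : Function.Injective Good_e' := by
  have : ∀ x y : ZMod 2 × ZMod 2, Good_e' x = Good_e' y → x = y := by decide
  exact fun x y h => this x y h

theorem good_choice :
    ∃ (e : ZMod 2 × ZMod 2 → Fin 5) (M : ZMod 2 × ZMod 2 → Matrix (Fin 2) (Fin 2) k),
      Function.Injective e ∧ M 0 = 1 ∧ (∀ b, (M b).det ≠ 0) ∧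
      (∀ b x, dt ((M b).mulVec ((quint a ha).r (i5 (e x))))
        ((quint a ha).r (i5 (e (b + x)))) = 0) ∧
      (∀ (P : (quint a ha).Pt) (b c : ZMod 2 × ZMod 2) (Q Q' : (quint a ha).Pt),
        Over (M b) P Q → Over (M c) P Q' → InvLinked Q Q' ∨ IsoLinked Q Q') ∧
      ∃ d, ¬ IsAut a ha (M d) := by
  obtain ⟨M, hM0, hMd, hMr, hMl⟩ := orbit (quint a ha) (fun x => i5 (Good_e x))
    (fun x y h => Good_e_inj (Good_i5 h))
  obtain ⟨N, hN0, hNd, hNr, hNl⟩ := orbit (quint a ha) (fun x => i5 (Good_e' x))
    (fun x y h => Good_e'_inj (Good_i5 h))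
  by_cases h : ∃ d, ¬ IsAut a ha (M d)
  · exact ⟨Good_e, M, Good_e_inj, hM0, hMd, hMr, hMl, h⟩
  by_cases h' : ∃ d, ¬ IsAut a ha (N d)
  · exact ⟨Good_e', N, Good_e'_inj, hN0, hNd, hNr, hNl, h'⟩
  exfalso
  push Not at h h'
  have h1 := Good_sum a ha Good_e Good_e_inj 4 (by decide) M hMd hMr h
  have h2 := Good_sum a ha Good_e' Good_e'_inj 3 (by decide) N hNd hNr h'
  have s1 : ∑ x, a (Good_e x) = a 0 + a 1 + a 2 + a 3 := by
    rw [Good_univ, Finset.sum_insert (by decide), Finset.sum_insert (by decide),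
      Finset.sum_insert (by decide), Finset.sum_singleton]
    have e1 : Good_e (0, 0) = 0 := by decide
    have e2 : Good_e (0, 1) = 1 := by decide
    have e3 : Good_e (1, 0) = 2 := by decide
    have e4 : Good_e (1, 1) = 3 := by decide
    rw [e1, e2, e3, e4]
    ring
  have s2 : ∑ x, a (Good_e' x) = a 0 + a 1 + a 2 + a 4 := by
    rw [Good_univ, Finset.sum_insert (by decide), Finset.sum_insert (by decide),
      Finset.sum_insert (by decide), Finset.sum_singleton]
    have e1 : Good_e' (0, 0) = 0 := by decide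
    have e2 : Good_e' (0, 1) = 1 := by decide
    have e3 : Good_e' (1, 0) = 2 := by decide
    have e4 : Good_e' (1, 1) = 4 := by decide
    rw [e1, e2, e3, e4]
    ring
  rw [s1] at h1
  rw [s2] at h2
  have h5 : (5 : k) * (a 3 - a 4) = 0 := by linear_combination h1 - h2
  have h6 : (5 : k) ≠ 0 := by norm_num
  have h7 := (mul_eq_zero.1 h5).resolve_left h6
  have h8 := ha (sub_eq_zero.1 h7)
  exact absurd h8 (by decide)

end HK
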