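import Pool.Agent.H95.HK.FinS
import Pool.Agent.H95.HK.Good
import Pool.Agent.H95.HK.PhiC
import Pool.Agent.H95.HK.FinB1
import Pool.Agent.H95.HK.Blk
import Pool.Agent.H95.HJ.Final3

/-!
Module FinT (project HK, helper95).  The final theorem: every point of the curve lies in a quadruple of
linked points, and there is an infinite sequence of quadruples that are jointly independent.
-/

namespace HK

open HJ

private theorem FinT_trans {k : Type} [Field k] {u v w : Fin 2 → k} (hv : v ≠ 0)
    (h1 : dt u v = 0) (h2 : dt v w = 0) : dt u w = 0 := by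
  by_cases hu : u = 0
  · rw [hu]; simp [dt]
  obtain ⟨c, -, rfl⟩ := exists_smul_of_dt hu hv h1
  rw [dt_smul_left] at h2
  have hc : c ≠ 0 := by
    rintro rfl
    exact hv (zero_smul _ _)
  exact (mul_eq_zero.1 h2).resolve_left hc

/-- For a point `P` and an invertible matrix `M` there is at most one `t` such that `P` lies over
`M (t : 1)`. -/
private theorem FinT_sub {k : Type} [Field k] {n : ℕ} (H : Hyp k n)
    (M : Matrix (Fin 2) (Fin 2) k) (hM : M.det ≠ 0) (P : H.Pt) :
    {t : k | ∃ s : H.Tri k, s.mk' = P ∧ dt (M.mulVec ![t, 1]) s.v = 0}.Subsingleton := by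
  rintro t ⟨s, hs, h⟩ t' ⟨s', hs', h'⟩
  have hss : dt s.v s'.v = 0 := by
    have h1 : s.mk' = s'.mk' := by rw [hs, hs']
    obtain ⟨c, -, h2, -⟩ := (mk'_eq_iff _ _).1 h1
    exact dt_eq_zero_of_smul h2
  have h1 : dt (M.mulVec ![t, 1]) s'.v = 0 := FinT_trans s.ne h hss
  have h2 : dt s'.v (M.mulVec ![t', 1]) = 0 := by rw [dt_comm, h', neg_zero]
  have h3 : dt (M.mulVec ![t, 1]) (M.mulVec ![t', 1]) = 0 := FinT_trans s'.ne h1 h2
  rw [dt_mulVec] at h3
  have h4 := (mul_eq_zero.1 h3).resolve_left hM
  simp only [dt, Matrix.cons_val_zero, Matrix.cons_val_one] at h4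
  linear_combination h4

private theorem FinT_zpow {G : Type*} [CommGroup G] (x : G) (N : ℕ) (hN : 0 < N) (m : ℤ)
    (hm : m ≠ 0) (hx : ∀ K : ℕ, 0 < K → x ^ K ≠ 1)
    (h : N • m • (2 : ℤ) • Additive.ofMul x = 0) : False := by
  have h1 : ((N : ℤ) * (m * 2)) • Additive.ofMul x = 0 := by
    rw [mul_smul, mul_smul, natCast_zsmul]
    exact h
  have h2 : x ^ ((N : ℤ) * (m * 2)) = 1 := by
    have : Additive.ofMul (x ^ ((N : ℤ) * (m * 2))) = 0 := by
      rw [ofMul_zpow]; exact h1
    exact this
  have hne : (N : ℤ) * (m * 2) ≠ 0 :=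
    mul_ne_zero (by exact_mod_cast hN.ne') (mul_ne_zero hm two_ne_zero)
  apply hx ((N : ℤ) * (m * 2)).natAbs (Int.natAbs_pos.2 hne)
  rcases Int.natAbs_eq ((N : ℤ) * (m * 2)) with h3 | h3
  · rw [h3, zpow_natCast] at h2
    exact h2
  · rw [h3, zpow_neg, zpow_natCast, inv_eq_one] at h2
    exact h2

private theorem FinT_ee {k : Type} [Field k] {n : ℕ} (H : Hyp k n)
    (P : Pts (fun _ : Unit => H)) : ee (HJ.inv P) = -ee P := by
  have h : HJ.inv (HJ.inv P) = P := by
    obtain ⟨u, q⟩ := P
    unfold HJ.inv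
    simp only
    rw [Pt.inv_inv]
  unfold ee
  rw [h, neg_sub]

private theorem FinT_V : ∀ d₁ d₂ d : ZMod 2 × ZMod 2, d₁ ≠ 0 → d₂ ≠ 0 → d₁ ≠ d₂ →
    d = 0 ∨ d = d₁ ∨ d = d₂ ∨ d = d₁ + d₂ := by
  intro d₁ d₂ d h1 h2 h3
  have h0 : ∀ x : ZMod 2 × ZMod 2, x = (0, 0) ∨ x = (0, 1) ∨ x = (1, 0) ∨ x = (1, 1) := by
    decide
  rcases h0 d₁ with rfl | rfl | rfl | rfl <;> rcases h0 d₂ with rfl | rfl | rfl | rfl <;>
    rcases h0 d with rfl | rfl | rfl | rfl <;>
    first | exact absurd rfl h1 | exact absurd rfl h2 | exact absurd rfl h3 | decide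

private theorem FinT_V1 : ∀ b c : ZMod 2 × ZMod 2, (b + c) + b = c := by
  decide

private theorem FinT_V2 : ∀ b c : ZMod 2 × ZMod 2, (b + c) + c = b := by
  decide

private theorem FinT_V3 : ∀ b c : ZMod 2 × ZMod 2, b + c = 0 → b = c := by
  decide

private theorem FinT_V4 : ∀ b c d : ZMod 2 × ZMod 2, (b + c) + (c + d) = b + d := by
  decide

private theorem FinT_V5 : ∀ b c d : ZMod 2 × ZMod 2, b + c = b + d → c = d := by
  decide

private theorem FinT_V6 : ∀ b : ZMod 2 × ZMod 2, b + b = 0 := by
  decide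

private theorem FinT_filter {α : Type} (p : α → Prop) (inst : DecidablePred p)
    (s : Multiset α) (hp : ∀ a, p a) : @Multiset.filter α p inst s = s :=
  Multiset.filter_eq_self.2 fun a _ => hp a

/-- A point over `v` has homogeneous coordinates `(v, y)`. -/
private theorem FinT_rep {k : Type} [Field k] {n : ℕ} (H : Hyp k n) (s : H.Tri k) (v : Fin 2 → k)
    (hv : v ≠ 0) (h : dt s.v v = 0) :
    ∃ (y : k) (hy : y ^ 2 = H.F v), Hyp.Tri.mk' (H := H) ⟨v, y, hv, hy⟩ = s.mk' := by
  obtain ⟨c, hc, rfl⟩ := exists_smul_of_dt s.ne hv h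
  exact ⟨c ^ n * s.y, (s.smul c hc).eq, mk'_smul s c hc⟩

theorem final3 (a : Fin 5 → AK) (ha : Function.Injective a) :
    ∃ f : Pts (fun _ : Unit => quint a ha) → Fin 4 → Pts (fun _ : Unit => quint a ha),
      (∀ P, f P 0 = P) ∧
      (∃ Q : ℕ → Pts (fun _ : Unit => quint a ha), ∀ n : ℕ × Fin 4 →₀ ℤ,
        Tors _ (n.sum fun j b => b • ee (f (Q j.1) j.2)) → n = 0) ∧
      ∀ (m : ℕ) (c : Cyc (fun _ : Unit => quint a ha)),
        (∀ s ∈ c.support, Multiset.card s = m) →
        (∀ s ∈ c.support, ∃ (P : Pts (fun _ : Unit => quint a ha)) (N : ℕ), 0 < N ∧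
          N • (s.map ee).sum ∈ AddSubgroup.closure (Set.range fun j => ee (f P j)) ⊔ ratZero _) →
        (c.sum fun _ b => b) = 0 → Tors _ (c.sum fun s b => b • (s.map pt).sum) → Tors _ c := by
  classical
  have hfa : Fact (Function.Injective a) := ⟨ha⟩
  obtain ⟨e, M, he, hM0, hdet, hM, horb, d, hd⟩ := good_choice a ha
  have haut0 : IsAut a ha (M 0) :=
    ⟨Equiv.refl _, fun i => by rw [hM0, Matrix.one_mulVec, Equiv.refl_apply, dt_self]⟩
  have hclosed : ∀ b c, IsAut a ha (M b) → IsAut a ha (M c) → IsAut a ha (M (b + c)) :=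
    aut_closed a ha e he M hdet hM
  obtain ⟨ε, hε⟩ : ∃ ε : Fin 4 ≃ ZMod 2 × ZMod 2, ε 0 = 0 := by
    have ε₀ : Fin 4 ≃ ZMod 2 × ZMod 2 := Fintype.equivOfCardEq (by simp)
    exact ⟨ε₀.trans (Equiv.swap (ε₀ 0) 0), by simp⟩
  -- the quadruples
  have hex : ∀ (P : Pts (fun _ : Unit => quint a ha)) (j : Fin 4),
      ∃ q : (quint a ha).Pt, Over (M (ε j)) P.2 q ∧ (j = 0 → q = P.2) := by
    intro P j
    obtain ⟨s, hs⟩ := exists_mk' P.2
    by_cases hj : j = 0
    · refine ⟨P.2, ⟨s, s, hs, hs, ?_⟩, fun _ => rfl⟩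
      rw [hj, hε, hM0, Matrix.one_mulVec, dt_self]
    · obtain ⟨y, hy⟩ : ∃ y : AK, y ^ 2 = (quint a ha).F ((M (ε j)).mulVec s.v) :=
        IsAlgClosed.exists_pow_nat_eq _ two_pos
      refine ⟨Hyp.Tri.mk' ⟨(M (ε j)).mulVec s.v, y, mulVec_ne_zero (hdet _) s.ne, hy⟩,
        ⟨s, _, hs, rfl, dt_self _⟩, fun h => absurd h hj⟩
  choose g hg hg0 using hex
  refine ⟨fun P j => ⟨(), g P j⟩, ?_, ?_, ?_⟩
  · rintro ⟨u, P⟩
    exact congrArg (fun q => (⟨(), q⟩ : Pts (fun _ : Unit => quint a ha))) (hg0 ⟨u, P⟩ 0 rfl)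
  · -- the sequence
    obtain ⟨L, haL, hML, hstep⟩ := main_step a e he M hdet hM
    have hFL : ∀ t ∈ L, ∀ b, (quint a ha).F ((M b).mulVec ![t, 1]) ∈ L := fun t ht b =>
      F_mem a ha L haL (M b) (hML b) t ht
    obtain ⟨t, ht, htt⟩ := exists_seq_of_forall_finset_exists
      (fun t : AK => t ∈ L ∧
        (∀ b, ((M b).mulVec ![t, 1]) 1 ≠ 0 ∧ (quint a ha).F ((M b).mulVec ![t, 1]) ≠ 0) ∧
        (∀ (B : Finset (ZMod 2 × ZMod 2)), B.card ≤ 2 → B.Nonempty → ∀ y : ZMod 2 × ZMod 2 → AK,
          (∀ b ∈ B, y b ^ 2 = (quint a ha).F ((M b).mulVec ![t, 1])) → ∀ N : ℕ, 0 < N →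
          (∏ b ∈ B, cls (g := 2) a (((M b).mulVec ![t, 1]) 0 / ((M b).mulVec ![t, 1]) 1)
            (y b / ((M b).mulVec ![t, 1]) 1 ^ 3)) ^ N ≠ 1) ∧
        (∀ b c : ZMod 2 × ZMod 2, ¬ IsAut a ha (M (b + c)) → ∀ y y' : AK,
          y ^ 2 = (quint a ha).F ((M b).mulVec ![t, 1]) →
          y' ^ 2 = (quint a ha).F ((M c).mulVec ![t, 1]) → y * y' ∉ L) ∧
        (∀ b c : ZMod 2 × ZMod 2, IsAut a ha (M (b + c)) → ∀ y y' : AK,
          y ^ 2 = (quint a ha).F ((M b).mulVec ![t, 1]) →
          y' ^ 2 = (quint a ha).F ((M c).mulVec ![t, 1]) → y * y' ∈ L))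
      (fun t t' : AK => ∀ (b c : ZMod 2 × ZMod 2) (y y' : AK),
        y ^ 2 = (quint a ha).F ((M b).mulVec ![t, 1]) →
        y' ^ 2 = (quint a ha).F ((M c).mulVec ![t', 1]) → y * y' ∉ L) (by
      intro s hs
      obtain ⟨t, h1, -, h2, h3, h4, h5, h6⟩ := hstep (s.biUnion fun x => Finset.univ.image
        fun c : ZMod 2 × ZMod 2 => (quint a ha).F ((M c).mulVec ![x, 1])) (by
          intro w hw
          obtain ⟨x, hx, hw⟩ := Finset.mem_biUnion.1 hw
          obtain ⟨c, -, rfl⟩ := Finset.mem_image.1 hw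
          exact hFL x (hs x hx).1 c) ∅
      refine ⟨t, ⟨h1, h2, h3, h4, h5⟩, ?_⟩
      intro x hx b c y y' hy hy'
      rw [mul_comm]
      exact h6 c _ (Finset.mem_biUnion.2 ⟨x, hx, Finset.mem_image.2 ⟨b, Finset.mem_univ _, rfl⟩⟩)
        ((hs x hx).2.1 b).2 y' y hy' hy)
    have htL : ∀ i, t i ∈ L := fun i => (ht i).1
    have hne : ∀ i b, ((M b).mulVec ![t i, 1]) 1 ≠ 0 ∧
        (quint a ha).F ((M b).mulVec ![t i, 1]) ≠ 0 := fun i => (ht i).2.1
    have htor := fun i => (ht i).2.2.1
    have hvne : ∀ i (b : ZMod 2 × ZMod 2), (M b).mulVec ![t i, 1] ≠ 0 := by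
      intro i b h
      apply (hne i b).1
      rw [h]
      rfl
    have hv0 : ∀ i, (![t i, 1] : Fin 2 → AK) ≠ 0 := by
      intro i h
      have := congrFun h 1
      simp at this
    have hy0 : ∀ i, ∃ y₀ : AK, y₀ ^ 2 = (quint a ha).F (![t i, 1] : Fin 2 → AK) := fun i =>
      IsAlgClosed.exists_pow_nat_eq _ two_pos
    choose y₀ hy₀ using hy0
    let τ₀ : ℕ → (quint a ha).Tri AK := fun i => ⟨![t i, 1], y₀ i, hv0 i, hy₀ i⟩
    let Q : ℕ → Pts (fun _ : Unit => quint a ha) := fun i => ⟨(), (τ₀ i).mk'⟩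
    have hrep : ∀ i (b : ZMod 2 × ZMod 2), ∃ (y : AK)
        (hy : y ^ 2 = (quint a ha).F ((M b).mulVec ![t i, 1])),
        Hyp.Tri.mk' (H := quint a ha) ⟨(M b).mulVec ![t i, 1], y, hvne i b, hy⟩ =
          g (Q i) (ε.symm b) := by
      intro i b
      obtain ⟨s, t', hs, ht', hst⟩ := hg (Q i) (ε.symm b)
      rw [Equiv.apply_symm_apply] at hst
      have h1 : dt s.v ![t i, 1] = 0 := by
        have h2 : s.mk' = (τ₀ i).mk' := hs
        obtain ⟨c', -, h3, -⟩ := (mk'_eq_iff _ _).1 h2
        exact dt_eq_zero_of_smul h3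
      have h2 : dt t'.v ((M b).mulVec s.v) = 0 := by
        rw [dt_comm, hst, neg_zero]
      have h3 : dt ((M b).mulVec s.v) ((M b).mulVec ![t i, 1]) = 0 := by
        rw [dt_mulVec, h1, mul_zero]
      have h4 : dt t'.v ((M b).mulVec ![t i, 1]) = 0 :=
        FinT_trans (mulVec_ne_zero (hdet _) s.ne) h2 h3
      obtain ⟨y, hy, h5⟩ := FinT_rep (quint a ha) t' _ (hvne i b) h4
      exact ⟨y, hy, h5.trans ht'⟩
    choose y hy hrep using hrep
    have hyne : ∀ i b, y i b ≠ 0 := by
      intro i b h
      apply (hne i b).2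
      rw [← hy i b, h]
      ring
    let τ : ℕ → ZMod 2 × ZMod 2 → (quint a ha).Tri AK := fun i b =>
      ⟨(M b).mulVec ![t i, 1], y i b, hvne i b, hy i b⟩
    let Pb : ℕ → ZMod 2 × ZMod 2 → Pts (fun _ : Unit => quint a ha) := fun i b =>
      ⟨(), (τ i b).mk'⟩
    have hPb : ∀ i j, (⟨(), g (Q i) j⟩ : Pts (fun _ : Unit => quint a ha)) = Pb i (ε j) := by
      intro i j
      have := hrep i (ε j)
      rw [Equiv.symm_apply_apply] at this
      exact congrArg (fun q => (⟨(), q⟩ : Pts (fun _ : Unit => quint a ha))) this.symm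
    -- the classes
    have hcp : ∀ i b, cp a (τ i b).mk' = cls (g := 2) a (((M b).mulVec ![t i, 1]) 0 /
        ((M b).mulVec ![t i, 1]) 1) (y i b / ((M b).mulVec ![t i, 1]) 1 ^ 3) := fun i b =>
      cp_mk a (τ i b) (hne i b).1
    have hinv : ∀ i b, (cp a (τ i b).mk')⁻¹ = cls (g := 2) a (((M b).mulVec ![t i, 1]) 0 /
        ((M b).mulVec ![t i, 1]) 1) ((-y i b) / ((M b).mulVec ![t i, 1]) 1 ^ 3) := by
      intro i b
      rw [hcp i b, neg_div]
      exact (eq_inv_of_mul_eq_one_right
        (cls_conj (g := 2) a (quint_eq a (τ i b) (hne i b).1))).symm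
    have hN1 : ∀ i (b : ZMod 2 × ZMod 2) (m : ℤ), Tors _ (m • ee (Pb i b)) → m = 0 := by
      intro i b m hT
      by_contra hm
      obtain ⟨N, hN, h⟩ := hT
      have h1 := phi_rat a _ h
      rw [map_nsmul, map_zsmul, phi_ee] at h1
      refine FinT_zpow _ N hN m hm ?_ h1
      intro K hK
      change cp a (τ i b).mk' ^ K ≠ 1
      rw [hcp i b]
      have h2 := htor i {b} (by simp) (by simp) (y i) (fun b' _ => hy i b') K hK
      rw [Finset.prod_singleton] at h2
      exact h2
    have hN2 : ∀ i, ∀ b c : ZMod 2 × ZMod 2, b ≠ c → ∀ m : ℤ,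
        Tors _ (m • (ee (Pb i b) + ee (Pb i c))) → m = 0 := by
      intro i b c hbc m hT
      by_contra hm
      obtain ⟨N, hN, h⟩ := hT
      have h1 := phi_rat a _ h
      rw [map_nsmul, map_zsmul, map_add, phi_ee, phi_ee, ← smul_add, ← ofMul_mul] at h1
      refine FinT_zpow _ N hN m hm ?_ h1
      intro K hK
      change (cp a (τ i b).mk' * cp a (τ i c).mk') ^ K ≠ 1
      rw [hcp i b, hcp i c]
      have h2 := htor i {b, c} Finset.card_le_two (by simp) (y i) (fun b' _ => hy i b') K hK
      rw [Finset.prod_pair hbc] at h2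
      exact h2
    have hN3 : ∀ i, ∀ b c : ZMod 2 × ZMod 2, b ≠ c → ∀ m : ℤ,
        Tors _ (m • (ee (Pb i b) - ee (Pb i c))) → m = 0 := by
      intro i b c hbc m hT
      by_contra hm
      obtain ⟨N, hN, h⟩ := hT
      have h1 := phi_rat a _ h
      rw [map_nsmul, map_zsmul, map_sub, phi_ee, phi_ee, ← smul_sub, ← ofMul_div] at h1
      refine FinT_zpow _ N hN m hm ?_ h1
      intro K hK
      change (cp a (τ i b).mk' / cp a (τ i c).mk') ^ K ≠ 1
      rw [div_eq_mul_inv, hinv i c, hcp i b]
      have hy' : ∀ b' ∈ ({b, c} : Finset (ZMod 2 × ZMod 2)),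
          (Function.update (y i) c (-y i c)) b' ^ 2 =
            (quint a ha).F ((M b').mulVec ![t i, 1]) := by
        intro b' _
        by_cases h3 : b' = c
        · rw [h3, Function.update_self, neg_sq]
          exact hy i c
        · rw [Function.update_of_ne h3]
          exact hy i b'
      have h2 := htor i {b, c} Finset.card_le_two (by simp) _ hy' K hK
      rw [Finset.prod_pair hbc, Function.update_self, Function.update_of_ne hbc] at h2
      exact h2
    -- the matrices are multiplicative up to factors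
    have hi5 : Function.Injective i5 := by
      intro i j h
      apply Fin.ext
      exact Fin.mk.inj_iff.1 h
    have hind : ∀ x x' : ZMod 2 × ZMod 2, x ≠ x' →
        dt ((quint a ha).r (i5 (e x))) ((quint a ha).r (i5 (e x'))) ≠ 0 := fun x x' h =>
      (quint a ha).indep _ _ fun hh => h (he (hi5 hh))
    have hthree : ∀ (b c : ZMod 2 × ZMod 2) (x : Fin 2 → AK),
        dt ((M c).mulVec ((M b).mulVec x)) ((M (c + b)).mulVec x) = 0 := by
      intro b c x
      have hr : ∀ z : ZMod 2 × ZMod 2, dt ((M c * M b).mulVec ((quint a ha).r (i5 (e z))))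
          ((M (c + b)).mulVec ((quint a ha).r (i5 (e z)))) = 0 := by
        intro z
        rw [← Matrix.mulVec_mulVec]
        have h1 : dt ((M c).mulVec ((M b).mulVec ((quint a ha).r (i5 (e z)))))
            ((M c).mulVec ((quint a ha).r (i5 (e (b + z))))) = 0 := by
          rw [dt_mulVec, hM b z, mul_zero]
        have h2 := hM c (b + z)
        have h3 := hM (c + b) z
        rw [add_assoc] at h3
        have h3' : dt ((quint a ha).r (i5 (e (c + (b + z)))))
            ((M (c + b)).mulVec ((quint a ha).r (i5 (e z)))) = 0 := by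
          rw [dt_comm, h3, neg_zero]
        exact FinT_trans (mulVec_ne_zero (hdet _) ((quint a ha).r_ne _)) h1
          (FinT_trans ((quint a ha).r_ne _) h2 h3')
      rw [Matrix.mulVec_mulVec]
      exact eq_of_three (M c * M b) (M (c + b)) (by
          rw [Matrix.det_mul]
          exact mul_ne_zero (hdet _) (hdet _)) (hdet _) _ _ _ (hind (0, 0) (0, 1) (by decide))
        (hind (0, 0) (1, 0) (by decide)) (hind (0, 1) (1, 0) (by decide)) (hr _) (hr _) (hr _) x
    refine ⟨Q, fun n hn => ?_⟩
    -- a bound for the indices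
    obtain ⟨N₀, hN₀⟩ : ∃ N₀ : ℕ, ∀ j ∈ n.support, j.1 < N₀ :=
      ⟨(n.support.image Prod.fst).sup id + 1, fun j hj => Nat.lt_succ_of_le
        (Finset.le_sup (f := id) (Finset.mem_image_of_mem Prod.fst hj))⟩
    have hsum : (n.sum fun j b => b • ee (⟨(), g (Q j.1) j.2⟩ :
        Pts (fun _ : Unit => quint a ha))) =
        ∑ x : Fin N₀ × Fin 4, n ((x.1 : ℕ), x.2) • ee (Pb x.1 (ε x.2)) := by
      refine (Finsupp.sum_of_support_subset n (s := Finset.range N₀ ×ˢ Finset.univ) (by
        intro j hj
        exact Finset.mem_product.2 ⟨Finset.mem_range.2 (hN₀ j hj), Finset.mem_univ _⟩)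
        (fun j b => b • ee (⟨(), g (Q j.1) j.2⟩ : Pts (fun _ : Unit => quint a ha)))
        (fun j _ => zero_smul _ _)).trans ?_
      rw [Finset.sum_product, Finset.sum_range, Fintype.sum_prod_type]
      refine Finset.sum_congr rfl fun i _ => Finset.sum_congr rfl fun j _ => ?_
      rw [hPb]
    rw [hsum] at hn
    have hmain : (fun x : Fin N₀ × Fin 4 => n ((x.1 : ℕ), x.2)) = 0 := by
      refine sgn2 (Tors (fun _ : Unit => quint a ha)) (fun x y hx hy => hx.add hy)
        (fun n x hx => hx.zsmul n) (fun x : Fin N₀ × Fin 4 => ee (Pb x.1 (ε x.2)))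
        (fun x x' => x.1 = x'.1 ∧ IsAut a ha (M (ε x.2 + ε x'.2))) ⟨?_, ?_, ?_⟩ ?_ ?_ _ hn
      · intro l
        refine ⟨rfl, ?_⟩
        rw [FinT_V6]
        exact haut0
      · intro l l' h
        refine ⟨h.1.symm, ?_⟩
        rw [add_comm]
        exact h.2
      · intro l l' l'' h h'
        have := hclosed _ _ h.2 h'.2
        rw [FinT_V4] at this
        exact ⟨h.1.trans h'.1, this⟩
      · -- the blocks
        rintro ⟨i, j⟩ m hT
        by_cases hex : ∃ l₀, l₀ ≠ j ∧ IsAut a ha (M (ε j + ε l₀))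
        · obtain ⟨l₀, hl₀, hA⟩ := hex
          have hjl : ε j ≠ ε l₀ := fun h => hl₀ (ε.injective h).symm
          have hcls : ∀ l, IsAut a ha (M (ε j + ε l)) → l = j ∨ l = l₀ := by
            intro l hl
            by_contra hc
            push Not at hc
            apply hd
            have hz : ∀ x, IsAut a ha (M x) := by
              intro x
              rcases FinT_V (ε j + ε l₀) (ε j + ε l) x
                (fun h => hjl (FinT_V3 _ _ h))
                (fun h => hc.1 (ε.injective (FinT_V3 _ _ h)).symm)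
                (fun h => hc.2 (ε.injective (FinT_V5 _ _ _ h)).symm) with h | h | h | h
              · rw [h]; exact haut0
              · rw [h]; exact hA
              · rw [h]; exact hl
              · rw [h]; exact hclosed _ _ hA hl
            exact hz d
          have hT2 : Tors (fun _ : Unit => quint a ha)
              (∑ l ∈ ({(i, j), (i, l₀)} : Finset (Fin N₀ × Fin 4)),
                m l • ee (Pb l.1 (ε l.2))) := by
            convert hT using 2
            ext ⟨i', l⟩
            simp only [Finset.mem_filter, Finset.mem_univ, true_and, Finset.mem_insert,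
              Finset.mem_singleton, Prod.mk.injEq]
            constructor
            · rintro (⟨h, h'⟩ | ⟨h, h'⟩)
              · refine ⟨h.symm, ?_⟩
                rw [h', FinT_V6]; exact haut0
              · refine ⟨h.symm, ?_⟩
                rw [h']; exact hA
            · rintro ⟨h, hl⟩
              rcases hcls l hl with h' | h'
              · exact Or.inl ⟨h.symm, h'⟩
              · exact Or.inr ⟨h.symm, h'⟩
          rw [Finset.sum_pair (by
            intro h
            exact hl₀ (Prod.mk.inj h).2.symm)] at hT2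
          obtain ⟨π, hπ⟩ := hA
          obtain ⟨μ, hμ1, hμ2, hμ3⟩ := exists_aut (quint a ha) (M (ε j + ε l₀)) (hdet _) π hπ
          have hmove : ∀ b c : ZMod 2 × ZMod 2, (ε j + ε l₀) + b = c →
              μ (Pb i b) = Pb i c ∨ μ (Pb i b) = HJ.inv (Pb i c) := by
            intro b c hbc
            obtain ⟨s, t', hs, ht', hst⟩ := hμ1 (Pb i b)
            have h1 : dt s.v (τ i b).v = 0 := by
              have h2 : s.mk' = (τ i b).mk' := hs
              obtain ⟨c', -, h3, -⟩ := (mk'_eq_iff _ _).1 h2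
              exact dt_eq_zero_of_smul h3
            have h2 : dt t'.v ((M (ε j + ε l₀)).mulVec s.v) = 0 := by
              rw [dt_comm, hst, neg_zero]
            have h3 : dt ((M (ε j + ε l₀)).mulVec s.v)
                ((M (ε j + ε l₀)).mulVec (τ i b).v) = 0 := by
              rw [dt_mulVec, h1, mul_zero]
            have h4 : dt ((M (ε j + ε l₀)).mulVec (τ i b).v) (τ i c).v = 0 := by
              have := hthree b (ε j + ε l₀) ![t i, 1]
              rw [hbc] at this
              exact this
            have h5 : dt t'.v (τ i c).v = 0 :=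
              FinT_trans (mulVec_ne_zero (hdet _) s.ne) h2
                (FinT_trans (mulVec_ne_zero (hdet _) (τ i b).ne) h3 h4)
            have hη : μ (Pb i b) = ⟨(), (μ (Pb i b)).2⟩ := rfl
            have ht2 : t'.mk' = (μ (Pb i b)).2 := ht'
            rcases eq_or_inv t' (τ i c) h5 with h6 | h6
            · left
              rw [hη, ← ht2, ← h6]
            · right
              rw [hη, ← ht2]
              change (⟨(), t'.mk'⟩ : Pts (fun _ : Unit => quint a ha)) = ⟨(), (τ i c).mk'.inv⟩
              rw [h6, Pt.inv_inv]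
          have hblk := pair_block (quint a ha) μ hμ2 hμ3 (Pb i (ε j)) (Pb i (ε l₀))
            (hmove _ _ (FinT_V1 _ _)) (hmove _ _ (FinT_V2 _ _)) (hN1 _ _) (hN2 _ _ _ hjl)
            (hN3 _ _ _ hjl) (m (i, j)) (m (i, l₀)) hT2
          rintro ⟨i', l⟩ ⟨hi, hl⟩
          obtain rfl : i = i' := hi
          rcases hcls l hl with h | h
          · rw [h]; exact hblk.1
          · rw [h]; exact hblk.2
        · have hcls : ∀ l, IsAut a ha (M (ε j + ε l)) → l = j := by
            intro l hl
            by_contra hc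
            exact hex ⟨l, hc, hl⟩
          have hT2 : Tors (fun _ : Unit => quint a ha)
              (∑ l ∈ ({(i, j)} : Finset (Fin N₀ × Fin 4)), m l • ee (Pb l.1 (ε l.2))) := by
            convert hT using 2
            ext ⟨i', l⟩
            simp only [Finset.mem_filter, Finset.mem_univ, true_and, Finset.mem_singleton,
              Prod.mk.injEq]
            constructor
            · rintro ⟨h, h'⟩
              refine ⟨h.symm, ?_⟩
              rw [h', FinT_V6]; exact haut0
            · rintro ⟨h, hl⟩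
              exact ⟨h.symm, hcls l hl⟩
          rw [Finset.sum_singleton] at hT2
          rintro ⟨i', l⟩ ⟨hi, hl⟩
          obtain rfl : i = i' := hi
          rw [hcls l hl]
          exact hN1 _ _ _ hT2
      · -- the Galois action
        rintro ⟨i, j⟩ ⟨i', j'⟩ hjj
        have hnot : y i (ε j) * y i' (ε j') ∉ L := by
          rcases lt_trichotomy (i : ℕ) (i' : ℕ) with h | h | h
          · exact htt i i' h _ _ _ _ (hy _ _) (hy _ _)
          · have h' : i = i' := Fin.ext h
            subst h'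
            exact (ht i).2.2.2.1 _ _ (fun hA => hjj ⟨rfl, hA⟩) _ _ (hy _ _) (hy _ _)
          · rw [mul_comm]
            exact htt i' i h _ _ _ _ (hy _ _) (hy _ _)
        have hsq : (y i (ε j) * y i' (ε j')) ^ 2 ∈ L := by
          rw [mul_pow, hy, hy]
          exact L.mul_mem (hFL _ (htL _) _) (hFL _ (htL _) _)
        obtain ⟨σ, hσL, hσy⟩ := exists_conj L _ hnot hsq
        have hσr : ∀ i l, σ ((quint a ha).r i l) = (quint a ha).r i l := by
          intro i l
          by_cases hi : (i : ℕ) < 5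
          · have h1 : (quint a ha).r i = ![a ⟨i, hi⟩, 1] := dif_pos hi
            rw [h1]
            fin_cases l
            · exact hσL _ (haL _)
            · exact map_one σ
          · have h1 : (quint a ha).r i = ![-1, 0] := dif_neg hi
            rw [h1]
            fin_cases l
            · change σ (-1) = -1
              rw [map_neg, map_one]
            · exact map_zero σ
        have hσv : ∀ (i : ℕ) b l, σ (((M b).mulVec ![t i, 1]) l) =
            ((M b).mulVec ![t i, 1]) l := by
          intro i b l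
          have hσM : ∀ b i j, σ (M b i j) = M b i j := fun b i j => hσL _ (hML b i j)
          simp only [Matrix.mulVec, dotProduct, Fin.sum_univ_two, Matrix.cons_val_zero,
            Matrix.cons_val_one, map_add, map_mul, map_one, hσM, hσL _ (htL i)]
        have hσ2 : ∀ (i : ℕ) b, σ (y i b) = y i b ∨ σ (y i b) = -y i b := by
          intro i b
          apply sq_eq_sq_iff_eq_or_eq_neg.1
          have h1 := (triMap (quint a ha) σ hσr (τ i b)).eq
          have h2 : (triMap (quint a ha) σ hσr (τ i b)).v = (τ i b).v :=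
            funext fun l => hσv i b l
          rw [h2] at h1
          exact h1.trans (hy i b).symm
        refine ⟨cycMap (quint a ha) σ hσr,
          fun x => if σ (y x.1 (ε x.2)) = y x.1 (ε x.2) then 1 else -1,
          fun x hx => cyc_tors _ σ hσr x hx, ?_, ?_, ?_, ?_⟩
        · intro l
          by_cases h : σ (y l.1 (ε l.2)) = y l.1 (ε l.2)
          · left; exact if_pos h
          · right; exact if_neg h
        · rintro ⟨i, l⟩
          rw [cycMap_ee]
          by_cases h : σ (y i (ε l)) = y i (ε l)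
          · have h1 : triMap (quint a ha) σ hσr (τ i (ε l)) = τ i (ε l) := by
              have h2 : (fun j => σ (((M (ε l)).mulVec ![t i, 1]) j)) =
                  (M (ε l)).mulVec ![t i, 1] := funext fun j => hσv _ _ _
              simp only [triMap, τ, h, h2]
            have h3 : ptsMap (quint a ha) σ hσr (Pb i (ε l)) = Pb i (ε l) := by
              change (⟨(), ptMap (quint a ha) σ hσr (τ i (ε l)).mk'⟩ :
                Pts (fun _ : Unit => quint a ha)) = _
              rw [ptMap_mk, h1]
            dsimp only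
            rw [h3, if_pos h, one_smul]
          · have h' : σ (y i (ε l)) = -y i (ε l) := (hσ2 _ _).resolve_left h
            have h1 : triMap (quint a ha) σ hσr (τ i (ε l)) = (τ i (ε l)).neg := by
              have h2 : (fun j => σ (((M (ε l)).mulVec ![t i, 1]) j)) =
                  (M (ε l)).mulVec ![t i, 1] := funext fun j => hσv _ _ _
              simp only [triMap, τ, Hyp.Tri.neg, h', h2]
            have h3 : ptsMap (quint a ha) σ hσr (Pb i (ε l)) = HJ.inv (Pb i (ε l)) := by
              change (⟨(), ptMap (quint a ha) σ hσr (τ i (ε l)).mk'⟩ :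
                Pts (fun _ : Unit => quint a ha)) = ⟨(), (τ i (ε l)).mk'.inv⟩
              rw [ptMap_mk, h1, mk'_neg]
            dsimp only
            rw [h3, if_neg h, FinT_ee, neg_smul, one_smul]
        · rintro ⟨i, l⟩ ⟨i', l'⟩ ⟨hi, hll⟩
          obtain rfl : i = i' := hi
          have h1 : σ (y i (ε l) * y i (ε l')) = y i (ε l) * y i (ε l') :=
            hσL _ ((ht i).2.2.2.2 _ _ hll _ _ (hy _ _) (hy _ _))
          rw [map_mul] at h1
          dsimp only
          by_cases h : σ (y i (ε l)) = y i (ε l)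
          · have h' : σ (y i (ε l')) = y i (ε l') := by
              rw [h] at h1
              exact mul_left_cancel₀ (hyne _ _) h1
            rw [if_pos h, if_pos h']
          · have h' : ¬ σ (y i (ε l')) = y i (ε l') := by
              intro h'
              apply h
              rw [h'] at h1
              exact mul_right_cancel₀ (hyne _ _) h1
            rw [if_neg h, if_neg h']
        · have hprod : y i (ε j) * y i' (ε j') ≠ 0 := mul_ne_zero (hyne _ _) (hyne _ _)
          have hcontra : σ (y i (ε j) * y i' (ε j')) ≠ y i (ε j) * y i' (ε j') := by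
            rw [hσy]
            intro h
            apply hprod
            have h2 : (2 : AK) * (y i (ε j) * y i' (ε j')) = 0 := by linear_combination -h
            exact (mul_eq_zero.1 h2).resolve_left two_ne_zero
          intro hs
          dsimp only at hs
          apply hcontra
          rw [map_mul]
          by_cases h1 : σ (y i (ε j)) = y i (ε j)
          · by_cases h2 : σ (y i' (ε j')) = y i' (ε j')
            · rw [h1, h2]
            · rw [if_pos h1, if_neg h2] at hs
              norm_num at hs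
          · by_cases h2 : σ (y i' (ε j')) = y i' (ε j')
            · rw [if_neg h1, if_pos h2] at hs
              norm_num at hs
            · rw [(hσ2 _ _).resolve_left h1, (hσ2 _ _).resolve_left h2]
              ring
    ext ⟨i, j⟩
    by_cases hij : (i, j) ∈ n.support
    · exact congrFun hmain (⟨i, hN₀ _ hij⟩, j)
    · exact Finsupp.notMem_support_iff.1 hij
  · intro m c hm hsupp hdeg halb
    have hpart : ∀ (s : Multiset (Pts (fun _ : Unit => quint a ha))) (i : Unit),
        part i s = s := by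
      intro s i
      unfold part
      exact FinT_filter _ _ s fun _ => Subsingleton.elim _ _
    refine main_orth (fun _ : Unit => quint a ha) (fun _ => m) c ?_ ?_ hdeg ?_
    · intro s hs i
      rw [hpart]
      exact hm s hs
    · intro s hs
      obtain ⟨P, N, hN, h⟩ := hsupp s hs
      refine ⟨Set.range fun j => (⟨(), g P j⟩ : Pts (fun _ : Unit => quint a ha)), ?_, ?_⟩
      · apply orth_of_linked
        rintro _ ⟨i, rfl⟩ _ ⟨j, rfl⟩ -
        rcases horb P.2 (ε i) (ε j) (g P i) (g P j) (hg P i) (hg P j) with h1 | h1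
        · exact Linked.inv () _ _ h1
        · exact Linked.iso () () _ _ h1
      · intro i
        refine ⟨N, hN, ?_⟩
        rw [hpart, ← Set.range_comp]
        exact h
    · intro i
      have h1 : (c.sum fun s a => a • ((part i s).map pt).sum) =
          c.sum fun s b => b • (s.map pt).sum := by
        refine Finsupp.sum_congr fun s _ => ?_
        rw [hpart]
      rw [h1]
      exact halb

end HK
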