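import Pool.Agent.H95.HK.CRb

/-!
Module CRc (project HK, helper95).  Powers of the ideal of a point; factorization of principal ideals.
PROOFS.
* exists_pm: induction on m (Hensel).  m = 0: pm = C y.  (X - x) ^ m | F - pm ^ 2 =: (X - x) ^ m * R, m ≥ 1, pm(x) = y: pm' = pm + C (R(x) / (2 y)) * (X - x) ^ m:
  F - pm' ^ 2 = (X - x) ^ m (R - 2 pm C(..) - C(..) ^ 2 (X - x) ^ m), and the bracket vanishes at x.  (m = 1: F - y ^ 2 vanishes at x.)
* pow_mem.  el u w = el (u + w pm) 0 + el w 0 * el (-pm) 1.  el (X - x) 0 ∈ P, so the first summand is in P ^ m.  el (-pm) 1 * el pm 1 = el (F - pm ^ 2) 0 ∈ P ^ m,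
  and el pm 1 ∉ P (pI_mem: 2 y ≠ 0): as P is maximal, el (-pm) 1 ∈ P ^ m (P + (el pm 1) = ⊤, so P ^ m + (el pm 1) = ⊤).
* fact.  Let c be the automorphism of CR F with c (el u w) = el u (- w) (AdjoinRoot.lift) ; it maps pI x y to pI x (-y).  The nonzero ideal span {f} of the Dedekind domain
  is a product of maximal ideals, each of them a pI x y (exists_pI): span {f} = ∏_{P ∈ S} pI P.  Then span {c f} = ∏ pI (x_P, - y_P), and
  span {f * c f} = ∏ pI (x_P, y_P) * pI (x_P, - y_P) = span {el (∏ (X - x_P)) 0} (pI_mul_conj).  f * c f = el (u ^ 2 - w ^ 2 F) 0, so u ^ 2 - w ^ 2 F and ∏ (X - x_P)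
  are associated in K[X] (el p 0 = unit * el q 0: units of CR F ... or: p | q in CR F with p, q ∈ K[X] implies p | q in K[X], by el_inj), so the roots agree.
* fact_unique: unique factorization of ideals (pI_inj: multisets of points ↔ multisets of maximal ideals).
-/

namespace HK

open Polynomial

variable {K : Type*} [Field K] [CharZero K] {g : ℕ} (a : Fin (2 * g + 1) → K)
  [Fact (Function.Injective a)]

theorem exists_pm (F : K[X]) {x y : K} (h : y ^ 2 = F.eval x) (hy : y ≠ 0) (m : ℕ) :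
    ∃ pm : K[X], pm.eval x = y ∧ (X - C x) ^ m ∣ F - pm ^ 2 := by
  have key : ∀ m : ℕ, ∃ pm : K[X], pm.eval x = y ∧ (X - C x) ^ (m + 1) ∣ F - pm ^ 2 := by
    intro m
    induction m with
    | zero =>
      refine ⟨C y, by simp, ?_⟩
      rw [zero_add, pow_one, dvd_iff_isRoot, IsRoot.def]
      simp [h]
    | succ m ih =>
      obtain ⟨pm, hpm, R, hR⟩ := ih
      set t : K := R.eval x / (2 * y) with ht
      have h2y : (2 * y) ≠ 0 := mul_ne_zero two_ne_zero hy
      refine ⟨pm + C t * (X - C x) ^ (m + 1), ?_, ?_⟩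
      · simp [hpm]
      · have e1 : F - (pm + C t * (X - C x) ^ (m + 1)) ^ 2 =
            (X - C x) ^ (m + 1) * (R - 2 * pm * C t - C t ^ 2 * (X - C x) ^ (m + 1)) := by
          linear_combination hR
        have e2 : (X - C x) ∣ R - 2 * pm * C t - C t ^ 2 * (X - C x) ^ (m + 1) := by
          rw [dvd_iff_isRoot, IsRoot.def]
          simp only [eval_sub, eval_mul, eval_pow, eval_C, eval_X, eval_ofNat, sub_self, hpm]
          rw [zero_pow (Nat.succ_ne_zero m), ht]
          field_simp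
          ring
        rw [e1, pow_succ (X - C x) (m + 1)]
        exact mul_dvd_mul_left _ e2
  cases m with
  | zero => exact ⟨C y, by simp, by simp⟩
  | succ m => exact key m

theorem pow_mem (F : K[X]) {x y : K} (h : y ^ 2 = F.eval x) (hy : y ≠ 0) (m : ℕ) (pm : K[X])
    (hpm : pm.eval x = y) (hpm' : (X - C x) ^ m ∣ F - pm ^ 2) (u w : K[X])
    (hu : (X - C x) ^ m ∣ u + w * pm) : el F u w ∈ pI F x y ^ m := by
  have hX : el F (X - C x) 0 ∈ pI F x y := by
    rw [pI_mem F h]; simp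
  have hpow : ∀ n : ℕ, el F ((X - C x) ^ n) 0 = el F (X - C x) 0 ^ n := by
    intro n
    induction n with
    | zero => rw [pow_zero, pow_zero, el_one]
    | succ n ih => rw [pow_succ, pow_succ, ← ih, el_mul]; simp
  have hdv : ∀ p : K[X], (X - C x) ^ m ∣ p → el F p 0 ∈ pI F x y ^ m := by
    rintro p ⟨q, rfl⟩
    have e : el F ((X - C x) ^ m * q) 0 = el F (X - C x) 0 ^ m * el F q 0 := by
      rw [← hpow, el_mul]; simp
    rw [e]
    exact Ideal.mul_mem_right _ _ (Ideal.pow_mem_pow hX m)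
  have hsplit : el F u w = el F (u + w * pm) 0 + el F w 0 * el F (-pm) 1 := by
    rw [el_mul, el_add]
    congr 1 <;> ring
  have hnot : el F pm 1 ∉ pI F x y := by
    rw [pI_mem F h, hpm, eval_one, one_mul]
    intro h0
    apply hy
    have : (2 : K) * y = 0 := by rw [two_mul]; exact h0
    exact (mul_eq_zero.1 this).resolve_left two_ne_zero
  have hprod : el F (-pm) 1 * el F pm 1 ∈ pI F x y ^ m := by
    have e : el F (-pm) 1 * el F pm 1 = el F (F - pm ^ 2) 0 := by
      rw [el_mul]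
      congr 1 <;> ring
    rw [e]
    exact hdv _ hpm'
  have hmem : el F (-pm) 1 ∈ pI F x y ^ m := by
    obtain ⟨z, i, hi, hz⟩ := (pI_isMaximal F h).exists_inv hnot
    have hco : IsCoprime (pI F x y) (Ideal.span {el F pm 1}) := by
      rw [Ideal.isCoprime_iff_exists]
      refine ⟨i, hi, z * el F pm 1, Ideal.mem_span_singleton'.2 ⟨z, rfl⟩, ?_⟩
      rw [add_comm]
      exact hz
    have hco' : IsCoprime (pI F x y ^ m) (Ideal.span {el F pm 1}) := hco.pow_left
    obtain ⟨i', hi', j, hj, hij⟩ := Ideal.isCoprime_iff_exists.1 hco'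
    obtain ⟨r, rfl⟩ := Ideal.mem_span_singleton'.1 hj
    have e : el F (-pm) 1 = el F (-pm) 1 * i' + r * (el F (-pm) 1 * el F pm 1) := by
      linear_combination (-el F (-pm) 1) * hij
    rw [e]
    exact Ideal.add_mem _ (Ideal.mul_mem_left _ _ hi') (Ideal.mul_mem_left _ _ hprod)
  rw [hsplit]
  exact Ideal.add_mem _ (hdv _ hu) (Ideal.mul_mem_left _ _ hmem)

section conj

variable {κ : Type*} [Field κ] (F : κ[X])

/-- The automorphism `y ↦ -y` of the coordinate ring. -/
noncomputable def CRc_cj : CR F →+* CR F :=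
  AdjoinRoot.lift (AdjoinRoot.of (X ^ 2 - C F : κ[X][X])) (-AdjoinRoot.root (X ^ 2 - C F : κ[X][X]))
    (by
      have h := AdjoinRoot.eval₂_root (X ^ 2 - C F : κ[X][X])
      rw [eval₂_sub, eval₂_pow, eval₂_X, eval₂_C] at h ⊢
      rw [neg_sq]
      exact h)

theorem CRc_cj_el (u w : κ[X]) : CRc_cj F (el F u w) = el F u (-w) := by
  unfold CRc_cj el
  rw [map_add, map_mul, AdjoinRoot.lift_of, AdjoinRoot.lift_of, AdjoinRoot.lift_root, map_neg]
  ring

theorem CRc_neg_el (u w : κ[X]) : -el F u w = el F (-u) (-w) := by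
  unfold el
  rw [map_neg, map_neg]
  ring

theorem CRc_map_pI {x y : κ} (h : y ^ 2 = F.eval x) :
    Ideal.map (CRc_cj F) (pI F x y) = pI F x (-y) := by
  have h' : (-y) ^ 2 = F.eval x := by rw [neg_sq]; exact h
  apply le_antisymm
  · rw [pI, Ideal.map_span, Ideal.span_le]
    rintro _ ⟨z, hz, rfl⟩
    rcases hz with rfl | hz
    · rw [CRc_cj_el]
      show el F (X - C x) (-0) ∈ pI F x (-y)
      rw [pI_mem F h']
      simp
    · rw [Set.mem_singleton_iff] at hz
      rw [hz, CRc_cj_el]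
      show el F (C (-y)) (-1) ∈ pI F x (-y)
      rw [pI_mem F h']
      simp
  · rw [pI, Ideal.span_le]
    intro z hz
    rcases hz with rfl | hz
    · have e : el F (X - C x) 0 = CRc_cj F (el F (X - C x) 0) := by
        rw [CRc_cj_el, neg_zero]
      rw [e]
      refine Ideal.mem_map_of_mem _ ?_
      rw [pI_mem F h]; simp
    · rw [Set.mem_singleton_iff] at hz
      have e : el F (C (-(-y))) 1 = -CRc_cj F (el F (C (-y)) 1) := by
        rw [CRc_cj_el, CRc_neg_el, ← C_neg, neg_neg (1 : κ[X])]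
      rw [hz, e]
      refine neg_mem (Ideal.mem_map_of_mem _ ?_)
      rw [pI_mem F h]; simp

theorem CRc_dvd {p q : κ[X]} (h : el F p 0 ∣ el F q 0) : p ∣ q := by
  obtain ⟨z, hz⟩ := h
  obtain ⟨s, t, rfl⟩ := el_surj F z
  rw [el_mul] at hz
  have := (el_inj F hz).1
  exact ⟨s, by rw [this]; ring⟩

end conj

theorem CRc_lift (M : Multiset (Ideal (CR (FF a))))
    (hM : ∀ P ∈ M, ∃ x y : K, y ^ 2 = (FF a).eval x ∧ P = pI (FF a) x y) :
    ∃ S : Multiset (K × K), (∀ P ∈ S, P.2 ^ 2 = (FF a).eval P.1) ∧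
      S.map (fun P => pI (FF a) P.1 P.2) = M := by
  induction M using Multiset.induction_on with
  | empty => exact ⟨0, by simp, rfl⟩
  | cons P M ih =>
    obtain ⟨S, hS, hSM⟩ := ih fun P hP => hM P (Multiset.mem_cons_of_mem hP)
    obtain ⟨x, y, hxy, hP⟩ := hM P (Multiset.mem_cons_self _ _)
    refine ⟨(x, y) ::ₘ S, ?_, ?_⟩
    · intro Q hQ
      rcases Multiset.mem_cons.1 hQ with rfl | hQ
      · exact hxy
      · exact hS Q hQ
    · rw [Multiset.map_cons, hSM, hP]

theorem CRc_prod_map (S : Multiset (K × K)) (hS : ∀ P ∈ S, P.2 ^ 2 = (FF a).eval P.1) :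
    (S.map fun P => pI (FF a) P.1 P.2).prod * (S.map fun P => pI (FF a) P.1 (-P.2)).prod =
      Ideal.span {el (FF a) (S.map fun P => X - C P.1).prod 0} ∧
    Ideal.map (CRc_cj (FF a)) (S.map fun P => pI (FF a) P.1 P.2).prod =
      (S.map fun P => pI (FF a) P.1 (-P.2)).prod := by
  induction S using Multiset.induction_on with
  | empty =>
    constructor
    · rw [Multiset.map_zero, Multiset.map_zero, Multiset.map_zero, Multiset.prod_zero,
        Multiset.prod_zero, el_one, one_mul, Ideal.span_singleton_one, Ideal.one_eq_top]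
    · simp only [Multiset.map_zero, Multiset.prod_zero, Ideal.one_eq_top]
      exact Ideal.map_top _
  | cons P S ih =>
    obtain ⟨h1, h2⟩ := ih fun Q hQ => hS Q (Multiset.mem_cons_of_mem hQ)
    have hP := hS P (Multiset.mem_cons_self _ _)
    constructor
    · simp only [Multiset.map_cons, Multiset.prod_cons]
      have e1 : el (FF a) ((X - C P.1) * (S.map fun P => X - C P.1).prod) 0 =
          el (FF a) (X - C P.1) 0 * el (FF a) (S.map fun P => X - C P.1).prod 0 := by
        rw [el_mul]; simp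
      rw [e1, ← Ideal.span_singleton_mul_span_singleton, ← pI_mul_conj a hP, ← h1]
      ring
    · simp only [Multiset.map_cons, Multiset.prod_cons]
      rw [Ideal.map_mul, CRc_map_pI (FF a) hP, h2]

theorem fact [IsAlgClosed K] (u w : K[X]) (h0 : u ≠ 0 ∨ w ≠ 0) :
    ∃ S : Multiset (K × K), (∀ P ∈ S, P.2 ^ 2 = (FF a).eval P.1) ∧
      Ideal.span {el (FF a) u w} = (S.map fun P => pI (FF a) P.1 P.2).prod ∧
      S.map Prod.fst = (u ^ 2 - w ^ 2 * FF a).roots := by
  have hne : el (FF a) u w ≠ 0 := by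
    intro h
    rw [← el_zero] at h
    obtain ⟨h1, h2⟩ := el_inj _ h
    rcases h0 with h0 | h0
    · exact h0 h1
    · exact h0 h2
  have hI : Ideal.span {el (FF a) u w} ≠ ⊥ := by
    rw [Ne, Ideal.span_singleton_eq_bot]
    exact hne
  have hM : ∀ P ∈ UniqueFactorizationMonoid.normalizedFactors (Ideal.span {el (FF a) u w}),
      ∃ x y : K, y ^ 2 = (FF a).eval x ∧ P = pI (FF a) x y := by
    intro P hP
    have hpr := UniqueFactorizationMonoid.prime_of_normalized_factor P hP
    have hPb : P ≠ ⊥ := hpr.ne_zero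
    have hPp : P.IsPrime := Ideal.isPrime_of_prime hpr
    exact exists_pI (FF a) P (hPp.isMaximal hPb) hPb
  obtain ⟨S, hS, hSM⟩ := CRc_lift a _ hM
  have hprod : Ideal.span {el (FF a) u w} = (S.map fun P => pI (FF a) P.1 P.2).prod := by
    rw [hSM]
    exact (Ideal.prod_normalizedFactors_eq_self hI).symm
  refine ⟨S, hS, hprod, ?_⟩
  obtain ⟨h1, h2⟩ := CRc_prod_map a S hS
  rw [← hprod] at h1 h2
  rw [← h2, Ideal.map_span, Set.image_singleton, CRc_cj_el,
    Ideal.span_singleton_mul_span_singleton, el_mul] at h1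
  have e1 : u * u + w * -w * FF a = u ^ 2 - w ^ 2 * FF a := by ring
  have e2 : u * -w + w * u = 0 := by ring
  rw [e1, e2] at h1
  have hd1 : u ^ 2 - w ^ 2 * FF a ∣ (S.map fun P => X - C P.1).prod :=
    CRc_dvd (FF a) (Ideal.span_singleton_le_span_singleton.1 h1.ge)
  have hd2 : (S.map fun P => X - C P.1).prod ∣ u ^ 2 - w ^ 2 * FF a :=
    CRc_dvd (FF a) (Ideal.span_singleton_le_span_singleton.1 h1.le)
  have hroots : ((S.map fun P => X - C P.1).prod : K[X]).roots = S.map Prod.fst := by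
    have := roots_multiset_prod_X_sub_C (S.map Prod.fst)
    rw [Multiset.map_map] at this
    exact this
  have hQ0 : ((S.map fun P => X - C P.1).prod : K[X]) ≠ 0 := by
    refine Multiset.prod_ne_zero fun h => ?_
    obtain ⟨P, _, hP⟩ := Multiset.mem_map.1 h
    exact X_sub_C_ne_zero _ hP
  have hN0 : u ^ 2 - w ^ 2 * FF a ≠ 0 := ne_zero_of_dvd_ne_zero hQ0 hd1
  rw [← hroots]
  exact le_antisymm (roots.le_of_dvd hN0 hd2) (roots.le_of_dvd hQ0 hd1)

theorem fact_unique (S S' : Multiset (K × K)) (hS : ∀ P ∈ S, P.2 ^ 2 = (FF a).eval P.1)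
    (hS' : ∀ P ∈ S', P.2 ^ 2 = (FF a).eval P.1)
    (h : (S.map fun P => pI (FF a) P.1 P.2).prod ≤ (S'.map fun P => pI (FF a) P.1 P.2).prod) :
    S' ≤ S := by
  induction S' using Multiset.induction_on generalizing S with
  | empty => exact Multiset.zero_le S
  | cons P T ih =>
    have hP := hS' P (Multiset.mem_cons_self _ _)
    have hmax := pI_isMaximal (FF a) hP
    rw [Multiset.map_cons, Multiset.prod_cons] at h
    have h1 : (S.map fun P => pI (FF a) P.1 P.2).prod ≤ pI (FF a) P.1 P.2 :=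
      h.trans Ideal.mul_le_left
    rw [Ideal.IsPrime.multiset_prod_le hmax.isPrime] at h1
    obtain ⟨J, hJ, hJP⟩ := h1
    obtain ⟨Q, hQ, rfl⟩ := Multiset.mem_map.1 hJ
    have hQmax := pI_isMaximal (FF a) (hS Q hQ)
    have e := hQmax.eq_of_le hmax.ne_top hJP
    have e2 := pI_inj (FF a) (hS Q hQ) hP e
    have hQP : Q = P := Prod.ext e2.1 e2.2
    subst hQP
    obtain ⟨S₀, rfl⟩ := Multiset.exists_cons_of_mem hQ
    rw [Multiset.map_cons, Multiset.prod_cons] at h
    have h2 : (S₀.map fun P => pI (FF a) P.1 P.2).prod ≤ (T.map fun P => pI (FF a) P.1 P.2).prod := by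
      rw [← Ideal.dvd_iff_le] at h ⊢
      exact (mul_dvd_mul_iff_left (pI_ne_bot (FF a) Q.1 Q.2)).1 h
    exact Multiset.cons_le_cons Q (ih S₀ (fun P hP => hS P (Multiset.mem_cons_of_mem hP))
      (fun P hP => hS' P (Multiset.mem_cons_of_mem hP)) h2)

/-- The class of the ideal of the point `(x, y)`. -/
noncomputable def cls (x y : K) : ClassGroup (CR (FF a)) :=
  ClassGroup.mk0 ⟨pI (FF a) x y, mem_nonZeroDivisors_of_ne_zero (pI_ne_bot (FF a) x y)⟩

theorem cls_conj {x y : K} (h : y ^ 2 = (FF a).eval x) : cls a x y * cls a x (-y) = 1 := by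
  unfold cls
  rw [← map_mul]
  have e : (⟨pI (FF a) x y, mem_nonZeroDivisors_of_ne_zero (pI_ne_bot (FF a) x y)⟩ :
      nonZeroDivisors (Ideal (CR (FF a)))) *
      ⟨pI (FF a) x (-y), mem_nonZeroDivisors_of_ne_zero (pI_ne_bot (FF a) x (-y))⟩ =
      ⟨pI (FF a) x y * pI (FF a) x (-y), mul_mem
        (mem_nonZeroDivisors_of_ne_zero (pI_ne_bot (FF a) x y))
        (mem_nonZeroDivisors_of_ne_zero (pI_ne_bot (FF a) x (-y)))⟩ := rfl
  rw [e, ClassGroup.mk0_eq_one_iff, pI_mul_conj a h]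
  exact ⟨⟨_, rfl⟩⟩

theorem cls_prod_eq_one_iff (S : Multiset (K × K)) :
    (S.map fun P => cls a P.1 P.2).prod = 1 ↔
      ∃ u w : K[X], (u ≠ 0 ∨ w ≠ 0) ∧
        (S.map fun P => pI (FF a) P.1 P.2).prod = Ideal.span {el (FF a) u w} := by
  set sub : K × K → nonZeroDivisors (Ideal (CR (FF a))) := fun P =>
    ⟨pI (FF a) P.1 P.2, mem_nonZeroDivisors_of_ne_zero (pI_ne_bot (FF a) P.1 P.2)⟩ with hsub
  have e1 : (S.map fun P => cls a P.1 P.2).prod = ClassGroup.mk0 (S.map sub).prod := by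
    rw [map_multiset_prod, Multiset.map_map]
    rfl
  have e2 : (((S.map sub).prod : nonZeroDivisors (Ideal (CR (FF a)))) : Ideal (CR (FF a))) =
      (S.map fun P => pI (FF a) P.1 P.2).prod := by
    rw [Submonoid.coe_multiset_prod, Multiset.map_map]
    rfl
  have e3 : ClassGroup.mk0 (S.map sub).prod = 1 ↔
      ((S.map fun P => pI (FF a) P.1 P.2).prod).IsPrincipal := by
    rw [← e2]
    exact ClassGroup.mk0_eq_one_iff (S.map sub).prod.2
  rw [e1, e3]
  constructor
  · intro hp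
    obtain ⟨⟨z, hz⟩⟩ := hp
    obtain ⟨u, w, rfl⟩ := el_surj (FF a) z
    refine ⟨u, w, ?_, hz⟩
    by_contra hc
    push Not at hc
    rw [hc.1, hc.2, el_zero] at hz
    have h0 : (S.map fun P => pI (FF a) P.1 P.2).prod = ⊥ := by
      rw [hz]
      simp
    rw [← e2] at h0
    exact nonZeroDivisors.ne_zero (S.map sub).prod.2 h0
  · rintro ⟨u, w, _, hz⟩
    exact ⟨⟨_, hz⟩⟩

end HK
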