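import Pool.Agent.H95.HK.Gs

/-!
Module Gr (project HK, helper95).  Reduction of polynomials with integral coefficients.
`rd v p` = reduction of a polynomial with integral coefficients (gn v p ≤ 1), a polynomial over the residue field `RF v` of the valuation ring `v.valuationSubring`.
PROOFS.  re v is the residue map on integral elements (ring homomorphism IsLocalRing.residue; v.valuationSubring has the elements with v c ≤ 1,
Valuation.mem_valuationSubring_iff); its kernel on integral elements is {v c < 1} (IsLocalRing.residue_eq_zero_iff, mem_maximalIdeal, not unit ↔ v c < 1).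
rd_coeff: coefficients (Finset.sum of monomials).  rd_mul: compare coefficients, or write p = P.map (algebraMap A K), rd v p = P.map (residue A).
-/

namespace HK

open Polynomial

variable {K : Type*} [Field K] {Γ : Type*} [LinearOrderedCommGroupWithZero Γ] (v : Valuation K Γ)

/-- The residue field of the valuation ring. -/
abbrev RF : Type _ := IsLocalRing.ResidueField v.valuationSubring

/-- The reduction of an element (`0` if it is not integral). -/
noncomputable def re (c : K) : RF v :=
  open scoped Classical in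
  if h : v c ≤ 1 then IsLocalRing.residue v.valuationSubring ⟨c, h⟩ else 0

/-- The reduction of a polynomial with integral coefficients. -/
noncomputable def rd (p : K[X]) : (RF v)[X] := ∑ i ∈ p.support, monomial i (re v (p.coeff i))

private theorem gr_re_of {c : K} (hc : v c ≤ 1) :
    re v c = IsLocalRing.residue v.valuationSubring ⟨c, hc⟩ := by
  unfold re
  rw [dif_pos hc]

private theorem gr_re_coe (x : v.valuationSubring) :
    re v (v.valuationSubring.subtype x) = IsLocalRing.residue v.valuationSubring x := by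
  have hx : v (v.valuationSubring.subtype x) ≤ 1 := x.2
  rw [gr_re_of v hx]
  rfl

private theorem gr_re_zero : re v (0 : K) = 0 := by
  have h := gr_re_coe v 0
  rw [map_zero, map_zero] at h
  exact h

theorem re_eq_zero {c : K} (hc : v c ≤ 1) : re v c = 0 ↔ v c < 1 := by
  rw [gr_re_of v hc, IsLocalRing.residue_eq_zero_iff, IsLocalRing.mem_maximalIdeal,
    mem_nonunits_iff]
  constructor
  · intro h
    refine lt_of_le_of_ne hc fun h1 => h ?_
    have h0 : c ≠ 0 := by
      intro h0
      rw [h0, map_zero] at h1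
      exact zero_ne_one h1
    have h2 : v c⁻¹ ≤ 1 := by rw [map_inv₀, h1, inv_one]
    refine IsUnit.of_mul_eq_one (⟨c⁻¹, h2⟩ : v.valuationSubring) (Subtype.ext ?_)
    exact mul_inv_cancel₀ h0
  · intro h h1
    obtain ⟨y, hy⟩ := h1.exists_right_inv
    have h2 : c * (y : K) = 1 := congrArg Subtype.val hy
    have h3 : v c * v (y : K) = 1 := by rw [← map_mul, h2, map_one]
    have h4 : v (y : K) ≤ 1 := y.2
    have h5 : v c * v (y : K) < 1 := by
      calc v c * v (y : K) ≤ v c * 1 := by gcongr
        _ = v c := mul_one _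
        _ < 1 := h
    exact absurd h3 h5.ne

theorem re_sub {c d : K} (hc : v c ≤ 1) (hd : v d ≤ 1) : re v (c - d) = re v c - re v d := by
  rw [gr_re_of v hc, gr_re_of v hd, gr_re_of v ((v.map_sub c d).trans (max_le hc hd))]
  exact map_sub (IsLocalRing.residue v.valuationSubring) ⟨c, hc⟩ ⟨d, hd⟩

theorem re_eq_iff {c d : K} (hc : v c ≤ 1) (hd : v d ≤ 1) : re v c = re v d ↔ v (c - d) < 1 := by
  rw [← sub_eq_zero, ← re_sub v hc hd, re_eq_zero v ((v.map_sub c d).trans (max_le hc hd))]

private theorem gr_coeff (p : K[X]) (i : ℕ) : (rd v p).coeff i = re v (p.coeff i) := by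
  unfold rd
  rw [finsetSum_coeff]
  simp only [coeff_monomial]
  by_cases h : i ∈ p.support
  · rw [Finset.sum_eq_single_of_mem i h (fun j _ hj => if_neg hj), if_pos rfl]
  · rw [Finset.sum_eq_zero (fun j hj => if_neg (fun h1 : j = i => h (h1 ▸ hj))),
      notMem_support_iff.1 h, gr_re_zero]

theorem rd_coeff {p : K[X]} (hp : gn v p ≤ 1) (i : ℕ) : (rd v p).coeff i = re v (p.coeff i) :=
  gr_coeff v p i

private theorem gr_lift {p : K[X]} (hp : gn v p ≤ 1) :
    ∃ P : (v.valuationSubring)[X], P.map v.valuationSubring.subtype = p := by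
  rw [← mem_lifts, lifts_iff_coeff_lifts]
  intro i
  exact ⟨⟨p.coeff i, (le_gn v p i).trans hp⟩, rfl⟩

private theorem gr_map (P : (v.valuationSubring)[X]) :
    rd v (P.map v.valuationSubring.subtype) = P.map (IsLocalRing.residue v.valuationSubring) := by
  ext i
  rw [gr_coeff, coeff_map, coeff_map, gr_re_coe]

theorem rd_eq_zero {p : K[X]} (hp : gn v p ≤ 1) : rd v p = 0 ↔ gn v p < 1 := by
  constructor
  · intro h
    obtain ⟨i, hi⟩ := exists_gn v p
    rw [← hi, ← re_eq_zero v ((le_gn v p i).trans hp), ← gr_coeff, h, coeff_zero]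
  · intro h
    ext i
    rw [gr_coeff, coeff_zero, re_eq_zero v ((le_gn v p i).trans hp)]
    exact lt_of_le_of_lt (le_gn v p i) h

theorem rd_add {p q : K[X]} (hp : gn v p ≤ 1) (hq : gn v q ≤ 1) :
    rd v (p + q) = rd v p + rd v q := by
  obtain ⟨P, rfl⟩ := gr_lift v hp
  obtain ⟨Q, rfl⟩ := gr_lift v hq
  rw [← Polynomial.map_add, gr_map, gr_map, gr_map, Polynomial.map_add]

theorem rd_sub {p q : K[X]} (hp : gn v p ≤ 1) (hq : gn v q ≤ 1) :
    rd v (p - q) = rd v p - rd v q := by
  obtain ⟨P, rfl⟩ := gr_lift v hp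
  obtain ⟨Q, rfl⟩ := gr_lift v hq
  rw [← Polynomial.map_sub, gr_map, gr_map, gr_map, Polynomial.map_sub]

theorem rd_mul {p q : K[X]} (hp : gn v p ≤ 1) (hq : gn v q ≤ 1) :
    rd v (p * q) = rd v p * rd v q := by
  obtain ⟨P, rfl⟩ := gr_lift v hp
  obtain ⟨Q, rfl⟩ := gr_lift v hq
  rw [← Polynomial.map_mul, gr_map, gr_map, gr_map, Polynomial.map_mul]

theorem rd_pow {p : K[X]} (hp : gn v p ≤ 1) (m : ℕ) : rd v (p ^ m) = rd v p ^ m := by
  obtain ⟨P, rfl⟩ := gr_lift v hp
  rw [← Polynomial.map_pow, gr_map, gr_map, Polynomial.map_pow]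

private theorem gr_one : rd v (1 : K[X]) = 1 := by
  have h := gr_map v 1
  rw [Polynomial.map_one, Polynomial.map_one] at h
  exact h

theorem rd_prod {ι : Type*} (s : Finset ι) (f : ι → K[X]) (hf : ∀ i ∈ s, gn v (f i) ≤ 1) :
    rd v (∏ i ∈ s, f i) = ∏ i ∈ s, rd v (f i) := by
  classical
  induction s using Finset.induction_on with
  | empty => rw [Finset.prod_empty, Finset.prod_empty, gr_one]
  | insert i s hi ih =>
    have h1 : ∀ j ∈ s, gn v (f j) ≤ 1 := fun j hj => hf j (Finset.mem_insert_of_mem hj)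
    rw [Finset.prod_insert hi, Finset.prod_insert hi,
      rd_mul v (hf i (Finset.mem_insert_self i s)) ?_, ih h1]
    rw [gn_prod]
    exact Finset.prod_le_one' h1

theorem rd_C {c : K} (hc : v c ≤ 1) : rd v (C c) = C (re v c) := by
  ext i
  rw [gr_coeff, coeff_C, coeff_C]
  split_ifs with h
  · rfl
  · exact gr_re_zero v

theorem rd_X_sub_C {a : K} (ha : v a ≤ 1) : rd v (X - C a) = X - C (re v a) := by
  have h := gr_map v (X - C (⟨a, ha⟩ : v.valuationSubring))
  rw [Polynomial.map_sub, Polynomial.map_sub, map_X, map_X, map_C, map_C, ← gr_re_of v ha] at h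
  exact h

theorem rd_natDegree_le (p : K[X]) : (rd v p).natDegree ≤ p.natDegree := by
  rw [natDegree_le_iff_coeff_eq_zero]
  intro i hi
  rw [gr_coeff, coeff_eq_zero_of_natDegree_lt hi, gr_re_zero]

end HK
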