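import Mathlib

/-!
Module ArA (project HK, helper95).  Arithmetic in a number field: an element with prescribed valuations.
PROOF.  O = 𝓞 L.  (1) For a nonzero x ∈ L only finitely many P : HeightOneSpectrum O have P.valuation L x ≠ 1 (x = a / b with a, b ∈ O nonzero, finitely many primes divide a b).
O has infinitely many maximal ideals, above infinitely many prime numbers (a maximal ideal above p contains p; different p are coprime).  Let D be a positive
integer with D * Z j, D * z₀ ∈ O (IsIntegralClosure.exists_smul_eq..., IsLocalization.exist_integer_multiples).  Choose different P_j (j < s), P, P' outside the finite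
set belonging to the nonzero elements of S and to D and 2, with P, P' above prime numbers p ≠ q, all P_j, P, P' different.
(2) Chinese remainder theorem (IsDedekindDomain.exists_forall_sub_mem_ideal, exponents 2): T₀ ∈ O with T₀ ≡ D Z_j + π_j mod P_j ^ 2, π_j ∈ P_j \ P_j ^ 2, and
T₀ ≡ D z₀ mod P, P'.  Then ν(T₀ - D Z_j) = exp (-1), ν_P (T₀ - D z₀) < 1; t = T / D, ν(D) = 1.  T = T₀ + m * B for m ∈ ℕ where B ≠ 0 is an integer in all P_j ^ 2, P, P':
infinitely many t, so one is not in E.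
-/

namespace HK

open NumberField IsDedekindDomain

private theorem ArA_fin (L : Type) [Field L] [NumberField L] (x : L) (hx : x ≠ 0) :
    {v : HeightOneSpectrum (𝓞 L) | v.valuation L x ≠ 1}.Finite := by
  obtain ⟨a, b, hb, rfl⟩ := IsFractionRing.div_surjective (A := 𝓞 L) x
  have hb0 : b ≠ 0 := nonZeroDivisors.ne_zero hb
  have ha0 : a ≠ 0 := by rintro rfl; simp at hx
  have h1 := Ideal.finite_factors (R := 𝓞 L) (I := Ideal.span {a}) (by simpa using ha0)
  have h2 := Ideal.finite_factors (R := 𝓞 L) (I := Ideal.span {b}) (by simpa using hb0)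
  refine (h1.union h2).subset ?_
  intro v hv
  by_contra hc
  simp only [Set.mem_union, Set.mem_ofPred_eq, not_or] at hc
  apply hv
  have key : ∀ r : 𝓞 L, ¬ v.asIdeal ∣ Ideal.span {r} →
      v.valuation L (algebraMap (𝓞 L) L r) = 1 := by
    intro r hr
    rw [HeightOneSpectrum.valuation_eq_one_iff_notMem,
      ← HeightOneSpectrum.valuation_lt_one_iff_mem (K := L),
      HeightOneSpectrum.valuation_lt_one_iff_dvd]
    exact hr
  rw [map_div₀, key a hc.1, key b hc.2, div_one]

private theorem ArA_above (L : Type) [Field L] [NumberField L] (p : ℕ) (hp : p.Prime) :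
    ∃ v : HeightOneSpectrum (𝓞 L), v.valuation L (p : L) < 1 := by
  have hmax : (Ideal.span {(p : ℤ)} : Ideal ℤ).IsMaximal :=
    PrincipalIdealRing.isMaximal_of_irreducible (Nat.prime_iff_prime_int.mp hp).irreducible
  obtain ⟨Q, hQ, hQc⟩ := Ideal.exists_ideal_over_maximal_of_isIntegral (S := 𝓞 L)
    (Ideal.span {(p : ℤ)}) (by
      rw [(RingHom.injective_iff_ker_eq_bot (algebraMap ℤ (𝓞 L))).mp
        (FaithfulSMul.algebraMap_injective ℤ (𝓞 L))]
      exact bot_le)
  have hmem : ((p : 𝓞 L)) ∈ Q := by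
    have h1 : (p : ℤ) ∈ Ideal.span {(p : ℤ)} := Ideal.mem_span_singleton_self _
    rw [← hQc] at h1
    have h2 := Ideal.mem_comap.mp h1
    simpa using h2
  have hp0 : (p : 𝓞 L) ≠ 0 := by
    exact_mod_cast hp.ne_zero
  refine ⟨⟨Q, hQ.isPrime, ?_⟩, ?_⟩
  · intro h
    rw [h] at hmem
    exact hp0 (by simpa using hmem)
  · have := (HeightOneSpectrum.valuation_lt_one_iff_mem (K := L)
      (⟨Q, hQ.isPrime, by intro h; rw [h] at hmem; exact hp0 (by simpa using hmem)⟩ :
        HeightOneSpectrum (𝓞 L)) (p : 𝓞 L)).mpr hmem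
    simpa using this

private theorem ArA_diff (L : Type) [Field L] [NumberField L] (v : HeightOneSpectrum (𝓞 L))
    (p q : ℕ) (hp : p.Prime) (hq : q.Prime) (h1 : v.valuation L (p : L) < 1)
    (h2 : v.valuation L (q : L) < 1) : p = q := by
  by_contra hne
  have hc : IsCoprime (p : ℤ) (q : ℤ) :=
    Nat.isCoprime_iff_coprime.mpr ((Nat.coprime_primes hp hq).mpr hne)
  obtain ⟨a, b, hab⟩ := hc
  have e : ((a : 𝓞 L) : L) * (p : L) + ((b : 𝓞 L) : L) * (q : L) = 1 := by
    have := congrArg (fun z : ℤ => (z : L)) hab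
    push_cast at this
    simpa using this
  have i1 : v.valuation L (((a : 𝓞 L) : L) * (p : L)) < 1 := by
    rw [map_mul]
    calc _ ≤ 1 * v.valuation L (p : L) := by
          gcongr
          exact v.valuation_le_one _
      _ < 1 := by rwa [one_mul]
  have i2 : v.valuation L (((b : 𝓞 L) : L) * (q : L)) < 1 := by
    rw [map_mul]
    calc _ ≤ 1 * v.valuation L (q : L) := by
          gcongr
          exact v.valuation_le_one _
      _ < 1 := by rwa [one_mul]
  have i3 := Valuation.map_add_lt (v.valuation L) i1 i2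
  rw [e, map_one] at i3
  exact lt_irrefl _ i3

private theorem ArA_choose (L : Type) [Field L] [NumberField L]
    (B : Set (HeightOneSpectrum (𝓞 L))) (hB : B.Finite) :
    ∃ (p : ℕ → ℕ) (v : ℕ → HeightOneSpectrum (𝓞 L)), Function.Injective p ∧
      Function.Injective v ∧ (∀ i, (p i).Prime) ∧ (∀ i, (v i).valuation L (p i : L) < 1) ∧
      ∀ i, v i ∉ B := by
  classical
  choose v hv using ArA_above L
  let w : Nat.Primes → HeightOneSpectrum (𝓞 L) := fun p => v p.1 p.2
  have hw : Function.Injective w := by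
    intro p q hpq
    apply Subtype.ext
    refine ArA_diff L (w p) p.1 q.1 p.2 q.2 (hv p.1 p.2) ?_
    rw [hpq]
    exact hv q.1 q.2
  have hfin : (w ⁻¹' B).Finite := hB.preimage hw.injOn
  have hinf : ((w ⁻¹' B)ᶜ).Infinite := hfin.infinite_compl
  let f := hinf.natEmbedding
  refine ⟨fun i => (f i).1.1, fun i => w (f i).1, ?_, ?_, fun i => (f i).1.2,
    fun i => hv _ _, fun i => (f i).2⟩
  · intro i j hij
    exact f.injective (Subtype.ext (Subtype.ext hij))
  · intro i j hij
    exact f.injective (Subtype.ext (hw hij))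

theorem arith_field (L : Type) [Field L] [NumberField L] (S : Finset L) (E : Finset L) {s : ℕ}
    (Z : Fin s → L) (z₀ : L) :
    ∃ (t : L) (p q : ℕ) (P P' : HeightOneSpectrum (𝓞 L)) (Q : Fin s → HeightOneSpectrum (𝓞 L)),
      t ∉ E ∧ p.Prime ∧ q.Prime ∧ p ≠ q ∧ P.valuation L (p : L) < 1 ∧ P'.valuation L (q : L) < 1 ∧
      (∀ x ∈ S, x ≠ 0 → P.valuation L x = 1 ∧ P'.valuation L x = 1 ∧
        ∀ j, (Q j).valuation L x = 1) ∧
      P.valuation L (t - z₀) < 1 ∧ P'.valuation L (t - z₀) < 1 ∧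
      ∀ j, (Q j).valuation L (t - Z j) = WithZero.exp (-1 : ℤ) := by
  classical
  -- common denominator
  obtain ⟨D, hD⟩ := IsLocalization.exist_integer_multiples_of_finset (nonZeroDivisors (𝓞 L))
    (insert z₀ (Finset.univ.image Z))
  have hD0 : (D : 𝓞 L) ≠ 0 := nonZeroDivisors.coe_ne_zero D
  have hDL : (algebraMap (𝓞 L) L (D : 𝓞 L)) ≠ 0 := by
    intro h
    exact hD0 ((FaithfulSMul.algebraMap_injective (𝓞 L) L) (by rw [h, map_zero]))
  obtain ⟨c₀, hc₀⟩ := hD z₀ (Finset.mem_insert_self _ _)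
  have hZ : ∀ j, ∃ c : 𝓞 L, algebraMap (𝓞 L) L c = (D : 𝓞 L) • Z j := fun j =>
    hD (Z j) (Finset.mem_insert_of_mem (Finset.mem_image_of_mem _ (Finset.mem_univ j)))
  choose c hc using hZ
  -- bad set
  let B : Set (HeightOneSpectrum (𝓞 L)) :=
    (⋃ x ∈ S.filter (fun x => x ≠ 0), {v : HeightOneSpectrum (𝓞 L) | v.valuation L x ≠ 1}) ∪
      {v : HeightOneSpectrum (𝓞 L) | v.valuation L (algebraMap (𝓞 L) L (D : 𝓞 L)) ≠ 1}
  have hB : B.Finite := by
    refine Set.Finite.union ?_ (ArA_fin L _ hDL)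
    refine Set.Finite.biUnion (Finset.finite_toSet _) ?_
    intro x hx
    exact ArA_fin L x (by simpa using (Finset.mem_filter.mp hx).2)
  obtain ⟨p, v, hp, hv, hpp, hvp, hvB⟩ := ArA_choose L B hB
  have hS : ∀ i, ∀ x ∈ S, x ≠ 0 → (v i).valuation L x = 1 := by
    intro i x hx hx0
    by_contra hc
    apply hvB i
    left
    exact Set.mem_biUnion (Finset.mem_filter.mpr ⟨hx, hx0⟩) hc
  have hDv : ∀ i, (v i).valuation L (algebraMap (𝓞 L) L (D : 𝓞 L)) = 1 := by
    intro i
    by_contra hc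
    exact hvB i (Or.inr hc)
  -- uniformizers
  have hπ : ∀ i, ∃ π : 𝓞 L, (v i).intValuation π = WithZero.exp (-1 : ℤ) :=
    fun i => (v i).intValuation_exists_uniformizer
  choose π hπ using hπ
  -- targets
  let g : ℕ → 𝓞 L := fun i => if h : i < s then c ⟨i, h⟩ + π i else c₀
  obtain ⟨T₀, hT₀⟩ := IsDedekindDomain.exists_forall_sub_mem_ideal
    (s := Finset.range (s + 2)) (fun i => (v i).asIdeal) (fun _ => 2)
    (fun i _ => (v i).prime) (by
      intro i _ j _ hij h
      exact hij (hv (HeightOneSpectrum.ext h))) (fun i => g i.1)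
  -- the modulus
  let M : ℕ := ∏ i ∈ Finset.range (s + 2), (p i) ^ 2
  have hM0 : M ≠ 0 := Finset.prod_ne_zero_iff.mpr (fun i _ => pow_ne_zero _ (hpp i).ne_zero)
  have hpm : ∀ i, ((p i : 𝓞 L)) ∈ (v i).asIdeal := by
    intro i
    have h := hvp i
    have e : ((p i : ℕ) : L) = algebraMap (𝓞 L) L (p i : 𝓞 L) := by simp
    rw [e] at h
    exact (HeightOneSpectrum.valuation_lt_one_iff_mem (K := L) (v i) (p i : 𝓞 L)).mp h
  have hMm : ∀ i, i < s + 2 → ((M : 𝓞 L)) ∈ (v i).asIdeal ^ 2 := by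
    intro i hi
    have hd : (p i) ^ 2 ∣ M := Finset.dvd_prod_of_mem (fun i => (p i) ^ 2) (Finset.mem_range.mpr hi)
    obtain ⟨k, hk⟩ := hd
    rw [hk]
    push_cast
    exact Ideal.mul_mem_right _ _ (Ideal.pow_mem_pow (hpm i) 2)
  -- choose m
  let F : ℕ → L := fun m =>
    algebraMap (𝓞 L) L (T₀ + (m : 𝓞 L) * (M : 𝓞 L)) / algebraMap (𝓞 L) L (D : 𝓞 L)
  have hF : Function.Injective F := by
    intro m n hmn
    have h1 : algebraMap (𝓞 L) L (T₀ + (m : 𝓞 L) * (M : 𝓞 L)) =
        algebraMap (𝓞 L) L (T₀ + (n : 𝓞 L) * (M : 𝓞 L)) := by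
      have := hmn
      simp only [F] at this
      exact (div_left_inj' hDL).mp this
    have h2 := (FaithfulSMul.algebraMap_injective (𝓞 L) L) h1
    have h3 := add_left_cancel h2
    have hM' : (M : 𝓞 L) ≠ 0 := by exact_mod_cast hM0
    have h4 := mul_right_cancel₀ hM' h3
    exact_mod_cast h4
  obtain ⟨m, hm⟩ : ∃ m, F m ∉ E := by
    by_contra hcon
    push Not at hcon
    have : (Set.univ : Set ℕ).Finite := by
      have h5 : (F ⁻¹' (E : Set L)).Finite := (Finset.finite_toSet E).preimage hF.injOn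
      refine h5.subset ?_
      intro n _
      exact hcon n
    exact Set.infinite_univ this
  have hT : ∀ i, i < s + 2 → (T₀ + (m : 𝓞 L) * (M : 𝓞 L)) - g i ∈ (v i).asIdeal ^ 2 := by
    intro i hi
    have h6 := hT₀ i (Finset.mem_range.mpr hi)
    have e : (T₀ + (m : 𝓞 L) * (M : 𝓞 L)) - g i = (T₀ - g i) + (m : 𝓞 L) * (M : 𝓞 L) := by ring
    rw [e]
    exact Ideal.add_mem _ h6 (Ideal.mul_mem_left _ _ (hMm i hi))
  -- general valuation computation
  have key : ∀ i (z : L) (r : 𝓞 L), algebraMap (𝓞 L) L r = (D : 𝓞 L) • z →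
      (v i).valuation L (F m - z) =
        (v i).intValuation ((T₀ + (m : 𝓞 L) * (M : 𝓞 L)) - r) := by
    intro i z r hr
    have e : F m - z = algebraMap (𝓞 L) L ((T₀ + (m : 𝓞 L) * (M : 𝓞 L)) - r) /
        algebraMap (𝓞 L) L (D : 𝓞 L) := by
      rw [map_sub, hr, Algebra.smul_def]
      simp only [F]
      field_simp
    rw [e, map_div₀, hDv, div_one, HeightOneSpectrum.valuation_of_algebraMap]
  refine ⟨F m, p s, p (s + 1), v s, v (s + 1), fun j => v j.1, hm, hpp _, hpp _, ?_, hvp _, hvp _,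
    ?_, ?_, ?_, ?_⟩
  · intro h
    exact absurd (hp h) (by omega)
  · intro x hx hx0
    exact ⟨hS _ x hx hx0, hS _ x hx hx0, fun j => hS _ x hx hx0⟩
  · rw [key s z₀ c₀ hc₀, HeightOneSpectrum.intValuation_lt_one_iff_mem]
    have h7 := hT s (by omega)
    have h8 : g s = c₀ := by simp [g]
    rw [h8] at h7
    exact Ideal.pow_le_self two_ne_zero h7
  · rw [key (s + 1) z₀ c₀ hc₀, HeightOneSpectrum.intValuation_lt_one_iff_mem]
    have h7 := hT (s + 1) (by omega)
    have h8 : g (s + 1) = c₀ := by simp [g]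
    rw [h8] at h7
    exact Ideal.pow_le_self two_ne_zero h7
  · intro j
    rw [key j.1 (Z j) (c j) (hc j)]
    have h7 := hT j.1 (by omega)
    have h8 : g j.1 = c j + π j.1 := by simp [g]
    rw [h8] at h7
    have e : (T₀ + (m : 𝓞 L) * (M : 𝓞 L)) - c j =
        ((T₀ + (m : 𝓞 L) * (M : 𝓞 L)) - (c j + π j.1)) + π j.1 := by ring
    rw [e]
    have h9 : (v j.1).intValuation ((T₀ + (m : 𝓞 L) * (M : 𝓞 L)) - (c j + π j.1)) <
        (v j.1).intValuation (π j.1) := by
      rw [hπ]
      refine lt_of_le_of_lt (((v j.1).intValuation_le_pow_iff_mem _ 2).mpr h7) ?_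
      rw [WithZero.exp_lt_exp]
      norm_num
    rw [Valuation.map_add_eq_of_lt_right _ h9, hπ]

end HK
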