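import Pool.Agent.H95.HK.ArA

/-!
Module ArB (project HK, helper95).  Extension of a valuation to the algebraic closure; the arithmetic lemma over the algebraic numbers.
PROOFS.
* ext_val.  The valuation ring A = {x ∈ L | ν x ≤ 1} is a local ring with maximal ideal {ν x < 1}; its image in Ω is a local subring, and a valuation subring V of Ω
  dominates it (LocalSubring.exists_le_valuationSubring / exists_valuationRing_of_isMax ...).  Then ν x ≤ 1 gives x ∈ V, ν x < 1 gives x in the maximal ideal of V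
  (V.valuation x < 1), and ν x = 1 gives x, x⁻¹ ∈ V.
* arith.  L = IntermediateField.adjoin ℚ (S ∪ {Z j} ∪ {z₀}) is a number field (finitely many algebraic elements); apply arith_field to the preimages in L
  of the elements of S, of those elements of E which are in L, and Z, z₀; ν_j = (Q j).valuation L, V, V' = ext_val of P.valuation L, P'.valuation L.
-/

namespace HK

theorem ext_val {L Ω : Type*} [Field L] [Field Ω] [Algebra L Ω] {Γ : Type*}
    [LinearOrderedCommGroupWithZero Γ] (ν : Valuation L Γ) :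
    ∃ V : ValuationSubring Ω, ∀ x : L, (ν x ≤ 1 → V.valuation (algebraMap L Ω x) ≤ 1) ∧
      (ν x < 1 → V.valuation (algebraMap L Ω x) < 1) ∧
      (ν x = 1 → V.valuation (algebraMap L Ω x) = 1) := by
  have hinj : Function.Injective (algebraMap L Ω) := (algebraMap L Ω).injective
  let A : Subring Ω := ν.integer.map (algebraMap L Ω)
  let I : Ideal A :=
    { carrier := {a | ∃ x : L, ν x < 1 ∧ algebraMap L Ω x = a}
      add_mem' := by
        rintro a b ⟨x, hx, ha⟩ ⟨y, hy, hb⟩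
        refine ⟨x + y, ν.map_add_lt hx hy, ?_⟩
        rw [map_add, ha, hb]; rfl
      zero_mem' := ⟨0, by rw [map_zero]; exact zero_lt_one, by rw [map_zero]; rfl⟩
      smul_mem' := by
        rintro ⟨c, hc⟩ a ⟨x, hx, ha⟩
        obtain ⟨y, hy, hyc⟩ := hc
        refine ⟨y * x, ?_, ?_⟩
        · rw [map_mul]
          calc ν y * ν x ≤ 1 * ν x := mul_le_mul_left hy _
            _ = ν x := one_mul _
            _ < 1 := hx
        · show (algebraMap L Ω) (y * x) = c * (a : Ω)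
          rw [map_mul, ha]
          exact congrArg (· * (a : Ω)) hyc }
  have hI : I ≠ ⊤ := by
    intro h
    have h1 : (1 : A) ∈ I := by rw [h]; exact Submodule.mem_top
    obtain ⟨x, hx, hx1⟩ := h1
    have h2 : x = 1 := hinj (by rw [hx1, map_one]; rfl)
    rw [h2, map_one] at hx
    exact lt_irrefl _ hx
  obtain ⟨V, hV1, hV2⟩ := Ideal.image_subset_nonunits_valuationSubring I hI
  have hle : ∀ x : L, ν x ≤ 1 → V.valuation (algebraMap L Ω x) ≤ 1 := by
    intro x hx
    rw [ValuationSubring.valuation_le_one_iff]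
    exact hV1 ⟨x, hx, rfl⟩
  refine ⟨V, fun x => ⟨hle x, fun hx => ?_, fun hx => ?_⟩⟩
  · have hxA : algebraMap L Ω x ∈ A := ⟨x, hx.le, rfl⟩
    have h1 : (algebraMap L Ω x) ∈ V.nonunits :=
      hV2 ⟨⟨algebraMap L Ω x, hxA⟩, ⟨x, hx, rfl⟩, rfl⟩
    exact (V.mem_nonunits_iff).mp h1
  · have h1 := hle x hx.le
    have h2 := hle x⁻¹ (by rw [map_inv₀, hx, inv_one])
    rw [map_inv₀, map_inv₀] at h2
    have hx0 : algebraMap L Ω x ≠ 0 := by
      intro h0
      have : x = 0 := hinj (by rw [h0, map_zero])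
      rw [this, map_zero] at hx
      exact zero_ne_one hx
    have hv0 : V.valuation (algebraMap L Ω x) ≠ 0 := (Valuation.ne_zero_iff _).mpr hx0
    refine le_antisymm h1 ?_
    exact (inv_le_one₀ (zero_lt_iff.mpr hv0)).mp h2

theorem arith (S E : Finset (AlgebraicClosure ℚ)) {s : ℕ} (Z : Fin s → AlgebraicClosure ℚ)
    (z₀ : AlgebraicClosure ℚ) :
    ∃ (L : IntermediateField ℚ (AlgebraicClosure ℚ)) (t : AlgebraicClosure ℚ) (p q : ℕ)
      (V V' : ValuationSubring (AlgebraicClosure ℚ)),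
      (∀ x ∈ S, x ∈ L) ∧ t ∈ L ∧ t ∉ E ∧
      (∀ j, ∃ ν : Valuation L (WithZero (Multiplicative ℤ)),
        (∀ x : L, (x : AlgebraicClosure ℚ) ∈ S → x ≠ 0 → ν x = 1) ∧
        ∃ x : L, (x : AlgebraicClosure ℚ) = t - Z j ∧ ν x = WithZero.exp (-1 : ℤ)) ∧
      p.Prime ∧ q.Prime ∧ p ≠ q ∧
      V.valuation (p : AlgebraicClosure ℚ) < 1 ∧ V'.valuation (q : AlgebraicClosure ℚ) < 1 ∧
      (∀ x ∈ S, x ≠ 0 → V.valuation x = 1 ∧ V'.valuation x = 1) ∧
      V.valuation (t - z₀) < 1 ∧ V'.valuation (t - z₀) < 1 := by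
  classical
  set G : Set (AlgebraicClosure ℚ) := (S : Set (AlgebraicClosure ℚ)) ∪ (Set.range Z ∪ {z₀})
    with hG
  have hGfin : G.Finite := S.finite_toSet.union ((Set.finite_range Z).union (Set.finite_singleton _))
  have : Finite G := hGfin
  have halg : Algebra.IsAlgebraic ℚ (AlgebraicClosure ℚ) := AlgebraicClosure.isAlgebraic ℚ
  obtain ⟨L, hL⟩ : ∃ L : IntermediateField ℚ (AlgebraicClosure ℚ),
    L = IntermediateField.adjoin ℚ G := ⟨_, rfl⟩
  have hfd : FiniteDimensional ℚ L := by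
    rw [hL]
    exact IntermediateField.finiteDimensional_adjoin
      (fun x _ => (Algebra.IsAlgebraic.isAlgebraic x).isIntegral)
  have hnf : NumberField L := { to_charZero := inferInstance, to_finiteDimensional := hfd }
  have hGL : ∀ x ∈ G, x ∈ L := fun x hx => by
    rw [hL]; exact IntermediateField.subset_adjoin ℚ G hx
  have hSL : ∀ x ∈ S, x ∈ L := fun x hx => hGL x (Or.inl hx)
  have hZL : ∀ j, Z j ∈ L := fun j => hGL _ (Or.inr (Or.inl ⟨j, rfl⟩))
  have hz0L : z₀ ∈ L := hGL _ (Or.inr (Or.inr rfl))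
  obtain ⟨t, p, q, P, P', Q, htE, hp, hq, hpq, hPp, hPq, hS, hPt, hPt', hQ⟩ :=
    arith_field L (S.subtype (· ∈ L)) (E.subtype (· ∈ L)) (fun j => ⟨Z j, hZL j⟩) ⟨z₀, hz0L⟩
  obtain ⟨V, hV⟩ := ext_val (Ω := AlgebraicClosure ℚ) (P.valuation L)
  obtain ⟨V', hV'⟩ := ext_val (Ω := AlgebraicClosure ℚ) (P'.valuation L)
  have hV1 : ∀ x : L, P.valuation L x < 1 → V.valuation (x : AlgebraicClosure ℚ) < 1 :=
    fun x => (hV x).2.1
  have hV2 : ∀ x : L, P.valuation L x = 1 → V.valuation (x : AlgebraicClosure ℚ) = 1 :=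
    fun x => (hV x).2.2
  have hV1' : ∀ x : L, P'.valuation L x < 1 → V'.valuation (x : AlgebraicClosure ℚ) < 1 :=
    fun x => (hV' x).2.1
  have hV2' : ∀ x : L, P'.valuation L x = 1 → V'.valuation (x : AlgebraicClosure ℚ) = 1 :=
    fun x => (hV' x).2.2
  clear hV hV'
  refine ⟨L, t, p, q, V, V', hSL, t.2, ?_, ?_, hp, hq, hpq, ?_, ?_, ?_, ?_, ?_⟩
  · intro h
    exact htE (Finset.mem_subtype.mpr h)
  · intro j
    refine ⟨(Q j).valuation L, fun x hx hx0 => ?_, t - ⟨Z j, hZL j⟩, rfl, hQ j⟩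
    exact (hS x (Finset.mem_subtype.mpr hx) hx0).2.2 j
  · have h1 := hV1 (p : L) hPp
    have h2 : ((p : L) : AlgebraicClosure ℚ) = (p : AlgebraicClosure ℚ) := by push_cast; rfl
    rwa [h2] at h1
  · have h1 := hV1' (q : L) hPq
    have h2 : ((q : L) : AlgebraicClosure ℚ) = (q : AlgebraicClosure ℚ) := by push_cast; rfl
    rwa [h2] at h1
  · intro x hx hx0
    obtain ⟨y, hy⟩ : ∃ y : L, (y : AlgebraicClosure ℚ) = x := ⟨⟨x, hSL x hx⟩, rfl⟩
    have hx' : y ∈ S.subtype (· ∈ L) := Finset.mem_subtype.mpr (hy ▸ hx)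
    have hx0' : y ≠ 0 := fun h => hx0 (by rw [← hy, h]; rfl)
    have h1 := hS y hx' hx0'
    rw [← hy]
    exact ⟨hV2 y h1.1, hV2' y h1.2.1⟩
  · have h1 := hV1 _ hPt
    exact h1
  · have h1 := hV1' _ hPt'
    exact h1

end HK
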