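import Pool.Agent.H95.HK.ArB

/-!
Module ArC (project HK, helper95).  The arithmetic lemma for a given number field; number fields containing a finite set.
-/

namespace HK

theorem exists_field (S : Finset (AlgebraicClosure ℚ)) :
    ∃ L : IntermediateField ℚ (AlgebraicClosure ℚ), FiniteDimensional ℚ L ∧ ∀ x ∈ S, x ∈ L := by
  classical
  have : Finite (S : Set (AlgebraicClosure ℚ)) := S.finite_toSet
  have halg : Algebra.IsAlgebraic ℚ (AlgebraicClosure ℚ) := AlgebraicClosure.isAlgebraic ℚ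
  refine ⟨IntermediateField.adjoin ℚ (S : Set (AlgebraicClosure ℚ)), ?_, fun x hx =>
    IntermediateField.subset_adjoin ℚ _ hx⟩
  exact IntermediateField.finiteDimensional_adjoin
    (fun x _ => (Algebra.IsAlgebraic.isAlgebraic x).isIntegral)

/-- The arithmetic lemma for a given number field `L`. -/
theorem arith_L (L : IntermediateField ℚ (AlgebraicClosure ℚ)) (hfd : FiniteDimensional ℚ L)
    (S E : Finset (AlgebraicClosure ℚ)) (hSL : ∀ x ∈ S, x ∈ L) {s : ℕ}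
    (Z : Fin s → AlgebraicClosure ℚ) (hZL : ∀ j, Z j ∈ L) (z₀ : AlgebraicClosure ℚ)
    (hz0L : z₀ ∈ L) :
    ∃ (t : AlgebraicClosure ℚ) (p q : ℕ) (V V' : ValuationSubring (AlgebraicClosure ℚ)),
      t ∈ L ∧ t ∉ E ∧
      (∀ j, ∃ ν : Valuation L (WithZero (Multiplicative ℤ)),
        (∀ x : L, (x : AlgebraicClosure ℚ) ∈ S → x ≠ 0 → ν x = 1) ∧
        ∃ x : L, (x : AlgebraicClosure ℚ) = t - Z j ∧ ν x = WithZero.exp (-1 : ℤ)) ∧
      p.Prime ∧ q.Prime ∧ p ≠ q ∧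
      V.valuation (p : AlgebraicClosure ℚ) < 1 ∧ V'.valuation (q : AlgebraicClosure ℚ) < 1 ∧
      (∀ x ∈ S, x ≠ 0 → V.valuation x = 1 ∧ V'.valuation x = 1) ∧
      V.valuation (t - z₀) < 1 ∧ V'.valuation (t - z₀) < 1 := by
  classical
  have hnf : NumberField L := { to_charZero := inferInstance, to_finiteDimensional := hfd }
  obtain ⟨t, p, q, P, P', Q, htE, hp, hq, hpq, hPp, hPq, hS, hPt, hPt', hQ⟩ :=
    arith_field L (S.subtype (· ∈ L)) (E.subtype (· ∈ L)) (fun j => ⟨Z j, hZL j⟩) ⟨z₀, hz0L⟩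
  obtain ⟨V, hV⟩ := ext_val (Ω := AlgebraicClosure ℚ) (P.valuation L)
  obtain ⟨V', hV'⟩ := ext_val (Ω := AlgebraicClosure ℚ) (P'.valuation L)
  have hV1 : ∀ x : L, P.valuation L x < 1 → V.valuation (x : AlgebraicClosure ℚ) < 1 :=
    fun x => (hV x).2.1
  have hV2 : ∀ x : L, P.valuation L x = 1 → V.valuation (x : AlgebraicClosure ℚ) = 1 :=
    fun x => (hV x).2.2
  have hV1' : ∀ x : L, P'.valuation L x < 1 → V'.valuation (x : AlgebraicClosure ℚ) < 1 :=
    fun x => (hV' x).2.1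
  have hV2' : ∀ x : L, P'.valuation L x = 1 → V'.valuation (x : AlgebraicClosure ℚ) = 1 :=
    fun x => (hV' x).2.2
  clear hV hV'
  refine ⟨t, p, q, V, V', t.2, ?_, ?_, hp, hq, hpq, ?_, ?_, ?_, ?_, ?_⟩
  · intro h
    exact htE (Finset.mem_subtype.mpr h)
  · intro j
    refine ⟨(Q j).valuation L, fun x hx hx0 => ?_, t - ⟨Z j, hZL j⟩, rfl, hQ j⟩
    exact (hS x (Finset.mem_subtype.mpr hx) hx0).2.2 j
  · have h1 := hV1 (p : L) hPp
    have h2 : ((p : L) : AlgebraicClosure ℚ) = (p : AlgebraicClosure ℚ) := by push_cast; rfl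
    rwa [h2] at h1
  · have h1 := hV1' (q : L) hPq
    have h2 : ((q : L) : AlgebraicClosure ℚ) = (q : AlgebraicClosure ℚ) := by push_cast; rfl
    rwa [h2] at h1
  · intro x hx hx0
    obtain ⟨y, hy⟩ : ∃ y : L, (y : AlgebraicClosure ℚ) = x := ⟨⟨x, hSL x hx⟩, rfl⟩
    have hx' : y ∈ S.subtype (· ∈ L) := Finset.mem_subtype.mpr (hy ▸ hx)
    have hx0' : y ≠ 0 := fun h => hx0 (by rw [← hy, h]; rfl)
    have h1 := hS y hx' hx0'
    rw [← hy]
    exact ⟨hV2 y h1.1, hV2' y h1.2.1⟩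
  · have h1 := hV1 _ hPt
    exact h1
  · have h1 := hV1' _ hPt'
    exact h1

end HK
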