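import Pool.Agent.H95.HJ.LemB
import Pool.Agent.H95.HJ.Defs3

/-!
Module Aut (project HK, helper95).  Automorphisms of the curve act on zero-cycles.
PROOF.  A r_i = μ_i r_(π i) (exists_smul_of_dt), so F(A v) = κ F(v) with a constant κ ≠ 0 for v over any extension (LemB_kappa in HJ/LemB.lean, private: copy it);
κ = ρ ^ 2.  Map (v, y) ↦ (A v, ρ y): a map of triples over k and over K (mulVec_ne_zero), compatible with rescaling, so a map m of points; Over A P (m P) (dt_self);
m (inv P) = inv (m P).  Spec w T p implies Spec w (A T) (m p) (mulVec_cong); m is injective (A invertible, ρ ≠ 0), so for w with values p of T (Spec.exists, Spec.unique) the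
principal cycle of (K, J, i, A T, f) is the image of the principal cycle of (K, J, i, T, f) under Finsupp.mapDomain (Multiset.map m) (Multiset.map m is injective; for a
multiset not in the image both sides are 0).  Closure induction for ratZero, then Tors.
-/

namespace HK

open ZC HJ
open scoped Classical

variable {k : Type} [Field k] [IsAlgClosed k] [CharZero k] {n : ℕ} (H : Hyp k n)

omit [IsAlgClosed k] [CharZero k] in
private theorem Aut_kappa (A : Matrix (Fin 2) (Fin 2) k) (hA : A.det ≠ 0)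
    (π : Equiv.Perm (Fin (2 * n))) (hπ : ∀ i, dt (A.mulVec (H.r i)) (H.r (π i)) = 0) :
    ∃ κ : k, κ ≠ 0 ∧ ∀ {K : Type} [Field K] [Algebra k K] (v : Fin 2 → K),
      H.F ((A.map (algebraMap k K)).mulVec v) = algebraMap k K κ * H.F v := by
  have h1 : ∀ a, ∃ c : k, c ≠ 0 ∧ H.r (π a) = c • A.mulVec (H.r a) := fun a =>
    exists_smul_of_dt (mulVec_ne_zero hA (H.r_ne a)) (H.r_ne _) (hπ a)
  choose c hc hc' using h1
  refine ⟨∏ a, c a * A.det, Finset.prod_ne_zero_iff.2 fun a _ => mul_ne_zero (hc a) hA, ?_⟩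
  intro K _ _ v
  rw [Hyp.F_def, Hyp.F_def, ← Equiv.prod_comp π, map_prod, ← Finset.prod_mul_distrib]
  refine Finset.prod_congr rfl fun a _ => ?_
  have h2 : cst K (H.r (π a)) =
      algebraMap k K (c a) • (A.map (algebraMap k K)).mulVec (cst K (H.r a)) := by
    rw [hc' a, ← cst_mulVec]
    funext j
    simp [cst]
  have h3 : (A.map (algebraMap k K)).det = algebraMap k K A.det := by
    rw [Matrix.det_fin_two, Matrix.det_fin_two]
    simp
  rw [h2, dt_smul_left, dt_mulVec, h3, map_mul, mul_assoc]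

omit [IsAlgClosed k] [CharZero k] in
private theorem Aut_det {A : Matrix (Fin 2) (Fin 2) k} (hA : A.det ≠ 0) (K : Type) [Field K]
    [Algebra k K] : (A.map (algebraMap k K)).det ≠ 0 := by
  have h3 : (A.map (algebraMap k K)).det = algebraMap k K A.det := by
    rw [Matrix.det_fin_two, Matrix.det_fin_two]
    simp
  rw [h3]
  simpa using hA

/-- The data of an automorphism. -/
private structure AutD (A : Matrix (Fin 2) (Fin 2) k) (ρ : k) : Prop where
  det : A.det ≠ 0
  ne : ρ ≠ 0
  eq : ∀ {K : Type} [Field K] [Algebra k K] (v : Fin 2 → K),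
      H.F ((A.map (algebraMap k K)).mulVec v) = algebraMap k K (ρ ^ 2) * H.F v

variable {H}

/-- The action on homogeneous coordinates. -/
private def Aut_tri {A : Matrix (Fin 2) (Fin 2) k} {ρ : k} (D : AutD H A ρ) (K : Type) [Field K]
    [Algebra k K] (T : H.Tri K) : H.Tri K :=
  ⟨(A.map (algebraMap k K)).mulVec T.v, algebraMap k K ρ * T.y,
    mulVec_ne_zero (Aut_det D.det K) T.ne, by
      rw [D.eq T.v, mul_pow, ← map_pow, T.eq]⟩

omit [IsAlgClosed k] [CharZero k] in
private theorem Aut_smul {K : Type} [Field K] (B : Matrix (Fin 2) (Fin 2) K) (c : K)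
    (v : Fin 2 → K) : B.mulVec (c • v) = c • B.mulVec v := Matrix.mulVec_smul B c v

/-- The action on points. -/
private def Aut_pt {A : Matrix (Fin 2) (Fin 2) k} {ρ : k} (D : AutD H A ρ) : H.Pt → H.Pt :=
  Quotient.map (Aut_tri D k) (by
    rintro s t ⟨c, hc, h1, h2⟩
    refine ⟨c, hc, ?_, ?_⟩
    · change (A.map (algebraMap k k)).mulVec t.v = c • (A.map (algebraMap k k)).mulVec s.v
      rw [h1, Matrix.mulVec_smul]
    · change algebraMap k k ρ * t.y = c ^ n * (algebraMap k k ρ * s.y)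
      rw [h2]
      ring)

omit [IsAlgClosed k] [CharZero k] in
private theorem Aut_pt_mk {A : Matrix (Fin 2) (Fin 2) k} {ρ : k} (D : AutD H A ρ) (t : H.Tri k) :
    Aut_pt D t.mk' = (Aut_tri D k t).mk' := rfl

omit [IsAlgClosed k] [CharZero k] in
private theorem Aut_pt_inj {A : Matrix (Fin 2) (Fin 2) k} {ρ : k} (D : AutD H A ρ) :
    Function.Injective (Aut_pt D) := by
  intro p q h
  obtain ⟨s, rfl⟩ := exists_mk' p
  obtain ⟨t, rfl⟩ := exists_mk' q
  rw [Aut_pt_mk, Aut_pt_mk, mk'_eq_iff] at h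
  obtain ⟨c, hc, h1, h2⟩ := h
  rw [mk'_eq_iff]
  refine ⟨c, hc, ?_, ?_⟩
  · change (A.map (algebraMap k k)).mulVec t.v = c • (A.map (algebraMap k k)).mulVec s.v at h1
    rw [← Matrix.mulVec_smul] at h1
    by_contra hne
    have h3 : (A.map (algebraMap k k)).mulVec (t.v - c • s.v) = 0 := by
      rw [Matrix.mulVec_sub, h1, sub_self]
    exact mulVec_ne_zero (Aut_det D.det k) (sub_ne_zero.2 hne) h3
  · change algebraMap k k ρ * t.y = c ^ n * (algebraMap k k ρ * s.y) at h2
    rw [Algebra.algebraMap_self_apply] at h2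
    apply mul_left_cancel₀ D.ne
    rw [h2]
    ring

omit [IsAlgClosed k] [CharZero k] in
private theorem Aut_const_le {K : Type} [Field K] [Algebra k K] (w : Place k K) (c : k) :
    w.v (algebraMap k K c) ≤ 1 := by
  by_cases hc : c = 0
  · rw [hc, map_zero, map_zero]; exact zero_le_one
  · rw [w.triv c hc]

private theorem Aut_spec {A : Matrix (Fin 2) (Fin 2) k} {ρ : k} (D : AutD H A ρ) {K : Type}
    [Field K] [Algebra k K] (w : Place k K) (T : H.Tri K) (p : H.Pt) (h : Spec w T p) :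
    Spec w (Aut_tri D K T) (Aut_pt D p) := by
  obtain ⟨c, t, rfl, h1, h2⟩ := h
  refine ⟨c, Aut_tri D k t, rfl, ?_, ?_⟩
  · have hc : Cong w (c • T.v) t.v := h1
    have hM := mulVec_cong w A hc
    have hAk : A.map (algebraMap k k) = A := by
      ext a b
      rfl
    intro l
    have h4 := hM l
    rw [Matrix.mulVec_smul, Pi.smul_apply, smul_eq_mul] at h4
    change w.v (c * (A.map (algebraMap k K)).mulVec T.v l -
      algebraMap k K ((A.map (algebraMap k k)).mulVec t.v l)) < 1
    rw [hAk]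
    exact h4
  · change w.v (c ^ n * (algebraMap k K ρ * T.y) - algebraMap k K (algebraMap k k ρ * t.y)) < 1
    have : c ^ n * (algebraMap k K ρ * T.y) - algebraMap k K (algebraMap k k ρ * t.y) =
        (c ^ n * T.y - algebraMap k K t.y) * algebraMap k K ρ := by
      rw [Algebra.algebraMap_self_apply, map_mul]
      ring
    rw [this, map_mul]
    exact lt_of_le_of_lt (mul_le_of_le_one_right' (Aut_const_le w _)) h2

/-- The action on points of the family. -/
private def Aut_m {A : Matrix (Fin 2) (Fin 2) k} {ρ : k} (D : AutD H A ρ)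
    (P : Pts (fun _ : Unit => H)) : Pts (fun _ : Unit => H) := ⟨P.1, Aut_pt D P.2⟩

omit [IsAlgClosed k] [CharZero k] in
private theorem Aut_m_inj {A : Matrix (Fin 2) (Fin 2) k} {ρ : k} (D : AutD H A ρ) :
    Function.Injective (Aut_m D) := by
  rintro ⟨i, p⟩ ⟨j, q⟩ h
  have h1 : i = j := rfl
  have h2 : Aut_pt D p = Aut_pt D q := eq_of_heq (Sigma.mk.inj h).2
  have h3 : p = q := Aut_pt_inj D h2
  rw [h3]

private theorem Aut_princ {A : Matrix (Fin 2) (Fin 2) k} {ρ : k} (D : AutD H A ρ)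
    (c : Cyc (fun _ : Unit => H)) (hc : IsPrincipal (fun _ : Unit => H) c) :
    IsPrincipal (fun _ : Unit => H) (Finsupp.mapDomain (Multiset.map (Aut_m D)) c) := by
  obtain ⟨K, i1, i2, hK, J, i3, i, T, f, hf, hcs⟩ := hc
  refine ⟨K, i1, i2, hK, J, i3, i, fun j => Aut_tri D K (T j), f, hf, ?_⟩
  have hinj : Function.Injective (Multiset.map (Aut_m D)) :=
    Multiset.map_injective (Aut_m_inj D)
  have hval : ∀ (w : Place k K) (p' : J → H.Pt),
      (∀ j, Spec w (Aut_tri D K (T j)) (p' j)) → ∃ p : J → H.Pt, (∀ j, Spec w (T j) (p j)) ∧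
        ∀ j, p' j = Aut_pt D (p j) := by
    intro w p' hp'
    have hex : ∀ j, ∃ p : H.Pt, Spec w (T j) p := fun j => Spec.exists hK w (T j)
    choose p hp using hex
    exact ⟨p, hp, fun j => Spec.unique hK w _ (hp' j) (Aut_spec D w _ _ (hp j))⟩
  have hmap : ∀ p : J → H.Pt, Multiset.map (Aut_m D)
      ((Finset.univ : Finset J).val.map (fun j => (⟨i j, p j⟩ : Pts (fun _ : Unit => H)))) =
      (Finset.univ : Finset J).val.map
        (fun j => (⟨i j, Aut_pt D (p j)⟩ : Pts (fun _ : Unit => H))) := by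
    intro p
    rw [Multiset.map_map]
    rfl
  intro s
  by_cases hs : s ∈ Set.range (Multiset.map (Aut_m D))
  · obtain ⟨s', rfl⟩ := hs
    rw [Finsupp.mapDomain_apply hinj, hcs s']
    apply finsum_congr
    intro w
    refine finsum_congr_Prop (propext ⟨?_, ?_⟩) (fun _ => rfl)
    · rintro ⟨p, hp, hps⟩
      refine ⟨fun j => Aut_pt D (p j), fun j => Aut_spec D w _ _ (hp j), ?_⟩
      rw [hps]
      exact hmap p
    · rintro ⟨p', hp', hps⟩
      obtain ⟨p, hp, hpp⟩ := hval w p' hp'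
      refine ⟨p, hp, hinj ?_⟩
      rw [hps]
      refine Eq.trans ?_ (hmap p).symm
      refine Multiset.map_congr rfl fun j _ => ?_
      rw [hpp j]
  · rw [Finsupp.mapDomain_of_notMem_range _ _ hs]
    symm
    apply finsum_eq_zero_of_forall_eq_zero
    intro w
    refine @finsum_of_isEmpty _ _ _ ⟨?_⟩ _
    rintro ⟨p', hp', hps⟩
    apply hs
    obtain ⟨p, hp, hpp⟩ := hval w p' hp'
    refine ⟨_, (hmap p).trans ?_⟩
    rw [hps]
    refine Multiset.map_congr rfl fun j _ => ?_
    rw [hpp j]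

private theorem Aut_rat {A : Matrix (Fin 2) (Fin 2) k} {ρ : k} (D : AutD H A ρ)
    (c : Cyc (fun _ : Unit => H)) (hc : c ∈ ratZero (fun _ : Unit => H)) :
    Finsupp.mapDomain (Multiset.map (Aut_m D)) c ∈ ratZero (fun _ : Unit => H) := by
  have h1 : ratZero (fun _ : Unit => H) ≤
      (ratZero (fun _ : Unit => H)).comap
        (Finsupp.mapDomain.addMonoidHom (M := ℤ) (Multiset.map (Aut_m D))) := by
    unfold HJ.ratZero
    rw [AddSubgroup.closure_le]
    intro x hx
    exact AddSubgroup.subset_closure (Aut_princ D x hx)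
  exact h1 hc

variable (H)

theorem exists_aut (A : Matrix (Fin 2) (Fin 2) k) (hA : A.det ≠ 0) (π : Equiv.Perm (Fin (2 * n)))
    (hπ : ∀ i, dt (A.mulVec (H.r i)) (H.r (π i)) = 0) :
    ∃ m : Pts (fun _ : Unit => H) → Pts (fun _ : Unit => H),
      (∀ P : Pts (fun _ : Unit => H), Over A P.2 (m P).2) ∧ (∀ P, m (inv P) = inv (m P)) ∧
      ∀ c : Cyc (fun _ : Unit => H), Tors (fun _ : Unit => H) c →
        Tors (fun _ : Unit => H) (Finsupp.mapDomain (Multiset.map m) c) := by
  obtain ⟨κ, hκ0, hκ⟩ := Aut_kappa H A hA π hπ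
  obtain ⟨ρ, hρ⟩ := IsAlgClosed.exists_pow_nat_eq κ (n := 2) (by norm_num)
  have hρ0 : ρ ≠ 0 := by
    rintro rfl
    apply hκ0
    rw [← hρ]
    norm_num
  have D : AutD H A ρ := ⟨hA, hρ0, by
    intro K _ _ v
    rw [hρ]
    exact hκ v⟩
  refine ⟨Aut_m D, ?_, ?_, ?_⟩
  · rintro ⟨u, p⟩
    obtain ⟨s, rfl⟩ := exists_mk' p
    refine ⟨s, Aut_tri D k s, rfl, rfl, ?_⟩
    change dt (A.mulVec s.v) ((A.map (algebraMap k k)).mulVec s.v) = 0
    have hAk : A.map (algebraMap k k) = A := by
      ext a b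
      rfl
    rw [hAk, dt_self]
  · rintro ⟨u, p⟩
    obtain ⟨s, rfl⟩ := exists_mk' p
    have h1 : Aut_pt D (s.mk'.inv) = (Aut_pt D s.mk').inv := by
      rw [← mk'_neg, Aut_pt_mk, Aut_pt_mk, ← mk'_neg]
      congr 1
      unfold Aut_tri Hyp.Tri.neg
      simp only [mul_neg]
    change (⟨u, Aut_pt D (s.mk'.inv)⟩ : Pts (fun _ : Unit => H)) = ⟨u, (Aut_pt D s.mk').inv⟩
    rw [h1]
  · rintro c ⟨N, hN, h⟩
    refine ⟨N, hN, ?_⟩
    have h1 := Aut_rat D _ h
    have h2 : Finsupp.mapDomain (Multiset.map (Aut_m D)) (N • c) =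
        N • Finsupp.mapDomain (Multiset.map (Aut_m D)) c :=
      map_nsmul (Finsupp.mapDomain.addMonoidHom (M := ℤ) (Multiset.map (Aut_m D))) N c
    rwa [h2] at h1

theorem map_ee (m : Pts (fun _ : Unit => H) → Pts (fun _ : Unit => H))
    (hm : ∀ P, m (inv P) = inv (m P)) (P : Pts (fun _ : Unit => H)) :
    Finsupp.mapDomain (Multiset.map m) (ee P) = ee (m P) := by
  unfold ee pt
  have h := map_sub (Finsupp.mapDomain.addMonoidHom (M := ℤ) (Multiset.map m))
    (Finsupp.single ({P} : Multiset (Pts (fun _ : Unit => H))) 1) (Finsupp.single {inv P} 1)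
  refine h.trans ?_
  change Finsupp.mapDomain (Multiset.map m) (Finsupp.single {P} 1) -
    Finsupp.mapDomain (Multiset.map m) (Finsupp.single {inv P} 1) = _
  rw [Finsupp.mapDomain_single, Finsupp.mapDomain_single, Multiset.map_singleton,
    Multiset.map_singleton, hm]

end HK
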