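import Pool.Agent.H95.HK.GLa

/-!
Module CRa (project HK, helper95).  The coordinate ring R = K[x, y] / (y ^ 2 - F), F = ∏ (X - a_i) of odd degree with simple roots.
PROOFS.
* Every element of AdjoinRoot (X ^ 2 - C F) (monic of degree 2 over K[X]) is u + w y for unique u, w (AdjoinRoot.powerBasis', or modByMonic).
* IsDomain: X ^ 2 - C F is irreducible over K[X] (prime: K[X][X] is a UFD): a factorization gives F = p ^ 2 in K[X], odd degree.
* IsDedekindDomain: L = FractionRing R is a quadratic extension of the fraction field of K[X] (separable, CharZero) and R is the integral closure of K[X] in L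
  (IsIntegralClosure.isDedekindDomain).  If z = u + w y (u, w in RatFunc/fraction field) is integral, its trace 2 u and norm u ^ 2 - w ^ 2 F are
  in K[X] (integrally closed), so u ∈ K[X], w ^ 2 F ∈ K[X], F squarefree, so w ∈ K[X].  (Any other proof is as good; e.g. Noetherian + dimension ≤ 1 +
  localisations at the maximal ideals are DVR.)
-/

namespace HK

open Polynomial

/-- The coordinate ring of `y ^ 2 = F(x)`. -/
abbrev CR {K : Type*} [Field K] (F : K[X]) : Type _ := AdjoinRoot (X ^ 2 - C F : K[X][X])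

/-- The element `u + w y` of the coordinate ring. -/
noncomputable def el {K : Type*} [Field K] (F : K[X]) (u w : K[X]) : CR F :=
  AdjoinRoot.of (X ^ 2 - C F : K[X][X]) u +
    AdjoinRoot.of (X ^ 2 - C F : K[X][X]) w * AdjoinRoot.root (X ^ 2 - C F : K[X][X])

variable {K : Type*} [Field K] (F : K[X])

theorem cra_degree (F : K[X]) : (X ^ 2 - C F : K[X][X]).degree = 2 := by
  exact degree_X_pow_sub_C (by norm_num) F

theorem cra_monic (F : K[X]) : (X ^ 2 - C F : K[X][X]).Monic :=
  monic_X_pow_sub_C F (by norm_num)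

theorem el_surj (z : CR F) : ∃ u w : K[X], el F u w = z := by
  obtain ⟨f, rfl⟩ := AdjoinRoot.mk_surjective z
  have hm := cra_monic F
  have h1 := AdjoinRoot.mk_eq_mk.2 (show (X ^ 2 - C F : K[X][X]) ∣ f - f %ₘ (X ^ 2 - C F) from by
    refine ⟨f /ₘ (X ^ 2 - C F), ?_⟩
    have := modByMonic_add_div f (X ^ 2 - C F : K[X][X])
    linear_combination (-1 : K[X][X]) * this)
  have hne : (X ^ 2 - C F : K[X][X]) ≠ 1 := by
    intro h
    have := cra_degree F
    rw [h, degree_one] at this
    exact absurd this (by norm_num)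
  have hdeg : (f %ₘ (X ^ 2 - C F : K[X][X])).natDegree < 2 := by
    have := natDegree_modByMonic_lt f hm hne
    rwa [natDegree_X_pow_sub_C] at this
  have h2 : f %ₘ (X ^ 2 - C F : K[X][X]) =
      C ((f %ₘ (X ^ 2 - C F : K[X][X])).coeff 1) * X + C ((f %ₘ (X ^ 2 - C F : K[X][X])).coeff 0) := by
    exact eq_X_add_C_of_natDegree_le_one (by omega)
  refine ⟨(f %ₘ (X ^ 2 - C F : K[X][X])).coeff 0, (f %ₘ (X ^ 2 - C F : K[X][X])).coeff 1, ?_⟩
  rw [h1, h2]
  unfold el
  simp only [map_add, map_mul, AdjoinRoot.mk_C, AdjoinRoot.mk_X, coeff_add, coeff_C_mul, coeff_X,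
    coeff_C]
  simp
  ring

theorem el_inj {u w u' w' : K[X]} (h : el F u w = el F u' w') : u = u' ∧ w = w' := by
  unfold el at h
  have h1 : AdjoinRoot.mk (X ^ 2 - C F : K[X][X]) (C u + C w * X) =
      AdjoinRoot.mk (X ^ 2 - C F : K[X][X]) (C u' + C w' * X) := by
    simpa only [map_add, map_mul, AdjoinRoot.mk_C, AdjoinRoot.mk_X] using h
  have h2 := AdjoinRoot.mk_eq_mk.1 h1
  have h3 : (C u + C w * X : K[X][X]) - (C u' + C w' * X) = C (w - w') * X + C (u - u') := by
    simp only [C_sub]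
    ring
  rw [h3] at h2
  have h4 : (C (w - w') * X + C (u - u') : K[X][X]) = 0 := by
    refine eq_zero_of_dvd_of_degree_lt h2 ?_
    rw [cra_degree F]
    exact lt_of_le_of_lt degree_linear_le (by norm_num)
  have h5 := congrArg (fun p : K[X][X] => p.coeff 0) h4
  have h6 := congrArg (fun p : K[X][X] => p.coeff 1) h4
  simp at h5 h6
  exact ⟨sub_eq_zero.1 h5, sub_eq_zero.1 h6⟩

theorem el_add (u w u' w' : K[X]) : el F u w + el F u' w' = el F (u + u') (w + w') := by
  unfold el
  simp only [map_add]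
  ring

theorem el_mul (u w u' w' : K[X]) :
    el F u w * el F u' w' = el F (u * u' + w * w' * F) (u * w' + w * u') := by
  have hr : AdjoinRoot.root (X ^ 2 - C F : K[X][X]) ^ 2 = AdjoinRoot.of (X ^ 2 - C F : K[X][X]) F := by
    have h1 : AdjoinRoot.mk (X ^ 2 - C F : K[X][X]) (X ^ 2 - C F) = 0 := AdjoinRoot.mk_self
    rw [map_sub, map_pow, AdjoinRoot.mk_X, AdjoinRoot.mk_C, sub_eq_zero] at h1
    exact h1
  unfold el
  simp only [map_add, map_mul]
  linear_combination (AdjoinRoot.of (X ^ 2 - C F : K[X][X]) w) *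
    (AdjoinRoot.of (X ^ 2 - C F : K[X][X]) w') * hr

theorem el_zero : el F 0 0 = 0 := by
  unfold el
  simp

theorem el_one : el F 1 0 = 1 := by
  unfold el
  simp

theorem algebraMap_eq (p : K[X]) : algebraMap K[X] (CR F) p = el F p 0 := by
  unfold el
  simp [AdjoinRoot.algebraMap_eq]

variable [CharZero K] {g : ℕ} (a : Fin (2 * g + 1) → K)

omit [CharZero K] in
theorem cra_FF_natDegree {g : ℕ} (a : Fin (2 * g + 1) → K) : (FF a).natDegree = 2 * g + 1 := by
  unfold FF
  rw [natDegree_prod_of_monic _ _ (fun i _ => monic_X_sub_C _)]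
  simp

omit [CharZero K] in
theorem cra_FF_odd {g : ℕ} (a : Fin (2 * g + 1) → K) : Odd (FF a).natDegree := by
  rw [cra_FF_natDegree]
  exact ⟨g, rfl⟩

omit [CharZero K] in
theorem cra_FF_squarefree {g : ℕ} (a : Fin (2 * g + 1) → K) (h : Function.Injective a) :
    Squarefree (FF a) :=
  (separable_prod_X_sub_C_iff.2 h).squarefree

omit [CharZero K] in
private theorem cra_cg (F : K[X]) {x x' y y' : K[X]} (h1 : x = x') (h2 : y = y') : el F x y = el F x' y' := by
  rw [h1, h2]

instance cr_isDomain [Fact (Function.Injective a)] : IsDomain (CR (FF a)) := by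
  have : NoZeroDivisors (CR (FF a)) := by
    constructor
    intro z z' h
    obtain ⟨u, w, rfl⟩ := el_surj (FF a) z
    by_contra hcon
    push Not at hcon
    obtain ⟨hz, hz'⟩ := hcon
    obtain ⟨u', w', rfl⟩ := el_surj (FF a) z'
    have h1 : el (FF a) u (-w) * el (FF a) u w = el (FF a) (u ^ 2 - w ^ 2 * FF a) 0 := by
      rw [el_mul]
      exact cra_cg _ (by ring) (by ring)
    have h2 : el (FF a) (u ^ 2 - w ^ 2 * FF a) 0 * el (FF a) u' w' = 0 := by
      rw [← h1, mul_assoc, h, mul_zero]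
    rw [el_mul, ← el_zero (FF a)] at h2
    obtain ⟨h3, h4⟩ := el_inj (FF a) h2
    have hN : u ^ 2 - w ^ 2 * FF a ≠ 0 := by
      intro h0
      obtain ⟨hu, hw⟩ := par_deg u w (FF a) (cra_FF_odd a) (sub_eq_zero.1 h0)
      apply hz
      rw [hu, hw, el_zero]
    have h5 : u' = 0 := by
      have : (u ^ 2 - w ^ 2 * FF a) * u' = 0 := by linear_combination h3
      exact (mul_eq_zero.1 this).resolve_left hN
    have h6 : w' = 0 := by
      have : (u ^ 2 - w ^ 2 * FF a) * w' = 0 := by linear_combination h4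
      exact (mul_eq_zero.1 this).resolve_left hN
    apply hz'
    rw [h5, h6, el_zero]
  have : Nontrivial (CR (FF a)) := by
    refine ⟨0, 1, fun h => ?_⟩
    rw [← el_zero (FF a), ← el_one (FF a)] at h
    exact zero_ne_one (el_inj (FF a) h).1
  exact NoZeroDivisors.to_isDomain _

omit [CharZero K] in
theorem cra_root_sq (F : K[X]) : AdjoinRoot.root (X ^ 2 - C F : K[X][X]) ^ 2 =
    AdjoinRoot.of (X ^ 2 - C F : K[X][X]) F := by
  have h1 : AdjoinRoot.mk (X ^ 2 - C F : K[X][X]) (X ^ 2 - C F) = 0 := AdjoinRoot.mk_self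
  rw [map_sub, map_pow, AdjoinRoot.mk_X, AdjoinRoot.mk_C, sub_eq_zero] at h1
  exact h1

omit [CharZero K] in
theorem cra_eval_conj (F : K[X]) : eval₂ (AdjoinRoot.of (X ^ 2 - C F : K[X][X]))
    (-AdjoinRoot.root (X ^ 2 - C F : K[X][X])) (X ^ 2 - C F : K[X][X]) = 0 := by
  rw [eval₂_sub, eval₂_pow, eval₂_X, eval₂_C, neg_sq, cra_root_sq, sub_self]

/-- The conjugation `y ↦ -y`. -/
noncomputable def cra_conjHom (F : K[X]) : CR F →ₐ[K[X]] CR F :=
  { AdjoinRoot.lift (AdjoinRoot.of (X ^ 2 - C F : K[X][X]))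
      (-AdjoinRoot.root (X ^ 2 - C F : K[X][X])) (cra_eval_conj F) with
    commutes' := by
      intro r
      rw [AdjoinRoot.algebraMap_eq]
      exact AdjoinRoot.lift_of (cra_eval_conj F) }

omit [CharZero K] in
theorem cra_conjHom_el (F : K[X]) (u w : K[X]) : cra_conjHom F (el F u w) = el F u (-w) := by
  have h1 : ∀ q : K[X], cra_conjHom F (AdjoinRoot.of (X ^ 2 - C F : K[X][X]) q) =
      AdjoinRoot.of (X ^ 2 - C F : K[X][X]) q := fun q => (cra_conjHom F).commutes q
  have h2 : cra_conjHom F (AdjoinRoot.root (X ^ 2 - C F : K[X][X])) =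
      -AdjoinRoot.root (X ^ 2 - C F : K[X][X]) := AdjoinRoot.lift_root (cra_eval_conj F)
  unfold el
  rw [map_add, map_mul, h1, h1, h2, map_neg]
  ring

omit [CharZero K] in
theorem cra_conjHom_conjHom (F : K[X]) (z : CR F) : cra_conjHom F (cra_conjHom F z) = z := by
  obtain ⟨u, w, rfl⟩ := el_surj F z
  rw [cra_conjHom_el, cra_conjHom_el, neg_neg]

/-- The conjugation as an automorphism. -/
noncomputable def cra_conj (F : K[X]) : CR F ≃ₐ[K[X]] CR F :=
  AlgEquiv.ofAlgHom (cra_conjHom F) (cra_conjHom F)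
    (AlgHom.ext fun z => cra_conjHom_conjHom F z) (AlgHom.ext fun z => cra_conjHom_conjHom F z)

omit [CharZero K] in
theorem cra_conj_el (F : K[X]) (u w : K[X]) : cra_conj F (el F u w) = el F u (-w) :=
  cra_conjHom_el F u w

omit [CharZero K] in
theorem cra_dvd_of_integral {L : Type*} [Field L] [Algebra K[X] L]
    (hinj : Function.Injective (algebraMap K[X] L)) (q q' : K[X]) (x : L) (hq : q ≠ 0)
    (hx : IsIntegral K[X] x) (h : algebraMap K[X] L q * x = algebraMap K[X] L q') : q ∣ q' := by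
  -- lift to the fraction field
  have hq1 : algebraMap K[X] L q ≠ 0 := fun h0 => hq (hinj (h0.trans (map_zero _).symm))
  let _ : Algebra (FractionRing K[X]) L := (IsFractionRing.lift hinj).toAlgebra
  have hst : IsScalarTower K[X] (FractionRing K[X]) L := by
    refine IsScalarTower.of_algebraMap_eq ?_
    intro r
    exact (IsFractionRing.lift_algebraMap hinj r).symm
  set t : FractionRing K[X] := algebraMap K[X] (FractionRing K[X]) q' /
    algebraMap K[X] (FractionRing K[X]) q with ht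
  have hq2 : algebraMap K[X] (FractionRing K[X]) q ≠ 0 := fun h0 =>
    hq (IsFractionRing.injective K[X] (FractionRing K[X]) (h0.trans (map_zero _).symm))
  have htx : algebraMap (FractionRing K[X]) L t = x := by
    rw [ht, map_div₀, ← IsScalarTower.algebraMap_apply, ← IsScalarTower.algebraMap_apply, ← h]
    field_simp
  have hti : IsIntegral K[X] t := by
    rw [← htx] at hx
    exact (isIntegral_algebraMap_iff (algebraMap (FractionRing K[X]) L).injective).1 hx
  obtain ⟨y, hy⟩ := (isIntegrallyClosed_iff (FractionRing K[X])).1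
    (inferInstance : IsIntegrallyClosed K[X]) hti
  refine ⟨y, ?_⟩
  apply IsFractionRing.injective K[X] (FractionRing K[X])
  rw [map_mul, hy, ht]
  field_simp

omit [CharZero K] in
theorem cra_dvd_of_sq (p w G : K[X]) (hp : p ≠ 0) (hG : Squarefree G)
    (h : p ^ 2 ∣ w ^ 2 * G) : p ∣ w := by
  classical
  obtain ⟨p', hp'⟩ := EuclideanDomain.gcd_dvd_left p w
  obtain ⟨w', hw'⟩ := EuclideanDomain.gcd_dvd_right p w
  set d := EuclideanDomain.gcd p w with hd
  have hd0 : d ≠ 0 := by
    intro h0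
    rw [h0, zero_mul] at hp'
    exact hp hp'
  have hco : IsCoprime p' w' := by
    have h1 := EuclideanDomain.gcd_eq_gcd_ab p w
    refine ⟨EuclideanDomain.gcdA p w, EuclideanDomain.gcdB p w, ?_⟩
    apply mul_left_cancel₀ hd0
    rw [← hd] at h1
    calc d * (EuclideanDomain.gcdA p w * p' + EuclideanDomain.gcdB p w * w')
        = (d * p') * EuclideanDomain.gcdA p w + (d * w') * EuclideanDomain.gcdB p w := by ring
      _ = p * EuclideanDomain.gcdA p w + w * EuclideanDomain.gcdB p w := by rw [← hp', ← hw']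
      _ = d * 1 := by rw [mul_one]; exact h1.symm
  have h1 : p' ^ 2 ∣ w' ^ 2 * G := by
    have h2 : d ^ 2 * p' ^ 2 ∣ d ^ 2 * (w' ^ 2 * G) := by
      have e1 : d ^ 2 * p' ^ 2 = p ^ 2 := by
        rw [← mul_pow, ← hp']
      have e2 : d ^ 2 * (w' ^ 2 * G) = w ^ 2 * G := by
        rw [← mul_assoc, ← mul_pow, ← hw']
      rw [e1, e2]
      exact h
    exact (mul_dvd_mul_iff_left (pow_ne_zero 2 hd0)).1 h2
  have h2 : p' ^ 2 ∣ G := (hco.pow).dvd_of_dvd_mul_left h1
  have h3 : IsUnit p' := hG p' (by rwa [sq] at h2)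
  obtain ⟨c, hc⟩ := h3.dvd (a := (1 : K[X]))
  refine ⟨c * w', ?_⟩
  calc w = d * w' := hw'
    _ = (d * p') * (c * w') := by
      have : p' * c = 1 := hc.symm
      linear_combination (-d * w') * this
    _ = p * (c * w') := by rw [← hp']

instance cr_isDedekind [Fact (Function.Injective a)] : IsDedekindDomain (CR (FF a)) := by
  have hfin : Module.Finite K[X] (CR (FF a)) := (cra_monic (FF a)).finite_adjoinRoot
  have hint : Algebra.IsIntegral K[X] (CR (FF a)) := Algebra.IsIntegral.of_finite _ _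
  have hdim : Ring.DimensionLEOne (CR (FF a)) :=
    Ring.DimensionLEOne.of_isIntegral K[X] (CR (FF a))
  have hinj : Function.Injective a := Fact.out
  rw [isDedekindDomain_iff (CR (FF a)) (FractionRing (CR (FF a)))]
  refine ⟨inferInstance, inferInstance, hdim, ?_⟩
  intro z hz
  have hz' : IsIntegral K[X] z := isIntegral_trans z hz
  obtain ⟨r, s, hs, hrs⟩ := IsFractionRing.div_surjective (CR (FF a)) z
  obtain ⟨u0, w0, hr⟩ := el_surj (FF a) r
  obtain ⟨u1, w1, hs1⟩ := el_surj (FF a) s
  have hs0 : s ≠ 0 := nonZeroDivisors.ne_zero hs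
  set p : K[X] := u1 ^ 2 - w1 ^ 2 * FF a with hp
  have hp0 : p ≠ 0 := by
    intro h0
    obtain ⟨hu, hw⟩ := par_deg u1 w1 (FF a) (cra_FF_odd a) (sub_eq_zero.1 h0)
    apply hs0
    rw [← hs1, hu, hw, el_zero]
  set u : K[X] := u0 * u1 - w0 * w1 * FF a with hu
  set w : K[X] := w0 * u1 - u0 * w1 with hw
  have hsc : s * el (FF a) u1 (-w1) = el (FF a) p 0 := by
    rw [← hs1, el_mul]
    exact cra_cg _ (by rw [hp]; ring) (by ring)
  have hrc : r * el (FF a) u1 (-w1) = el (FF a) u w := by
    rw [← hr, el_mul]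
    exact cra_cg _ (by rw [hu]; ring) (by rw [hw]; ring)
  set ι := algebraMap (CR (FF a)) (FractionRing (CR (FF a))) with hι
  have hιinj : Function.Injective ι := IsFractionRing.injective _ _
  have hpz : ι (el (FF a) p 0) * z = ι (el (FF a) u w) := by
    have hs2 : ι s ≠ 0 := by
      intro h0
      exact hs0 (hιinj (h0.trans (map_zero ι).symm))
    rw [← hsc, ← hrc, map_mul, map_mul, ← hrs]
    field_simp
  -- the conjugate
  set τ := IsFractionRing.algEquivOfAlgEquiv (K := FractionRing (CR (FF a)))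
    (L := FractionRing (CR (FF a))) (cra_conj (FF a)) with hτ
  have hτι : ∀ q w' : K[X], τ (ι (el (FF a) q w')) = ι (el (FF a) q (-w')) := by
    intro q w'
    rw [hτ, hι, IsFractionRing.algEquivOfAlgEquiv_algebraMap, cra_conj_el]
  have hτz : IsIntegral K[X] (τ z) := hz'.map τ.toAlgHom
  have hpz' : ι (el (FF a) p 0) * τ z = ι (el (FF a) u (-w)) := by
    have := congrArg τ hpz
    rw [map_mul, hτι, hτι, neg_zero] at this
    exact this
  have hel : ∀ q : K[X], ι (el (FF a) q 0) = algebraMap K[X] (FractionRing (CR (FF a))) q := by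
    intro q
    rw [← algebraMap_eq, hι, ← IsScalarTower.algebraMap_apply]
  have hKinj : Function.Injective (algebraMap K[X] (FractionRing (CR (FF a)))) := by
    intro q q' h
    rw [← hel, ← hel] at h
    exact (el_inj (FF a) (hιinj h)).1
  -- divisibility from integrality
  have key : ∀ (q q' : K[X]) (x : FractionRing (CR (FF a))), q ≠ 0 → IsIntegral K[X] x →
      algebraMap K[X] (FractionRing (CR (FF a))) q * x =
        algebraMap K[X] (FractionRing (CR (FF a))) q' → q ∣ q' := by
    intro q q' x hq hx hqx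
    exact cra_dvd_of_integral hKinj q q' x hq hx hqx
  have hpu : p ∣ u := by
    have h1 : p ∣ 2 * u := by
      refine key p (2 * u) (z + τ z) hp0 (hz'.add hτz) ?_
      rw [← hel, mul_add, hpz, hpz', ← map_add ι, el_add, ← hel]
      exact congrArg ι (cra_cg _ (by ring) (by ring))
    have h2 : IsUnit (2 : K[X]) := by
      have : (2 : K[X]) = C 2 := (map_ofNat C 2).symm
      rw [this]
      exact isUnit_C.2 (isUnit_iff_ne_zero.2 two_ne_zero)
    exact (h2.dvd_mul_left).1 h1
  have hpw : p ∣ w := by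
    have h1 : p ^ 2 ∣ u ^ 2 - w ^ 2 * FF a := by
      refine key (p ^ 2) _ (z * τ z) (pow_ne_zero 2 hp0) (hz'.mul hτz) ?_
      have e1 : algebraMap K[X] (FractionRing (CR (FF a))) (p ^ 2) * (z * τ z) =
          (ι (el (FF a) p 0) * z) * (ι (el (FF a) p 0) * τ z) := by
        rw [hel, map_pow]
        ring
      rw [e1, hpz, hpz', ← map_mul ι, el_mul, ← hel]
      exact congrArg ι (cra_cg _ (by ring) (by ring))
    have h2 : p ^ 2 ∣ w ^ 2 * FF a := by
      have h3 : p ^ 2 ∣ u ^ 2 := pow_dvd_pow_of_dvd hpu 2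
      have h4 := dvd_sub h3 h1
      have h5 : u ^ 2 - (u ^ 2 - w ^ 2 * FF a) = w ^ 2 * FF a := by ring
      rwa [h5] at h4
    exact cra_dvd_of_sq p w (FF a) hp0 (cra_FF_squarefree a hinj) h2
  obtain ⟨u', hu'⟩ := hpu
  obtain ⟨w', hw'⟩ := hpw
  refine ⟨el (FF a) u' w', ?_⟩
  have hp1 : ι (el (FF a) p 0) ≠ 0 := by
    intro h0
    have h1 := hιinj (h0.trans (map_zero ι).symm)
    rw [← el_zero (FF a)] at h1
    exact hp0 (el_inj (FF a) h1).1
  apply mul_left_cancel₀ hp1
  rw [hpz, ← map_mul, el_mul]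
  exact congrArg ι (cra_cg _ (by rw [hu']; ring) (by rw [hw']; ring))

end HK
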