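import Pool.Agent.H95.HK.CRa

/-!
Module CRb (project HK, helper95).  The points of the affine curve and the maximal ideals of the coordinate ring.
PROOFS.  Evaluation at a point (x, y): the ring homomorphism CR F → K, AdjoinRoot.lift (Polynomial.evalRingHom x) y; it maps el u w to u(x) + w(x) y; its kernel
is pI x y: el u w ≡ u(x) + w(x) y modulo pI x y.
* exists_pI: P ∩ K[X] is a nonzero prime of K[X] (CR F is integral over K[X], CR F is not a field / P ≠ ⊥), so it contains X - C x (K algebraically closed);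
  then y ^ 2 - F(x) = (y - y₀) (y + y₀) ∈ P with y₀ ^ 2 = F(x), so P contains pI x y₀ or pI x (- y₀), which is maximal.
* pI_mul_conj.  ⊆: products of generators: (X - x) ^ 2, (X - x) (Y ± y), Y ^ 2 - y ^ 2 = F - F(x).  ⊇: the product contains (X - x) ^ 2, (X - x)(Y - y), (X - x)(Y + y),
  so (X - x) * 2 y, and F - F(x) = (X - x) G.  If y ≠ 0: done.  If y = 0: F(x) = 0, G(x) ≠ 0 (simple root: the a_i are different), and
  X - x is a combination of (X - x) ^ 2 and (X - x) G.
-/

namespace HK

open Polynomial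

/-- The ideal of the point `(x, y)` in the coordinate ring of `y ^ 2 = F(x)`. -/
noncomputable def pI {K : Type*} [Field K] (F : K[X]) (x y : K) : Ideal (CR F) :=
  Ideal.span {el F (X - C x) 0, el F (C (-y)) 1}

variable {K : Type*} [Field K] (F : K[X])

private theorem CRb_root {x y : K} (h : y ^ 2 = F.eval x) :
    (X ^ 2 - C F : K[X][X]).eval₂ (evalRingHom x) y = 0 := by
  rw [eval₂_sub, eval₂_pow, eval₂_X, eval₂_C, coe_evalRingHom, h, sub_self]

/-- evaluation at a point of the curve -/
private noncomputable def CRb_ev {x y : K} (h : y ^ 2 = F.eval x) : CR F →+* K :=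
  AdjoinRoot.lift (evalRingHom x) y (CRb_root F h)

private theorem CRb_ev_el {x y : K} (h : y ^ 2 = F.eval x) (u w : K[X]) :
    CRb_ev F h (el F u w) = u.eval x + w.eval x * y := by
  unfold CRb_ev el
  rw [map_add, map_mul, AdjoinRoot.lift_of, AdjoinRoot.lift_of, AdjoinRoot.lift_root,
    coe_evalRingHom]

private theorem CRb_gen1 (x y : K) : el F (X - C x) 0 ∈ pI F x y :=
  Ideal.subset_span (Set.mem_insert _ _)

private theorem CRb_gen2 (x y : K) : el F (C (-y)) 1 ∈ pI F x y :=
  Ideal.subset_span (Set.mem_insert_of_mem _ (Set.mem_singleton _))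

private theorem CRb_decomp (x : K) (u : K[X]) : ∃ u' : K[X], u = C (u.eval x) + (X - C x) * u' := by
  obtain ⟨u', hu'⟩ := X_sub_C_dvd_sub_C_eval (p := u) (a := x)
  exact ⟨u', by rw [← hu']; ring⟩

private theorem CRb_mem_iff {x y : K} (h : y ^ 2 = F.eval x) (z : CR F) :
    z ∈ pI F x y ↔ CRb_ev F h z = 0 := by
  constructor
  · intro hz
    have hle : pI F x y ≤ RingHom.ker (CRb_ev F h) := by
      unfold pI
      rw [Ideal.span_le]
      rintro r (rfl | hr)
      · rw [SetLike.mem_coe, RingHom.mem_ker, CRb_ev_el]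
        simp
      · rw [Set.mem_singleton_iff] at hr
        rw [hr, SetLike.mem_coe, RingHom.mem_ker, CRb_ev_el]
        simp
    exact hle hz
  · intro hz
    obtain ⟨u, w, rfl⟩ := el_surj F z
    rw [CRb_ev_el] at hz
    obtain ⟨u', hu'⟩ := CRb_decomp x u
    obtain ⟨w', hw'⟩ := CRb_decomp x w
    have key : el F u w = el F u' w' * el F (X - C x) 0 +
        el F (C (w.eval x)) 0 * el F (C (-y)) 1 := by
      rw [el_mul, el_mul, el_add]
      have e1 : u.eval x = -(w.eval x * y) := by linear_combination hz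
      congr 1
      · nth_rewrite 1 [hu']
        rw [e1, C_neg, C_neg, C_mul]
        ring
      · nth_rewrite 1 [hw']
        ring
    rw [key]
    exact Ideal.add_mem _ (Ideal.mul_mem_left _ _ (CRb_gen1 F x y))
      (Ideal.mul_mem_left _ _ (CRb_gen2 F x y))

theorem pI_mem {x y : K} (h : y ^ 2 = F.eval x) (u w : K[X]) :
    el F u w ∈ pI F x y ↔ u.eval x + w.eval x * y = 0 := by
  rw [CRb_mem_iff F h, CRb_ev_el]

theorem pI_isMaximal {x y : K} (h : y ^ 2 = F.eval x) : (pI F x y).IsMaximal := by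
  have e : pI F x y = RingHom.ker (CRb_ev F h) := by
    ext z
    rw [CRb_mem_iff F h, RingHom.mem_ker]
  rw [e]
  refine RingHom.ker_isMaximal_of_surjective _ ?_
  intro c
  refine ⟨el F (C c) 0, ?_⟩
  rw [CRb_ev_el]
  simp

theorem pI_ne_bot (x y : K) : pI F x y ≠ ⊥ := by
  intro h
  have h1 := CRb_gen1 F x y
  rw [h, Ideal.mem_bot, ← el_zero] at h1
  exact X_sub_C_ne_zero x (el_inj F h1).1

theorem pI_inj {x y x' y' : K} (h : y ^ 2 = F.eval x) (h' : y' ^ 2 = F.eval x')
    (hp : pI F x y = pI F x' y') : x = x' ∧ y = y' := by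
  have h1 := CRb_gen1 F x y
  have h2 := CRb_gen2 F x y
  rw [hp, pI_mem F h'] at h1 h2
  simp only [eval_sub, eval_X, eval_C, eval_zero, zero_mul, add_zero, eval_one, one_mul] at h1 h2
  exact ⟨(sub_eq_zero.mp h1).symm, by linear_combination -h2⟩

private theorem CRb_mul_conj (y : K) :
    el F (C (-y)) 1 * el F (C y) 1 = el F (F - C (y ^ 2)) 0 := by
  rw [el_mul]
  congr 1
  · rw [C_neg, C_pow]; ring
  · rw [C_neg]; ring

private theorem CRb_conj_dvd {x y : K} (h : y ^ 2 = F.eval x) :
    ∃ G : K[X], F = C (y ^ 2) + (X - C x) * G ∧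
      el F (C (-y)) 1 * el F (C y) 1 = el F (X - C x) 0 * el F G 0 := by
  obtain ⟨G, hG⟩ := CRb_decomp x F
  rw [← h] at hG
  refine ⟨G, hG, ?_⟩
  rw [CRb_mul_conj, el_mul]
  congr 1
  · nth_rewrite 1 [hG]; ring
  · ring

theorem exists_pI [IsAlgClosed K] (P : Ideal (CR F)) (hP : P.IsMaximal) (hb : P ≠ ⊥) :
    ∃ x y : K, y ^ 2 = F.eval x ∧ P = pI F x y := by
  have hmon : (X ^ 2 - C F : K[X][X]).Monic := monic_X_pow_sub_C F two_ne_zero
  haveI hfin : Module.Finite K[X] (CR F) := hmon.finite_adjoinRoot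
  haveI : Algebra.IsIntegral K[X] (CR F) := Algebra.IsIntegral.of_finite K[X] (CR F)
  haveI hQ : (P.comap (algebraMap K[X] (CR F))).IsMaximal :=
    Ideal.isMaximal_comap_of_isIntegral_of_isMaximal P
  have hne : P.comap (algebraMap K[X] (CR F)) ≠ ⊥ :=
    Ring.ne_bot_of_isMaximal_of_not_isField hQ (Polynomial.not_isField K)
  obtain ⟨p, hp⟩ := (IsPrincipalIdealRing.principal (P.comap (algebraMap K[X] (CR F)))).principal
  rw [Ideal.submodule_span_eq] at hp
  have hp0 : p ≠ 0 := by
    rintro rfl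
    apply hne
    rw [hp, Ideal.span_singleton_eq_bot]
  have hprime : Prime p := by
    rw [← Ideal.span_singleton_prime hp0, ← hp]
    exact hQ.isPrime
  have hdeg : p.degree = 1 := IsAlgClosed.degree_eq_one_of_irreducible K hprime.irreducible
  obtain ⟨x, hx⟩ := IsAlgClosed.exists_root p (by rw [hdeg]; exact one_ne_zero)
  have hxp : p ∣ X - C x := by
    have h1 : X - C x ∣ p := dvd_iff_isRoot.mpr hx
    exact ((irreducible_X_sub_C x).associated_of_dvd hprime.irreducible h1).symm.dvd
  have hxP : el F (X - C x) 0 ∈ P := by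
    rw [← algebraMap_eq, ← Ideal.mem_comap, hp, Ideal.mem_span_singleton]
    exact hxp
  obtain ⟨y, hy⟩ := IsAlgClosed.exists_pow_nat_eq (F.eval x) (n := 2) two_pos
  obtain ⟨G, -, hG⟩ := CRb_conj_dvd F hy
  have hmem : el F (C (-y)) 1 * el F (C y) 1 ∈ P := by
    rw [hG]
    exact Ideal.mul_mem_right _ _ hxP
  have hfin' : ∀ y' : K, y' ^ 2 = F.eval x → el F (C (-y')) 1 ∈ P →
      ∃ x y : K, y ^ 2 = F.eval x ∧ P = pI F x y := by
    intro y' hy' hm
    refine ⟨x, y', hy', ?_⟩
    have hle : pI F x y' ≤ P := by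
      unfold pI
      rw [Ideal.span_le]
      rintro r (rfl | hr)
      · exact hxP
      · rw [Set.mem_singleton_iff] at hr
        rw [hr]
        exact hm
    exact ((pI_isMaximal F hy').eq_of_le hP.ne_top hle).symm
  rcases hP.isPrime.mem_or_mem hmem with h1 | h1
  · exact hfin' y hy h1
  · refine hfin' (-y) (by rw [neg_sq]; exact hy) ?_
    rw [neg_neg]
    exact h1

theorem pI_mul_conj [CharZero K] {g : ℕ} (a : Fin (2 * g + 1) → K) [Fact (Function.Injective a)]
    {x y : K} (h : y ^ 2 = (FF a).eval x) :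
    pI (FF a) x y * pI (FF a) x (-y) = Ideal.span {el (FF a) (X - C x) 0} := by
  obtain ⟨G, hG0, hG⟩ := CRb_conj_dvd (FF a) h
  unfold pI
  rw [neg_neg, Ideal.span_pair_mul_span_pair]
  apply le_antisymm
  · rw [Ideal.span_le]
    intro r hr
    rw [SetLike.mem_coe, Ideal.mem_span_singleton]
    simp only [Set.mem_insert_iff, Set.mem_singleton_iff] at hr
    rcases hr with rfl | rfl | rfl | rfl
    · exact dvd_mul_right _ _
    · exact dvd_mul_right _ _
    · exact dvd_mul_left _ _
    · rw [hG]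
      exact dvd_mul_right _ _
  · rw [Ideal.span_singleton_le_iff_mem]
    set J : Ideal (CR (FF a)) := Ideal.span {el (FF a) (X - C x) 0 * el (FF a) (X - C x) 0,
      el (FF a) (X - C x) 0 * el (FF a) (C y) 1, el (FF a) (C (-y)) 1 * el (FF a) (X - C x) 0,
      el (FF a) (C (-y)) 1 * el (FF a) (C y) 1} with hJ
    have g1 : el (FF a) (X - C x) 0 * el (FF a) (X - C x) 0 ∈ J :=
      Ideal.subset_span (by simp)
    have g2 : el (FF a) (X - C x) 0 * el (FF a) (C y) 1 ∈ J :=
      Ideal.subset_span (by simp)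
    have g3 : el (FF a) (C (-y)) 1 * el (FF a) (X - C x) 0 ∈ J :=
      Ideal.subset_span (by simp)
    have g4 : el (FF a) (C (-y)) 1 * el (FF a) (C y) 1 ∈ J :=
      Ideal.subset_span (by simp)
    by_cases hy : y = 0
    · subst hy
      have hroot : (FF a) = (X - C x) * G := by
        rw [hG0]
        simp
      have hsep : (FF a).Separable := by
        unfold FF
        rw [separable_prod_X_sub_C_iff]
        exact Fact.out
      have hGx : G.eval x ≠ 0 := by
        intro h0
        obtain ⟨G', hG'⟩ := dvd_iff_isRoot.mpr h0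
        have hsq : (X - C x) * (X - C x) ∣ FF a := ⟨G', by rw [hroot, hG']; ring⟩
        exact not_isUnit_X_sub_C x (hsep.squarefree _ hsq)
      have hcop : IsCoprime (X - C x) G := by
        refine (irreducible_X_sub_C x).coprime_iff_not_dvd.mpr ?_
        intro hd
        exact hGx (dvd_iff_isRoot.mp hd)
      obtain ⟨A, B, hAB⟩ := hcop
      have key : el (FF a) (X - C x) 0 =
          el (FF a) A 0 * (el (FF a) (X - C x) 0 * el (FF a) (X - C x) 0) +
          el (FF a) B 0 * (el (FF a) (C (-0)) 1 * el (FF a) (C 0) 1) := by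
        rw [hG, el_mul, el_mul, el_mul, el_mul, el_add]
        congr 1
        · linear_combination (-(X - C x)) * hAB
        · ring
      rw [key]
      exact Ideal.add_mem _ (Ideal.mul_mem_left _ _ g1) (Ideal.mul_mem_left _ _ g4)
    · have key : el (FF a) (X - C x) 0 = el (FF a) (C (1 / (2 * y))) 0 *
          (el (FF a) (X - C x) 0 * el (FF a) (C y) 1) +
          el (FF a) (C (-(1 / (2 * y)))) 0 * (el (FF a) (C (-y)) 1 * el (FF a) (X - C x) 0) := by
        rw [el_mul, el_mul, el_mul, el_mul, el_add]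
        have e1 : (C (1 / (2 * y)) : K[X]) * C y * 2 = 1 := by
          rw [← C_mul, ← C_ofNat, ← C_mul, ← C_1]
          congr 1
          field_simp
        congr 1
        · rw [C_neg, C_neg]
          linear_combination (-(X - C x)) * e1
        · rw [C_neg, C_neg]
          ring
      rw [key]
      exact Ideal.add_mem _ (Ideal.mul_mem_left _ _ g2) (Ideal.mul_mem_left _ _ g3)

end HK
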