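import Pool.Agent.H95.HJ.Orbit
import Pool.Agent.H95.HJ.Defs3

/-!
Module OrbG (project HK, helper95).  The orbit of the point (t : 1) under the four-group that permutes four of the finite branch points.
NOTATION.  r = (quint a ha).r : r i = (a i, 1) for i < 5, r 5 = (-1, 0); e : ZMod 2 × ZMod 2 → Fin 5 injective, i5 (e x) the index e x in Fin 6; M b maps r (e x) to a multiple
of r (e (b + x)) (hM); T = (t, 1); r_4 stands for the fifth finite branch point (index j not in the range of e), r_5 = (-1, 0).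
PROOFS.  For a 2 x 2 matrix M with adjugate N: dt u (M v) = dt (N u) v (M N = det M, dt (M u') (M v) = det M * dt u' v).
* orbG_near: M_b r_(e 0) is a multiple of r_(e b) (x = 0), so N_b r_(e b) = λ r_(e 0), and dt r_(e b) (M_b T) = dt (N_b r_(e b)) T = λ (a (e 0) - t).
  M_b (a (e 0), 1) is a nonzero multiple of r_(e b) = (a (e b), 1), so its coordinate 1 is not 0 (orbG_ne).
* orbG_prod: F(M_b T) = ∏_i dt (r i) (M_b T) = ∏_i dt (N_b r_i) T.  N_b r_(e x) is a nonzero multiple of r_(e (b + x)) (b + b = 0), so these four factors give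
  a constant times ∏_x (a (e x) - t).  For r_4, r_5 let s_b = N_b r_4, s_b' = N_b r_5 (vectors ≠ 0, not proportional); dt s (t, 1) = s 0 - s 1 t is a nonzero
  constant if s 1 = 0 and - s 1 * (t - s 0 / s 1) otherwise.  So F(M_b T) F(M_c T) = const * (∏_x (t - a (e x))) ^ 2 * (product of t - z over the finite ones of the four points
  s_b, s_b', s_c, s_c').
  CASE 1: the sets {s_b, s_b'} and {s_c, s_c'} of points of P¹ are different.  Their symmetric difference has at least two elements, one of them is finite, z; it has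
  multiplicity one among the four points; zs = the other finite ones: first alternative.  (And M_(b+c) is not an automorphism: it would preserve {r (e x)} and so
  {r_4, r_5}, and it is a multiple of A = M_c N_b (see case 2), so N_c r_4, N_c r_5 would be multiples of N_b r_4, N_b r_5 in some order.)
  CASE 2: the sets are equal.  Then the product over the four points is a constant times a square q₁(t) ^ 2: q = ∏_x (X - C a (e x)) * q₁.  And the matrix A = M_c N_b maps
  {r_4, r_5} to multiples of {r_4, r_5} (M_c N_c = det), A r_(e x) is a multiple of r_(e (b + c + x)), which is a multiple of M_(b + c) r_(e x); so (A and M_(b+c) agree up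
  to factors on four points, three are enough) A is a multiple of M_(b + c), and M_(b + c) maps every branch point to a branch point; different ones to different ones
  (invertible), so this defines a permutation π.
-/

namespace HK

open HJ
open scoped Classical

/-- The index of the finite branch point `a i` of the curve. -/
def i5 (i : Fin 5) : Fin (2 * 3) := ⟨(i : ℕ), by
  have := i.isLt
  omega⟩

variable {k : Type} [Field k] [IsAlgClosed k] [CharZero k] (a : Fin 5 → k)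
  (ha : Function.Injective a)

omit [IsAlgClosed k] [CharZero k] in
theorem quint_r5 (i : Fin 5) : (quint a ha).r (i5 i) = ![a i, 1] := by
  have h : ((i5 i : Fin (2 * 3)) : ℕ) < 5 := i.isLt
  change (if h : ((i5 i : Fin (2 * 3)) : ℕ) < 5 then ![a ⟨(i5 i : ℕ), h⟩, 1] else ![-1, 0]) = _
  rw [dif_pos h]
  rfl

section aux

omit [IsAlgClosed k] [CharZero k]

private theorem OrbG_adj (M : Matrix (Fin 2) (Fin 2) k) (u v : Fin 2 → k) :
    dt u (M.mulVec v) = dt (M.adjugate.mulVec u) v := by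
  simp only [dt, Matrix.mulVec, dotProduct, Fin.sum_univ_two, Matrix.adjugate_fin_two,
    Matrix.of_apply, Matrix.cons_val', Matrix.cons_val_zero, Matrix.cons_val_one]
  ring

private theorem OrbG_adj_det {M : Matrix (Fin 2) (Fin 2) k} (hM : M.det ≠ 0) :
    M.adjugate.det ≠ 0 := by
  rw [Matrix.det_adjugate]
  simpa using hM

private theorem OrbG_trans {u v w : Fin 2 → k} (hv : v ≠ 0) (h1 : dt u v = 0)
    (h2 : dt v w = 0) : dt u w = 0 := by
  by_cases hu : u = 0
  · rw [hu]; simp [dt]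
  by_cases hw : w = 0
  · rw [hw]; simp [dt]
  obtain ⟨c, -, rfl⟩ := exists_smul_of_dt hu hv h1
  rw [dt_smul_left] at h2
  have hc : c ≠ 0 := by
    rintro rfl
    exact hv (zero_smul _ _)
  exact (mul_eq_zero.1 h2).resolve_left hc

private theorem OrbG_symm {u v : Fin 2 → k} (h : dt u v = 0) : dt v u = 0 := by
  rw [dt_comm, h, neg_zero]

private theorem OrbG_symm' {u v : Fin 2 → k} (h : dt u v ≠ 0) : dt v u ≠ 0 :=
  fun hc => h (OrbG_symm hc)

private theorem OrbG_mulVec (M : Matrix (Fin 2) (Fin 2) k) {u v : Fin 2 → k} (h : dt u v = 0) :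
    dt (M.mulVec u) (M.mulVec v) = 0 := by
  rw [dt_mulVec, h, mul_zero]

private theorem OrbG_ne_left {u v : Fin 2 → k} (h : dt u v ≠ 0) : u ≠ 0 := by
  rintro rfl
  exact h (by simp [dt])

private theorem OrbG_ne_right {u v : Fin 2 → k} (h : dt u v ≠ 0) : v ≠ 0 := by
  rintro rfl
  exact h (by simp [dt])

private theorem OrbG_inv : ∀ b x : ZMod 2 × ZMod 2, b + (b + x) = x := by
  decide

private theorem OrbG_dd : ∀ b c x : ZMod 2 × ZMod 2, c + (b + x) = (b + c) + x := by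
  decide

private theorem OrbG_i5_inj : Function.Injective i5 := by
  intro i j h
  have := congrArg Fin.val h
  exact Fin.ext this

private theorem OrbG_idx (e : ZMod 2 × ZMod 2 → Fin 5) (he : Function.Injective e) :
    ∃ p p' : Fin (2 * 3), p ≠ p' ∧ (∀ x, i5 (e x) ≠ p) ∧ (∀ x, i5 (e x) ≠ p') ∧
      (∀ i, i = p ∨ i = p' ∨ ∃ x, i5 (e x) = i) ∧
      ∀ f : Fin (2 * 3) → k, ∏ i, f i = (∏ x, f (i5 (e x))) * (f p * f p') := by
  have hinj : Function.Injective fun x => i5 (e x) := fun x y h => he (OrbG_i5_inj h)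
  have hcard : (Finset.univ \ Finset.univ.image fun x => i5 (e x)).card = 2 := by
    rw [Finset.card_sdiff_of_subset (Finset.subset_univ _), Finset.card_univ,
      Finset.card_image_of_injective _ hinj, Finset.card_univ, Fintype.card_fin,
      Fintype.card_prod, ZMod.card]
  obtain ⟨p, p', hne, hS⟩ := Finset.card_eq_two.1 hcard
  have hp : ∀ q, q = p ∨ q = p' → ∀ x, i5 (e x) ≠ q := by
    intro q hq x hx
    have h1 : q ∈ Finset.univ \ Finset.univ.image fun x => i5 (e x) := by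
      rw [hS]
      rcases hq with rfl | rfl <;> simp
    rw [Finset.mem_sdiff] at h1
    exact h1.2 (Finset.mem_image.2 ⟨x, Finset.mem_univ _, hx⟩)
  refine ⟨p, p', hne, hp p (Or.inl rfl), hp p' (Or.inr rfl), ?_, ?_⟩
  · intro i
    by_cases h1 : ∃ x, i5 (e x) = i
    · exact Or.inr (Or.inr h1)
    · have h2 : i ∈ Finset.univ \ Finset.univ.image fun x => i5 (e x) := by
        rw [Finset.mem_sdiff]
        refine ⟨Finset.mem_univ _, ?_⟩
        rw [Finset.mem_image]
        rintro ⟨x, -, hx⟩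
        exact h1 ⟨x, hx⟩
      rw [hS, Finset.mem_insert, Finset.mem_singleton] at h2
      rcases h2 with h2 | h2
      · exact Or.inl h2
      · exact Or.inr (Or.inl h2)
  · intro f
    rw [← Finset.prod_sdiff (Finset.subset_univ (Finset.univ.image fun x => i5 (e x))), hS,
      Finset.prod_pair hne, Finset.prod_image (fun x _ y _ h => hinj h)]
    ring

private theorem OrbG_lin {s : Fin 2 → k} (hs : s ≠ 0) : ∃ (κ : k) (m : Multiset k), κ ≠ 0 ∧
    (∀ t, dt s ![t, 1] = κ * (m.map fun z => t - z).prod) ∧ ∀ z ∈ m, dt s ![z, 1] = 0 := by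
  by_cases h1 : s 1 = 0
  · have h0 : s 0 ≠ 0 := by
      intro h0
      apply hs
      funext j
      fin_cases j
      · exact h0
      · exact h1
    refine ⟨s 0, 0, h0, ?_, by simp⟩
    intro t
    simp [dt, h1]
  · refine ⟨-(s 1), {s 0 / s 1}, neg_ne_zero.2 h1, ?_, ?_⟩
    · intro t
      simp only [dt, Matrix.cons_val_zero, Matrix.cons_val_one, Multiset.map_singleton,
        Multiset.prod_singleton]
      field_simp
      ring
    · intro z hz
      rw [Multiset.mem_singleton] at hz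
      subst hz
      simp only [dt, Matrix.cons_val_zero, Matrix.cons_val_one]
      field_simp
      ring

/-- one of the points of two different pairs is finite and simple. -/
private theorem OrbG_pick {s₁ s₂ s₃ s₄ : Fin 2 → k} (h12 : dt s₁ s₂ ≠ 0) (h34 : dt s₃ s₄ ≠ 0)
    (hns : ¬ ((dt s₁ s₃ = 0 ∧ dt s₂ s₄ = 0) ∨ (dt s₁ s₄ = 0 ∧ dt s₂ s₃ = 0))) :
    ∃ w w₂ w₃ w₄ : Fin 2 → k, (∀ v, dt s₁ v * dt s₂ v * dt s₃ v * dt s₄ v =
      dt w v * dt w₂ v * dt w₃ v * dt w₄ v) ∧ w 1 ≠ 0 ∧ dt w w₂ ≠ 0 ∧ dt w w₃ ≠ 0 ∧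
        dt w w₄ ≠ 0 := by
  have key : ∃ u u₂ u₃ u₄ : Fin 2 → k, ∃ u' u₂' u₃' u₄' : Fin 2 → k,
      (∀ v, dt s₁ v * dt s₂ v * dt s₃ v * dt s₄ v = dt u v * dt u₂ v * dt u₃ v * dt u₄ v) ∧
      (∀ v, dt s₁ v * dt s₂ v * dt s₃ v * dt s₄ v = dt u' v * dt u₂' v * dt u₃' v * dt u₄' v) ∧
      (dt u u₂ ≠ 0 ∧ dt u u₃ ≠ 0 ∧ dt u u₄ ≠ 0) ∧ (dt u' u₂' ≠ 0 ∧ dt u' u₃' ≠ 0 ∧ dt u' u₄' ≠ 0) ∧
      dt u u' ≠ 0 := by
    by_cases h13 : dt s₁ s₃ = 0
    · have h23 : dt s₂ s₃ ≠ 0 := fun hc =>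
        h12 (OrbG_trans (OrbG_ne_left h34) h13 (OrbG_symm hc))
      have h24 : dt s₂ s₄ ≠ 0 := fun hc => hns (Or.inl ⟨h13, hc⟩)
      have h14 : dt s₁ s₄ ≠ 0 := fun hc =>
        h34 (OrbG_trans (OrbG_ne_left h12) (OrbG_symm h13) hc)
      refine ⟨s₂, s₁, s₃, s₄, s₄, s₁, s₂, s₃, fun v => by ring, fun v => by ring,
        ⟨OrbG_symm' h12, h23, h24⟩, ⟨OrbG_symm' h14, OrbG_symm' h24, OrbG_symm' h34⟩, h24⟩
    · by_cases h14 : dt s₁ s₄ = 0
      · have h24 : dt s₂ s₄ ≠ 0 := fun hc =>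
          h12 (OrbG_trans (OrbG_ne_right h34) h14 (OrbG_symm hc))
        have h23 : dt s₂ s₃ ≠ 0 := fun hc => hns (Or.inr ⟨h14, hc⟩)
        refine ⟨s₂, s₁, s₃, s₄, s₃, s₁, s₂, s₄, fun v => by ring, fun v => by ring,
          ⟨OrbG_symm' h12, h23, h24⟩, ⟨OrbG_symm' h13, OrbG_symm' h23, h34⟩, h23⟩
      · by_cases h23 : dt s₂ s₃ = 0
        · have h24 : dt s₂ s₄ ≠ 0 := fun hc =>
            h34 (OrbG_trans (OrbG_ne_right h12) (OrbG_symm h23) hc)
          refine ⟨s₁, s₂, s₃, s₄, s₄, s₁, s₂, s₃, fun v => by ring, fun v => by ring,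
            ⟨h12, h13, h14⟩, ⟨OrbG_symm' h14, OrbG_symm' h24, OrbG_symm' h34⟩, h14⟩
        · refine ⟨s₁, s₂, s₃, s₄, s₃, s₁, s₂, s₄, fun v => by ring, fun v => by ring,
            ⟨h12, h13, h14⟩, ⟨OrbG_symm' h13, OrbG_symm' h23, h34⟩, h13⟩
  obtain ⟨u, u₂, u₃, u₄, u', u₂', u₃', u₄', e1, e2, ⟨a1, a2, a3⟩, ⟨b1, b2, b3⟩, huu⟩ := key
  by_cases hu : u 1 = 0
  · refine ⟨u', u₂', u₃', u₄', e2, ?_, b1, b2, b3⟩
    intro hu'
    apply huu
    simp [dt, hu, hu']
  · exact ⟨u, u₂, u₃, u₄, e1, hu, a1, a2, a3⟩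

private theorem OrbG_N (e : ZMod 2 × ZMod 2 → Fin 5)
    (M : ZMod 2 × ZMod 2 → Matrix (Fin 2) (Fin 2) k) (hdet : ∀ b, (M b).det ≠ 0)
    (hM : ∀ b x, dt ((M b).mulVec ((quint a ha).r (i5 (e x))))
      ((quint a ha).r (i5 (e (b + x)))) = 0) (b x : ZMod 2 × ZMod 2) :
    ∃ c : k, c ≠ 0 ∧ (M b).adjugate.mulVec ((quint a ha).r (i5 (e x))) =
      c • (quint a ha).r (i5 (e (b + x))) := by
  apply exists_smul_of_dt ((quint a ha).r_ne _)
    (mulVec_ne_zero (OrbG_adj_det (hdet b)) ((quint a ha).r_ne _))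
  apply OrbG_symm
  rw [← OrbG_adj]
  apply OrbG_symm
  have := hM b (b + x)
  rwa [OrbG_inv] at this

private theorem OrbG_four (e : ZMod 2 × ZMod 2 → Fin 5)
    (M : ZMod 2 × ZMod 2 → Matrix (Fin 2) (Fin 2) k) (hdet : ∀ b, (M b).det ≠ 0)
    (hM : ∀ b x, dt ((M b).mulVec ((quint a ha).r (i5 (e x))))
      ((quint a ha).r (i5 (e (b + x)))) = 0) (b : ZMod 2 × ZMod 2) :
    ∃ μ : k, μ ≠ 0 ∧ ∀ t : k,
      ∏ x, dt ((M b).adjugate.mulVec ((quint a ha).r (i5 (e x)))) ![t, 1] =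
        μ * ∏ x, (t - a (e x)) := by
  choose c hc0 hc using OrbG_N a ha e M hdet hM b
  refine ⟨∏ x, (-(c x)), Finset.prod_ne_zero_iff.2 fun x _ => neg_ne_zero.2 (hc0 x), ?_⟩
  intro t
  have h1 : ∏ x, (t - a (e x)) = ∏ x, (t - a (e (b + x))) :=
    (Equiv.prod_comp (Equiv.addLeft b) (fun x => t - a (e x))).symm
  rw [h1, ← Finset.prod_mul_distrib]
  apply Finset.prod_congr rfl
  intro x _
  rw [hc x, quint_r5, dt_smul_left]
  simp only [dt, Matrix.cons_val_zero, Matrix.cons_val_one]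
  ring

private theorem OrbG_F (M : Matrix (Fin 2) (Fin 2) k) (v : Fin 2 → k) :
    (quint a ha).F (M.mulVec v) = ∏ i, dt (M.adjugate.mulVec ((quint a ha).r i)) v := by
  rw [Hyp.F_def]
  apply Finset.prod_congr rfl
  intro i _
  rw [cst_self, OrbG_adj]

end aux

theorem orbG_near (e : ZMod 2 × ZMod 2 → Fin 5) (he : Function.Injective e)
    (M : ZMod 2 × ZMod 2 → Matrix (Fin 2) (Fin 2) k) (hdet : ∀ b, (M b).det ≠ 0)
    (hM : ∀ b x, dt ((M b).mulVec ((quint a ha).r (i5 (e x))))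
      ((quint a ha).r (i5 (e (b + x)))) = 0) (b : ZMod 2 × ZMod 2) :
    ∃ l : k, ∀ t : k,
      a (e b) * ((M b).mulVec ![t, 1]) 1 - ((M b).mulVec ![t, 1]) 0 = l * (a (e 0) - t) := by
  obtain ⟨c, -, hc⟩ := OrbG_N a ha e M hdet hM b b
  refine ⟨c, fun t => ?_⟩
  have h1 : b + b = 0 := by
    have := OrbG_inv b 0
    rwa [add_zero] at this
  rw [h1] at hc
  have h2 : dt ((quint a ha).r (i5 (e b))) ((M b).mulVec ![t, 1]) =
      c * dt ((quint a ha).r (i5 (e 0))) ![t, 1] := by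
    rw [OrbG_adj, hc, dt_smul_left]
  rw [quint_r5, quint_r5] at h2
  simp only [dt, Matrix.cons_val_zero, Matrix.cons_val_one, mul_one, one_mul] at h2
  exact h2

theorem orbG_ne (e : ZMod 2 × ZMod 2 → Fin 5) (he : Function.Injective e)
    (M : ZMod 2 × ZMod 2 → Matrix (Fin 2) (Fin 2) k) (hdet : ∀ b, (M b).det ≠ 0)
    (hM : ∀ b x, dt ((M b).mulVec ((quint a ha).r (i5 (e x))))
      ((quint a ha).r (i5 (e (b + x)))) = 0) (b : ZMod 2 × ZMod 2) :
    ((M b).mulVec ![a (e 0), 1]) 1 ≠ 0 := by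
  have h1 := hM b 0
  rw [add_zero] at h1
  have h2 : (M b).mulVec ((quint a ha).r (i5 (e 0))) ≠ 0 :=
    mulVec_ne_zero (hdet b) ((quint a ha).r_ne _)
  obtain ⟨c, hc0, hc⟩ := exists_smul_of_dt ((quint a ha).r_ne _) h2 (OrbG_symm h1)
  rw [quint_r5, quint_r5] at hc
  rw [hc]
  simpa using hc0

/-- The matrix `A` permutes the branch points. -/
def IsAut (A : Matrix (Fin 2) (Fin 2) k) : Prop :=
  ∃ π : Equiv.Perm (Fin (2 * 3)), ∀ i, dt (A.mulVec ((quint a ha).r i)) ((quint a ha).r (π i)) = 0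

private theorem OrbG_perm (e : ZMod 2 × ZMod 2 → Fin 5) (he : Function.Injective e)
    {p p' : Fin (2 * 3)} (hpp : p ≠ p') (hp : ∀ x, i5 (e x) ≠ p) (hp' : ∀ x, i5 (e x) ≠ p')
    (hcases : ∀ i, i = p ∨ i = p' ∨ ∃ x, i5 (e x) = i) (A : Matrix (Fin 2) (Fin 2) k)
    (d : ZMod 2 × ZMod 2) (hA : ∀ x, dt (A.mulVec ((quint a ha).r (i5 (e x))))
      ((quint a ha).r (i5 (e (d + x)))) = 0) (g : Fin (2 * 3)) (g' : Fin (2 * 3))
    (hg : (g = p ∧ g' = p') ∨ (g = p' ∧ g' = p))
    (h1 : dt (A.mulVec ((quint a ha).r p)) ((quint a ha).r g) = 0)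
    (h2 : dt (A.mulVec ((quint a ha).r p')) ((quint a ha).r g') = 0) : IsAut a ha A := by
  have hinj : Function.Injective fun x => i5 (e x) := fun x y h => he (OrbG_i5_inj h)
  let f : Fin (2 * 3) → Fin (2 * 3) := fun i =>
    if i = p then g else if i = p' then g' else
      i5 (e (d + Function.invFun (fun x => i5 (e x)) i))
  have f0 : f p = g := if_pos rfl
  have f1 : f p' = g' := by
    change (if p' = p then g else if p' = p' then g' else _) = g'
    rw [if_neg (Ne.symm hpp), if_pos rfl]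
  have fe : ∀ x, f (i5 (e x)) = i5 (e (d + x)) := by
    intro x
    change (if i5 (e x) = p then g else if i5 (e x) = p' then g' else
      i5 (e (d + Function.invFun (fun x => i5 (e x)) (i5 (e x))))) = _
    rw [if_neg (hp x), if_neg (hp' x), Function.leftInverse_invFun hinj x]
  have hinv : Function.Involutive f := by
    intro i
    rcases hcases i with rfl | rfl | ⟨x, rfl⟩
    · rcases hg with ⟨e1, e2⟩ | ⟨e1, e2⟩
      · rw [f0, e1, f0, e1]
      · rw [f0, e1, f1, e2]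
    · rcases hg with ⟨e1, e2⟩ | ⟨e1, e2⟩
      · rw [f1, e2, f1, e2]
      · rw [f1, e2, f0, e1]
    · rw [fe, fe, OrbG_inv]
  refine ⟨hinv.toPerm, ?_⟩
  intro i
  change dt (A.mulVec ((quint a ha).r i)) ((quint a ha).r (f i)) = 0
  rcases hcases i with rfl | rfl | ⟨x, rfl⟩
  · rw [f0]; exact h1
  · rw [f1]; exact h2
  · rw [fe]; exact hA x

theorem orbG_prod (e : ZMod 2 × ZMod 2 → Fin 5) (he : Function.Injective e)
    (M : ZMod 2 × ZMod 2 → Matrix (Fin 2) (Fin 2) k) (hdet : ∀ b, (M b).det ≠ 0)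
    (hM : ∀ b x, dt ((M b).mulVec ((quint a ha).r (i5 (e x))))
      ((quint a ha).r (i5 (e (b + x)))) = 0) (b c : ZMod 2 × ZMod 2) (hbc : b ≠ c) :
    (¬ IsAut a ha (M (b + c)) ∧ ∃ (κ z : k) (zs : Multiset k), κ ≠ 0 ∧ z ∉ zs ∧ ∀ t : k,
      (quint a ha).F ((M b).mulVec ![t, 1]) * (quint a ha).F ((M c).mulVec ![t, 1]) =
        κ * (∏ x, (t - a (e x))) ^ 2 * (t - z) * (zs.map fun z' => t - z').prod) ∨
    (IsAut a ha (M (b + c)) ∧ ∃ (κ : k) (q : Polynomial k), κ ≠ 0 ∧ q ≠ 0 ∧ ∀ t : k,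
      (quint a ha).F ((M b).mulVec ![t, 1]) * (quint a ha).F ((M c).mulVec ![t, 1]) =
        κ * (q.eval t) ^ 2) := by
  obtain ⟨p, p', hpp, hp, hp', hcases, hprod⟩ := OrbG_idx (k := k) e he
  obtain ⟨μb, hμb, hFb⟩ := OrbG_four a ha e M hdet hM b
  obtain ⟨μc, hμc, hFc⟩ := OrbG_four a ha e M hdet hM c
  have hrr : ∀ i j, i ≠ j → dt ((quint a ha).r i) ((quint a ha).r j) ≠ 0 := (quint a ha).indep
  have hrne : ∀ i, (quint a ha).r i ≠ 0 := (quint a ha).r_ne
  obtain ⟨s₁, hs₁⟩ : ∃ s, s = (M b).adjugate.mulVec ((quint a ha).r p) := ⟨_, rfl⟩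
  obtain ⟨s₂, hs₂⟩ : ∃ s, s = (M b).adjugate.mulVec ((quint a ha).r p') := ⟨_, rfl⟩
  obtain ⟨s₃, hs₃⟩ : ∃ s, s = (M c).adjugate.mulVec ((quint a ha).r p) := ⟨_, rfl⟩
  obtain ⟨s₄, hs₄⟩ : ∃ s, s = (M c).adjugate.mulVec ((quint a ha).r p') := ⟨_, rfl⟩
  have h12 : dt s₁ s₂ ≠ 0 := by
    rw [hs₁, hs₂, dt_mulVec]
    exact mul_ne_zero (OrbG_adj_det (hdet b)) (hrr _ _ hpp)
  have h34 : dt s₃ s₄ ≠ 0 := by
    rw [hs₃, hs₄, dt_mulVec]
    exact mul_ne_zero (OrbG_adj_det (hdet c)) (hrr _ _ hpp)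
  -- the product
  have hF : ∀ t : k, (quint a ha).F ((M b).mulVec ![t, 1]) *
      (quint a ha).F ((M c).mulVec ![t, 1]) =
      μb * μc * (∏ x, (t - a (e x))) ^ 2 *
        (dt s₁ ![t, 1] * dt s₂ ![t, 1] * dt s₃ ![t, 1] * dt s₄ ![t, 1]) := by
    intro t
    rw [OrbG_F, OrbG_F, hprod, hprod, hFb, hFc, ← hs₁, ← hs₂, ← hs₃, ← hs₄]
    ring
  -- the matrix `A = M c * N b` is proportional to `M (b + c)`
  obtain ⟨A, hA⟩ : ∃ A, A = M c * (M b).adjugate := ⟨_, rfl⟩
  have hAdet : A.det ≠ 0 := by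
    rw [hA, Matrix.det_mul]
    exact mul_ne_zero (hdet c) (OrbG_adj_det (hdet b))
  have hAr : ∀ x, dt (A.mulVec ((quint a ha).r (i5 (e x))))
      ((M (b + c)).mulVec ((quint a ha).r (i5 (e x)))) = 0 := by
    intro x
    obtain ⟨l, hl0, hl⟩ := OrbG_N a ha e M hdet hM b x
    have g1 : A.mulVec ((quint a ha).r (i5 (e x))) =
        l • (M c).mulVec ((quint a ha).r (i5 (e (b + x)))) := by
      rw [hA, ← Matrix.mulVec_mulVec, hl, Matrix.mulVec_smul]
    rw [g1, dt_smul_left]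
    have g2 := hM c (b + x)
    rw [OrbG_dd] at g2
    have g3 := hM (b + c) x
    rw [OrbG_trans (hrne _) g2 (OrbG_symm g3), mul_zero]
  have hd : ∀ x y : ZMod 2 × ZMod 2, x ≠ y →
      dt ((quint a ha).r (i5 (e x))) ((quint a ha).r (i5 (e y))) ≠ 0 :=
    fun x y h => hrr _ _ (fun hh => h (he (OrbG_i5_inj hh)))
  have hthree : ∀ x : Fin 2 → k, dt (A.mulVec x) ((M (b + c)).mulVec x) = 0 := fun x =>
    eq_of_three A (M (b + c)) hAdet (hdet _) _ _ _ (hd (0, 0) (0, 1) (by decide))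
      (hd (0, 0) (1, 0) (by decide)) (hd (0, 1) (1, 0) (by decide)) (hAr _) (hAr _) (hAr _) x
  have hK : ∀ i j, dt ((M b).adjugate.mulVec ((quint a ha).r i))
      ((M c).adjugate.mulVec ((quint a ha).r j)) = 0 ↔
      dt ((M (b + c)).mulVec ((quint a ha).r i)) ((quint a ha).r j) = 0 := by
    intro i j
    have g1 : dt ((M c).adjugate.mulVec ((quint a ha).r j))
        ((M b).adjugate.mulVec ((quint a ha).r i)) =
        dt ((quint a ha).r j) (A.mulVec ((quint a ha).r i)) := by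
      rw [hA, ← Matrix.mulVec_mulVec]
      exact (OrbG_adj (M c) _ _).symm
    have g2 : A.mulVec ((quint a ha).r i) ≠ 0 := mulVec_ne_zero hAdet (hrne _)
    have g3 : (M (b + c)).mulVec ((quint a ha).r i) ≠ 0 := mulVec_ne_zero (hdet _) (hrne _)
    constructor
    · intro h
      have h' := OrbG_symm h
      rw [g1] at h'
      exact OrbG_trans g2 (OrbG_symm (hthree _)) (OrbG_symm h')
    · intro h
      apply OrbG_symm
      rw [g1]
      exact OrbG_trans g3 (OrbG_symm h) (OrbG_symm (hthree _))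
  by_cases hsame : (dt s₁ s₃ = 0 ∧ dt s₂ s₄ = 0) ∨ (dt s₁ s₄ = 0 ∧ dt s₂ s₃ = 0)
  · right
    constructor
    · rcases hsame with ⟨g1, g2⟩ | ⟨g1, g2⟩
      · rw [hs₁, hs₃, hK] at g1
        rw [hs₂, hs₄, hK] at g2
        exact OrbG_perm a ha e he hpp hp hp' hcases _ (b + c) (fun x => hM (b + c) x) p p'
          (Or.inl ⟨rfl, rfl⟩) g1 g2
      · rw [hs₁, hs₄, hK] at g1
        rw [hs₂, hs₃, hK] at g2
        exact OrbG_perm a ha e he hpp hp hp' hcases _ (b + c) (fun x => hM (b + c) x) p' p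
          (Or.inr ⟨rfl, rfl⟩) g1 g2
    · obtain ⟨κ, hκ, hκ2⟩ : ∃ κ : k, κ ≠ 0 ∧ ∀ v : Fin 2 → k,
          dt s₁ v * dt s₂ v * dt s₃ v * dt s₄ v = κ * (dt s₁ v * dt s₂ v) ^ 2 := by
        rcases hsame with ⟨g1, g2⟩ | ⟨g1, g2⟩
        · obtain ⟨c1, hc1, e1⟩ := exists_smul_of_dt (OrbG_ne_left h12) (OrbG_ne_left h34) g1
          obtain ⟨c2, hc2, e2⟩ := exists_smul_of_dt (OrbG_ne_right h12) (OrbG_ne_right h34) g2
          refine ⟨c1 * c2, mul_ne_zero hc1 hc2, fun v => ?_⟩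
          rw [e1, e2, dt_smul_left, dt_smul_left]
          ring
        · obtain ⟨c1, hc1, e1⟩ := exists_smul_of_dt (OrbG_ne_left h12) (OrbG_ne_right h34) g1
          obtain ⟨c2, hc2, e2⟩ := exists_smul_of_dt (OrbG_ne_right h12) (OrbG_ne_left h34) g2
          refine ⟨c1 * c2, mul_ne_zero hc1 hc2, fun v => ?_⟩
          rw [e1, e2, dt_smul_left, dt_smul_left]
          ring
      have hlin : ∀ s : Fin 2 → k, s ≠ 0 →
          (Polynomial.C (s 0) - Polynomial.C (s 1) * Polynomial.X : Polynomial k) ≠ 0 := by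
        intro s hs h0
        apply hs
        have c0 := congrArg (fun f => Polynomial.coeff f 0) h0
        have c1 := congrArg (fun f => Polynomial.coeff f 1) h0
        simp only [Polynomial.coeff_sub, Polynomial.coeff_C_zero, Polynomial.coeff_C_mul,
          Polynomial.coeff_X_zero, mul_zero, sub_zero, Polynomial.coeff_zero] at c0
        simp only [Polynomial.coeff_sub, Polynomial.coeff_C_succ, Polynomial.coeff_C_mul,
          Polynomial.coeff_X_one, mul_one, zero_sub, Polynomial.coeff_zero, neg_eq_zero] at c1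
        funext j
        fin_cases j
        · exact c0
        · exact c1
      refine ⟨μb * μc * κ, (∏ x, (Polynomial.X - Polynomial.C (a (e x)))) *
        ((Polynomial.C (s₁ 0) - Polynomial.C (s₁ 1) * Polynomial.X) *
          (Polynomial.C (s₂ 0) - Polynomial.C (s₂ 1) * Polynomial.X)),
        mul_ne_zero (mul_ne_zero hμb hμc) hκ, ?_, ?_⟩
      · refine mul_ne_zero (Finset.prod_ne_zero_iff.2 fun x _ => Polynomial.X_sub_C_ne_zero _)
          (mul_ne_zero (hlin _ (OrbG_ne_left h12)) (hlin _ (OrbG_ne_right h12)))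
      · intro t
        rw [hF t, hκ2]
        simp only [Polynomial.eval_mul, Polynomial.eval_prod, Polynomial.eval_sub,
          Polynomial.eval_X, Polynomial.eval_C, dt, Matrix.cons_val_zero, Matrix.cons_val_one,
          mul_one]
        ring
  · left
    constructor
    · rintro ⟨π, hπ⟩
      apply hsame
      have hπe : ∀ x, π (i5 (e x)) = i5 (e ((b + c) + x)) := by
        intro x
        by_contra hne
        apply hrr _ _ hne
        have hz : (M (b + c)).mulVec ((quint a ha).r (i5 (e x))) ≠ 0 :=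
          mulVec_ne_zero (hdet _) (hrne _)
        exact OrbG_trans hz (OrbG_symm (hπ _)) (hM (b + c) x)
      have hout : ∀ i, (∀ x, i5 (e x) ≠ i) → ∀ x, i5 (e x) ≠ π i := by
        intro i hi x hx
        have g1 := hπe ((b + c) + x)
        rw [OrbG_inv, hx] at g1
        exact hi _ (π.injective g1)
      have hππ : π p ≠ π p' := fun hc => hpp (π.injective hc)
      have g1 : π p = p ∨ π p = p' := by
        rcases hcases (π p) with h1 | h1 | ⟨x, hx⟩
        · exact Or.inl h1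
        · exact Or.inr h1
        · exact absurd hx (hout p hp x)
      have g2 : π p' = p ∨ π p' = p' := by
        rcases hcases (π p') with h1 | h1 | ⟨x, hx⟩
        · exact Or.inl h1
        · exact Or.inr h1
        · exact absurd hx (hout p' hp' x)
      have k1 := hπ p
      have k2 := hπ p'
      rcases g1 with g1 | g1
      · rcases g2 with g2 | g2
        · exact absurd (g1.trans g2.symm) hππ
        · left
          rw [g1] at k1
          rw [g2] at k2
          rw [hs₁, hs₃, hs₂, hs₄, hK, hK]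
          exact ⟨k1, k2⟩
      · rcases g2 with g2 | g2
        · right
          rw [g1] at k1
          rw [g2] at k2
          rw [hs₁, hs₃, hs₂, hs₄, hK, hK]
          exact ⟨k1, k2⟩
        · exact absurd (g1.trans g2.symm) hππ
    · obtain ⟨w, w₂, w₃, w₄, hw, hw1, d2, d3, d4⟩ := OrbG_pick h12 h34 hsame
      obtain ⟨κ₂, m₂, hκ₂, l₂, z₂⟩ := OrbG_lin (OrbG_ne_right d2)
      obtain ⟨κ₃, m₃, hκ₃, l₃, z₃⟩ := OrbG_lin (OrbG_ne_right d3)
      obtain ⟨κ₄, m₄, hκ₄, l₄, z₄⟩ := OrbG_lin (OrbG_ne_right d4)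
      have hwz : w = w 1 • ![w 0 / w 1, 1] := by
        funext j
        fin_cases j
        · simp only [Fin.zero_eta, Pi.smul_apply, Matrix.cons_val_zero, smul_eq_mul]
          field_simp
        · simp
      have hnot : ∀ s : Fin 2 → k, dt w s ≠ 0 → dt s ![w 0 / w 1, 1] ≠ 0 := by
        intro s hs hc
        apply hs
        rw [hwz, dt_smul_left, OrbG_symm hc, mul_zero]
      refine ⟨μb * μc * (-(w 1)) * κ₂ * κ₃ * κ₄, w 0 / w 1, m₂ + m₃ + m₄, ?_, ?_, ?_⟩
      · exact mul_ne_zero (mul_ne_zero (mul_ne_zero (mul_ne_zero (mul_ne_zero hμb hμc)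
          (neg_ne_zero.2 hw1)) hκ₂) hκ₃) hκ₄
      · intro hz
        rw [Multiset.mem_add, Multiset.mem_add] at hz
        rcases hz with (hz | hz) | hz
        · exact hnot _ d2 (z₂ _ hz)
        · exact hnot _ d3 (z₃ _ hz)
        · exact hnot _ d4 (z₄ _ hz)
      · intro t
        have g1 : dt w ![t, 1] = -(w 1) * (t - w 0 / w 1) := by
          simp only [dt, Matrix.cons_val_zero, Matrix.cons_val_one]
          field_simp
          ring
        rw [hF t, hw, g1, l₂, l₃, l₄, Multiset.map_add, Multiset.map_add, Multiset.prod_add,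
          Multiset.prod_add]
        ring

end HK
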