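import Pool.Agent.H95.HK.FinA1
import Pool.Agent.H95.HK.OrbG
import Pool.Agent.H95.HK.TB2

/-!
Module FinC (project HK, helper95).  One or two of the points over M_b (t : 1) are not torsion if t is close to a (e 0) at two residue characteristics.
NOTATION.  v_b = (M b).mulVec ![t, 1].
PROOF.  Let V be one of the two valuations.  V (v_b 1) = 1: v_b 1 = ((M b).mulVec ![a (e 0), 1]) 1 + (M b) 1 0 * (t - a (e 0)), V of the first summand is 1,
V ((M b) 1 0) ≤ 1.  orbG_near: a (e b) * v_b 1 - v_b 0 = l * (a (e 0) - t) for all t, so l = -(a (e b) * (M b) 1 0 - (M b) 0 0) (compare t = 1 and t = 0), V l ≤ 1, and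
x_b = v_b 0 / v_b 1 satisfies V (x_b - a (e b)) < 1.  The same for V'.  Apply not_torsion2 with g = 2, I₁ = B.image e (card ≤ 2), and t, y replaced by functions with the values
x_b, y_b / v_b 1 ^ 3 at e b (Function.extend / invFun, e injective; Finset.prod_image): (y_b / v_b 1 ^ 3) ^ 2 = (FF a).eval x_b (from Hyp.F: F(v) = v 1 * ∏ (v 0 - a_i v 1);
Fin.prod_univ_castSucc or Fin.prod_univ_six, quint), x_b ≠ a (e b) because F(v_b) ≠ 0.
-/

namespace HK

open HJ Polynomial

variable {Γ : Type*} [LinearOrderedCommGroupWithZero Γ]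

private theorem finC_F {k : Type} [Field k] (a : Fin 5 → k) (ha : Function.Injective a)
    (v : Fin 2 → k) : (quint a ha).F v = v 1 * ∏ i, (v 0 - a i * v 1) := by
  unfold Hyp.F
  have h : ∀ f : Fin (2 * 3) → k, ∏ i, f i = f 0 * f 1 * f 2 * f 3 * f 4 * f 5 := by
    intro f
    exact Fin.prod_univ_six f
  rw [h, Fin.prod_univ_five]
  simp only [quint, dt, Algebra.algebraMap_self, RingHom.id_apply]
  simp only [show ((0 : Fin (2 * 3)) : ℕ) = 0 from rfl, show ((1 : Fin (2 * 3)) : ℕ) = 1 from rfl,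
    show ((2 : Fin (2 * 3)) : ℕ) = 2 from rfl, show ((3 : Fin (2 * 3)) : ℕ) = 3 from rfl,
    show ((4 : Fin (2 * 3)) : ℕ) = 4 from rfl, show ((5 : Fin (2 * 3)) : ℕ) = 5 from rfl]
  simp
  ring

private theorem finC_one (v : Valuation AK Γ) (m0 m1 s t : AK) (hm : v m0 ≤ 1)
    (hz : v (m0 * s + m1) = 1) (ht : v (t - s) < 1) : v (m0 * t + m1) = 1 := by
  have h1 : m0 * t + m1 = (m0 * s + m1) + m0 * (t - s) := by ring
  have h2 : v (m0 * (t - s)) < v (m0 * s + m1) := by
    rw [map_mul, hz]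
    exact (mul_le_mul' hm le_rfl).trans_lt (by rw [one_mul]; exact ht)
  rw [h1, Valuation.map_add_eq_of_lt_left v h2, hz]

private theorem finC_x (v : Valuation AK Γ) (m00 m01 m10 m11 s t c l : AK) (h00 : v m00 ≤ 1)
    (h10 : v m10 ≤ 1) (hc : v c ≤ 1) (hz : v (m10 * t + m11) = 1) (ht : v (t - s) < 1)
    (hl : ∀ t : AK, c * (m10 * t + m11) - (m00 * t + m01) = l * (s - t)) :
    v ((m00 * t + m01) / (m10 * t + m11) - c) < 1 := by
  have h1 : l = m00 - c * m10 := by
    linear_combination hl 1 - hl 0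
  have h2 : v l ≤ 1 := by
    rw [h1]
    refine (Valuation.map_sub v _ _).trans (max_le h00 ?_)
    rw [map_mul]
    exact mul_le_one' hc h10
  have h3 : m10 * t + m11 ≠ 0 := by
    intro h
    rw [h, map_zero] at hz
    exact zero_ne_one hz
  have h4 : (m00 * t + m01) / (m10 * t + m11) - c = l * (t - s) / (m10 * t + m11) := by
    rw [div_sub' h3, div_left_inj' h3]
    linear_combination - hl t
  rw [h4, map_div₀, hz, div_one, map_mul]
  exact (mul_le_mul' h2 le_rfl).trans_lt (by rw [one_mul]; exact ht)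

theorem orbG_not_torsion (a : Fin 5 → AK) [ha : Fact (Function.Injective a)]
    (e : ZMod 2 × ZMod 2 → Fin 5) (he : Function.Injective e)
    (M : ZMod 2 × ZMod 2 → Matrix (Fin 2) (Fin 2) AK) (hdet : ∀ b, (M b).det ≠ 0)
    (hM : ∀ b x, dt ((M b).mulVec ((quint a ha.out).r (i5 (e x))))
      ((quint a ha.out).r (i5 (e (b + x)))) = 0)
    (V V' : ValuationSubring AK) (p q : ℕ) (hp : p.Prime) (hq : q.Prime) (hpq : p ≠ q)
    (hVp : V.valuation (p : AK) < 1) (hVq : V'.valuation (q : AK) < 1)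
    (h2 : V.valuation 2 = 1) (h2' : V'.valuation 2 = 1)
    (hai : ∀ i, V.valuation (a i) ≤ 1) (hai' : ∀ i, V'.valuation (a i) ≤ 1)
    (hd : ∀ i j, i ≠ j → V.valuation (a i - a j) = 1)
    (hd' : ∀ i j, i ≠ j → V'.valuation (a i - a j) = 1)
    (hMV : ∀ b i j, V.valuation (M b i j) ≤ 1) (hMV' : ∀ b i j, V'.valuation (M b i j) ≤ 1)
    (hZ : ∀ b, V.valuation (((M b).mulVec ![a (e 0), 1]) 1) = 1)
    (hZ' : ∀ b, V'.valuation (((M b).mulVec ![a (e 0), 1]) 1) = 1)
    (t : AK) (ht : V.valuation (t - a (e 0)) < 1) (ht' : V'.valuation (t - a (e 0)) < 1)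
    (B : Finset (ZMod 2 × ZMod 2)) (hB : B.card ≤ 2) (hBn : B.Nonempty)
    (hF : ∀ b ∈ B, (quint a ha.out).F ((M b).mulVec ![t, 1]) ≠ 0) (y : ZMod 2 × ZMod 2 → AK)
    (hy : ∀ b ∈ B, y b ^ 2 = (quint a ha.out).F ((M b).mulVec ![t, 1])) (N : ℕ) (hN : 0 < N) :
    (∏ b ∈ B, cls (g := 2) a (((M b).mulVec ![t, 1]) 0 / ((M b).mulVec ![t, 1]) 1)
      (y b / ((M b).mulVec ![t, 1]) 1 ^ 3)) ^ N ≠ 1 := by
  classical
  have hinj : Function.Injective a := ha.out
  have hv0 : ∀ (b : ZMod 2 × ZMod 2) (s : AK),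
      ((M b).mulVec ![s, 1]) 0 = M b 0 0 * s + M b 0 1 := by
    intro b s
    simp [Matrix.mulVec, dotProduct, Fin.sum_univ_two]
  have hv1 : ∀ (b : ZMod 2 × ZMod 2) (s : AK),
      ((M b).mulVec ![s, 1]) 1 = M b 1 0 * s + M b 1 1 := by
    intro b s
    simp [Matrix.mulVec, dotProduct, Fin.sum_univ_two]
  have key : ∀ (W : ValuationSubring AK), (∀ i, W.valuation (a i) ≤ 1) →
      (∀ b i j, W.valuation (M b i j) ≤ 1) →
      (∀ b, W.valuation (((M b).mulVec ![a (e 0), 1]) 1) = 1) →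
      W.valuation (t - a (e 0)) < 1 → ∀ b,
      W.valuation (((M b).mulVec ![t, 1]) 1) = 1 ∧
      W.valuation (((M b).mulVec ![t, 1]) 0 / ((M b).mulVec ![t, 1]) 1 - a (e b)) < 1 := by
    intro W hWa hWM hWZ hWt b
    obtain ⟨l, hl⟩ := orbG_near a ha.out e he M hdet hM b
    have h1 : W.valuation (M b 1 0 * t + M b 1 1) = 1 := by
      refine finC_one W.valuation _ _ (a (e 0)) t (hWM b 1 0) ?_ hWt
      have := hWZ b
      rwa [hv1] at this
    refine ⟨by rw [hv1]; exact h1, ?_⟩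
    rw [hv0, hv1]
    refine finC_x W.valuation _ _ _ _ (a (e 0)) t (a (e b)) l (hWM b 0 0) (hWM b 1 0) (hWa _) h1
      hWt ?_
    intro s
    have := hl s
    rwa [hv0, hv1] at this
  have hne1 : ∀ b, ((M b).mulVec ![t, 1]) 1 ≠ 0 := by
    intro b h
    have := (key V hai hMV hZ ht b).1
    rw [h, map_zero] at this
    exact zero_ne_one this
  set xf : ZMod 2 × ZMod 2 → AK :=
    fun b => ((M b).mulVec ![t, 1]) 0 / ((M b).mulVec ![t, 1]) 1 with hxf
  set yf : ZMod 2 × ZMod 2 → AK := fun b => y b / ((M b).mulVec ![t, 1]) 1 ^ 3 with hyf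
  set T : Fin 5 → AK := Function.extend e xf (fun _ => 0) with hT
  set Y : Fin 5 → AK := Function.extend e yf (fun _ => 0) with hY
  have hTe : ∀ b, T (e b) = xf b := fun b => he.extend_apply _ _ b
  have hYe : ∀ b, Y (e b) = yf b := fun b => he.extend_apply _ _ b
  have hFe : ∀ b, (quint a ha.out).F ((M b).mulVec ![t, 1]) =
      ((M b).mulVec ![t, 1]) 1 ^ 6 * ∏ i, (xf b - a i) := by
    intro b
    rw [finC_F]
    have h5 : ∀ i, ((M b).mulVec ![t, 1]) 0 - a i * ((M b).mulVec ![t, 1]) 1 =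
        ((M b).mulVec ![t, 1]) 1 * (xf b - a i) := by
      intro i
      rw [hxf]
      have := hne1 b
      field_simp
    rw [Finset.prod_congr rfl (fun i _ => h5 i), Finset.prod_mul_distrib, Finset.prod_const,
      Finset.card_univ, Fintype.card_fin]
    ring
  have hFF : ∀ x : AK, (FF (g := 2) a).eval x = ∏ i : Fin 5, (x - a i) := by
    intro x
    unfold FF
    rw [eval_prod]
    simp
  have hmain := not_torsion2 (g := 2) a V.valuation V'.valuation h2 hai hd h2' hai' hd' p q hp hq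
    hpq hVp hVq (B.image e) (Finset.card_image_le.trans hB) (hBn.image e) T Y ?_ ?_ ?_ ?_ N hN
  · rw [Finset.prod_image (fun x _ y _ h => he h)] at hmain
    have h6 : ∏ b ∈ B, cls (g := 2) a (T (e b)) (Y (e b)) = ∏ b ∈ B, cls (g := 2) a
        (((M b).mulVec ![t, 1]) 0 / ((M b).mulVec ![t, 1]) 1)
        (y b / ((M b).mulVec ![t, 1]) 1 ^ 3) := by
      refine Finset.prod_congr rfl (fun b _ => ?_)
      rw [hTe, hYe]
    rw [h6] at hmain
    exact hmain
  · intro i hi
    obtain ⟨b, hb, rfl⟩ := Finset.mem_image.1 hi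
    rw [hTe, hYe, hFF, hyf]
    have h7 := hy b hb
    rw [hFe] at h7
    have := hne1 b
    simp only
    rw [div_pow, h7, ← pow_mul]
    field_simp
    ring
  · intro i hi
    obtain ⟨b, hb, rfl⟩ := Finset.mem_image.1 hi
    rw [hTe]
    exact (key V hai hMV hZ ht b).2
  · intro i hi
    obtain ⟨b, hb, rfl⟩ := Finset.mem_image.1 hi
    rw [hTe]
    exact (key V' hai' hMV' hZ' ht' b).2
  · intro i hi
    obtain ⟨b, hb, rfl⟩ := Finset.mem_image.1 hi
    rw [hTe]
    intro h8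
    apply hF b hb
    rw [hFe]
    have h9 : ∏ i, (xf b - a i) = 0 :=
      Finset.prod_eq_zero (Finset.mem_univ (e b)) (by rw [h8, sub_self])
    rw [h9, mul_zero]

end HK
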