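import Pool.Agent.H95.HK.OrbG

/-!
Module OrbH (project HK, helper95).  `F(M (t : 1))` is a polynomial in `t` with a simple root.
-/

namespace HK

open HJ
open scoped Classical

private theorem OrbH_symm {k : Type} [Field k] {u v : Fin 2 → k} (h : dt u v = 0) :
    dt v u = 0 := by
  rw [dt_comm, h, neg_zero]

private theorem OrbH_adj {k : Type} [Field k] (M : Matrix (Fin 2) (Fin 2) k) (u v : Fin 2 → k) :
    dt u (M.mulVec v) = dt (M.adjugate.mulVec u) v := by
  simp only [dt, Matrix.mulVec, dotProduct, Fin.sum_univ_two, Matrix.adjugate_fin_two,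
    Matrix.of_apply, Matrix.cons_val', Matrix.cons_val_zero, Matrix.cons_val_one]
  ring

private theorem OrbH_lin {k : Type} [Field k] {s : Fin 2 → k} (hs : s ≠ 0) :
    ∃ (κ : k) (m : Multiset k), κ ≠ 0 ∧
    (∀ t, dt s ![t, 1] = κ * (m.map fun z => t - z).prod) ∧ ∀ z ∈ m, dt s ![z, 1] = 0 := by
  by_cases h1 : s 1 = 0
  · have h0 : s 0 ≠ 0 := by
      intro h0
      apply hs
      funext j
      fin_cases j
      · exact h0
      · exact h1
    refine ⟨s 0, 0, h0, ?_, by simp⟩
    intro t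
    simp [dt, h1]
  · refine ⟨-(s 1), {s 0 / s 1}, neg_ne_zero.2 h1, ?_, ?_⟩
    · intro t
      simp only [dt, Matrix.cons_val_zero, Matrix.cons_val_one, Multiset.map_singleton,
        Multiset.prod_singleton]
      field_simp
      ring
    · intro z hz
      rw [Multiset.mem_singleton] at hz
      subst hz
      simp only [dt, Matrix.cons_val_zero, Matrix.cons_val_one]
      field_simp
      ring

variable {k : Type} [Field k]

theorem orbH_single {n : ℕ} (H : Hyp k n) (M : Matrix (Fin 2) (Fin 2) k) (hM : M.det ≠ 0) :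
    ∃ (κ z : k) (zs : Multiset k), κ ≠ 0 ∧ z ∉ zs ∧ ∀ t : k,
      H.F (M.mulVec ![t, 1]) = κ * (t - z) * (zs.map fun z' => t - z').prod := by
  have hN : M.adjugate.det ≠ 0 := by
    rw [Matrix.det_adjugate]
    simpa using hM
  obtain ⟨w, hw⟩ : ∃ w : Fin (2 * n) → Fin 2 → k, w = fun i => M.adjugate.mulVec (H.r i) :=
    ⟨_, rfl⟩
  have hwne : ∀ i, w i ≠ 0 := fun i => by
    rw [hw]
    exact mulVec_ne_zero hN (H.r_ne i)
  have hwd : ∀ i j, i ≠ j → dt (w i) (w j) ≠ 0 := by
    intro i j hij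
    rw [hw, dt_mulVec]
    exact mul_ne_zero hN (H.indep i j hij)
  have h2 := H.two_le
  obtain ⟨i₀, hi₀⟩ : ∃ i₀, w i₀ 1 ≠ 0 := by
    by_contra hc
    push Not at hc
    apply hwd ⟨0, by omega⟩ ⟨1, by omega⟩ (by simp)
    simp only [dt, hc]
    ring
  choose κ m hκ hl hz using fun i => OrbH_lin (hwne i)
  have hF : ∀ t : k, H.F (M.mulVec ![t, 1]) = ∏ i, dt (w i) ![t, 1] := by
    intro t
    rw [Hyp.F_def, hw]
    apply Finset.prod_congr rfl
    intro i _
    rw [cst_self, OrbH_adj]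
  have hwz : w i₀ = w i₀ 1 • ![w i₀ 0 / w i₀ 1, 1] := by
    funext j
    fin_cases j
    · simp only [Fin.zero_eta, Pi.smul_apply, Matrix.cons_val_zero, smul_eq_mul]
      field_simp
    · simp
  refine ⟨-(w i₀ 1) * ∏ i ∈ Finset.univ.erase i₀, κ i, w i₀ 0 / w i₀ 1,
    ∑ i ∈ Finset.univ.erase i₀, m i, ?_, ?_, ?_⟩
  · exact mul_ne_zero (neg_ne_zero.2 hi₀) (Finset.prod_ne_zero_iff.2 fun i _ => hκ i)
  · intro h
    rw [Multiset.mem_sum] at h
    obtain ⟨i, hi, h⟩ := h
    apply hwd i₀ i (Finset.ne_of_mem_erase hi).symm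
    rw [hwz, dt_smul_left, OrbH_symm (hz i _ h), mul_zero]
  · intro t
    have h3 : ((∑ i ∈ Finset.univ.erase i₀, m i).map fun z' => t - z').prod =
        ∏ i ∈ Finset.univ.erase i₀, ((m i).map fun z' => t - z').prod := by
      induction (Finset.univ.erase i₀) using Finset.induction_on with
      | empty => simp
      | insert a s ha ih =>
        rw [Finset.sum_insert ha, Multiset.map_add, Multiset.prod_add, ih, Finset.prod_insert ha]
    rw [hF, ← Finset.mul_prod_erase _ _ (Finset.mem_univ i₀), h3]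
    have g1 : dt (w i₀) ![t, 1] = -(w i₀ 1) * (t - w i₀ 0 / w i₀ 1) := by
      simp only [dt, Matrix.cons_val_zero, Matrix.cons_val_one]
      field_simp
      ring
    rw [g1, Finset.prod_congr rfl (fun i _ => hl i t), Finset.prod_mul_distrib]
    ring

end HK
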