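import Pool.Agent.H95.HK.ArC
import Pool.Agent.H95.HK.FinC
import Pool.Agent.H95.HK.OrbH

/-!
Module FinS (project HK, helper95).  The choice of the parameter t in a fixed number field L, step of a recursion.
-/

namespace HK

open HJ Polynomial

private theorem FinS_aut (a : Fin 5 → AK) (ha : Function.Injective a)
    (e : ZMod 2 × ZMod 2 → Fin 5) (he : Function.Injective e) (A : Matrix (Fin 2) (Fin 2) AK)
    (hA : ∀ x, dt (A.mulVec ((quint a ha).r (i5 (e x)))) ((quint a ha).r (i5 (e x))) = 0) :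
    IsAut a ha A := by
  have h0 : ∀ x, A 1 0 * a (e x) ^ 2 + (A 1 1 - A 0 0) * a (e x) - A 0 1 = 0 := by
    intro x
    have h := hA x
    rw [quint_r5] at h
    simp only [dt, Matrix.mulVec, dotProduct, Fin.sum_univ_two, Matrix.cons_val_zero,
      Matrix.cons_val_one] at h
    linear_combination -h
  have hne : ∀ x y, x ≠ y → a (e x) - a (e y) ≠ 0 := fun x y hxy =>
    sub_ne_zero.2 fun h => hxy (he (ha h))
  have e1 := h0 (0, 0)
  have e2 := h0 (0, 1)
  have e3 := h0 (1, 0)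
  have n12 := hne (0, 0) (0, 1) (by decide)
  have n13 := hne (0, 0) (1, 0) (by decide)
  have n23 := hne (0, 1) (1, 0) (by decide)
  have f12 : A 1 0 * (a (e (0, 0)) + a (e (0, 1))) + (A 1 1 - A 0 0) = 0 := by
    apply mul_left_cancel₀ n12
    linear_combination e1 - e2
  have f13 : A 1 0 * (a (e (0, 0)) + a (e (1, 0))) + (A 1 1 - A 0 0) = 0 := by
    apply mul_left_cancel₀ n13
    linear_combination e1 - e3
  have g1 : A 1 0 = 0 := by
    apply mul_left_cancel₀ n23
    linear_combination f12 - f13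
  have g2 : A 1 1 = A 0 0 := by
    rw [g1] at f12
    linear_combination f12
  have g3 : A 0 1 = 0 := by
    rw [g1, g2] at e1
    linear_combination -e1
  refine ⟨Equiv.refl _, fun i => ?_⟩
  simp only [dt, Matrix.mulVec, dotProduct, Fin.sum_univ_two, Equiv.refl_apply]
  rw [g1, g2, g3]
  ring

theorem F_mem (a : Fin 5 → AK) (ha : Function.Injective a)
    (L : IntermediateField ℚ AK) (haL : ∀ i, a i ∈ L) (A : Matrix (Fin 2) (Fin 2) AK)
    (hA : ∀ i j, A i j ∈ L) (t : AK) (ht : t ∈ L) :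
    (quint a ha).F (A.mulVec ![t, 1]) ∈ L := by
  have hv : ∀ j, (A.mulVec ![t, 1]) j ∈ L := by
    intro j
    have : (A.mulVec ![t, 1]) j = A j 0 * t + A j 1 := by
      simp [Matrix.mulVec, dotProduct, Fin.sum_univ_two]
    rw [this]
    exact L.add_mem (L.mul_mem (hA _ _) ht) (hA _ _)
  have hr : ∀ i j, (quint a ha).r i j ∈ L := by
    intro i j
    unfold quint
    dsimp only
    split_ifs with h
    · fin_cases j
      · exact haL _
      · exact L.one_mem
    · fin_cases j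
      · exact L.neg_mem L.one_mem
      · exact L.zero_mem
  unfold Hyp.F
  refine prod_mem fun i _ => ?_
  unfold dt
  exact L.sub_mem (L.mul_mem (hr i 0) (hv 1)) (L.mul_mem (hr i 1) (hv 0))

theorem main_step (a : Fin 5 → AK) [ha : Fact (Function.Injective a)]
    (e : ZMod 2 × ZMod 2 → Fin 5) (he : Function.Injective e)
    (M : ZMod 2 × ZMod 2 → Matrix (Fin 2) (Fin 2) AK) (hdet : ∀ b, (M b).det ≠ 0)
    (hM : ∀ b x, dt ((M b).mulVec ((quint a ha.out).r (i5 (e x))))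
      ((quint a ha.out).r (i5 (e (b + x)))) = 0) :
    ∃ L : IntermediateField ℚ AK, (∀ i, a i ∈ L) ∧ (∀ b i j, M b i j ∈ L) ∧
      ∀ T : Finset AK, (∀ w ∈ T, w ∈ L) → ∀ E : Finset AK,
      ∃ t : AK, t ∈ L ∧ t ∉ E ∧
      (∀ b, ((M b).mulVec ![t, 1]) 1 ≠ 0 ∧ (quint a ha.out).F ((M b).mulVec ![t, 1]) ≠ 0) ∧
      (∀ (B : Finset (ZMod 2 × ZMod 2)), B.card ≤ 2 → B.Nonempty → ∀ y : ZMod 2 × ZMod 2 → AK,
        (∀ b ∈ B, y b ^ 2 = (quint a ha.out).F ((M b).mulVec ![t, 1])) → ∀ N : ℕ, 0 < N →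
        (∏ b ∈ B, cls (g := 2) a (((M b).mulVec ![t, 1]) 0 / ((M b).mulVec ![t, 1]) 1)
          (y b / ((M b).mulVec ![t, 1]) 1 ^ 3)) ^ N ≠ 1) ∧
      (∀ b c : ZMod 2 × ZMod 2, ¬ IsAut a ha.out (M (b + c)) → ∀ y y' : AK,
        y ^ 2 = (quint a ha.out).F ((M b).mulVec ![t, 1]) →
        y' ^ 2 = (quint a ha.out).F ((M c).mulVec ![t, 1]) → y * y' ∉ L) ∧
      (∀ b c : ZMod 2 × ZMod 2, IsAut a ha.out (M (b + c)) → ∀ y y' : AK,
        y ^ 2 = (quint a ha.out).F ((M b).mulVec ![t, 1]) →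
        y' ^ 2 = (quint a ha.out).F ((M c).mulVec ![t, 1]) → y * y' ∈ L) ∧
      ∀ b : ZMod 2 × ZMod 2, ∀ w ∈ T, w ≠ 0 → ∀ y y' : AK,
        y ^ 2 = (quint a ha.out).F ((M b).mulVec ![t, 1]) → y' ^ 2 = w → y * y' ∉ L := by
  classical
  let I := {x : (ZMod 2 × ZMod 2) × (ZMod 2 × ZMod 2) // x.1 ≠ x.2}
  have hpair : ∀ x : I, ∃ (κ μ z : AK) (zs : Multiset AK) (q : Polynomial AK),
      κ ≠ 0 ∧ μ ^ 2 = κ ∧ q ≠ 0 ∧ z ∉ zs ∧
      (¬ IsAut a ha.out (M (x.1.1 + x.1.2)) → ∀ t : AK,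
        (quint a ha.out).F ((M x.1.1).mulVec ![t, 1]) *
          (quint a ha.out).F ((M x.1.2).mulVec ![t, 1]) =
        κ * (∏ u, (t - a (e u))) ^ 2 * (t - z) * (zs.map fun z' => t - z').prod) ∧
      (IsAut a ha.out (M (x.1.1 + x.1.2)) → ∀ t : AK,
        (quint a ha.out).F ((M x.1.1).mulVec ![t, 1]) *
          (quint a ha.out).F ((M x.1.2).mulVec ![t, 1]) = κ * (q.eval t) ^ 2) := by
    intro x
    rcases orbG_prod a ha.out e he M hdet hM x.1.1 x.1.2 x.2 with
      ⟨h1, κ, z, zs, hκ, hz, h2⟩ | ⟨h1, κ, q, hκ, hq, h2⟩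
    · obtain ⟨μ, hμ⟩ := IsAlgClosed.exists_pow_nat_eq κ (n := 2) (by norm_num)
      exact ⟨κ, μ, z, zs, 1, hκ, hμ, one_ne_zero, hz, fun _ => h2, fun h => absurd h h1⟩
    · obtain ⟨μ, hμ⟩ := IsAlgClosed.exists_pow_nat_eq κ (n := 2) (by norm_num)
      exact ⟨κ, μ, 0, 0, q, hκ, hμ, hq, Multiset.notMem_zero _, fun h => absurd h1 h, fun _ => h2⟩
  choose κ μ z zs q hκ0 hμ hq0 hz hprod1 hprod2 using hpair
  choose κ1 z1 zs1 hκ10 hz1 hprod0 using fun b => orbH_single (quint a ha.out) (M b) (hdet b)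
  obtain ⟨S, hS⟩ : ∃ S : Finset AK, S = ({2} ∪ Finset.univ.image a ∪
      (Finset.univ : Finset (Fin 5 × Fin 5)).image (fun x => a x.1 - a x.2) ∪
      (Finset.univ : Finset ((ZMod 2 × ZMod 2) × Fin 2 × Fin 2)).image
        (fun x => M x.1 x.2.1 x.2.2) ∪
      (Finset.univ : Finset (ZMod 2 × ZMod 2)).image (fun b => ((M b).mulVec ![a (e 0), 1]) 1) ∪
      (Finset.univ : Finset I).image κ ∪ (Finset.univ : Finset I).image z ∪
      (Finset.univ : Finset I).biUnion (fun x => (zs x).toFinset) ∪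
      (Finset.univ : Finset I).biUnion (fun x => (zs x).toFinset.image fun z' => z x - z') ∪
      (Finset.univ : Finset I).image μ ∪
      (Finset.univ : Finset I).biUnion (fun x => (q x).support.image (q x).coeff)) ∪
      (((Finset.univ : Finset (ZMod 2 × ZMod 2)).image κ1 ∪
      (Finset.univ : Finset (ZMod 2 × ZMod 2)).image z1) ∪
      ((Finset.univ : Finset (ZMod 2 × ZMod 2)).biUnion (fun x => (zs1 x).toFinset) ∪
      (Finset.univ : Finset (ZMod 2 × ZMod 2)).biUnion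
        (fun x => (zs1 x).toFinset.image fun z' => z1 x - z'))) :=
    ⟨_, rfl⟩
  have S2 : (2 : AK) ∈ S := by rw [hS]; simp
  have Sa : ∀ i, a i ∈ S := by intro i; rw [hS]; simp
  have Sd : ∀ i j, a i - a j ∈ S := by
    intro i j; rw [hS]
    simp only [Finset.mem_union]
    iterate 9 left
    right
    exact Finset.mem_image.2 ⟨(i, j), Finset.mem_univ _, rfl⟩
  have SM : ∀ b i j, M b i j ∈ S := by
    intro b i j; rw [hS]
    simp only [Finset.mem_union]
    iterate 8 left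
    right
    exact Finset.mem_image.2 ⟨(b, i, j), Finset.mem_univ _, rfl⟩
  have SZ : ∀ b, ((M b).mulVec ![a (e 0), 1]) 1 ∈ S := by
    intro b; rw [hS]
    simp only [Finset.mem_union]
    iterate 7 left
    right
    exact Finset.mem_image.2 ⟨b, Finset.mem_univ _, rfl⟩
  have Sκ : ∀ x, κ x ∈ S := by
    intro x; rw [hS]
    simp only [Finset.mem_union]
    iterate 6 left
    right
    exact Finset.mem_image.2 ⟨x, Finset.mem_univ _, rfl⟩
  have Sz : ∀ x, z x ∈ S := by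
    intro x; rw [hS]
    simp only [Finset.mem_union]
    iterate 5 left
    right
    exact Finset.mem_image.2 ⟨x, Finset.mem_univ _, rfl⟩
  have Szs : ∀ x, ∀ z' ∈ zs x, z' ∈ S := by
    intro x z' hz'; rw [hS]
    simp only [Finset.mem_union]
    iterate 4 left
    right
    exact Finset.mem_biUnion.2 ⟨x, Finset.mem_univ _, Multiset.mem_toFinset.2 hz'⟩
  have Szd : ∀ x, ∀ z' ∈ zs x, z x - z' ∈ S := by
    intro x z' hz'; rw [hS]
    simp only [Finset.mem_union]
    iterate 3 left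
    right
    exact Finset.mem_biUnion.2 ⟨x, Finset.mem_univ _,
      Finset.mem_image.2 ⟨z', Multiset.mem_toFinset.2 hz', rfl⟩⟩
  have Sμ : ∀ x, μ x ∈ S := by
    intro x; rw [hS]
    simp only [Finset.mem_union]
    iterate 2 left
    right
    exact Finset.mem_image.2 ⟨x, Finset.mem_univ _, rfl⟩
  have Sq : ∀ x, ∀ i ∈ (q x).support, (q x).coeff i ∈ S := by
    intro x i hi; rw [hS]
    simp only [Finset.mem_union]
    left
    right
    exact Finset.mem_biUnion.2 ⟨x, Finset.mem_univ _, Finset.mem_image.2 ⟨i, hi, rfl⟩⟩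
  have Sκ1 : ∀ x, κ1 x ∈ S := by
    intro x; rw [hS]
    simp only [Finset.mem_union]
    right
    left
    left
    exact Finset.mem_image.2 ⟨x, Finset.mem_univ _, rfl⟩
  have Sz1 : ∀ x, z1 x ∈ S := by
    intro x; rw [hS]
    simp only [Finset.mem_union]
    right
    left
    right
    exact Finset.mem_image.2 ⟨x, Finset.mem_univ _, rfl⟩
  have Szs1 : ∀ x, ∀ z' ∈ zs1 x, z' ∈ S := by
    intro x z' hz'; rw [hS]
    simp only [Finset.mem_union]
    right
    right
    left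
    exact Finset.mem_biUnion.2 ⟨x, Finset.mem_univ _, Multiset.mem_toFinset.2 hz'⟩
  have Szd1 : ∀ x, ∀ z' ∈ zs1 x, z1 x - z' ∈ S := by
    intro x z' hz'; rw [hS]
    simp only [Finset.mem_union]
    right
    right
    right
    exact Finset.mem_biUnion.2 ⟨x, Finset.mem_univ _,
      Finset.mem_image.2 ⟨z', Multiset.mem_toFinset.2 hz', rfl⟩⟩
  clear hS
  obtain ⟨L, hLfd, hSL⟩ := exists_field S
  refine ⟨L, fun i => hSL _ (Sa i), fun b i j => hSL _ (SM b i j), ?_⟩
  intro T hTL E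
  obtain ⟨E', hE'⟩ : ∃ E' : Finset AK, E' = E ∪ Finset.univ.image a ∪
      (Finset.univ : Finset (ZMod 2 × ZMod 2)).image (fun b => -(M b 1 1) / M b 1 0) ∪
      (Finset.univ : Finset I).image z ∪
      (Finset.univ : Finset I).biUnion (fun x => (zs x).toFinset) ∪
      (Finset.univ : Finset I).biUnion (fun x => (q x).roots.toFinset) := ⟨_, rfl⟩
  have hSTL : ∀ x ∈ S ∪ T, x ∈ L := by
    intro x hx
    rcases Finset.mem_union.1 hx with h | h
    · exact hSL x h
    · exact hTL x h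
  let J := I ⊕ (ZMod 2 × ZMod 2)
  let eJ : J ≃ Fin (Fintype.card J) := Fintype.equivFin J
  let ZZ : J → AK := Sum.elim z z1
  obtain ⟨t, p, p', V, V', htL, htE, hν, hp, hq, hpq, hVp, hVq, hSV, ht, ht'⟩ :=
    arith_L L hLfd (S ∪ T) E' hSTL (fun j => ZZ (eJ.symm j)) (by
      intro j
      rcases eJ.symm j with x | b
      · exact hSL _ (Sz x)
      · exact hSL _ (Sz1 b)) (a (e 0)) (hSL _ (Sa _))
  have hSV' : ∀ x ∈ S, x ≠ 0 → V.valuation x = 1 ∧ V'.valuation x = 1 := fun x hx =>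
    hSV x (Finset.mem_union_left _ hx)
  have tE : t ∉ E := by
    intro h; apply htE; rw [hE']; simp only [Finset.mem_union]
    iterate 5 left
    exact h
  have ta : ∀ i, t ≠ a i := by
    intro i h; apply htE; rw [hE']; simp only [Finset.mem_union]
    iterate 4 left
    right
    exact Finset.mem_image.2 ⟨i, Finset.mem_univ _, h.symm⟩
  have tM : ∀ b, t ≠ -(M b 1 1) / M b 1 0 := by
    intro b h; apply htE; rw [hE']; simp only [Finset.mem_union]
    iterate 3 left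
    right
    exact Finset.mem_image.2 ⟨b, Finset.mem_univ _, h.symm⟩
  have tz : ∀ x, t ≠ z x := by
    intro x h; apply htE; rw [hE']; simp only [Finset.mem_union]
    iterate 2 left
    right
    exact Finset.mem_image.2 ⟨x, Finset.mem_univ _, h.symm⟩
  have tzs : ∀ x, ∀ z' ∈ zs x, t ≠ z' := by
    intro x z' hz' h; apply htE; rw [hE']; simp only [Finset.mem_union]
    left
    right
    exact Finset.mem_biUnion.2 ⟨x, Finset.mem_univ _, Multiset.mem_toFinset.2 (h ▸ hz')⟩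
  have tq : ∀ x, (q x).eval t ≠ 0 := by
    intro x h; apply htE; rw [hE']; simp only [Finset.mem_union]
    right
    exact Finset.mem_biUnion.2 ⟨x, Finset.mem_univ _,
      Multiset.mem_toFinset.2 ((Polynomial.mem_roots (hq0 x)).2 h)⟩
  have hv1 : ∀ b (u : AK), ((M b).mulVec ![u, 1]) 1 = M b 1 0 * u + M b 1 1 := by
    intro b u
    simp [Matrix.mulVec, dotProduct, Fin.sum_univ_two]
  have h1 : ∀ b, ((M b).mulVec ![t, 1]) 1 ≠ 0 := by
    intro b h
    rw [hv1] at h
    by_cases h0 : M b 1 0 = 0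
    · have h3 := orbG_ne a ha.out e he M hdet hM b
      rw [hv1, h0, zero_mul, zero_add] at h3
      rw [h0, zero_mul, zero_add] at h
      exact h3 h
    · apply tM b
      rw [eq_div_iff h0]
      linear_combination h
  have hs0 : (∏ u, (t - a (e u))) ≠ 0 :=
    Finset.prod_ne_zero_iff.2 fun u _ => sub_ne_zero.2 (ta _)
  have hpr0 : ∀ x, ((zs x).map fun z' => t - z').prod ≠ 0 := by
    intro x h
    rw [Multiset.prod_eq_zero_iff, Multiset.mem_map] at h
    obtain ⟨z', hz', h⟩ := h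
    exact tzs x z' hz' (sub_eq_zero.1 h)
  have hF : ∀ b, (quint a ha.out).F ((M b).mulVec ![t, 1]) ≠ 0 := by
    intro b h
    obtain ⟨c, hc⟩ : ∃ c : ZMod 2 × ZMod 2, b ≠ c := by
      obtain ⟨c, hc⟩ := exists_ne b
      exact ⟨c, hc.symm⟩
    by_cases hA : IsAut a ha.out (M (b + c))
    · have h2 := hprod2 ⟨(b, c), hc⟩ hA t
      simp only at h2
      rw [h, zero_mul] at h2
      exact mul_ne_zero (hκ0 _) (pow_ne_zero 2 (tq _)) h2.symm
    · have h2 := hprod1 ⟨(b, c), hc⟩ hA t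
      simp only at h2
      rw [h, zero_mul] at h2
      exact mul_ne_zero (mul_ne_zero (mul_ne_zero (hκ0 _) (pow_ne_zero 2 hs0))
        (sub_ne_zero.2 (tz _))) (hpr0 _) h2.symm
  have hle : ∀ x ∈ S, V.valuation x ≤ 1 ∧ V'.valuation x ≤ 1 := by
    intro x hx
    by_cases hx0 : x = 0
    · subst hx0
      rw [map_zero, map_zero]
      exact ⟨zero_le, zero_le⟩
    · exact ⟨(hSV' x hx hx0).1.le, (hSV' x hx hx0).2.le⟩
  have hsub : ∀ i j, i ≠ j → a i - a j ≠ 0 := fun i j hij =>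
    sub_ne_zero.2 fun h => hij (ha.out h)
  refine ⟨t, htL, tE, fun b => ⟨h1 b, hF b⟩, ?_, ?_, ?_, ?_⟩
  · intro B hB hBn y hy N hN
    exact orbG_not_torsion a e he M hdet hM V V' p p' hp hq hpq hVp hVq
      (hSV' 2 S2 two_ne_zero).1
      (hSV' 2 S2 two_ne_zero).2 (fun i => (hle _ (Sa i)).1) (fun i => (hle _ (Sa i)).2)
      (fun i j hij => (hSV' _ (Sd i j) (hsub i j hij)).1)
      (fun i j hij => (hSV' _ (Sd i j) (hsub i j hij)).2)
      (fun b i j => (hle _ (SM b i j)).1) (fun b i j => (hle _ (SM b i j)).2)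
      (fun b => (hSV' _ (SZ b) (orbG_ne a ha.out e he M hdet hM b)).1)
      (fun b => (hSV' _ (SZ b) (orbG_ne a ha.out e he M hdet hM b)).2) t ht ht' B hB hBn
      (fun b _ => hF b) y hy N hN
  · intro b c hA y y' hy hy'
    have hbc : b ≠ c := by
      rintro rfl
      apply hA
      have h0 : b + b = 0 :=
        (by decide : ∀ b : ZMod 2 × ZMod 2, b + b = 0) b
      rw [h0]
      exact FinS_aut a ha.out e he (M 0) fun x => by
        have := hM 0 x
        rwa [zero_add] at this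
    obtain ⟨x, hx⟩ : ∃ x : I, x = ⟨(b, c), hbc⟩ := ⟨_, rfl⟩
    have hAx : ¬ IsAut a ha.out (M (x.1.1 + x.1.2)) := by rw [hx]; exact hA
    have hp2 : (y * y') ^ 2 = κ x * (∏ u, (t - a (e u))) ^ 2 *
        (t - z x) * ((zs x).map fun z' => t - z').prod := by
      rw [mul_pow, hy, hy', ← hprod1 x hAx t, hx]
    obtain ⟨ν, hν1, hν2⟩ := hν (eJ (Sum.inl x))
    rw [Equiv.symm_apply_apply] at hν2
    have hsL : (∏ u, (t - a (e u))) ∈ L :=
      prod_mem fun u _ => L.sub_mem htL (hSL _ (Sa _))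
    have hνS : ∀ w ∈ S, w ≠ 0 → ∃ u : L, (u : AK) = w ∧ ν u = 1 := by
      intro w hw hw0
      refine ⟨⟨w, hSL w hw⟩, rfl, hν1 ⟨w, hSL w hw⟩ (Finset.mem_union_left _ hw) ?_⟩
      intro h
      apply hw0
      exact congrArg Subtype.val h
    exact not_mem_of_val L ν (κ x) (z x) t
      (∏ u, (t - a (e u))) (zs x) (hνS _ (Sκ x) (hκ0 x)) hν2
      (fun z' hz' => hνS _ (Szd x z' hz') (sub_ne_zero.2 fun h => hz x (h ▸ hz'))) hsL hs0
      (y * y') hp2
  · intro l l' hll y y' hy hy'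
    by_cases hne : l = l'
    · subst hne
      have h3 : (quint a ha.out).F ((M l).mulVec ![t, 1]) ∈ L :=
        F_mem a ha.out L (fun i => hSL _ (Sa i)) (M l) (fun i j => hSL _ (SM l i j)) t htL
      have h4 : (y - y') * (y + y') = 0 := by linear_combination hy - hy'
      rcases mul_eq_zero.1 h4 with h5 | h5
      · rw [← sub_eq_zero.1 h5, ← pow_two, hy]
        exact h3
      · rw [eq_neg_of_add_eq_zero_left h5, neg_mul, ← pow_two, hy']
        exact L.neg_mem h3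
    · obtain ⟨x', hx'⟩ : ∃ x' : I, x' = ⟨(l, l'), hne⟩ := ⟨_, rfl⟩
      have hAx' : IsAut a ha.out (M (x'.1.1 + x'.1.2)) := by rw [hx']; exact hll
      have hqL : (q x').eval t ∈ L := by
        rw [Polynomial.eval_eq_sum, Polynomial.sum_def]
        exact sum_mem fun i hi => L.mul_mem (hSL _ (Sq x' i hi)) (_root_.pow_mem htL i)
      have h3 : (y * y') ^ 2 = (μ x' * (q x').eval t) ^ 2 := by
        rw [mul_pow, hy, hy', mul_pow, hμ, ← hprod2 x' hAx' t, hx']
      have h4 : (y * y' - μ x' * (q x').eval t) * (y * y' + μ x' * (q x').eval t) = 0 := by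
        linear_combination h3
      rcases mul_eq_zero.1 h4 with h5 | h5
      · rw [sub_eq_zero.1 h5]
        exact L.mul_mem (hSL _ (Sμ x')) hqL
      · rw [eq_neg_of_add_eq_zero_left h5]
        exact L.neg_mem (L.mul_mem (hSL _ (Sμ x')) hqL)
  · intro b w hw hw0 y y' hy hy'
    obtain ⟨ν, hν1, hν2⟩ := hν (eJ (Sum.inr b))
    rw [Equiv.symm_apply_apply] at hν2
    have hνS : ∀ w ∈ S ∪ T, w ≠ 0 → ∃ u : L, (u : AK) = w ∧ ν u = 1 := by
      intro w hw hw0
      refine ⟨⟨w, hSTL w hw⟩, rfl, hν1 ⟨w, hSTL w hw⟩ hw ?_⟩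
      intro h
      apply hw0
      exact congrArg Subtype.val h
    have hκw : ∃ u : L, (u : AK) = κ1 b * w ∧ ν u = 1 := by
      obtain ⟨u, hu1, hu2⟩ := hνS _ (Finset.mem_union_left _ (Sκ1 b)) (hκ10 b)
      obtain ⟨u', hu1', hu2'⟩ := hνS w (Finset.mem_union_right _ hw) hw0
      refine ⟨u * u', ?_, ?_⟩
      · rw [← hu1, ← hu1']; rfl
      · rw [map_mul, hu2, hu2', mul_one]
    refine not_mem_of_val L ν (κ1 b * w) (z1 b) t 1 (zs1 b) hκw hν2
      (fun z' hz' => hνS _ (Finset.mem_union_left _ (Szd1 b z' hz'))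
        (sub_ne_zero.2 fun h => hz1 b (h ▸ hz'))) L.one_mem one_ne_zero (y * y') ?_
    rw [mul_pow, hy, hy', hprod0 b t]
    ring

end HK
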