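import Pool.Agent.H95.HK.GLa

/-!
Module GLb (project HK, helper95).  Second part of the core lemma: local bounds.
PROOFS.
* gl2a.  τ = t i - a i ≠ 0, v τ < 1, μ ^ 2 = τ (K algebraically closed), ℓ = C τ * X + C (a i).  A = u.comp ℓ, B = w.comp ℓ.
  F.comp ℓ = C τ * X * G, G = ∏_{j ≠ i} (C τ * X + C (a i - a j)): gn G = 1 and rd G = C (∏ re (a i - a j)), a nonzero constant.
  (Q ^ (2 N)).comp ℓ = C τ ^ (2 N) * U, U = (X - 1) ^ (2 N) * ∏_{j ∈ I, j ≠ i} (C τ * X + C (a i - t j)) ^ (2 N), gn U = 1 (v (a i - t j) = 1).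
  So A ^ 2 - X * G * (C μ * B) ^ 2 = C τ ^ (2 N) * U.  Let M = max (gn A) (gn (C μ * B)) and suppose v τ ^ (2 N) < gn (C μ * B) ^ 2 ≤ M ^ 2.  Take v c = M,
  A₁ = C c⁻¹ * A, B₁ = C c⁻¹ * C μ * B; one of gn A₁, gn B₁ is 1; rd A₁ ^ 2 = rd B₁ ^ 2 * (X * rd G) because gn (C (c⁻¹) ^ 2 * C τ ^ (2 N) * U) < 1;
  par_deg (degree 1) gives rd A₁ = rd B₁ = 0, a contradiction.  So gn (C μ * B) ^ 2 = v τ * gn B ^ 2 ≤ v τ ^ (2 N).
* gl2b.  W = C c⁻¹ * w, V = W.comp (X + C (a i)); rd V = (rd W).comp (X + C (re (a i))) and the coefficient j of rd V is not 0 for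
  j = rootMultiplicity (re (a i)) (rd W), so v (V.coeff j) = 1.  W.comp ℓ = V.comp (C τ * X) has the coefficient τ ^ j * V.coeff j.
* gl2.  The re (a i), i ∈ I, are different, so Σ_{i ∈ I} rootMultiplicity (re (a i)) (rd W) ≤ natDegree (rd W) ≤ natDegree w ≤ |I| N - g - 1 (gl_deg; rd W ≠ 0).
  If rootMultiplicity + 1 ≥ N for all i ∈ I then |I| (N - 1) ≤ |I| N - g - 1, |I| ≥ g + 1, a contradiction.  So there is i ∈ I with
  j + 2 ≤ N, and gn w ^ 2 * v τ ^ (2 j + 1) ≤ v τ ^ (2 N), 2 N ≥ 2 j + 4, v τ < 1: gn w ^ 2 ≤ v τ ^ (2 N - 2 j - 1) ≤ v τ ^ 3.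
-/

namespace HK

open Polynomial

variable {K : Type*} [Field K] [IsAlgClosed K] {Γ : Type*} [LinearOrderedCommGroupWithZero Γ]
  (v : Valuation K Γ) {g : ℕ} (a : Fin (2 * g + 1) → K)


omit [IsAlgClosed K] in
private theorem GLb_gn_linear {τ d : K} (hτ : v τ < 1) (hd : v d = 1) :
    gn v (C τ * X + C d) = 1 := by
  have h1 : gn v (C τ * X : K[X]) = v τ := by
    have hX : gn v (X : K[X]) = 1 := by
      have := gn_X_sub_C v (a := (0 : K)) (by simp)
      simpa using this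
    rw [gn_mul, gn_C, hX, mul_one]
  rw [add_comm, gn_add_eq v (by rw [h1, gn_C, hd]; exact hτ), gn_C, hd]

omit [IsAlgClosed K] in
private theorem GLb_gn_X : gn v (X : K[X]) = 1 := by
  have := gn_X_sub_C v (a := (0 : K)) (by simp)
  simpa using this

omit [IsAlgClosed K] in
private theorem GLb_re_zero : re v (0 : K) = 0 := by
  rw [re_eq_zero v (by simp)]
  simp

omit [IsAlgClosed K] in
private theorem GLb_rd_X : rd v (X : K[X]) = X := by
  have := rd_X_sub_C v (a := (0 : K)) (by simp)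
  rw [GLb_re_zero] at this
  simpa using this

omit [IsAlgClosed K] in
private theorem GLb_rd_linear {τ d : K} (hτ : v τ < 1) (hd : v d ≤ 1) :
    rd v (C τ * X + C d) = C (re v d) := by
  have h1 : gn v (C τ * X : K[X]) = v τ := by
    rw [gn_mul, gn_C, GLb_gn_X, mul_one]
  rw [rd_add v (by rw [h1]; exact hτ.le) (by rw [gn_C]; exact hd), rd_C v hd,
    (rd_eq_zero v (by rw [h1]; exact hτ.le)).2 (by rw [h1]; exact hτ), zero_add]

omit [IsAlgClosed K] in
private theorem GLb_low (V : K[X]) (hV : gn v V ≤ 1) (m : ℕ) (h : ∀ j ≤ m, v (V.coeff j) < 1) :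
    ∃ A B : K[X], V = A + X ^ (m + 1) * B ∧ gn v A < 1 ∧ gn v B ≤ 1 := by
  refine ⟨∑ j ∈ Finset.range (m + 1), monomial j (V.coeff j),
    ∑ j ∈ Finset.range (V.natDegree + 1), monomial j (V.coeff (j + (m + 1))), ?_, ?_, ?_⟩
  · ext n
    rw [coeff_add, finset_sum_coeff, coeff_X_pow_mul', finset_sum_coeff]
    simp only [coeff_monomial, Finset.sum_ite_eq', Finset.mem_range]
    by_cases hn : m + 1 ≤ n
    · rw [if_neg (by omega), if_pos hn, zero_add, Nat.sub_add_cancel hn]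
      split_ifs with h2
      · rfl
      · exact coeff_eq_zero_of_natDegree_lt (by omega)
    · rw [if_pos (by omega), if_neg hn, add_zero]
  · obtain ⟨i, hi⟩ := exists_gn v (∑ j ∈ Finset.range (m + 1), monomial j (V.coeff j))
    rw [← hi, finset_sum_coeff]
    simp only [coeff_monomial, Finset.sum_ite_eq', Finset.mem_range]
    split_ifs with h2
    · exact h i (by omega)
    · simp
  · rw [gn_le_iff]
    intro i
    rw [finset_sum_coeff]
    simp only [coeff_monomial, Finset.sum_ite_eq', Finset.mem_range]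
    split_ifs with h2
    · exact (le_gn v V _).trans hV
    · simp

omit [IsAlgClosed K] in
private theorem GLb_coeff (W : K[X]) (hW : gn v W = 1) (b : K) (hb : v b ≤ 1) :
    ∃ j ≤ rootMultiplicity (re v b) (rd v W), v ((W.comp (X + C b)).coeff j) = 1 := by
  have hV : gn v (W.comp (X + C b)) = 1 := by rw [gn_taylor v hb, hW]
  by_contra hcon
  push Not at hcon
  have h1 : ∀ j ≤ rootMultiplicity (re v b) (rd v W), v ((W.comp (X + C b)).coeff j) < 1 :=
    fun j hj => lt_of_le_of_ne ((le_gn v _ j).trans hV.le) (hcon j hj)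
  obtain ⟨A, B, hAB, hA, hB⟩ := GLb_low v _ hV.le _ h1
  have hb' : v (-b) ≤ 1 := by rw [Valuation.map_neg]; exact hb
  have h2 : W = (W.comp (X + C b)).comp (X + C (-b)) := by
    rw [comp_assoc]
    simp
  have hA' : gn v (A.comp (X + C (-b))) < 1 := by rw [gn_taylor v hb']; exact hA
  have hB' : gn v (B.comp (X + C (-b))) ≤ 1 := by rw [gn_taylor v hb']; exact hB
  have hX1 : gn v ((X - C b) ^ (rootMultiplicity (re v b) (rd v W) + 1)) ≤ 1 := by
    rw [gn_pow, gn_X_sub_C v hb, one_pow]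
  have h3 : W = A.comp (X + C (-b)) +
      (X - C b) ^ (rootMultiplicity (re v b) (rd v W) + 1) * B.comp (X + C (-b)) := by
    conv_lhs => rw [h2, hAB]
    rw [add_comp, mul_comp, pow_comp, X_comp]
    simp [sub_eq_add_neg]
  have h4 : rd v W = (X - C (re v b)) ^ (rootMultiplicity (re v b) (rd v W) + 1) *
      rd v (B.comp (X + C (-b))) := by
    conv_lhs => rw [h3]
    rw [rd_add v hA'.le (by
      rw [gn_mul]
      exact mul_le_one' hX1 hB'), (rd_eq_zero v hA'.le).2 hA', zero_add, rd_mul v hX1 hB',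
      rd_pow v (by rw [gn_X_sub_C v hb]), rd_X_sub_C v hb]
  have h5 : rd v W ≠ 0 := by
    intro h
    rw [rd_eq_zero v hW.le, hW] at h
    exact lt_irrefl _ h
  have h6 := (le_rootMultiplicity_iff h5 (a := re v b)
    (n := rootMultiplicity (re v b) (rd v W) + 1)).2 ⟨_, h4⟩
  omega

theorem gl2a (ha : ∀ i, v (a i) ≤ 1) (hd : ∀ i j, i ≠ j → v (a i - a j) = 1)
    (I : Finset (Fin (2 * g + 1))) (t : Fin (2 * g + 1) → K) (ht : ∀ i ∈ I, v (t i - a i) < 1)
    (N : ℕ) (u w : K[X]) (h : u ^ 2 - w ^ 2 * FF a = QQ I t ^ (2 * N))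
    (i : Fin (2 * g + 1)) (hi : i ∈ I) (hne : t i ≠ a i) :
    gn v (w.comp (C (t i - a i) * X + C (a i))) ^ 2 * v (t i - a i) ≤ v (t i - a i) ^ (2 * N) := by
  obtain ⟨τ, hτdef⟩ : ∃ τ, τ = t i - a i := ⟨_, rfl⟩
  have hτ1 : v τ < 1 := by rw [hτdef]; exact ht i hi
  have hτ0 : τ ≠ 0 := by rw [hτdef]; exact sub_ne_zero.2 hne
  rw [← hτdef]
  obtain ⟨μ, hμ⟩ := IsAlgClosed.exists_pow_nat_eq τ (n := 2) (by norm_num)
  have hμ0 : μ ≠ 0 := by
    rintro rfl
    apply hτ0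
    rw [← hμ]
    simp
  -- the transformed polynomials
  obtain ⟨A, hA⟩ : ∃ A, A = u.comp (C τ * X + C (a i)) := ⟨_, rfl⟩
  obtain ⟨B, hB⟩ : ∃ B, B = w.comp (C τ * X + C (a i)) := ⟨_, rfl⟩
  obtain ⟨G, hG⟩ : ∃ G, G = ∏ j ∈ Finset.univ.erase i, (C τ * X + C (a i - a j)) := ⟨_, rfl⟩
  obtain ⟨U, hU⟩ : ∃ U, U = ((X - C 1) *
    ∏ j ∈ I.erase i, (C τ * X + C (a i - t j))) ^ (2 * N) := ⟨_, rfl⟩
  have hF : (FF a).comp (C τ * X + C (a i)) = C τ * X * G := by
    unfold FF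
    rw [prod_comp, ← Finset.mul_prod_erase Finset.univ _ (Finset.mem_univ i), hG]
    congr 1
    · simp
    · refine Finset.prod_congr rfl fun j _ => ?_
      rw [sub_comp, X_comp, C_comp, C_sub]
      ring
  have hQ : (QQ I t ^ (2 * N)).comp (C τ * X + C (a i)) = C τ ^ (2 * N) * U := by
    unfold QQ
    rw [pow_comp, prod_comp, ← Finset.mul_prod_erase I _ hi, hU, ← mul_pow, ← mul_assoc]
    congr 1
    congr 1
    · rw [sub_comp, X_comp, C_comp, hτdef, C_sub, C_1]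
      ring
    · refine Finset.prod_congr rfl fun j _ => ?_
      rw [sub_comp, X_comp, C_comp, C_sub]
      ring
  have hGgn : gn v G = 1 := by
    rw [hG, gn_prod]
    refine Finset.prod_eq_one fun j hj => ?_
    exact GLb_gn_linear v hτ1 (hd i j (Finset.ne_of_mem_erase hj).symm)
  have hGrd : ∃ κ : RF v, κ ≠ 0 ∧ rd v G = C κ := by
    refine ⟨∏ j ∈ Finset.univ.erase i, re v (a i - a j), ?_, ?_⟩
    · rw [Finset.prod_ne_zero_iff]
      intro j hj h0
      have h1 := hd i j (Finset.ne_of_mem_erase hj).symm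
      rw [re_eq_zero v h1.le, h1] at h0
      exact lt_irrefl _ h0
    · rw [hG, rd_prod v, map_prod]
      · refine Finset.prod_congr rfl fun j hj => ?_
        exact GLb_rd_linear v hτ1 (hd i j (Finset.ne_of_mem_erase hj).symm).le
      · intro j hj
        exact (GLb_gn_linear v hτ1 (hd i j (Finset.ne_of_mem_erase hj).symm)).le
  have hUgn : gn v U ≤ 1 := by
    rw [hU, gn_pow, gn_mul, gn_X_sub_C v (by simp), one_mul, gn_prod]
    rw [Finset.prod_eq_one, one_pow]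
    intro j hj
    refine GLb_gn_linear v hτ1 ?_
    have h1 := hd i j (Finset.ne_of_mem_erase hj).symm
    have h2 := ht j (Finset.mem_of_mem_erase hj)
    have h3 : a i - t j = (a i - a j) - (t j - a j) := by ring
    rw [h3, Valuation.map_sub_eq_of_lt_left v (by rw [h1]; exact h2), h1]
  have hE : A ^ 2 - X * G * (C μ * B) ^ 2 = C τ ^ (2 * N) * U := by
    rw [← hQ, ← h, sub_comp, pow_comp, mul_comp, pow_comp, hF, ← hA, ← hB, mul_pow, ← C_pow, hμ]
    ring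
  -- suppose the contrary
  rw [← hB]
  have hB2 : gn v (C μ * B) ^ 2 = gn v B ^ 2 * v τ := by
    rw [gn_mul, gn_C, mul_pow, ← map_pow, hμ, mul_comm]
  rw [← hB2]
  by_contra hcon
  push Not at hcon
  obtain ⟨c, hc⟩ : ∃ c, v c = max (gn v A) (gn v (C μ * B)) := by
    rcases le_total (gn v A) (gn v (C μ * B)) with hle | hle
    · rw [max_eq_right hle]
      obtain ⟨k, hk⟩ := exists_gn v (C μ * B)
      exact ⟨_, hk⟩
    · rw [max_eq_left hle]
      obtain ⟨k, hk⟩ := exists_gn v A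
      exact ⟨_, hk⟩
  have hBpos : gn v (C μ * B) ≠ 0 := by
    intro h0
    rw [h0] at hcon
    simp at hcon
  have hc0 : v c ≠ 0 := by
    intro h0
    rw [hc] at h0
    have := le_max_right (gn v A) (gn v (C μ * B))
    rw [h0] at this
    exact hBpos (le_zero_iff.1 this)
  have hc0' : c ≠ 0 := by
    rintro rfl
    simp at hc0
  have hA1 : gn v (C c⁻¹ * A) ≤ 1 := by
    rw [gn_mul, gn_C, map_inv₀, mul_comm, ← div_eq_mul_inv, div_le_one₀ (zero_lt_iff.2 hc0), hc]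
    exact le_max_left _ _
  have hB1 : gn v (C c⁻¹ * (C μ * B)) ≤ 1 := by
    rw [gn_mul, gn_C, map_inv₀, mul_comm, ← div_eq_mul_inv, div_le_one₀ (zero_lt_iff.2 hc0), hc]
    exact le_max_right _ _
  have hE1 : (C c⁻¹ * A) ^ 2 - X * G * (C c⁻¹ * (C μ * B)) ^ 2 =
      C c⁻¹ ^ 2 * (C τ ^ (2 * N) * U) := by
    rw [← hE]
    ring
  have hgn1 : gn v (C c⁻¹ ^ 2 * (C τ ^ (2 * N) * U)) < 1 := by
    rw [gn_mul, gn_pow, gn_C, gn_mul, gn_pow, gn_C, map_inv₀, inv_pow]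
    have h1 : v τ ^ (2 * N) * gn v U < v c ^ 2 := by
      calc v τ ^ (2 * N) * gn v U ≤ v τ ^ (2 * N) * 1 := by gcongr
        _ = v τ ^ (2 * N) := mul_one _
        _ < gn v (C μ * B) ^ 2 := hcon
        _ ≤ v c ^ 2 := by
          rw [hc]
          exact pow_le_pow_left' (le_max_right _ _) 2
    rw [mul_comm, ← div_eq_mul_inv, div_lt_one₀ (zero_lt_iff.2 (pow_ne_zero 2 hc0))]
    exact h1
  obtain ⟨κ, hκ0, hκ⟩ := hGrd
  have hXG : gn v (X * G) ≤ 1 := by rw [gn_mul, GLb_gn_X, hGgn, mul_one]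
  have hB1' : gn v ((C c⁻¹ * (C μ * B)) ^ 2) ≤ 1 := by
    rw [gn_pow]
    exact pow_le_one' hB1 2
  have hR : rd v (C c⁻¹ * A) ^ 2 = rd v (C c⁻¹ * (C μ * B)) ^ 2 * (X * C κ) := by
    have h1 : rd v ((C c⁻¹ * A) ^ 2 - X * G * (C c⁻¹ * (C μ * B)) ^ 2) = 0 := by
      rw [hE1]
      exact (rd_eq_zero v hgn1.le).2 hgn1
    rw [rd_sub v (by rw [gn_pow]; exact pow_le_one' hA1 2) (by
      rw [gn_mul]
      exact mul_le_one' hXG hB1'), rd_mul v hXG hB1', rd_mul v (by rw [GLb_gn_X]) hGgn.le,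
      rd_pow v hA1, rd_pow v hB1, GLb_rd_X, hκ] at h1
    exact (sub_eq_zero.1 h1).trans (mul_comm _ _)
  have hodd : Odd (X * C κ : (RF v)[X]).natDegree := by
    rw [natDegree_mul_C hκ0, natDegree_X]
    exact odd_one
  obtain ⟨hA0, hB0⟩ := par_deg _ _ _ hodd hR
  rw [rd_eq_zero v hA1] at hA0
  rw [rd_eq_zero v hB1] at hB0
  rw [gn_mul, gn_C, map_inv₀, mul_comm, ← div_eq_mul_inv, div_lt_one₀ (zero_lt_iff.2 hc0)] at hA0 hB0
  rw [hc] at hA0 hB0
  rcases le_total (gn v A) (gn v (C μ * B)) with hle | hle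
  · rw [max_eq_right hle] at hB0
    exact lt_irrefl _ hB0
  · rw [max_eq_left hle] at hA0
    exact lt_irrefl _ hA0

omit [IsAlgClosed K] in
theorem gl2b (w : K[X]) (hw : w ≠ 0) (c : K) (hc : v c = gn v w) (b τ : K) (hb : v b ≤ 1)
    (hτ : v τ ≤ 1) :
    gn v w * v τ ^ (rootMultiplicity (re v b) (rd v (C c⁻¹ * w))) ≤
      gn v (w.comp (C τ * X + C b)) := by
  have hg0 : gn v w ≠ 0 := by
    intro h0
    exact hw ((gn_eq_zero v).1 h0)
  have hc0 : c ≠ 0 := by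
    rintro rfl
    rw [map_zero] at hc
    exact hg0 hc.symm
  have hW : gn v (C c⁻¹ * w) = 1 := by
    rw [gn_mul, gn_C, map_inv₀, hc, inv_mul_cancel₀ hg0]
  obtain ⟨j, hj, hj1⟩ := GLb_coeff v (C c⁻¹ * w) hW b hb
  have h1 : w.comp (C τ * X + C b) = C c * (((C c⁻¹ * w).comp (X + C b)).comp (C τ * X)) := by
    rw [comp_assoc, mul_comp, C_comp, ← mul_assoc, ← C_mul, mul_inv_cancel₀ hc0, C_1, one_mul,
      add_comp, X_comp, C_comp]
  rw [h1, gn_mul, gn_C, hc]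
  refine mul_le_mul_right ?_ _
  calc v τ ^ rootMultiplicity (re v b) (rd v (C c⁻¹ * w)) ≤ v τ ^ j :=
        pow_le_pow_right_of_le_one' hτ hj
    _ = v ((((C c⁻¹ * w).comp (X + C b)).comp (C τ * X)).coeff j) := by
        rw [comp_C_mul_X_coeff, map_mul, hj1, one_mul, map_pow]
    _ ≤ _ := le_gn v _ j

theorem gl2 (ha : ∀ i, v (a i) ≤ 1) (hd : ∀ i j, i ≠ j → v (a i - a j) = 1)
    (I : Finset (Fin (2 * g + 1))) (hI : I.card ≤ g) (t : Fin (2 * g + 1) → K)
    (ht : ∀ i ∈ I, v (t i - a i) < 1) (hne : ∀ i ∈ I, t i ≠ a i)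
    (N : ℕ) (u w : K[X]) (h : u ^ 2 - w ^ 2 * FF a = QQ I t ^ (2 * N)) (hw : w ≠ 0) :
    ∃ i ∈ I, gn v w ^ 2 ≤ v (t i - a i) ^ 3 := by
  obtain ⟨k, hk⟩ := exists_gn v w
  have hg0 : gn v w ≠ 0 := by
    intro h0
    exact hw ((gn_eq_zero v).1 h0)
  have hW : gn v (C (w.coeff k)⁻¹ * w) = 1 := by
    rw [gn_mul, gn_C, map_inv₀, hk, inv_mul_cancel₀ hg0]
  have hW0 : rd v (C (w.coeff k)⁻¹ * w) ≠ 0 := by
    intro h0
    rw [rd_eq_zero v hW.le, hW] at h0
    exact lt_irrefl _ h0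
  have hck : w.coeff k ≠ 0 := by
    intro h0
    rw [h0, map_zero] at hk
    exact hg0 hk.symm
  have hdeg : (rd v (C (w.coeff k)⁻¹ * w)).natDegree ≤ w.natDegree :=
    (rd_natDegree_le v _).trans (natDegree_C_mul_le _ _)
  have hsum : ∑ i ∈ I, rootMultiplicity (re v (a i)) (rd v (C (w.coeff k)⁻¹ * w)) ≤
      (rd v (C (w.coeff k)⁻¹ * w)).natDegree := by
    have hdvd : ∏ i ∈ I, (X - C (re v (a i))) ^
        rootMultiplicity (re v (a i)) (rd v (C (w.coeff k)⁻¹ * w)) ∣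
          rd v (C (w.coeff k)⁻¹ * w) := by
      refine Finset.prod_dvd_of_coprime ?_ fun i _ => pow_rootMultiplicity_dvd _ _
      intro i _ j _ hij
      refine IsCoprime.pow ?_
      refine isCoprime_X_sub_C_of_isUnit_sub ?_
      refine IsUnit.mk0 _ ?_
      intro h0
      rw [sub_eq_zero, re_eq_iff v (ha i) (ha j), hd i j hij] at h0
      exact lt_irrefl _ h0
    have h1 := natDegree_le_of_dvd hdvd hW0
    rwa [natDegree_prod_of_monic _ _ (fun i _ => (monic_X_sub_C _).pow _),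
      Finset.sum_congr rfl (fun i _ => by
        rw [natDegree_pow, natDegree_X_sub_C, mul_one])] at h1
  have hgd := gl_deg a I t N u w h hw
  obtain ⟨i, hi, hmi⟩ : ∃ i ∈ I,
      rootMultiplicity (re v (a i)) (rd v (C (w.coeff k)⁻¹ * w)) + 1 < N := by
    by_contra hcon
    push Not at hcon
    have h1 : I.card * N ≤ ∑ i ∈ I,
        (rootMultiplicity (re v (a i)) (rd v (C (w.coeff k)⁻¹ * w)) + 1) := by
      rw [← smul_eq_mul, ← Finset.sum_const]
      exact Finset.sum_le_sum hcon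
    rw [Finset.sum_add_distrib, Finset.sum_const, smul_eq_mul, mul_one] at h1
    omega
  refine ⟨i, hi, ?_⟩
  have hτ1 := ht i hi
  have hτ0 : v (t i - a i) ≠ 0 := by
    rw [Valuation.ne_zero_iff]
    exact sub_ne_zero.2 (hne i hi)
  have h1 := gl2b v w hw (w.coeff k) hk (a i) (t i - a i) (ha i) hτ1.le
  have h2 := gl2a v a ha hd I t ht N u w h i hi (hne i hi)
  obtain ⟨j, hj⟩ : ∃ j, j = rootMultiplicity (re v (a i)) (rd v (C (w.coeff k)⁻¹ * w)) :=
    ⟨_, rfl⟩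
  rw [← hj] at h1 hmi
  have h3 : gn v w ^ 2 * v (t i - a i) ^ (2 * j + 1) ≤
      v (t i - a i) ^ 3 * v (t i - a i) ^ (2 * j + 1) := by
    calc gn v w ^ 2 * v (t i - a i) ^ (2 * j + 1) =
          (gn v w * v (t i - a i) ^ j) ^ 2 * v (t i - a i) := by
          rw [mul_pow, ← pow_mul, mul_comm j 2, mul_assoc, ← pow_succ]
      _ ≤ gn v (w.comp (C (t i - a i) * X + C (a i))) ^ 2 * v (t i - a i) := by
          gcongr
      _ ≤ v (t i - a i) ^ (2 * N) := h2
      _ ≤ v (t i - a i) ^ (3 + (2 * j + 1)) :=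
          pow_le_pow_right_of_le_one' hτ1.le (by omega)
      _ = _ := pow_add _ _ _
  exact le_of_mul_le_mul_right h3 (zero_lt_iff.2 (pow_ne_zero _ hτ0))

end HK
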