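import Mathlib

/-!
Module Gs (project HK, helper95).  The Gauss norm of polynomials for a valuation.

`v : Valuation K Γ` any valuation of a field, `gn v p` = maximum of the values of the coefficients.
PROOFS.  gn_mul: ≤ is clear.  ≥ (p, q ≠ 0): let i, j be the smallest indices with v (p.coeff i) = gn p, v (q.coeff j) = gn q; in the coefficient i + j of p * q the term
p_i q_j has the value gn p * gn q and all other terms are smaller (Valuation.map_add_eq_of_lt...).  gn_taylor: ≤ by expansion (coefficients of (X + C a) ^ n are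
integral, gn_mul and gn_sum), ≥ by the same for -a and (p.comp (X + C a)).comp (X + C (-a)) = p.
-/

namespace HK

open Polynomial

variable {K : Type*} [Field K] {Γ : Type*} [LinearOrderedCommGroupWithZero Γ] (v : Valuation K Γ)

/-- The Gauss norm. -/
noncomputable def gn (p : K[X]) : Γ := p.support.sup fun i => v (p.coeff i)

theorem le_gn (p : K[X]) (i : ℕ) : v (p.coeff i) ≤ gn v p := by
  by_cases h : i ∈ p.support
  · exact Finset.le_sup (f := fun i => v (p.coeff i)) h
  · rw [Polynomial.notMem_support_iff.1 h, map_zero]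
    exact zero_le

theorem gn_le_iff {p : K[X]} {r : Γ} : gn v p ≤ r ↔ ∀ i, v (p.coeff i) ≤ r := by
  constructor
  · intro h i
    exact (le_gn v p i).trans h
  · intro h
    unfold gn
    exact Finset.sup_le (fun i _ => h i)

theorem exists_gn (p : K[X]) : ∃ i, v (p.coeff i) = gn v p := by
  by_cases hp : p = 0
  · refine ⟨0, le_antisymm (le_gn v p 0) ?_⟩
    rw [gn_le_iff]
    intro i
    rw [hp, coeff_zero, coeff_zero]
  · obtain ⟨i, _, h⟩ := Finset.exists_mem_eq_sup p.support
      (Polynomial.support_nonempty.2 hp) (fun i => v (p.coeff i))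
    exact ⟨i, h.symm⟩

theorem gn_zero : gn v (0 : K[X]) = 0 := by
  refine le_antisymm ?_ zero_le
  rw [gn_le_iff]
  intro i
  rw [coeff_zero, map_zero]

theorem gn_eq_zero {p : K[X]} : gn v p = 0 ↔ p = 0 := by
  constructor
  · intro h
    ext i
    have h1 := le_gn v p i
    rw [h] at h1
    have h2 : v (p.coeff i) = 0 := le_antisymm h1 zero_le
    rw [coeff_zero]
    exact (map_eq_zero v).1 h2
  · intro h
    rw [h, gn_zero]

theorem gn_C (c : K) : gn v (C c) = v c := by
  refine le_antisymm ?_ ?_
  · rw [gn_le_iff]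
    intro i
    rw [coeff_C]
    split_ifs
    · exact le_refl _
    · rw [map_zero]
      exact zero_le
  · have h := le_gn v (C c) 0
    rwa [coeff_C_zero] at h

theorem gn_one : gn v (1 : K[X]) = 1 := by
  rw [← C_1, gn_C, map_one]

theorem gn_neg (p : K[X]) : gn v (-p) = gn v p := by
  refine le_antisymm ?_ ?_
  · rw [gn_le_iff]
    intro i
    rw [coeff_neg, Valuation.map_neg]
    exact le_gn v p i
  · rw [gn_le_iff]
    intro i
    have h := le_gn v (-p) i
    rwa [coeff_neg, Valuation.map_neg] at h

theorem gn_add_le (p q : K[X]) : gn v (p + q) ≤ max (gn v p) (gn v q) := by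
  rw [gn_le_iff]
  intro i
  rw [coeff_add]
  exact (v.map_add _ _).trans (max_le_max (le_gn v p i) (le_gn v q i))

theorem gn_sub_le (p q : K[X]) : gn v (p - q) ≤ max (gn v p) (gn v q) := by
  rw [sub_eq_add_neg]
  have h := gn_add_le v p (-q)
  rwa [gn_neg] at h

theorem gn_add_eq {p q : K[X]} (h : gn v q < gn v p) : gn v (p + q) = gn v p := by
  refine le_antisymm ?_ ?_
  · have h1 := gn_add_le v p q
    rwa [max_eq_left h.le] at h1
  · have h1 := gn_sub_le v (p + q) q
    rw [add_sub_cancel_right] at h1
    rcases le_max_iff.1 h1 with h2 | h2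
    · exact h2
    · exact absurd h (not_lt.2 h2)

private theorem gs_exists_least (p : K[X]) :
    ∃ i, v (p.coeff i) = gn v p ∧ ∀ i', i' < i → v (p.coeff i') < gn v p := by
  classical
  have hex := exists_gn v p
  refine ⟨Nat.find hex, Nat.find_spec hex, fun i' hi' => ?_⟩
  exact lt_of_le_of_ne (le_gn v p i') (Nat.find_min hex hi')

theorem gn_mul (p q : K[X]) : gn v (p * q) = gn v p * gn v q := by
  classical
  by_cases hp : p = 0
  · rw [hp, zero_mul, gn_zero, zero_mul]
  by_cases hq : q = 0
  · rw [hq, mul_zero, gn_zero, mul_zero]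
  refine le_antisymm ?_ ?_
  · rw [gn_le_iff]
    intro n
    rw [coeff_mul]
    refine v.map_sum_le (fun x _ => ?_)
    rw [map_mul]
    exact mul_le_mul' (le_gn v p x.1) (le_gn v q x.2)
  · obtain ⟨i, hi, hi'⟩ := gs_exists_least v p
    obtain ⟨j, hj, hj'⟩ := gs_exists_least v q
    have hpne : gn v p ≠ 0 := fun h => hp ((gn_eq_zero v).1 h)
    have hqne : gn v q ≠ 0 := fun h => hq ((gn_eq_zero v).1 h)
    have hmain : v (p.coeff i * q.coeff j) = gn v p * gn v q := by
      rw [map_mul, hi, hj]
    have hmem : (i, j) ∈ Finset.HasAntidiagonal.antidiagonal (i + j) := by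
      rw [Finset.HasAntidiagonal.mem_antidiagonal]
    have hsum : (p * q).coeff (i + j) = p.coeff i * q.coeff j +
        ∑ x ∈ (Finset.HasAntidiagonal.antidiagonal (i + j)).erase (i, j),
          p.coeff x.1 * q.coeff x.2 := by
      rw [coeff_mul, ← Finset.add_sum_erase _ _ hmem]
    have hrest : v (∑ x ∈ (Finset.HasAntidiagonal.antidiagonal (i + j)).erase (i, j),
        p.coeff x.1 * q.coeff x.2) < gn v p * gn v q := by
      refine v.map_sum_lt (mul_ne_zero hpne hqne) (fun x hx => ?_)
      rw [Finset.mem_erase, Finset.HasAntidiagonal.mem_antidiagonal] at hx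
      obtain ⟨hne, hadd⟩ := hx
      rw [map_mul]
      rcases lt_trichotomy x.1 i with h | h | h
      · exact lt_of_le_of_lt (mul_le_mul' (le_refl _) (le_gn v q x.2))
          (mul_lt_mul_of_pos_right (hi' x.1 h) (zero_lt_iff.2 hqne))
      · exfalso
        apply hne
        refine Prod.ext h ?_
        simp only []
        omega
      · have h2 : x.2 < j := by omega
        rw [mul_comm (v (p.coeff x.1)), mul_comm (gn v p)]
        exact lt_of_le_of_lt (mul_le_mul' (le_refl _) (le_gn v p x.1))
          (mul_lt_mul_of_pos_right (hj' x.2 h2) (zero_lt_iff.2 hpne))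
    have hval : v ((p * q).coeff (i + j)) = gn v p * gn v q := by
      rw [hsum, ← hmain]
      apply Valuation.map_add_eq_of_lt_left
      rw [hmain]
      exact hrest
    rw [← hval]
    exact le_gn v (p * q) (i + j)

theorem gn_pow (p : K[X]) (m : ℕ) : gn v (p ^ m) = gn v p ^ m := by
  induction m with
  | zero => rw [pow_zero, pow_zero, gn_one]
  | succ m ih => rw [pow_succ, pow_succ, gn_mul, ih]

theorem gn_prod {ι : Type*} (s : Finset ι) (f : ι → K[X]) :
    gn v (∏ i ∈ s, f i) = ∏ i ∈ s, gn v (f i) := by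
  classical
  induction s using Finset.induction_on with
  | empty => rw [Finset.prod_empty, Finset.prod_empty, gn_one]
  | insert j s hj ih => rw [Finset.prod_insert hj, Finset.prod_insert hj, gn_mul, ih]

theorem gn_X_sub_C {a : K} (ha : v a ≤ 1) : gn v (X - C a) = 1 := by
  refine le_antisymm ?_ ?_
  · rw [gn_le_iff]
    intro i
    rw [coeff_sub]
    refine (v.map_sub _ _).trans (max_le ?_ ?_)
    · rw [coeff_X]
      split_ifs
      · rw [map_one]
      · rw [map_zero]
        exact zero_le
    · rw [coeff_C]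
      split_ifs
      · exact ha
      · rw [map_zero]
        exact zero_le
  · have h := le_gn v (X - C a) 1
    rwa [coeff_sub, coeff_X_one, coeff_C_of_ne_zero one_ne_zero, sub_zero, map_one] at h

theorem gn_eval {p : K[X]} {z : K} (hz : v z ≤ 1) : v (p.eval z) ≤ gn v p := by
  rw [eval_eq_sum_range]
  refine v.map_sum_le (fun i _ => ?_)
  rw [map_mul, map_pow]
  calc v (p.coeff i) * v z ^ i ≤ gn v p * 1 := mul_le_mul' (le_gn v p i) (pow_le_one' hz i)
    _ = gn v p := mul_one _

theorem v_natCast_le (m : ℕ) : v (m : K) ≤ 1 := by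
  induction m with
  | zero =>
    rw [Nat.cast_zero, map_zero]
    exact zero_le
  | succ m ih =>
    rw [Nat.cast_succ]
    refine (v.map_add _ _).trans (max_le ih ?_)
    rw [map_one]

theorem gn_derivative (p : K[X]) : gn v p.derivative ≤ gn v p := by
  rw [gn_le_iff]
  intro i
  rw [coeff_derivative, map_mul]
  have h : v ((i : K) + 1) ≤ 1 := by
    have h1 := v_natCast_le v (i + 1)
    rwa [Nat.cast_succ] at h1
  calc v (p.coeff (i + 1)) * v ((i : K) + 1) ≤ gn v p * 1 := mul_le_mul' (le_gn v p _) h
    _ = gn v p := mul_one _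

private theorem gs_sum_le {ι : Type*} (s : Finset ι) (f : ι → K[X]) {r : Γ}
    (h : ∀ i ∈ s, gn v (f i) ≤ r) : gn v (∑ i ∈ s, f i) ≤ r := by
  classical
  induction s using Finset.induction_on with
  | empty =>
    rw [Finset.sum_empty, gn_zero]
    exact zero_le
  | insert j s hj ih =>
    rw [Finset.sum_insert hj]
    exact (gn_add_le v _ _).trans (max_le (h j (Finset.mem_insert_self j s))
      (ih (fun i hi => h i (Finset.mem_insert_of_mem hi))))

private theorem gs_taylor_le {a : K} (ha : v a ≤ 1) (p : K[X]) :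
    gn v (p.comp (X + C a)) ≤ gn v p := by
  rw [comp_eq_sum_left, Polynomial.sum_def]
  refine gs_sum_le v _ _ (fun i _ => ?_)
  have h1 : gn v (X + C a) = 1 := by
    have h2 : v (-a) ≤ 1 := by rwa [Valuation.map_neg]
    have h3 := gn_X_sub_C v h2
    rwa [C_neg, sub_neg_eq_add] at h3
  rw [gn_mul, gn_pow, h1, one_pow, mul_one, gn_C]
  exact le_gn v p i

/-- The Gauss norm of a translate. -/
theorem gn_taylor {a : K} (ha : v a ≤ 1) (p : K[X]) : gn v (p.comp (X + C a)) = gn v p := by
  refine le_antisymm (gs_taylor_le v ha p) ?_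
  have h2 : v (-a) ≤ 1 := by rwa [Valuation.map_neg]
  have h := gs_taylor_le v h2 (p.comp (X + C a))
  have e : (p.comp (X + C a)).comp (X + C (-a)) = p := by
    rw [comp_assoc]
    have e1 : (X + C a : K[X]).comp (X + C (-a)) = X := by
      rw [add_comp, X_comp, C_comp, add_assoc, ← C_add, neg_add_cancel, C_0, add_zero]
    rw [e1, comp_X]
  rwa [e] at h

end HK
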