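import Mathlib

/-!
Module PhiA (project HK, helper95).  The class of the norm of a principal ideal.
PROOFS.  Both sides are additive in x (valuations multiplicative; for x ≠ 0 only finitely many P with P.valuation K x ≠ 1:
HeightOneSpectrum.Support / Ideal.finite_factors...), so x = algebraMap b, b ∈ B nonzero (IsFractionRing.div_surjective).
span {b} = ∏ᶠ P ^ n_P (Ideal.finprod_heightOneSpectrum_factorization), valuation of b at P = exp (- n_P).  Apply the monoid homomorphism Ideal.relNorm R:
relNorm R (span {b}) = span {intNorm b} (relNorm_singleton), relNorm R P = (P.under R) ^ (P.inertiaDeg R) = P.under R (relNorm_eq_pow_of_isMaximal, hres).  So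
∏ (P.under R) ^ n_P = span {intNorm b} is principal, and its class is 1 (ClassGroup.mk0_eq_one_iff), clI is multiplicative on nonzero ideals.
-/

namespace HK

open IsDedekindDomain

/-- The class of a nonzero ideal. -/
noncomputable def clI (R : Type*) [CommRing R] [IsDedekindDomain R] (I : Ideal R) :
    ClassGroup R :=
  open scoped Classical in
  if h : I = ⊥ then 1 else ClassGroup.mk0 ⟨I, mem_nonZeroDivisors_of_ne_zero h⟩

theorem PhiA_clI_ne (R : Type*) [CommRing R] [IsDedekindDomain R] (I : Ideal R) (h : I ≠ ⊥) :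
    clI R I = ClassGroup.mk0 ⟨I, mem_nonZeroDivisors_of_ne_zero h⟩ := dif_neg h

theorem clI_mul (R : Type*) [CommRing R] [IsDedekindDomain R] (I J : Ideal R) (hI : I ≠ ⊥)
    (hJ : J ≠ ⊥) : clI R (I * J) = clI R I * clI R J := by
  have hIJ : I * J ≠ ⊥ := mul_ne_zero hI hJ
  rw [PhiA_clI_ne R _ hIJ, PhiA_clI_ne R _ hI, PhiA_clI_ne R _ hJ, ← map_mul]
  rfl

theorem PhiA_clI_span (R : Type*) [CommRing R] [IsDedekindDomain R] (r : R) (hr : r ≠ 0) :
    clI R (Ideal.span {r}) = 1 := by
  have h : Ideal.span {r} ≠ ⊥ := by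
    rw [Ne, Ideal.span_singleton_eq_bot]
    exact hr
  rw [PhiA_clI_ne R _ h, ClassGroup.mk0_eq_one_iff]
  exact ⟨⟨r, rfl⟩⟩

theorem PhiA_clI_one (R : Type*) [CommRing R] [IsDedekindDomain R] : clI R 1 = 1 := by
  have h := PhiA_clI_span R 1 one_ne_zero
  rwa [Ideal.span_singleton_one, ← Ideal.one_eq_top] at h

theorem PhiA_clI_pow (R : Type*) [CommRing R] [IsDedekindDomain R] (I : Ideal R) (hI : I ≠ ⊥)
    (n : ℕ) : clI R (I ^ n) = clI R I ^ n := by
  induction n with
  | zero => rw [pow_zero, pow_zero, PhiA_clI_one]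
  | succ n ih => rw [pow_succ, pow_succ, clI_mul R _ _ (pow_ne_zero n hI) hI, ih]

theorem PhiA_clI_prod (R : Type*) [CommRing R] [IsDedekindDomain R] {ι : Type*} (s : Finset ι)
    (f : ι → Ideal R) (hf : ∀ i ∈ s, f i ≠ ⊥) : clI R (∏ i ∈ s, f i) = ∏ i ∈ s, clI R (f i) := by
  classical
  induction s using Finset.induction_on with
  | empty => rw [Finset.prod_empty, Finset.prod_empty, PhiA_clI_one]
  | insert a s ha ih =>
    rw [Finset.prod_insert ha, Finset.prod_insert ha, clI_mul R _ _
      (hf a (Finset.mem_insert_self a s)), ih (fun i hi => hf i (Finset.mem_insert_of_mem hi))]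
    exact Finset.prod_ne_zero_iff.2 (fun i hi => hf i (Finset.mem_insert_of_mem hi))

open scoped Classical in
/-- the multiplicity of a prime in a principal ideal. -/
noncomputable def PhiA_ct (B : Type*) [CommRing B] [IsDedekindDomain B] (b : B)
    (P : HeightOneSpectrum B) : ℕ :=
  (Associates.mk P.asIdeal).count (Associates.mk (Ideal.span {b} : Ideal B)).factors

theorem PhiA_val (B K : Type*) [CommRing B] [IsDedekindDomain B] [Field K] [Algebra B K]
    [IsFractionRing B K] (b : B) (hb : b ≠ 0) (P : HeightOneSpectrum B) :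
    P.valuation K (algebraMap B K b) = WithZero.exp (-(PhiA_ct B b P : ℤ)) := by
  rw [HeightOneSpectrum.valuation_of_algebraMap, HeightOneSpectrum.intValuation_if_neg P hb]
  rfl

theorem PhiA_fin (B : Type*) [CommRing B] [IsDedekindDomain B] (b : B) (hb : b ≠ 0) :
    {P : HeightOneSpectrum B | PhiA_ct B b P ≠ 0}.Finite := by
  have hI : (Ideal.span {b} : Ideal B) ≠ 0 := by
    rw [Ne, Ideal.zero_eq_bot, Ideal.span_singleton_eq_bot]
    exact hb
  have := Associates.finite_factors hI
  rw [Filter.eventually_cofinite] at this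
  refine this.subset ?_
  intro P hP
  have hP' : PhiA_ct B b P ≠ 0 := hP
  show ¬ (((PhiA_ct B b P : ℕ) : ℤ) = 0)
  exact_mod_cast hP'

theorem PhiA_int (R B : Type*) [CommRing R] [IsDedekindDomain R] [CommRing B]
    [IsDedekindDomain B] [Algebra R B] [Module.Finite R B] [Module.IsTorsionFree R B]
    [PerfectField (FractionRing R)]
    (hres : ∀ P : HeightOneSpectrum B, P.asIdeal.inertiaDeg R = 1) (b : B) (hb : b ≠ 0)
    (S : Finset (HeightOneSpectrum B)) (hS : ∀ P, PhiA_ct B b P ≠ 0 → P ∈ S) :
    ∏ P ∈ S, clI R (P.asIdeal.under R) ^ PhiA_ct B b P = 1 := by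
  have hI : (Ideal.span {b} : Ideal B) ≠ 0 := by
    rw [Ne, Ideal.zero_eq_bot, Ideal.span_singleton_eq_bot]
    exact hb
  have h1 : ∏ P ∈ S, P.asIdeal ^ PhiA_ct B b P = Ideal.span {b} := by
    have h0 := Ideal.finprod_heightOneSpectrum_factorization hI
    rw [finprod_eq_prod_of_mulSupport_subset (s := S)] at h0
    · exact h0
    · intro P hP
      apply hS
      intro h
      apply hP
      show P.asIdeal ^ PhiA_ct B b P = 1
      rw [h, pow_zero]
  have hrel : ∀ P : HeightOneSpectrum B, Ideal.relNorm R P.asIdeal = P.asIdeal.under R := by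
    intro P
    have hmax : P.asIdeal.IsMaximal := P.isMaximal
    have := Ideal.relNorm_eq_pow_of_isMaximal P.asIdeal (P.asIdeal.under R)
    rw [hres P, pow_one] at this
    exact this
  have hne : ∀ P : HeightOneSpectrum B, P.asIdeal.under R ≠ ⊥ := by
    intro P h
    have := hrel P
    rw [h, Ideal.relNorm_eq_bot_iff] at this
    exact P.ne_bot this
  have h2 : ∏ P ∈ S, (P.asIdeal.under R) ^ PhiA_ct B b P =
      Ideal.span {Algebra.intNorm R B b} := by
    rw [← Ideal.relNorm_singleton, ← h1, map_prod]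
    refine Finset.prod_congr rfl (fun P _ => ?_)
    rw [map_pow, hrel]
  have h3 : Algebra.intNorm R B b ≠ 0 := by
    intro h
    have h4 : Ideal.relNorm R (Ideal.span {b}) = ⊥ := by
      rw [Ideal.relNorm_singleton, h, Ideal.span_singleton_eq_bot]
    rw [Ideal.relNorm_eq_bot_iff] at h4
    exact hI h4
  have h5 := PhiA_clI_span R _ h3
  rw [← h2, PhiA_clI_prod R S _ (fun P _ => pow_ne_zero _ (hne P))] at h5
  rw [← h5]
  exact Finset.prod_congr rfl (fun P _ => (PhiA_clI_pow R _ (hne P) _).symm)

theorem norm_class (R B K : Type*) [CommRing R] [IsDedekindDomain R] [CommRing B]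
    [IsDedekindDomain B] [Algebra R B] [Module.Finite R B] [Module.IsTorsionFree R B] [Field K]
    [Algebra B K] [IsFractionRing B K] [PerfectField (FractionRing R)]
    (hres : ∀ P : HeightOneSpectrum B, P.asIdeal.inertiaDeg R = 1) (x : K) (hx : x ≠ 0) :
    {P : HeightOneSpectrum B | P.valuation K x ≠ 1}.Finite ∧
    ∑ᶠ P : HeightOneSpectrum B, (-WithZero.log (P.valuation K x)) •
      Additive.ofMul (clI R (P.asIdeal.under R)) = 0 := by
  classical
  obtain ⟨b, c, hc, rfl⟩ := IsFractionRing.div_surjective (A := B) x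
  have hc0 : c ≠ 0 := nonZeroDivisors.ne_zero hc
  have hb0 : b ≠ 0 := by
    rintro rfl
    apply hx
    rw [map_zero, zero_div]
  have hval : ∀ P : HeightOneSpectrum B,
      P.valuation K (algebraMap B K b / algebraMap B K c) =
        WithZero.exp (-(PhiA_ct B b P : ℤ)) / WithZero.exp (-(PhiA_ct B c P : ℤ)) := by
    intro P
    rw [map_div₀, PhiA_val B K b hb0, PhiA_val B K c hc0]
  have hlog : ∀ P : HeightOneSpectrum B,
      -WithZero.log (P.valuation K (algebraMap B K b / algebraMap B K c)) =
        (PhiA_ct B b P : ℤ) - (PhiA_ct B c P : ℤ) := by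
    intro P
    rw [hval P, WithZero.log_div WithZero.exp_ne_zero WithZero.exp_ne_zero, WithZero.log_exp,
      WithZero.log_exp]
    ring
  set S : Finset (HeightOneSpectrum B) :=
    (PhiA_fin B b hb0).toFinset ∪ (PhiA_fin B c hc0).toFinset with hSdef
  have hSb : ∀ P, PhiA_ct B b P ≠ 0 → P ∈ S := by
    intro P hP
    rw [hSdef, Finset.mem_union]
    left
    rw [Set.Finite.mem_toFinset]
    exact hP
  have hSc : ∀ P, PhiA_ct B c P ≠ 0 → P ∈ S := by
    intro P hP
    rw [hSdef, Finset.mem_union]
    right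
    rw [Set.Finite.mem_toFinset]
    exact hP
  constructor
  · refine S.finite_toSet.subset ?_
    intro P hP
    have hP' : P.valuation K (algebraMap B K b / algebraMap B K c) ≠ 1 := hP
    by_contra hPS
    have hb1 : PhiA_ct B b P = 0 := by
      by_contra h
      exact hPS (hSb P h)
    have hc1 : PhiA_ct B c P = 0 := by
      by_contra h
      exact hPS (hSc P h)
    apply hP'
    rw [hval P, hb1, hc1]
    exact div_self WithZero.exp_ne_zero
  · have hsup : Function.support (fun P : HeightOneSpectrum B =>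
        (-WithZero.log (P.valuation K (algebraMap B K b / algebraMap B K c))) •
          Additive.ofMul (clI R (P.asIdeal.under R))) ⊆ (S : Set (HeightOneSpectrum B)) := by
      intro P hP
      by_contra hPS
      apply hP
      have hb1 : PhiA_ct B b P = 0 := by
        by_contra h
        exact hPS (hSb P h)
      have hc1 : PhiA_ct B c P = 0 := by
        by_contra h
        exact hPS (hSc P h)
      show (-WithZero.log (P.valuation K (algebraMap B K b / algebraMap B K c))) •
          Additive.ofMul (clI R (P.asIdeal.under R)) = 0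
      rw [hlog P, hb1, hc1]
      simp
    rw [finsum_eq_sum_of_support_subset _ hsup]
    have e1 : ∑ P ∈ S, (-WithZero.log (P.valuation K (algebraMap B K b / algebraMap B K c))) •
        Additive.ofMul (clI R (P.asIdeal.under R)) =
        Additive.ofMul (∏ P ∈ S, clI R (P.asIdeal.under R) ^ PhiA_ct B b P) -
          Additive.ofMul (∏ P ∈ S, clI R (P.asIdeal.under R) ^ PhiA_ct B c P) := by
      rw [ofMul_prod, ofMul_prod, ← Finset.sum_sub_distrib]
      refine Finset.sum_congr rfl (fun P _ => ?_)
      rw [hlog P, sub_smul, ofMul_pow, ofMul_pow, natCast_zsmul, natCast_zsmul]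
    rw [e1, PhiA_int R B hres b hb0 S hSb, PhiA_int R B hres c hc0 S hSc]
    simp

end HK
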