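import Pool.Agent.H95.HK.PhiA
import Pool.Agent.H95.HK.CRc
import Pool.Agent.H95.HJ.Deg

/-!
Module PhiB (project HK, helper95).  The divisor of a function on a cover of the affine curve is trivial in the class group.
PROOFS.  R = CR (FF a) acts on K by el u w ↦ aeval X u + aeval X w * Y (AdjoinRoot.lift; injective: by norms, X transcendental: u ^ 2 - w ^ 2 F = 0 only for u = w = 0).
B = integral closure of R in K.  K is finite over the fraction field of R (Deg_fin in HJ/Deg.lean, private: copy it: K is finite over k(X)), so B is a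
Dedekind domain, finite over R, with fraction field K (IsIntegralClosure.isDedekindDomain, IsIntegralClosure.finite, separable because of CharZero).
hres: for a maximal ideal P of B the residue field B / P is algebraic over R / (P ∩ R) = k (exists_pI), k algebraically closed, so the inertia degree is 1.
A place w with w.v X ≤ 1 has w.v ≤ 1 on B (Y ^ 2 = F(X); integral elements: cf. Deg_le), P_w = {b ∈ B | w.v b < 1} is a nonzero prime (w.v is not trivial on K = Frac B) and
w.v = P_w.valuation K (Deg_det in HJ/Deg.lean, private: copy it); every P comes from exactly one such w (the valuation of P is surjective, trivial on k, and ≤ 1 on X).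
This is a bijection {w | w.v X ≤ 1} ≃ HeightOneSpectrum B.  P_w ∩ R = pI (x, y), (x, y) = val w: el (X - x) 0 and el (-y) 1 are in P_w; maximal.
So the sum is the one of norm_class (f ≠ 0), clI R (pI ..) = cls.
-/

namespace HK

open Polynomial ZC

section copies

open scoped Classical

open scoped IntermediateField.algebraAdjoinAdjoin in
private theorem PhiB_alg {k K : Type} [Field k] [Field K] [Algebra k K]
    (hK : IsFunctionField k K) (f : K) (hf : Transcendental k f) :
    Algebra.IsAlgebraic (Algebra.adjoin k {f}) K := by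
  obtain ⟨t, ht, hfin⟩ := hK
  have h1 : Algebra.IsAlgebraic (IntermediateField.adjoin k {t}) K := inferInstance
  have h2 : Algebra.IsAlgebraic (Algebra.adjoin k {t}) K :=
    Algebra.IsAlgebraic.trans (Algebra.adjoin k {t}) (IntermediateField.adjoin k {t}) K
  have h3 : Algebra.trdeg k K ≤ 1 := by
    have := Algebra.IsAlgebraic.trdeg_le_cardinalMk k ({t} : Set K)
    simpa using this
  have hx : AlgebraicIndependent k (fun _ : Unit => f) := by
    rw [algebraicIndependent_unique_type_iff]
    exact hf
  have h4 := hx.isTranscendenceBasis_of_trdeg_le_of_finite (by simpa using h3)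
  have h5 := h4.isAlgebraic
  have h6 : Set.range (fun _ : Unit => f) = {f} := by
    ext x; simp [eq_comm]
  rw [h6] at h5
  exact h5

open scoped IntermediateField.algebraAdjoinAdjoin in
private theorem PhiB_fin0 {k K : Type} [Field k] [Field K] [Algebra k K]
    (hK : IsFunctionField k K) (f : K) (hf : Transcendental k f) :
    FiniteDimensional (IntermediateField.adjoin k {f}) K := by
  have h1 := PhiB_alg hK f hf
  have h2 : Algebra.IsAlgebraic (IntermediateField.adjoin k {f}) K :=
    Algebra.IsAlgebraic.extendScalars (R := Algebra.adjoin k {f})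
      (FaithfulSMul.algebraMap_injective _ _)
  obtain ⟨t, ht, hfin⟩ := hK
  have h3 : Algebra.EssFiniteType k (IntermediateField.adjoin k {t}) := by
    rw [IntermediateField.essFiniteType_iff]
    exact ⟨{t}, by simp⟩
  have h4 : Algebra.EssFiniteType k K :=
    Algebra.EssFiniteType.comp k (IntermediateField.adjoin k {t}) K
  have h5 : Algebra.EssFiniteType (IntermediateField.adjoin k {f}) K :=
    Algebra.EssFiniteType.of_comp k _ _
  have h6 : (⊤ : IntermediateField (IntermediateField.adjoin k {f}) K).FG :=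
    IntermediateField.fg_top _ _
  obtain ⟨s, hs⟩ := h6
  have h7 := IntermediateField.finiteDimensional_adjoin
    (K := IntermediateField.adjoin k {f}) (L := K) (S := (s : Set K))
    (fun x _ => (h2.isAlgebraic x).isIntegral)
  rw [hs] at h7
  exact Module.Finite.equiv IntermediateField.topEquiv.toLinearEquiv



private theorem PhiB_det {k K R : Type} [Field k] [Field K] [Algebra k K] [CommRing R]
    [IsDedekindDomain R] [Algebra R K] [IsFractionRing R K] (v : Place k K)
    (hv : ∀ b : R, v.v (algebraMap R K b) ≤ 1) (P : IsDedekindDomain.HeightOneSpectrum R)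
    (hP : ∀ b : R, b ∈ P.asIdeal ↔ v.v (algebraMap R K b) < 1) :
    v.v = P.valuation K := by
  have h1 : ∀ x : K, P.valuation K x ≤ 1 → v.v x ≤ 1 := by
    intro x hx
    obtain ⟨n, d, h⟩ := P.exists_primeCompl_mul_eq_of_integer x hx
    have hd : v.v (algebraMap R K d) = 1 := by
      have hd := d.2
      rw [Ideal.mem_primeCompl_iff, hP, not_lt] at hd
      exact le_antisymm (hv _) hd
    have h3 := congrArg v.v h
    rw [map_mul, hd, mul_one] at h3
    rw [h3]
    exact hv _
  have h2 : ∀ x : K, P.valuation K x = 1 → v.v x = 1 := by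
    intro x hx
    have hx0 : x ≠ 0 := by
      rintro rfl
      rw [map_zero] at hx
      exact zero_ne_one hx
    apply le_antisymm (h1 x hx.le)
    have h3 := h1 x⁻¹ (by rw [map_inv₀, hx, inv_one])
    rw [map_inv₀] at h3
    exact (inv_le_one₀ (by
      rw [zero_lt_iff]; exact (Valuation.ne_zero_iff _).2 hx0)).1 h3
  obtain ⟨π, hπ⟩ := P.valuation_exists_uniformizer K
  have hπ0 : π ≠ 0 := by
    rintro rfl
    rw [map_zero] at hπ
    exact WithZero.exp_ne_zero hπ.symm
  have h3 : ∀ x : K, x ≠ 0 → v.v x = (v.v π) ^ (- WithZero.log (P.valuation K x)) := by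
    intro x hx
    have hx' : P.valuation K x ≠ 0 := (Valuation.ne_zero_iff _).2 hx
    have h4 := h2 (x * π ^ (WithZero.log (P.valuation K x))) (by
      rw [map_mul, map_zpow₀, hπ, ← WithZero.exp_zsmul]
      simp [WithZero.exp_neg, hx'])
    rw [map_mul, map_zpow₀] at h4
    rw [zpow_neg]
    exact eq_inv_of_mul_eq_one_left h4
  have hvπ : v.v π ≠ 0 := (Valuation.ne_zero_iff _).2 hπ0
  have h4 : v.v π = WithZero.exp (-1 : ℤ) := by
    have h5 : v.v π ≤ 1 := h1 π (by
      rw [hπ, ← WithZero.exp_zero, WithZero.exp_le_exp]; norm_num)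
    obtain ⟨x, hx⟩ := v.surj (WithZero.exp (-1 : ℤ))
    have hx0 : x ≠ 0 := by
      rintro rfl
      rw [map_zero] at hx
      exact WithZero.exp_ne_zero hx.symm
    rw [h3 x hx0] at hx
    have h6 := congrArg WithZero.log hx
    rw [WithZero.log_zpow, WithZero.log_exp] at h6
    have h7 : WithZero.log (v.v π) ≤ 0 := by
      rw [WithZero.log_le_iff_le_exp hvπ]; simpa using h5
    have h8 : WithZero.log (v.v π) = -1 := by
      rw [smul_eq_mul] at h6
      have h9 : WithZero.log (v.v π) ∣ 1 := ⟨WithZero.log (P.valuation K x), by linarith⟩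
      rcases Int.isUnit_iff.1 (isUnit_of_dvd_one h9) with h | h
      · rw [h] at h7; norm_num at h7
      · exact h
    rw [← h8, WithZero.exp_log hvπ]
  ext x
  by_cases hx : x = 0
  · rw [hx, map_zero, map_zero]
  · rw [h3 x hx, h4, ← WithZero.exp_zsmul]
    have hx' : P.valuation K x ≠ 0 := (Valuation.ne_zero_iff _).2 hx
    simp [hx']


end copies

section abs

variable {k : Type} [Field k] {K R : Type} [Field K] [Algebra k K] [CommRing R]
  [IsDedekindDomain R] [Algebra R K]

private theorem PhiB_fin (hK : IsFunctionField k K) (X : K) (hX : Transcendental k X)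
    (hc : ∀ c : k, ∃ r : R, algebraMap R K r = algebraMap k K c)
    (hXR : ∃ r : R, algebraMap R K r = X)
    [Algebra (FractionRing R) K] [IsScalarTower R (FractionRing R) K] :
    FiniteDimensional (FractionRing R) K := by
  have hfin := PhiB_fin0 hK X hX
  have hE : ∀ e ∈ IntermediateField.adjoin k {X}, ∃ z : FractionRing R,
      algebraMap (FractionRing R) K z = e := by
    intro e he
    induction he using IntermediateField.adjoin_induction with
    | mem x hx =>
      rw [Set.mem_singleton_iff] at hx
      obtain ⟨r, hr⟩ := hXR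
      refine ⟨algebraMap R (FractionRing R) r, ?_⟩
      rw [← IsScalarTower.algebraMap_apply, hr, hx]
    | algebraMap c =>
      obtain ⟨r, hr⟩ := hc c
      refine ⟨algebraMap R (FractionRing R) r, ?_⟩
      rw [← IsScalarTower.algebraMap_apply, hr]
    | add x y _ _ hx hy =>
      obtain ⟨z, hz⟩ := hx
      obtain ⟨z', hz'⟩ := hy
      exact ⟨z + z', by rw [map_add, hz, hz']⟩
    | inv x _ hx =>
      obtain ⟨z, hz⟩ := hx
      exact ⟨z⁻¹, by rw [map_inv₀, hz]⟩
    | mul x y _ _ hx hy =>
      obtain ⟨z, hz⟩ := hx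
      obtain ⟨z', hz'⟩ := hy
      exact ⟨z * z', by rw [map_mul, hz, hz']⟩
  obtain ⟨s, hs⟩ := hfin.fg_top
  refine ⟨⟨s, ?_⟩⟩
  rw [eq_top_iff]
  intro x _
  have hx : x ∈ Submodule.span (IntermediateField.adjoin k {X}) (s : Set K) := by
    rw [hs]
    trivial
  induction hx using Submodule.span_induction with
  | mem x hx => exact Submodule.subset_span hx
  | zero => exact zero_mem _
  | add x y _ _ hx hy => exact add_mem (hx trivial) (hy trivial)
  | smul e x _ hx =>
    obtain ⟨z, hz⟩ := hE e.1 e.2
    have h1 : e • x = z • x := by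
      rw [Algebra.smul_def z x, hz]
      rfl
    rw [h1]
    exact Submodule.smul_mem _ z (hx trivial)

/-- the ideal of a valuation -/
private def PhiB_I {B : Type} [CommRing B] [Algebra B K]
    (v : Valuation K (WithZero (Multiplicative ℤ)))
    (hv : ∀ b : B, v (algebraMap B K b) ≤ 1) : Ideal B where
  carrier := {b | v (algebraMap B K b) < 1}
  add_mem' := by
    intro a b ha hb
    rw [Set.mem_ofPred_eq] at ha hb ⊢
    rw [map_add]
    exact v.map_add_lt ha hb
  zero_mem' := by
    rw [Set.mem_ofPred_eq, map_zero, map_zero]; exact zero_lt_one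
  smul_mem' := by
    intro c x hx
    rw [Set.mem_ofPred_eq] at hx ⊢
    rw [smul_eq_mul, map_mul, map_mul]
    exact lt_of_le_of_lt (mul_le_of_le_one_left' (hv c)) hx

private theorem PhiB_I_mem {B : Type} [CommRing B] [Algebra B K]
    (v : Valuation K (WithZero (Multiplicative ℤ)))
    (hv : ∀ b : B, v (algebraMap B K b) ≤ 1) (b : B) :
    b ∈ PhiB_I v hv ↔ v (algebraMap B K b) < 1 := Iff.rfl

private theorem PhiB_I_prime {B : Type} [CommRing B] [Algebra B K]
    (v : Valuation K (WithZero (Multiplicative ℤ)))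
    (hv : ∀ b : B, v (algebraMap B K b) ≤ 1) : (PhiB_I v hv).IsPrime := by
  refine ⟨?_, ?_⟩
  · rw [Ideal.ne_top_iff_one, PhiB_I_mem, map_one, map_one]
    exact lt_irrefl _
  · intro x y hxy
    rw [PhiB_I_mem, map_mul, map_mul] at hxy
    rw [PhiB_I_mem, PhiB_I_mem]
    by_contra hcon
    push Not at hcon
    have h1 := le_antisymm (hv x) hcon.1
    have h2 := le_antisymm (hv y) hcon.2
    rw [h1, h2, one_mul] at hxy
    exact lt_irrefl _ hxy

private theorem PhiB_I_bot {B : Type} [CommRing B] [IsDomain B] [Algebra B K] [IsFractionRing B K]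
    (w : Place k K) (hv : ∀ b : B, w.v (algebraMap B K b) ≤ 1) : PhiB_I w.v hv ≠ ⊥ := by
  intro h
  obtain ⟨x, hx⟩ := w.surj (WithZero.exp (-1 : ℤ))
  have hx0 : x ≠ 0 := by
    rintro rfl
    rw [map_zero] at hx
    exact WithZero.exp_ne_zero hx.symm
  obtain ⟨b, d, hd, hbd⟩ := IsFractionRing.div_surjective (A := B) x
  have hd0 : algebraMap B K d ≠ 0 := by
    intro h0
    rw [h0, div_zero] at hbd
    exact hx0 hbd.symm
  have h1 : algebraMap B K b = x * algebraMap B K d := by
    rw [← hbd, div_mul_cancel₀ _ hd0]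
  have h2 : b ∈ PhiB_I w.v hv := by
    rw [PhiB_I_mem, h1, map_mul, hx]
    have h3 : (WithZero.exp (-1 : ℤ)) < 1 := by
      rw [← WithZero.exp_zero, WithZero.exp_lt_exp]
      norm_num
    exact lt_of_le_of_lt (mul_le_of_le_one_right' (hv d)) h3
  rw [h, Ideal.mem_bot] at h2
  rw [h2, map_zero] at h1
  exact mul_ne_zero hx0 hd0 h1.symm

private theorem PhiB_ext (v w : Place k K) (h : v.v = w.v) : v = w := by
  rcases v with ⟨v, _, _⟩
  rcases w with ⟨w, _, _⟩
  change v = w at h
  subst h
  rfl

private theorem PhiB_integral (w : Place k K)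
    (hw : ∀ r : R, w.v (algebraMap R K r) ≤ 1) (x : K) (hx : IsIntegral R x) : w.v x ≤ 1 := by
  obtain ⟨p, hp, hp0⟩ := hx
  have h2 := (Valuation.integer.integers w.v).mem_of_integral (x := x)
    ⟨p.map ((algebraMap R K).codRestrict w.v.integer (fun a => hw a)), hp.map _, by
        rw [Polynomial.eval₂_map]
        exact hp0⟩
  exact h2

variable [IsAlgClosed k] [CharZero k]

private theorem PhiB_abs (hK : IsFunctionField k K) (X : K) (hX : Transcendental k X)
    (hinj : Function.Injective (algebraMap R K))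
    (hc : ∀ c : k, ∃ r : R, algebraMap R K r = algebraMap k K c)
    (hXR : ∃ r : R, algebraMap R K r = X)
    (hle : ∀ w : Place k K, w.v X ≤ 1 → ∀ r : R, w.v (algebraMap R K r) ≤ 1)
    (f : K) (hf : f ≠ 0) (c : Place k K → ClassGroup R)
    (hcl : ∀ w : Place k K, w.v X ≤ 1 → ∀ I : Ideal R,
      (∀ r, r ∈ I ↔ w.v (algebraMap R K r) < 1) → c w = clI R I) :
    {w : Place k K | w.v X ≤ 1 ∧ w.v f ≠ 1}.Finite ∧
    ∑ᶠ (w : Place k K) (_ : w.v X ≤ 1), w.ord f • Additive.ofMul (c w) = 0 := by
  have hfs : FaithfulSMul R K := (faithfulSMul_iff_algebraMap_injective R K).2 hinj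
  let _ : Algebra (FractionRing R) K := FractionRing.liftAlgebra R K
  have hst : IsScalarTower R (FractionRing R) K := FractionRing.isScalarTower_liftAlgebra R K
  have hfin : FiniteDimensional (FractionRing R) K := PhiB_fin hK X hX hc hXR
  have hcK : CharZero K := charZero_of_injective_algebraMap (algebraMap k K).injective
  have hcR : CharZero R := (algebraMap R K).charZero
  have hcF : CharZero (FractionRing R) :=
    charZero_of_injective_algebraMap (IsFractionRing.injective R (FractionRing R))
  set B := integralClosure R K with hB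
  have hdd : IsDedekindDomain B := integralClosure.isDedekindDomain R (FractionRing R) K
  have hfr : IsFractionRing B K :=
    integralClosure.isFractionRing_of_finite_extension (FractionRing R) K
  have hfinB : Module.Finite R B := IsIntegralClosure.finite R (FractionRing R) K B
  have hRB : ∀ r : R, algebraMap B K (algebraMap R B r) = algebraMap R K r := fun r =>
    (IsScalarTower.algebraMap_apply R B K r).symm
  have htf : Module.IsTorsionFree R B := by
    apply Module.IsTorsionFree.of_smul_eq_zero
    intro r m h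
    rw [Algebra.smul_def, mul_eq_zero] at h
    rcases h with h | h
    · left
      apply hinj
      rw [← hRB, h, map_zero, map_zero]
    · exact Or.inr h
  -- the places
  have hleB : ∀ w : Place k K, w.v X ≤ 1 → ∀ b : B, w.v (algebraMap B K b) ≤ 1 :=
    fun w hw b => PhiB_integral w (hle w hw) _ b.2
  have hplace : ∀ P : IsDedekindDomain.HeightOneSpectrum B, ∃ w : Place k K,
      w.v = P.valuation K ∧ w.v X ≤ 1 := by
    intro P
    have h1 : ∀ c : k, P.valuation K (algebraMap k K c) ≤ 1 := by
      intro c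
      obtain ⟨r, hr⟩ := hc c
      rw [← hr, ← hRB]
      exact P.valuation_le_one _
    refine ⟨{ v := P.valuation K
              surj := P.valuation_surjective K
              triv := ?_ }, rfl, ?_⟩
    · intro c hc0
      apply le_antisymm (h1 c)
      have h2 := h1 c⁻¹
      rw [map_inv₀, map_inv₀] at h2
      have h3 : P.valuation K (algebraMap k K c) ≠ 0 := by
        rw [Valuation.ne_zero_iff]
        simpa using hc0
      rwa [inv_le_one₀ (by rwa [zero_lt_iff])] at h2
    · obtain ⟨r, hr⟩ := hXR
      change P.valuation K X ≤ 1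
      rw [← hr, ← hRB]
      exact P.valuation_le_one _
  have hres : ∀ P : IsDedekindDomain.HeightOneSpectrum B, P.asIdeal.inertiaDeg R = 1 := by
    intro P
    obtain ⟨w, hw, hwX⟩ := hplace P
    have hPm : P.asIdeal.IsMaximal := P.isMaximal
    have hum : (P.asIdeal.under R).IsMaximal := inferInstance
    rw [Ideal.inertiaDeg_eq_of_isMaximal (P.asIdeal.under R) P.asIdeal]
    have hmem : ∀ b : B, b ∈ P.asIdeal ↔ w.v (algebraMap B K b) < 1 := by
      intro b
      rw [hw, IsDedekindDomain.HeightOneSpectrum.valuation_lt_one_iff_mem]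
    have hs : Function.Surjective (algebraMap (R ⧸ P.asIdeal.under R) (B ⧸ P.asIdeal)) := by
      intro x
      obtain ⟨b, rfl⟩ := Ideal.Quotient.mk_surjective x
      obtain ⟨c0, hc0⟩ := HJ.res_const hK w (algebraMap B K b) (hleB w hwX b)
      obtain ⟨r, hr⟩ := hc c0
      refine ⟨Ideal.Quotient.mk _ r, ?_⟩
      rw [Ideal.Quotient.algebraMap_mk_of_liesOver, eq_comm, Ideal.Quotient.eq, hmem, map_sub,
        hRB, hr]
      exact hc0
    have hi : Function.Injective (algebraMap (R ⧸ P.asIdeal.under R) (B ⧸ P.asIdeal)) := by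
      intro x y hxy
      obtain ⟨r, rfl⟩ := Ideal.Quotient.mk_surjective x
      obtain ⟨r', rfl⟩ := Ideal.Quotient.mk_surjective y
      rw [Ideal.Quotient.algebraMap_mk_of_liesOver, Ideal.Quotient.algebraMap_mk_of_liesOver,
        Ideal.Quotient.eq, ← map_sub] at hxy
      rw [Ideal.Quotient.eq]
      exact hxy
    have : Field (R ⧸ P.asIdeal.under R) := Ideal.Quotient.field _
    have e : (R ⧸ P.asIdeal.under R) ≃ₗ[R ⧸ P.asIdeal.under R] (B ⧸ P.asIdeal) :=
      LinearEquiv.ofBijective (Algebra.linearMap _ _) ⟨hi, hs⟩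
    rw [← e.finrank_eq, Module.finrank_self]
  obtain ⟨hF, hS⟩ := norm_class R B K hres f hf
  let Φ : {w : Place k K // w.v X ≤ 1} → IsDedekindDomain.HeightOneSpectrum B := fun w =>
    ⟨PhiB_I w.1.v (hleB w.1 w.2), PhiB_I_prime _ _, PhiB_I_bot _ _⟩
  have hval : ∀ w : {w : Place k K // w.v X ≤ 1}, w.1.v = (Φ w).valuation K := fun w =>
    PhiB_det w.1 (hleB w.1 w.2) (Φ w) (fun b => Iff.rfl)
  have hbij : Function.Bijective Φ := by
    refine ⟨fun w w' h => ?_, fun P => ?_⟩
    · apply Subtype.ext
      apply PhiB_ext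
      rw [hval w, hval w', h]
    · obtain ⟨w, hw, hwX⟩ := hplace P
      refine ⟨⟨w, hwX⟩, ?_⟩
      apply IsDedekindDomain.HeightOneSpectrum.ext
      ext b
      change w.v (algebraMap B K b) < 1 ↔ b ∈ P.asIdeal
      rw [hw, IsDedekindDomain.HeightOneSpectrum.valuation_lt_one_iff_mem]
  refine ⟨?_, ?_⟩
  · have h1 : (Φ ⁻¹' {P | P.valuation K f ≠ 1}).Finite := hF.preimage hbij.1.injOn
    refine (h1.image Subtype.val).subset ?_
    rintro w ⟨hw1, hw2⟩
    refine ⟨⟨w, hw1⟩, ?_, rfl⟩
    rw [Set.mem_preimage, Set.mem_ofPred_eq, ← hval]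
    exact hw2
  · rw [← finsum_subtype_eq_finsum_cond, ← hS]
    refine finsum_eq_of_bijective Φ hbij fun w => ?_
    have h1 : c w.1 = clI R ((Φ w).asIdeal.under R) := by
      apply hcl w.1 w.2
      intro r
      rw [Ideal.mem_comap, ← hRB]
      exact Iff.rfl
    rw [h1, Place.ord, hval w]

end abs

variable {k : Type} [Field k] [IsAlgClosed k] [CharZero k] {g : ℕ} (a : Fin (2 * g + 1) → k)
  [Fact (Function.Injective a)]

/-- the embedding of the coordinate ring -/
private noncomputable def PhiB_phi {K : Type} [Field K] [Algebra k K] (F : k[X]) (X Y : K)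
    (hXY : Y ^ 2 = aeval X F) : CR F →+* K :=
  AdjoinRoot.lift (aeval X : k[X] →ₐ[k] K).toRingHom Y (by
    rw [eval₂_sub, eval₂_pow, eval₂_X, eval₂_C, hXY]
    exact sub_self _)

private theorem PhiB_phi_el {K : Type} [Field K] [Algebra k K] (F : k[X]) (X Y : K)
    (hXY : Y ^ 2 = aeval X F) (u w : k[X]) :
    PhiB_phi F X Y hXY (el F u w) = aeval X u + aeval X w * Y := by
  unfold PhiB_phi el
  rw [map_add, map_mul, AdjoinRoot.lift_of, AdjoinRoot.lift_of, AdjoinRoot.lift_root]
  rfl

private theorem PhiB_deg : (FF a).natDegree = 2 * g + 1 := by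
  unfold FF
  rw [natDegree_prod_of_monic _ _ (fun i _ => monic_X_sub_C (a i))]
  simp

private theorem PhiB_inj {K : Type} [Field K] [Algebra k K] (X Y : K) (hX : Transcendental k X)
    (hXY : Y ^ 2 = aeval X (FF a)) : Function.Injective (PhiB_phi (FF a) X Y hXY) := by
  rw [injective_iff_map_eq_zero]
  intro z hz
  obtain ⟨u, w, rfl⟩ := el_surj (FF a) z
  rw [PhiB_phi_el] at hz
  have h1 : aeval X (u ^ 2 - w ^ 2 * FF a) = 0 := by
    rw [map_sub, map_mul, map_pow, map_pow, ← hXY]
    have h2 : aeval X u = - (aeval X w * Y) := eq_neg_of_add_eq_zero_left hz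
    rw [h2]
    ring
  have h2 : u ^ 2 - w ^ 2 * FF a = 0 := by
    by_contra h3
    exact hX ⟨_, h3, h1⟩
  obtain ⟨h3, h4⟩ := par_deg u w (FF a) (by rw [PhiB_deg]; exact ⟨g, rfl⟩) (sub_eq_zero.1 h2)
  rw [h3, h4, el_zero]

private theorem PhiB_aeval {K : Type} [Field K] [Algebra k K] (w : Place k K) (X : K)
    (hX : w.v X ≤ 1) (u : k[X]) : w.v (aeval X u) ≤ 1 := by
  induction u using Polynomial.induction_on' with
  | add p q hp hq =>
    rw [map_add]
    exact w.v.map_add_le hp hq
  | monomial n c =>
    rw [aeval_monomial, map_mul, map_pow]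
    refine mul_le_one' ?_ (pow_le_one' hX n)
    by_cases hc : c = 0
    · rw [hc, map_zero, map_zero]; exact zero_le_one
    · rw [w.triv c hc]

theorem place_class {K : Type} [Field K] [Algebra k K] (hK : IsFunctionField k K) (X Y : K)
    (hX : Transcendental k X) (hXY : Y ^ 2 = aeval X (FF a)) (f : K) (hf : f ≠ 0)
    (val : Place k K → k × k)
    (hval : ∀ w : Place k K, w.v X ≤ 1 →
      w.v (X - algebraMap k K (val w).1) < 1 ∧ w.v (Y - algebraMap k K (val w).2) < 1) :
    {w : Place k K | w.v X ≤ 1 ∧ w.v f ≠ 1}.Finite ∧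
    ∑ᶠ (w : Place k K) (_ : w.v X ≤ 1),
      w.ord f • Additive.ofMul (cls a (val w).1 (val w).2) = 0 := by
  have hF := hXY
  let algRK : Algebra (CR (FF a)) K := (PhiB_phi (FF a) X Y hXY).toAlgebra
  have hmap : ∀ u w : k[X], algebraMap (CR (FF a)) K (el (FF a) u w) = aeval X u + aeval X w * Y :=
    PhiB_phi_el (FF a) X Y hXY
  have hY : ∀ w : Place k K, w.v X ≤ 1 → w.v Y ≤ 1 := by
    intro w hw
    have h1 : w.v Y ^ 2 ≤ 1 := by
      rw [← map_pow, hXY]
      exact PhiB_aeval w X hw _
    by_contra hcon
    push Not at hcon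
    exact absurd h1 (not_le.2 (one_lt_pow₀ hcon two_ne_zero))
  have hle : ∀ w : Place k K, w.v X ≤ 1 → ∀ r : CR (FF a), w.v (algebraMap (CR (FF a)) K r) ≤ 1 := by
    intro w hw r
    obtain ⟨p, q, rfl⟩ := el_surj (FF a) r
    rw [hmap]
    refine w.v.map_add_le (PhiB_aeval w X hw p) ?_
    rw [map_mul]
    exact mul_le_one' (PhiB_aeval w X hw q) (hY w hw)
  refine PhiB_abs (R := CR (FF a)) hK X hX (PhiB_inj a X Y hX hXY) ?_ ?_ hle f hf
    (fun w => cls a (val w).1 (val w).2) ?_
  · intro c
    refine ⟨el (FF a) (C c) 0, ?_⟩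
    rw [hmap, aeval_C, map_zero, zero_mul, add_zero]
  · refine ⟨el (FF a) Polynomial.X 0, ?_⟩
    rw [hmap, aeval_X, map_zero, zero_mul, add_zero]
  · intro w hw I hI
    obtain ⟨h1, h2⟩ := hval w hw
    set x := (val w).1 with hx
    set y := (val w).2 with hy
    have hc1 : ∀ c : k, w.v (algebraMap k K c) < 1 → c = 0 := by
      intro c hc
      by_contra hc0
      rw [w.triv c hc0] at hc
      exact lt_irrefl _ hc
    have e1 : el (FF a) (Polynomial.X - C x) 0 ∈ I := by
      rw [hI, hmap, map_sub, aeval_X, aeval_C, map_zero, zero_mul, add_zero]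
      exact h1
    have e2 : el (FF a) (C (-y)) 1 ∈ I := by
      rw [hI, hmap, aeval_C, map_one, one_mul, map_neg, neg_add_eq_sub]
      exact h2
    -- the point is on the curve
    have hxy : y ^ 2 = (FF a).eval x := by
      have h3 : w.v (algebraMap k K (y ^ 2 - (FF a).eval x)) < 1 := by
        have h4 : algebraMap k K (y ^ 2 - (FF a).eval x) =
            (Y ^ 2 - (Y - algebraMap k K y) * (Y + algebraMap k K y)) - algebraMap k K ((FF a).eval x) := by
          rw [map_sub, map_pow]
          ring
        obtain ⟨q, hq⟩ := Polynomial.X_sub_C_dvd_sub_C_eval (a := x) (p := FF a)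
        have h5 : Y ^ 2 = algebraMap k K ((FF a).eval x) + (X - algebraMap k K x) * aeval X q := by
          have h6 := congrArg (aeval X) hq
          rw [map_sub, map_mul, map_sub, aeval_C, aeval_X, aeval_C, ← hXY] at h6
          rw [← h6]
          ring
        have h7 : algebraMap k K (y ^ 2 - (FF a).eval x) =
            (X - algebraMap k K x) * aeval X q +
              -((Y - algebraMap k K y) * (Y + algebraMap k K y)) := by
          rw [h4, h5]
          ring
        rw [h7]
        apply w.v.map_add_lt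
        · rw [map_mul]
          exact lt_of_le_of_lt (mul_le_of_le_one_right' (PhiB_aeval w X hw q)) h1
        · rw [Valuation.map_neg, map_mul]
          refine lt_of_le_of_lt (mul_le_of_le_one_right' ?_) h2
          refine w.v.map_add_le (hY w hw) ?_
          by_cases hy0 : y = 0
          · rw [hy0, map_zero, map_zero]; exact zero_le_one
          · rw [w.triv y hy0]
      have h8 := hc1 _ h3
      exact sub_eq_zero.1 h8
    have hmax := pI_isMaximal (FF a) hxy
    have hle2 : pI (FF a) x y ≤ I := by
      unfold pI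
      rw [Ideal.span_le]
      rintro z (rfl | hz)
      · exact e1
      · rw [Set.mem_singleton_iff] at hz
        rw [hz]
        exact e2
    have hIt : I ≠ ⊤ := by
      rw [Ideal.ne_top_iff_one, hI, map_one, map_one]
      exact lt_irrefl _
    have hIe : pI (FF a) x y = I := hmax.eq_of_le hIt hle2
    rw [← hIe]
    unfold clI cls
    rw [dif_neg (pI_ne_bot (FF a) x y)]

end HK
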