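import Pool.Agent.H95.HK.GLa

/-!
Module RL (project HK, helper95).  The representation lemma (polynomial part).
PROOFS.
* exists_uw: linear algebra.  Unknowns: u of degree ≤ M + g (M + g + 1 coefficients) and w of degree < M (M coefficients).  Conditions: u(a_i) = 0 for i ∈ I₀
  (g conditions), remainder of u + w pm modulo (X - t) ^ (2 M) is 0 (2 M conditions).  2 M + g + 1 > 2 M + g: there is a nonzero solution
  (e.g. LinearMap.exists_ne_zero... / a linear map from degreeLT (M + g + 1) × degreeLT M to degreeLT (2 M) × (I₀ → K) is not injective,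
  LinearMap.ker_ne_bot_of_finrank_lt; modByMonic is linear).
* rep_lemma.  Let u, w be as in exists_uw.  Let n = u ^ 2 - w ^ 2 F ≠ 0 (par_deg: otherwise u = w = 0).  Scale (u, w) by a constant such that max (gn u) (gn w) = 1 (the
  scaling changes c only).  n = (u + w pm) (u - w pm) + w ^ 2 (pm ^ 2 - F), so (X - t) ^ (2 M) | n; (X - a_i) | n for i ∈ I₀; these are coprime (t is none
  of the a_i: v (t - a_i₀) < 1 = v (a_i₀ - a_i), and t ≠ a_i₀), so n = (X - t) ^ (2 M) * ∏_{I₀} (X - a_i) * T, deg n ≤ 2 M + 2 g, deg T ≤ g.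
  rd n = rd u ^ 2 - rd w ^ 2 rd F ≠ 0 by par_deg, so gn n = 1, gn T = 1 (gn_mul), and rd n = (X - re a_i₀) ^ (2 M) ∏_{I₀} (X - re a_i) rd T is divisible by
  (X - re a_i₀) ^ (2 M + 1): par_ord': (X - re a_i₀) ^ (M + 1) | rd u, (X - re a_i₀) ^ M | rd w, deg (rd w) < M, so rd w = 0 and rd u ^ 2 = rd n.
  (X - re a_i) | rd u for all i ∈ I₀, so (X - re a_i₀) ^ M * ∏_{I₀} (X - re a_i) | rd u, of degree M + g ≥ deg (rd u): equality up to a constant
  c ≠ 0, rd T = c ^ 2 ∏_{I₀} (X - re a_i).  In particular deg T = g, the leading coefficient of T has value 1 (its reduction is c ^ 2),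
  T = C λ * ∏ (X - ρ) (K algebraically closed) with v ρ ≤ 1 (T has integral coefficients and a unit as leading coefficient; gn_mul: 1 = gn T = v λ ∏ max 1 (v ρ)).
  For i ∈ I₀ rd T vanishes at re a_i, so some root t' i of T has the reduction re a_i; these are different for different i (the re a_i are), so they
  are all the g roots: T = C λ * ∏_{I₀} (X - t' i).
-/

namespace HK

open Polynomial

variable {K : Type*} [Field K] {g : ℕ} (a : Fin (2 * g + 1) → K)

theorem exists_uw (I₀ : Finset (Fin (2 * g + 1))) (hI₀ : I₀.card = g) (t : K) (pm : K[X]) (M : ℕ) :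
    ∃ u w : K[X], (u ≠ 0 ∨ w ≠ 0) ∧ u.natDegree ≤ M + g ∧ (w = 0 ∨ w.natDegree < M) ∧
      (∀ i ∈ I₀, u.eval (a i) = 0) ∧ (X - C t) ^ (2 * M) ∣ u + w * pm := by
  classical
  set q : K[X] := (X - C t) ^ (2 * M) with hq
  have hqm : q.Monic := (monic_X_sub_C t).pow _
  let P1 : (Fin (M + g + 1) → K) →ₗ[K] K[X] :=
    (degreeLT K (M + g + 1)).subtype ∘ₗ (degreeLTEquiv K (M + g + 1)).symm.toLinearMap
  let P2 : (Fin M → K) →ₗ[K] K[X] :=
    (degreeLT K M).subtype ∘ₗ (degreeLTEquiv K M).symm.toLinearMap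
  let L1 : (Fin (M + g + 1) → K) × (Fin M → K) →ₗ[K] K[X] :=
    LinearMap.coprod P1 (LinearMap.mulRight K pm ∘ₗ P2)
  let A : (Fin (M + g + 1) → K) × (Fin M → K) →ₗ[K] (Fin (2 * M) → K) :=
    LinearMap.pi (fun i : Fin (2 * M) => lcoeff K (i : ℕ) ∘ₗ modByMonicHom q ∘ₗ L1)
  let B : (Fin (M + g + 1) → K) × (Fin M → K) →ₗ[K] (I₀ → K) :=
    LinearMap.pi (fun i : I₀ => leval (a i) ∘ₗ P1 ∘ₗ LinearMap.fst K _ _)
  let Φ := A.prod B
  have hker : LinearMap.ker Φ ≠ ⊥ := by
    apply LinearMap.ker_ne_bot_of_finrank_lt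
    simp only [Module.finrank_prod, Module.finrank_fintype_fun_eq_card, Fintype.card_fin,
      Fintype.card_coe, hI₀]
    omega
  obtain ⟨x, hx, hx0⟩ := Submodule.exists_mem_ne_zero_of_ne_bot hker
  have hP1 : ∀ y, P1 y = 0 → y = 0 := by
    intro y hy
    have : ((degreeLTEquiv K (M + g + 1)).symm y) = 0 := Subtype.ext hy
    simpa using this
  have hP2 : ∀ y, P2 y = 0 → y = 0 := by
    intro y hy
    have : ((degreeLTEquiv K M).symm y) = 0 := Subtype.ext hy
    simpa using this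
  have hd1 : (P1 x.1).degree < ((M + g + 1 : ℕ) : WithBot ℕ) :=
    mem_degreeLT.1 ((degreeLTEquiv K (M + g + 1)).symm x.1).2
  have hd2 : (P2 x.2).degree < ((M : ℕ) : WithBot ℕ) :=
    mem_degreeLT.1 ((degreeLTEquiv K M).symm x.2).2
  have hΦ : A x = 0 ∧ B x = 0 := by
    have := LinearMap.mem_ker.1 hx
    exact Prod.mk.inj this
  refine ⟨P1 x.1, P2 x.2, ?_, ?_, ?_, ?_, ?_⟩
  · by_contra hcon
    push Not at hcon
    exact hx0 (Prod.ext (hP1 _ hcon.1) (hP2 _ hcon.2))
  · by_cases h0 : P1 x.1 = 0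
    · rw [h0]
      simp
    · have := (natDegree_lt_iff_degree_lt h0).2 hd1
      omega
  · by_cases h0 : P2 x.2 = 0
    · exact Or.inl h0
    · exact Or.inr ((natDegree_lt_iff_degree_lt h0).2 hd2)
  · intro i hi
    exact congrFun hΦ.2 ⟨i, hi⟩
  · have hL : L1 x = P1 x.1 + P2 x.2 * pm := by
      simp [L1, LinearMap.coprod_apply]
    rw [← hL, ← modByMonic_eq_zero_iff_dvd hqm]
    ext i
    by_cases hi : i < 2 * M
    · exact congrFun hΦ.1 ⟨i, hi⟩
    · rw [coeff_zero]
      apply coeff_eq_zero_of_degree_lt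
      refine lt_of_lt_of_le (degree_modByMonic_lt _ hqm) ?_
      rw [hq, degree_pow, degree_X_sub_C]
      simp only [nsmul_eq_mul, mul_one]
      exact_mod_cast not_lt.1 hi

private theorem RL_roots [IsAlgClosed K] {Γ : Type*} [LinearOrderedCommGroupWithZero Γ]
    (v : Valuation K Γ) (n : ℕ) : ∀ T : K[X], T.natDegree = n → gn v T ≤ 1 →
    v T.leadingCoeff = 1 → ∃ S : Multiset K, S.card = n ∧ (∀ r ∈ S, v r ≤ 1) ∧
      T = C T.leadingCoeff * (S.map (fun r => X - C r)).prod := by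
  induction n with
  | zero =>
    intro T hT _ _
    refine ⟨0, rfl, by simp, ?_⟩
    rw [Multiset.map_zero, Multiset.prod_zero, mul_one, leadingCoeff, hT]
    exact eq_C_of_natDegree_eq_zero hT
  | succ n ih =>
    intro T hT hg hl
    have hT0 : T ≠ 0 := by
      rintro rfl
      simp at hT
    obtain ⟨r, hr⟩ := IsAlgClosed.exists_root T (by
      rw [degree_eq_natDegree hT0, hT]
      exact_mod_cast Nat.succ_ne_zero n)
    obtain ⟨T', hT'⟩ := dvd_iff_isRoot.2 hr
    have hT'0 : T' ≠ 0 := by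
      rintro rfl
      simp at hT'
      exact hT0 hT'
    have hlead : T.leadingCoeff = T'.leadingCoeff := by
      rw [hT', leadingCoeff_mul, (monic_X_sub_C r).leadingCoeff, one_mul]
    have hdeg : T'.natDegree = n := by
      have : T.natDegree = 1 + T'.natDegree := by
        rw [hT', natDegree_mul (X_sub_C_ne_zero r) hT'0, natDegree_X_sub_C]
      omega
    have h1 : 1 ≤ gn v T' := by
      rw [← hl, hlead]
      exact le_gn v T' _
    have hgT : gn v T = gn v (X - C r) * gn v T' := by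
      conv_lhs => rw [hT']
      exact gn_mul v _ _
    have hvr : v r ≤ gn v (X - C r) := by
      have := le_gn v (X - C r) 0
      simpa using this
    have h1' : 1 ≤ gn v (X - C r) := by
      have := le_gn v (X - C r) 1
      simpa [coeff_X, coeff_C] using this
    have hr1 : v r ≤ 1 := by
      calc v r = v r * 1 := (mul_one _).symm
        _ ≤ gn v (X - C r) * gn v T' := mul_le_mul' hvr h1
        _ = gn v T := hgT.symm
        _ ≤ 1 := hg
    have hg' : gn v T' ≤ 1 := by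
      calc gn v T' = 1 * gn v T' := (one_mul _).symm
        _ ≤ gn v (X - C r) * gn v T' := mul_le_mul' h1' le_rfl
        _ = gn v T := hgT.symm
        _ ≤ 1 := hg
    obtain ⟨S, hS1, hS2, hS3⟩ := ih T' hdeg hg' (by rw [← hlead]; exact hl)
    refine ⟨r ::ₘ S, by rw [Multiset.card_cons, hS1], ?_, ?_⟩
    · intro x hx
      rcases Multiset.mem_cons.1 hx with rfl | hx
      · exact hr1
      · exact hS2 x hx
    · rw [Multiset.map_cons, Multiset.prod_cons, mul_left_comm, hlead, ← hS3]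
      exact hT'

private theorem RL_rdS {Γ : Type*} [LinearOrderedCommGroupWithZero Γ]
    (v : Valuation K Γ) (S : Multiset K) (hS : ∀ r ∈ S, v r ≤ 1) :
    gn v (S.map (fun r => X - C r)).prod = 1 ∧
    rd v (S.map (fun r => X - C r)).prod = (S.map (fun r => X - C (re v r))).prod := by
  induction S using Multiset.induction_on with
  | empty =>
    rw [Multiset.map_zero, Multiset.prod_zero, Multiset.map_zero, Multiset.prod_zero]
    refine ⟨gn_one v, ?_⟩
    have := rd_prod v (∅ : Finset ℕ) (fun _ => (1 : K[X])) (by simp)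
    simpa using this
  | cons r S ih =>
    obtain ⟨h1, h2⟩ := ih (fun x hx => hS x (Multiset.mem_cons_of_mem hx))
    have hr : v r ≤ 1 := hS r (Multiset.mem_cons_self r S)
    rw [Multiset.map_cons, Multiset.prod_cons, Multiset.map_cons, Multiset.prod_cons]
    refine ⟨?_, ?_⟩
    · rw [gn_mul, h1, gn_X_sub_C v hr, one_mul]
    · rw [rd_mul v (gn_X_sub_C v hr).le h1.le, h2, rd_X_sub_C v hr]

private theorem RL_core [IsAlgClosed K] {Γ : Type*} [LinearOrderedCommGroupWithZero Γ]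
    (v : Valuation K Γ)
    (ha : ∀ i, v (a i) ≤ 1) (hd : ∀ i j, i ≠ j → v (a i - a j) = 1)
    (I₀ : Finset (Fin (2 * g + 1))) (hI₀ : I₀.card = g) (T : K[X]) (hT : gn v T ≤ 1)
    (hTg : T.natDegree ≤ g) (c' : RF v) (hc' : c' ≠ 0)
    (hrd : rd v T = C c' * ∏ i ∈ I₀, (X - C (re v (a i)))) :
    ∃ (c : K) (t' : Fin (2 * g + 1) → K), c ≠ 0 ∧ T = C c * ∏ i ∈ I₀, (X - C (t' i)) ∧
      ∀ i ∈ I₀, v (t' i - a i) < 1 := by
  classical
  have hmon : (∏ i ∈ I₀, (X - C (re v (a i)))).Monic :=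
    monic_prod_of_monic _ _ (fun i _ => monic_X_sub_C _)
  have hdegP : (∏ i ∈ I₀, (X - C (re v (a i)))).natDegree = g := by
    rw [natDegree_prod_of_monic _ _ (fun i _ => monic_X_sub_C _)]
    simp [hI₀]
  have hdeg : T.natDegree = g := by
    apply le_antisymm hTg
    have h1 := rd_natDegree_le v T
    rw [hrd, natDegree_C_mul hc', hdegP] at h1
    exact h1
  have hcoef : re v (T.coeff g) = c' := by
    rw [← rd_coeff v hT g, hrd, coeff_C_mul]
    have : (∏ i ∈ I₀, (X - C (re v (a i)))).coeff g = 1 := by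
      have := hmon.coeff_natDegree
      rwa [hdegP] at this
    rw [this, mul_one]
  have hle : v (T.coeff g) ≤ 1 := (le_gn v T g).trans hT
  have hl : v T.leadingCoeff = 1 := by
    rw [leadingCoeff, hdeg]
    apply le_antisymm hle
    by_contra hcon
    apply hc'
    rw [← hcoef]
    exact (re_eq_zero v hle).2 (not_le.1 hcon)
  obtain ⟨S, hS1, hS2, hS3⟩ := RL_roots v g T hdeg hT hl
  obtain ⟨hg1, hr1⟩ := RL_rdS v S hS2
  have hrd2 : rd v T = C (re v T.leadingCoeff) * (S.map (fun r => X - C (re v r))).prod := by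
    conv_lhs => rw [hS3]
    rw [rd_mul v (by rw [gn_C]; exact hl.le) hg1.le, rd_C v hl.le, hr1]
  have hcl : re v T.leadingCoeff ≠ 0 := by
    rw [leadingCoeff, hdeg, hcoef]
    exact hc'
  have hex : ∀ i : Fin (2 * g + 1), ∃ r : K, i ∈ I₀ → (r ∈ S ∧ v (r - a i) < 1) := by
    intro i
    by_cases hi : i ∈ I₀
    · have hev : (rd v T).eval (re v (a i)) = 0 := by
        rw [hrd, eval_mul, eval_prod, Finset.prod_eq_zero hi (by simp), mul_zero]
      rw [hrd2, eval_mul, eval_C, eval_multiset_prod, Multiset.map_map] at hev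
      have h0 := (mul_eq_zero.1 hev).resolve_left hcl
      rw [Multiset.prod_eq_zero_iff, Multiset.mem_map] at h0
      obtain ⟨r, hrS, hr⟩ := h0
      refine ⟨r, fun _ => ⟨hrS, ?_⟩⟩
      simp only [Function.comp, eval_sub, eval_X, eval_C] at hr
      exact (re_eq_iff v (hS2 r hrS) (ha i)).1 (sub_eq_zero.1 hr).symm
    · exact ⟨0, fun h => absurd h hi⟩
  choose t' ht' using hex
  have hinj : Set.InjOn t' I₀ := by
    intro i hi j hj hij
    by_contra hne
    have h1 := (ht' i hi).2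
    have h2 := (ht' j hj).2
    have h3 : v (a i - a j) < 1 := by
      have : a i - a j = (t' j - a j) - (t' i - a i) := by
        rw [hij]
        ring
      rw [this]
      exact Valuation.map_sub_lt v h2 h1
    rw [hd i j hne] at h3
    exact lt_irrefl _ h3
  have hSeq : I₀.val.map t' = S := by
    apply Multiset.eq_of_le_of_card_le
    · rw [Multiset.le_iff_subset (Multiset.Nodup.map_on (fun i hi j hj h => hinj hi hj h) I₀.nodup)]
      intro x hx
      obtain ⟨i, hi, rfl⟩ := Multiset.mem_map.1 hx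
      exact (ht' i hi).1
    · rw [Multiset.card_map, hS1]
      exact hI₀.symm.le
  refine ⟨T.leadingCoeff, t', ?_, ?_, fun i hi => (ht' i hi).2⟩
  · intro h0
    rw [h0, map_zero] at hl
    exact zero_ne_one hl
  · conv_lhs => rw [hS3, ← hSeq]
    rw [Multiset.map_map]
    rfl

private theorem RL_uw1 {Γ : Type*} [LinearOrderedCommGroupWithZero Γ]
    (v : Valuation K Γ) (I₀ : Finset (Fin (2 * g + 1))) (t : K) (pm : K[X]) (M : ℕ)
    (h : ∃ u w : K[X], (u ≠ 0 ∨ w ≠ 0) ∧ u.natDegree ≤ M + g ∧ (w = 0 ∨ w.natDegree < M) ∧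
      (∀ i ∈ I₀, u.eval (a i) = 0) ∧ (X - C t) ^ (2 * M) ∣ u + w * pm) :
    ∃ u w : K[X], (gn v u = 1 ∨ gn v w = 1) ∧ gn v u ≤ 1 ∧ gn v w ≤ 1 ∧
      u.natDegree ≤ M + g ∧ (w = 0 ∨ w.natDegree < M) ∧
      (∀ i ∈ I₀, u.eval (a i) = 0) ∧ (X - C t) ^ (2 * M) ∣ u + w * pm := by
  obtain ⟨u, w, h0, h1, h2, h3, h4⟩ := h
  have hex : ∃ c : K, c ≠ 0 ∧ gn v u ≤ v c ∧ gn v w ≤ v c ∧ (gn v u = v c ∨ gn v w = v c) := by
    rcases le_total (gn v u) (gn v w) with hle | hle
    · obtain ⟨i, hi⟩ := exists_gn v w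
      refine ⟨w.coeff i, ?_, ?_, ?_, Or.inr hi.symm⟩
      · intro hc
        rw [hc, map_zero] at hi
        have hw : w = 0 := (gn_eq_zero v).1 hi.symm
        rw [← hi, le_zero_iff] at hle
        have hu : u = 0 := (gn_eq_zero v).1 hle
        rcases h0 with h0 | h0
        · exact h0 hu
        · exact h0 hw
      · rw [hi]
        exact hle
      · rw [hi]
    · obtain ⟨i, hi⟩ := exists_gn v u
      refine ⟨u.coeff i, ?_, ?_, ?_, Or.inl hi.symm⟩
      · intro hc
        rw [hc, map_zero] at hi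
        have hu : u = 0 := (gn_eq_zero v).1 hi.symm
        rw [← hi, le_zero_iff] at hle
        have hw : w = 0 := (gn_eq_zero v).1 hle
        rcases h0 with h0 | h0
        · exact h0 hu
        · exact h0 hw
      · rw [hi]
      · rw [hi]
        exact hle
  obtain ⟨c, hc0, hcu, hcw, hc⟩ := hex
  have hvc : v c ≠ 0 := (Valuation.ne_zero_iff v).2 hc0
  have hci : c⁻¹ ≠ 0 := inv_ne_zero hc0
  have hgn : ∀ p : K[X], gn v (C c⁻¹ * p) = (v c)⁻¹ * gn v p := by
    intro p
    rw [gn_mul, gn_C, map_inv₀]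
  refine ⟨C c⁻¹ * u, C c⁻¹ * w, ?_, ?_, ?_, ?_, ?_, ?_, ?_⟩
  · rcases hc with hc | hc
    · left
      rw [hgn, hc, inv_mul_cancel₀ hvc]
    · right
      rw [hgn, hc, inv_mul_cancel₀ hvc]
  · rw [hgn]
    calc (v c)⁻¹ * gn v u ≤ (v c)⁻¹ * v c := mul_le_mul' le_rfl hcu
      _ = 1 := inv_mul_cancel₀ hvc
  · rw [hgn]
    calc (v c)⁻¹ * gn v w ≤ (v c)⁻¹ * v c := mul_le_mul' le_rfl hcw
      _ = 1 := inv_mul_cancel₀ hvc
  · rw [natDegree_C_mul hci]
    exact h1
  · rcases h2 with h2 | h2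
    · left
      rw [h2, mul_zero]
    · right
      rw [natDegree_C_mul hci]
      exact h2
  · intro i hi
    rw [eval_mul, h3 i hi, mul_zero]
  · have : C c⁻¹ * u + C c⁻¹ * w * pm = (u + w * pm) * C c⁻¹ := by ring
    rw [this]
    exact Dvd.dvd.mul_right h4 _

theorem rep_lemma [IsAlgClosed K] {Γ : Type*} [LinearOrderedCommGroupWithZero Γ] (v : Valuation K Γ)
    (ha : ∀ i, v (a i) ≤ 1) (hd : ∀ i j, i ≠ j → v (a i - a j) = 1)
    (I₀ : Finset (Fin (2 * g + 1))) (hI₀ : I₀.card = g) (i₀ : Fin (2 * g + 1)) (hi₀ : i₀ ∈ I₀)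
    (t : K) (ht : v (t - a i₀) < 1) (hne : t ≠ a i₀) (M : ℕ) (pm : K[X])
    (hpm : (X - C t) ^ (2 * M) ∣ FF a - pm ^ 2) :
    ∃ (u w : K[X]) (c : K) (t' : Fin (2 * g + 1) → K), c ≠ 0 ∧
      (X - C t) ^ (2 * M) ∣ u + w * pm ∧
      u ^ 2 - w ^ 2 * FF a =
        C c * (X - C t) ^ (2 * M) * (∏ i ∈ I₀, (X - C (a i))) * ∏ i ∈ I₀, (X - C (t' i)) ∧
      (∀ i ∈ I₀, u.eval (a i) = 0) ∧ ∀ i ∈ I₀, v (t' i - a i) < 1 := by
  classical
  obtain ⟨u, w, hgn, hgu, hgw, hdu, hdw, hev, hdvd⟩ := RL_uw1 a v I₀ t pm M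
    (exists_uw a I₀ hI₀ t pm M)
  have hvt : v t ≤ 1 := by
    have : t = (t - a i₀) + a i₀ := by ring
    rw [this]
    exact Valuation.map_add_le v ht.le (ha i₀)
  have hinj : ∀ i j, i ≠ j → a i ≠ a j := by
    intro i j hij h
    have := hd i j hij
    rw [h, sub_self, map_zero] at this
    exact zero_ne_one this
  have hreinj : ∀ i j, i ≠ j → re v (a i) ≠ re v (a j) := by
    intro i j hij h
    have h1 := (re_eq_iff v (ha i) (ha j)).1 h
    rw [hd i j hij] at h1
    exact lt_irrefl _ h1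
  have hta : ∀ i, t ≠ a i := by
    intro i hi
    by_cases hii : i = i₀
    · exact hne (hii ▸ hi)
    · rw [hi, hd i i₀ hii] at ht
      exact lt_irrefl _ ht
  have hret : re v t = re v (a i₀) := (re_eq_iff v hvt (ha i₀)).2 ht
  -- the polynomial F
  have hFF : FF a = ∏ i, (X - C (a i)) := rfl
  have hFdvd : ∀ i, (X - C (a i)) ∣ FF a := by
    intro i
    rw [hFF]
    exact Finset.dvd_prod_of_mem _ (Finset.mem_univ i)
  have hFdeg : (FF a).natDegree = 2 * g + 1 := by
    rw [hFF, natDegree_prod_of_monic _ _ (fun i _ => monic_X_sub_C _)]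
    simp
  have hFg : gn v (FF a) = 1 := by
    rw [hFF, gn_prod]
    exact Finset.prod_eq_one (fun i _ => gn_X_sub_C v (ha i))
  have hrF : rd v (FF a) = ∏ i, (X - C (re v (a i))) := by
    rw [hFF, rd_prod v _ _ (fun i _ => (gn_X_sub_C v (ha i)).le)]
    exact Finset.prod_congr rfl (fun i _ => rd_X_sub_C v (ha i))
  have hrFdeg : (rd v (FF a)).natDegree = 2 * g + 1 := by
    rw [hrF, natDegree_prod_of_monic _ _ (fun i _ => monic_X_sub_C _)]
    simp
  -- the norm
  set n : K[X] := u ^ 2 - w ^ 2 * FF a with hn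
  have hu0 : u ≠ 0 ∨ w ≠ 0 := by
    rcases hgn with h | h
    · left
      rintro rfl
      rw [gn_zero] at h
      exact zero_ne_one h
    · right
      rintro rfl
      rw [gn_zero] at h
      exact zero_ne_one h
  have hn0 : n ≠ 0 := by
    intro h
    have h1 : u ^ 2 = w ^ 2 * FF a := sub_eq_zero.1 h
    obtain ⟨h2, h3⟩ := par_deg u w (FF a) (by rw [hFdeg]; exact odd_two_mul_add_one g) h1
    rcases hu0 with h4 | h4
    · exact h4 h2
    · exact h4 h3
  have hgu2 : gn v (u ^ 2) ≤ 1 := by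
    rw [gn_pow]
    exact pow_le_one' hgu 2
  have hgw2 : gn v (w ^ 2) ≤ 1 := by
    rw [gn_pow]
    exact pow_le_one' hgw 2
  have hgwF : gn v (w ^ 2 * FF a) ≤ 1 := by
    rw [gn_mul, hFg, mul_one]
    exact hgw2
  have hgn1 : gn v n ≤ 1 := (gn_sub_le v _ _).trans (max_le hgu2 hgwF)
  have hrn : rd v n = rd v u ^ 2 - rd v w ^ 2 * rd v (FF a) := by
    rw [hn, rd_sub v hgu2 hgwF, rd_pow v hgu, rd_mul v hgw2 hFg.le, rd_pow v hgw]
  have hrn0 : rd v n ≠ 0 := by
    intro h
    rw [hrn] at h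
    obtain ⟨h2, h3⟩ := par_deg _ _ _ (by rw [hrFdeg]; exact odd_two_mul_add_one g)
      (sub_eq_zero.1 h)
    rcases hgn with h4 | h4
    · have := (rd_eq_zero v hgu).1 h2
      rw [h4] at this
      exact lt_irrefl _ this
    · have := (rd_eq_zero v hgw).1 h3
      rw [h4] at this
      exact lt_irrefl _ this
  have hgnn : gn v n = 1 := by
    apply le_antisymm hgn1
    by_contra hcon
    exact hrn0 ((rd_eq_zero v hgn1).2 (not_le.1 hcon))
  -- the divisor P
  have hP1 : (X - C t) ^ (2 * M) ∣ n := by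
    have : n = (u + w * pm) * (u - w * pm) - w ^ 2 * (FF a - pm ^ 2) := by
      rw [hn]
      ring
    rw [this]
    exact dvd_sub (Dvd.dvd.mul_right hdvd _) (Dvd.dvd.mul_left hpm _)
  have hP2 : (∏ i ∈ I₀, (X - C (a i))) ∣ n := by
    apply Finset.prod_dvd_of_coprime
    · intro i _ j _ hij
      exact isCoprime_X_sub_C_of_isUnit_sub (sub_ne_zero.2 (hinj i j hij)).isUnit
    · intro i hi
      have h1 : (X - C (a i)) ∣ u := dvd_iff_isRoot.2 (hev i hi)
      rw [hn]
      exact dvd_sub (dvd_pow h1 two_ne_zero) (Dvd.dvd.mul_left (hFdvd i) _)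
  have hcop : IsCoprime ((X - C t) ^ (2 * M)) (∏ i ∈ I₀, (X - C (a i))) := by
    apply IsCoprime.pow_left
    apply IsCoprime.prod_right
    intro i _
    exact isCoprime_X_sub_C_of_isUnit_sub (sub_ne_zero.2 (hta i)).isUnit
  obtain ⟨T, hT⟩ := hcop.mul_dvd hP1 hP2
  set P : K[X] := (X - C t) ^ (2 * M) * ∏ i ∈ I₀, (X - C (a i)) with hP
  have hPmon : P.Monic :=
    ((monic_X_sub_C t).pow _).mul (monic_prod_of_monic _ _ (fun i _ => monic_X_sub_C _))
  have hPdeg : P.natDegree = 2 * M + g := by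
    rw [hP, Monic.natDegree_mul ((monic_X_sub_C t).pow _)
      (monic_prod_of_monic _ _ (fun i _ => monic_X_sub_C _)),
      natDegree_prod_of_monic _ _ (fun i _ => monic_X_sub_C _), natDegree_pow]
    simp [hI₀]
  have hT0 : T ≠ 0 := by
    rintro rfl
    rw [mul_zero] at hT
    exact hn0 hT
  have hndeg : n.natDegree ≤ 2 * M + 2 * g := by
    rw [hn]
    refine (natDegree_sub_le _ _).trans (max_le ?_ ?_)
    · rw [natDegree_pow]
      omega
    · rcases hdw with h | h
      · rw [h]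
        simp
      · refine (natDegree_mul_le).trans ?_
        rw [natDegree_pow, hFdeg]
        omega
  have hTdeg : T.natDegree ≤ g := by
    have h1 : n.natDegree = P.natDegree + T.natDegree := by
      rw [hT, natDegree_mul hPmon.ne_zero hT0]
    omega
  have hgP : gn v P = 1 := by
    rw [hP, gn_mul, gn_pow, gn_X_sub_C v hvt, one_pow, one_mul, gn_prod]
    exact Finset.prod_eq_one (fun i _ => gn_X_sub_C v (ha i))
  have hgT : gn v T = 1 := by
    have : gn v n = gn v P * gn v T := by rw [hT, gn_mul]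
    rw [hgnn, hgP, one_mul] at this
    exact this.symm
  -- reductions
  set c0 : RF v := re v (a i₀) with hc0
  have hrP : rd v P = (X - C c0) ^ (2 * M) * ∏ i ∈ I₀, (X - C (re v (a i))) := by
    rw [hP, rd_mul v (by rw [gn_pow, gn_X_sub_C v hvt, one_pow]) (by
      rw [gn_prod]
      exact (Finset.prod_eq_one (fun i _ => gn_X_sub_C v (ha i))).le),
      rd_pow v (gn_X_sub_C v hvt).le, rd_X_sub_C v hvt, hret,
      rd_prod v _ _ (fun i _ => (gn_X_sub_C v (ha i)).le)]
    congr 1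
    exact Finset.prod_congr rfl (fun i _ => rd_X_sub_C v (ha i))
  have hrnT : rd v n = rd v P * rd v T := by
    rw [hT, rd_mul v hgP.le hgT.le]
  set Q0 : (RF v)[X] := ∏ i ∈ I₀, (X - C (re v (a i))) with hQ0
  have hQ0i : ∀ i ∈ I₀, (X - C (re v (a i))) ∣ Q0 := by
    intro i hi
    rw [hQ0]
    exact Finset.dvd_prod_of_mem _ hi
  have hQ0mon : Q0.Monic := monic_prod_of_monic _ _ (fun i _ => monic_X_sub_C _)
  have hQ0deg : Q0.natDegree = g := by
    rw [hQ0, natDegree_prod_of_monic _ _ (fun i _ => monic_X_sub_C _)]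
    simp [hI₀]
  have hbig : (X - C c0) ^ (2 * M + 1) ∣ rd v n := by
    rw [hrnT, hrP, pow_succ]
    exact Dvd.dvd.mul_right (mul_dvd_mul_left _ (hQ0i i₀ hi₀)) _
  have hFfac : rd v (FF a) = (X - C c0) * ∏ i ∈ Finset.univ.erase i₀, (X - C (re v (a i))) := by
    rw [hrF, hc0]
    exact (Finset.mul_prod_erase Finset.univ (fun i => X - C (re v (a i)))
      (Finset.mem_univ i₀)).symm
  have hGne : (∏ i ∈ Finset.univ.erase i₀, (X - C (re v (a i)))).eval c0 ≠ 0 := by
    rw [eval_prod]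
    apply Finset.prod_ne_zero_iff.2
    intro i hi
    rw [eval_sub, eval_X, eval_C, sub_ne_zero]
    exact hreinj i₀ i (Finset.ne_of_mem_erase hi).symm
  obtain ⟨hru, hrw⟩ := par_ord' c0 (rd v u) (rd v w) _ hGne M (by
    rw [← hFfac, ← hrn]
    exact hbig)
  have hrw0 : rd v w = 0 := by
    by_contra hcon
    have h1 : ((X - C c0) ^ M).natDegree ≤ (rd v w).natDegree := natDegree_le_of_dvd hrw hcon
    rw [natDegree_pow, natDegree_X_sub_C, mul_one] at h1
    rcases hdw with h | h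
    · apply hcon
      rw [h]
      exact (rd_eq_zero v (by rw [gn_zero]; exact zero_le_one)).2 (by
        rw [gn_zero]
        exact zero_lt_one)
    · have := rd_natDegree_le v w
      omega
  have hrnu : rd v n = rd v u ^ 2 := by
    rw [hrn, hrw0]
    ring
  have hru0 : rd v u ≠ 0 := by
    intro h
    apply hrn0
    rw [hrnu, h]
    ring
  have hdiv : (X - C c0) ^ (M + 1) * ∏ i ∈ I₀.erase i₀, (X - C (re v (a i))) ∣ rd v u := by
    apply IsCoprime.mul_dvd
    · apply IsCoprime.pow_left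
      apply IsCoprime.prod_right
      intro i hi
      exact isCoprime_X_sub_C_of_isUnit_sub
        (sub_ne_zero.2 (hreinj i₀ i (Finset.ne_of_mem_erase hi).symm)).isUnit
    · exact hru
    · apply Finset.prod_dvd_of_coprime
      · intro i _ j _ hij
        exact isCoprime_X_sub_C_of_isUnit_sub (sub_ne_zero.2 (hreinj i j hij)).isUnit
      · intro i hi
        apply (prime_X_sub_C (re v (a i))).dvd_of_dvd_pow (n := 2)
        rw [← hrnu, hrnT, hrP]
        exact Dvd.dvd.mul_right (Dvd.dvd.mul_left (hQ0i i (Finset.mem_of_mem_erase hi)) _) _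
  have hdiv2 : (X - C c0) ^ M * Q0 ∣ rd v u := by
    have h1 : Q0 = (X - C c0) * ∏ i ∈ I₀.erase i₀, (X - C (re v (a i))) := by
      rw [hQ0, hc0]
      exact (Finset.mul_prod_erase I₀ (fun i => X - C (re v (a i))) hi₀).symm
    rw [h1, ← mul_assoc, ← pow_succ]
    exact hdiv
  obtain ⟨V, hV⟩ := hdiv2
  have hV0 : V ≠ 0 := by
    rintro rfl
    rw [mul_zero] at hV
    exact hru0 hV
  have hmon2 : ((X - C c0) ^ M * Q0).Monic := ((monic_X_sub_C c0).pow _).mul hQ0mon
  have hVdeg : V.natDegree = 0 := by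
    have h1 : (rd v u).natDegree = ((X - C c0) ^ M * Q0).natDegree + V.natDegree := by
      rw [hV, natDegree_mul hmon2.ne_zero hV0]
    have h2 : ((X - C c0) ^ M * Q0).natDegree = M + g := by
      rw [Monic.natDegree_mul ((monic_X_sub_C c0).pow _) hQ0mon, hQ0deg, natDegree_pow,
        natDegree_X_sub_C, mul_one]
    have h3 := rd_natDegree_le v u
    omega
  obtain ⟨c1, hc1⟩ : ∃ c1 : RF v, V = C c1 := ⟨_, eq_C_of_natDegree_eq_zero hVdeg⟩
  have hc10 : c1 ≠ 0 := by
    rintro rfl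
    apply hV0
    rw [hc1, C_0]
  have hrT : rd v T = C (c1 ^ 2) * Q0 := by
    have h1 : (X - C c0) ^ (2 * M) * Q0 * rd v T
        = (X - C c0) ^ (2 * M) * Q0 * (C (c1 ^ 2) * Q0) := by
      rw [← hrP, ← hrnT, hrnu, hV, hrP, hc1, C_pow]
      ring
    exact mul_left_cancel₀ (((monic_X_sub_C c0).pow _).mul hQ0mon).ne_zero h1
  obtain ⟨c, t', hcne, hTeq, ht'⟩ := RL_core a v ha hd I₀ hI₀ T hgT.le hTdeg (c1 ^ 2)
    (pow_ne_zero 2 hc10) hrT
  refine ⟨u, w, c, t', hcne, hdvd, ?_, hev, ht'⟩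
  rw [← hn, hT, hTeq, hP]
  ring

end HK
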