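import Pool.Agent.H95.HK.CRc
import Pool.Agent.H95.HK.RL
import Pool.Agent.H95.HK.GLc

/-!
Module TA (project HK, helper95).  Representation of 2 M [P] by points near Weierstrass points; principal powers.
PROOFS.
* rep_class.  exists_pm for the point (t, - y₀) and the exponent 2 M: pm; rep_lemma: u, w, c, t'.  Let f = el u w ≠ 0, S as in `fact`: S.map fst =
  roots of n = 2 M • {t} + {a_i}_{I₀} + {t'_i}_{I₀}.  pow_mem: f ∈ pI t (-y₀) ^ (2 M), i.e. span {f} ≤ pI t (-y₀) ^ (2 M), so by fact_unique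
  2 M • {(t, -y₀)} ≤ S, S = 2 M • {(t, -y₀)} + S', S'.map fst = {a_i} + {t'_i} (indexed by I₀).  Choose a bijection: S' = {(a_i, b_i)} + {(t'_i, y'_i)}; b_i ^ 2 = F(a_i) = 0,
  so b_i = 0.  The product of the classes over S is 1 (cls_prod_eq_one_iff).
* coprime_of_principal.  S = Σ_{i ∈ I} m • {(t_i, y_i)}, span {el u w} = ∏ pI: by `fact` and fact_unique (both directions) (u ^ 2 - w ^ 2 F).roots = Σ_{i ∈ I} m • {t_i}, so
  u ^ 2 - w ^ 2 F = C c * ∏ (X - t_i) ^ m (K algebraically closed, c ≠ 0); replace (u, w) by (u, w) / √c.  If u, w are not coprime they have a common root x₀; then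
  el (X - x₀) 0 divides el u w, so pI x₀ y * pI x₀ (-y) (y ^ 2 = F(x₀)) contains the principal ideal and by fact_unique {(x₀, y), (x₀, -y)} ≤ S; so x₀ = t_i = t_j,
  i = j (the re t_i = re a_i are different: v (t_i - t_j) = 1), y = - y = 0, F(t_i) = 0, t_i = a_k, k = i (v (t_i - a_k) = 1 for k ≠ i), contradiction to t_i ≠ a_i.
-/

namespace HK

open Polynomial

variable {K : Type*} [Field K] [IsAlgClosed K] [CharZero K] {g : ℕ} (a : Fin (2 * g + 1) → K)
  [Fact (Function.Injective a)] {Γ : Type*} [LinearOrderedCommGroupWithZero Γ] (v : Valuation K Γ)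

omit [IsAlgClosed K] [CharZero K] in
/-- choose second coordinates -/
private theorem ta_split {ι : Type*} [DecidableEq ι] (f : ι → K) (I : Finset ι) :
    ∀ (S : Multiset (K × K)) (R : Multiset K), S.map Prod.fst = R + I.val.map f →
      ∃ (b : ι → K) (S' : Multiset (K × K)), S = S' + I.val.map (fun i => (f i, b i)) ∧
        S'.map Prod.fst = R := by
  classical
  induction I using Finset.induction_on with
  | empty =>
    intro S R h
    exact ⟨fun _ => 0, S, by simp, by simpa using h⟩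
  | insert i I hi ih =>
    intro S R h
    rw [Finset.insert_val_of_notMem hi, Multiset.map_cons] at h
    obtain ⟨b, S', hS, hS'⟩ := ih S (f i ::ₘ R) (by rw [h, Multiset.cons_add, Multiset.add_cons])
    rw [← Multiset.map_eq_cons] at hS'
    obtain ⟨P, hP, hPi, hR⟩ := hS'
    refine ⟨Function.update b i P.2, S'.erase P, ?_, hR⟩
    have e1 : I.val.map (fun j => (f j, Function.update b i P.2 j)) =
        I.val.map (fun j => (f j, b j)) := by
      refine Multiset.map_congr rfl fun j hj => ?_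
      have hji : j ≠ i := fun h => hi (h ▸ hj)
      rw [Function.update_of_ne hji]
    rw [Finset.insert_val_of_notMem hi, Multiset.map_cons, e1, Function.update_self, hS]
    have e2 : (f i, P.2) = P := by rw [← hPi]
    rw [e2, Multiset.add_cons, ← Multiset.cons_add, Multiset.cons_erase hP]

omit [IsAlgClosed K] [CharZero K] [Fact (Function.Injective a)] in
private theorem ta_FF_eval (x : K) : (FF a).eval x = ∏ i, (x - a i) := by
  unfold FF
  rw [eval_prod]
  simp

omit [IsAlgClosed K] [CharZero K] [Fact (Function.Injective a)] in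
private theorem ta_FF_odd : Odd (FF a).natDegree := by
  unfold FF
  rw [natDegree_finsetProd_X_sub_C_eq_card, Finset.card_univ, Fintype.card_fin]
  exact ⟨g, rfl⟩

omit [IsAlgClosed K] [CharZero K] in
private theorem ta_prod (I : Finset (Fin (2 * g + 1))) (t : Fin (2 * g + 1) → K) :
    ∏ i ∈ I, (X - C (t i)) = ((I.val.map t).map fun x => X - C x).prod := by
  rw [Multiset.map_map]
  rfl

theorem rep_class (ha : ∀ i, v (a i) ≤ 1) (hd : ∀ i j, i ≠ j → v (a i - a j) = 1)
    (I₀ : Finset (Fin (2 * g + 1))) (hI₀ : I₀.card = g) (i₀ : Fin (2 * g + 1)) (hi₀ : i₀ ∈ I₀)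
    (t y₀ : K) (hy : y₀ ^ 2 = (FF a).eval t) (hy₀ : y₀ ≠ 0) (ht : v (t - a i₀) < 1)
    (hne : t ≠ a i₀) (M : ℕ) :
    ∃ t' y' : Fin (2 * g + 1) → K, (∀ i ∈ I₀, y' i ^ 2 = (FF a).eval (t' i) ∧
      v (t' i - a i) < 1) ∧
      cls a t (-y₀) ^ (2 * M) * (∏ i ∈ I₀, cls a (a i) 0) * ∏ i ∈ I₀, cls a (t' i) (y' i) = 1 := by
  classical
  have hy' : (-y₀) ^ 2 = (FF a).eval t := by rw [neg_sq]; exact hy
  have hy₀' : -y₀ ≠ 0 := neg_ne_zero.2 hy₀
  obtain ⟨pm, hpm, hpm'⟩ := exists_pm (FF a) hy' hy₀' (2 * M)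
  obtain ⟨u, w, c, t', hc, huw, hn, hua, ht'⟩ :=
    rep_lemma a v ha hd I₀ hI₀ i₀ hi₀ t ht hne M pm hpm'
  set m : Multiset K := Multiset.replicate (2 * M) t + I₀.val.map a + I₀.val.map t' with hm
  have hn2 : u ^ 2 - w ^ 2 * FF a = C c * (m.map fun x => X - C x).prod := by
    rw [hn, hm, Multiset.map_add, Multiset.map_add, Multiset.prod_add, Multiset.prod_add,
      Multiset.map_replicate, Multiset.prod_replicate, ← ta_prod, ← ta_prod]
    ring
  have hroots : (u ^ 2 - w ^ 2 * FF a).roots = m := by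
    rw [hn2, roots_C_mul _ hc, roots_multiset_prod_X_sub_C]
  have hn0 : u ^ 2 - w ^ 2 * FF a ≠ 0 := by
    rw [hn2]
    refine mul_ne_zero (C_ne_zero.2 hc) ?_
    exact (monic_multiset_prod_of_monic _ _ fun x _ => monic_X_sub_C x).ne_zero
  have h0 : u ≠ 0 ∨ w ≠ 0 := by
    by_contra h
    push Not at h
    apply hn0
    rw [h.1, h.2]
    ring
  obtain ⟨S, hS, hspan, hSr⟩ := fact a u w h0
  have hmem := pow_mem (FF a) hy' hy₀' (2 * M) pm hpm hpm' u w huw
  have hle : Multiset.replicate (2 * M) (t, -y₀) ≤ S := by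
    apply fact_unique a S _ hS
    · intro P hP
      rw [Multiset.eq_of_mem_replicate hP]
      exact hy'
    · rw [← hspan, Multiset.map_replicate, Multiset.prod_replicate,
        Ideal.span_singleton_le_iff_mem]
      exact hmem
  obtain ⟨S₁, hS₁⟩ := Multiset.le_iff_exists_add.1 hle
  have hS₁m : S₁.map Prod.fst = I₀.val.map a + I₀.val.map t' := by
    have h1 : S.map Prod.fst = Multiset.replicate (2 * M) t + S₁.map Prod.fst := by
      rw [hS₁, Multiset.map_add, Multiset.map_replicate]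
    rw [hSr, hroots, hm, add_assoc] at h1
    exact (add_left_cancel h1).symm
  obtain ⟨y', S₂, hS₂, hS₂m⟩ := ta_split t' I₀ S₁ _ hS₁m
  obtain ⟨b, S₃, hS₃, hS₃m⟩ := ta_split a I₀ S₂ 0 (by rw [zero_add]; exact hS₂m)
  have hS₃0 : S₃ = 0 := Multiset.map_eq_zero.1 hS₃m
  have hb : ∀ i ∈ I₀, b i = 0 := by
    intro i hi
    have hmemS : (a i, b i) ∈ S := by
      rw [hS₁, hS₂, hS₃]
      refine Multiset.mem_add.2 (Or.inr (Multiset.mem_add.2 (Or.inl (Multiset.mem_add.2
        (Or.inr ?_)))))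
      exact Multiset.mem_map.2 ⟨i, hi, rfl⟩
    have h1 := hS _ hmemS
    have h2 : (FF a).eval (a i) = 0 := by
      rw [ta_FF_eval]
      exact Finset.prod_eq_zero (Finset.mem_univ i) (sub_self _)
    change b i ^ 2 = (FF a).eval (a i) at h1
    rw [h2] at h1
    exact pow_eq_zero_iff two_ne_zero |>.1 h1
  refine ⟨t', y', fun i hi => ⟨?_, ht' i hi⟩, ?_⟩
  · have hmemS : (t' i, y' i) ∈ S := by
      rw [hS₁, hS₂]
      exact Multiset.mem_add.2 (Or.inr (Multiset.mem_add.2 (Or.inr (Multiset.mem_map.2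
        ⟨i, hi, rfl⟩))))
    exact hS _ hmemS
  · have hcls := (cls_prod_eq_one_iff a S).2 ⟨u, w, h0, hspan.symm⟩
    rw [hS₁, hS₂, hS₃, hS₃0, zero_add, Multiset.map_add, Multiset.map_add, Multiset.prod_add,
      Multiset.prod_add, Multiset.map_replicate, Multiset.prod_replicate, Multiset.map_map,
      Multiset.map_map] at hcls
    rw [mul_assoc]
    have e1 : ∏ i ∈ I₀, cls a (a i) 0 =
        (I₀.val.map ((fun P : K × K => cls a P.1 P.2) ∘ fun i => (a i, b i))).prod := by
      rw [Finset.prod]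
      congr 1
      refine Multiset.map_congr rfl fun i hi => ?_
      change cls a (a i) 0 = cls a (a i) (b i)
      rw [hb i hi]
    have e2 : ∏ i ∈ I₀, cls a (t' i) (y' i) =
        (I₀.val.map ((fun P : K × K => cls a P.1 P.2) ∘ fun i => (t' i, y' i))).prod := rfl
    rw [e1, e2]
    exact hcls

omit [IsAlgClosed K] [CharZero K] [Fact (Function.Injective a)] in
private theorem ta_inj (hd : ∀ i j, i ≠ j → v (a i - a j) = 1)
    (I : Finset (Fin (2 * g + 1))) (t : Fin (2 * g + 1) → K)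
    (ht : ∀ i ∈ I, v (t i - a i) < 1) {i j : Fin (2 * g + 1)} (hi : i ∈ I) (hj : j ∈ I)
    (h : t i = t j) : i = j := by
  by_contra hne
  have h1 := hd i j hne
  have h2 : a i - a j = (t j - a j) - (t i - a i) := by rw [h]; ring
  rw [h2] at h1
  have h3 := Valuation.map_sub v (t j - a j) (t i - a i)
  rw [h1] at h3
  exact absurd h3 (not_le.2 (max_lt (ht j hj) (ht i hi)))

theorem coprime_of_principal (ha : ∀ i, v (a i) ≤ 1) (hd : ∀ i j, i ≠ j → v (a i - a j) = 1)
    (I : Finset (Fin (2 * g + 1))) (t y : Fin (2 * g + 1) → K)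
    (hy : ∀ i ∈ I, y i ^ 2 = (FF a).eval (t i)) (ht : ∀ i ∈ I, v (t i - a i) < 1)
    (hne : ∀ i ∈ I, t i ≠ a i) (m : ℕ) (h : (∏ i ∈ I, cls a (t i) (y i)) ^ m = 1) :
    ∃ u w : K[X], IsCoprime u w ∧ u ^ 2 - w ^ 2 * FF a = QQ I t ^ m := by
  classical
  set S : Multiset (K × K) := m • I.val.map (fun i => (t i, y i)) with hSdef
  have hSpt : ∀ P ∈ S, ∃ i ∈ I, P = (t i, y i) := by
    intro P hP
    have hP' := Multiset.mem_of_mem_nsmul hP
    obtain ⟨i, hi, hiP⟩ := Multiset.mem_map.1 hP'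
    exact ⟨i, hi, hiP.symm⟩
  have hSc : ∀ P ∈ S, P.2 ^ 2 = (FF a).eval P.1 := by
    intro P hP
    obtain ⟨i, hi, rfl⟩ := hSpt P hP
    exact hy i hi
  have hcls : (S.map fun P => cls a P.1 P.2).prod = 1 := by
    rw [hSdef, Multiset.map_nsmul, Multiset.prod_nsmul, Multiset.map_map]
    exact h
  obtain ⟨u, w, h0, hspan⟩ := (cls_prod_eq_one_iff a S).1 hcls
  obtain ⟨S₁, hS₁c, hS₁, hr⟩ := fact a u w h0
  have hSS : S₁ = S := by
    apply le_antisymm
    · exact fact_unique a S S₁ hSc hS₁c (by rw [hspan, hS₁])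
    · exact fact_unique a S₁ S hS₁c hSc (by rw [hspan, hS₁])
  have hroots : (u ^ 2 - w ^ 2 * FF a).roots = m • I.val.map t := by
    rw [← hr, hSS, hSdef, Multiset.map_nsmul, Multiset.map_map]
    rfl
  have hn0 : u ^ 2 - w ^ 2 * FF a ≠ 0 := by
    intro hz
    have := par_deg u w (FF a) (ta_FF_odd a) (sub_eq_zero.1 hz)
    rcases h0 with h0 | h0
    · exact h0 this.1
    · exact h0 this.2
  have hfac : u ^ 2 - w ^ 2 * FF a =
      C (u ^ 2 - w ^ 2 * FF a).leadingCoeff * QQ I t ^ m := by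
    have h1 := (IsAlgClosed.splits (u ^ 2 - w ^ 2 * FF a)).eq_prod_roots
    rw [hroots, Multiset.map_nsmul, Multiset.prod_nsmul, ← ta_prod] at h1
    exact h1
  obtain ⟨c, hc⟩ := IsAlgClosed.exists_pow_nat_eq (u ^ 2 - w ^ 2 * FF a).leadingCoeff two_pos
  have hc0 : c ≠ 0 := by
    intro hz
    rw [hz, zero_pow two_ne_zero] at hc
    exact hn0 (leadingCoeff_eq_zero.1 hc.symm)
  refine ⟨C c⁻¹ * u, C c⁻¹ * w, ?_, ?_⟩
  · refine (isCoprime_iff_aeval_ne_zero_of_isAlgClosed K K (C c⁻¹ * u) (C c⁻¹ * w)).2 fun x => ?_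
    by_contra hx
    push Not at hx
    obtain ⟨hx1, hx2⟩ := hx
    rw [coe_aeval_eq_eval, eval_mul, eval_C] at hx1 hx2
    have hci : c⁻¹ ≠ 0 := inv_ne_zero hc0
    have hu : (X - C x) ∣ u := dvd_iff_isRoot.2 ((mul_eq_zero.1 hx1).resolve_left hci)
    have hw : (X - C x) ∣ w := dvd_iff_isRoot.2 ((mul_eq_zero.1 hx2).resolve_left hci)
    obtain ⟨u₁, hu₁⟩ := hu
    obtain ⟨w₁, hw₁⟩ := hw
    obtain ⟨z, hz⟩ := IsAlgClosed.exists_pow_nat_eq ((FF a).eval x) two_pos
    have hz' : (-z) ^ 2 = (FF a).eval x := by rw [neg_sq]; exact hz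
    have hle : ({(x, z), (x, -z)} : Multiset (K × K)) ≤ S := by
      apply fact_unique a S _ hSc
      · intro P hP
        simp only [Multiset.insert_eq_cons, Multiset.mem_cons, Multiset.mem_singleton] at hP
        rcases hP with rfl | rfl
        · exact hz
        · exact hz'
      · rw [hspan, Multiset.insert_eq_cons, Multiset.map_cons, Multiset.map_singleton,
          Multiset.prod_cons, Multiset.prod_singleton, pI_mul_conj a hz,
          Ideal.span_singleton_le_span_singleton]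
        refine ⟨el (FF a) u₁ w₁, ?_⟩
        rw [el_mul, hu₁, hw₁]
        congr 1
        · ring
        · ring
    have hm1 : (x, z) ∈ S := Multiset.mem_of_le hle (by simp)
    have hm2 : (x, -z) ∈ S := Multiset.mem_of_le hle (by simp)
    obtain ⟨i, hi, hi'⟩ := hSpt _ hm1
    obtain ⟨j, hj, hj'⟩ := hSpt _ hm2
    rw [Prod.mk.injEq] at hi' hj'
    have hij : i = j := ta_inj a v hd I t ht hi hj (hi'.1.symm.trans hj'.1)
    subst hij
    have hz0 : z = 0 := by
      have h1 : z = -z := hi'.2.trans hj'.2.symm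
      exact self_eq_neg.1 h1
    have hev : (FF a).eval (t i) = 0 := by
      rw [← hi'.1, ← hz, hz0]
      simp
    rw [ta_FF_eval, Finset.prod_eq_zero_iff] at hev
    obtain ⟨k, _, hk⟩ := hev
    rw [sub_eq_zero] at hk
    by_cases hki : k = i
    · exact hne i hi (hki ▸ hk)
    · have h1 := ht i hi
      rw [hk, hd k i hki] at h1
      exact lt_irrefl _ h1
  · have h1 : (C c⁻¹ * u) ^ 2 - (C c⁻¹ * w) ^ 2 * FF a =
        C (c⁻¹ ^ 2) * (u ^ 2 - w ^ 2 * FF a) := by
      rw [C_pow]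
      ring
    rw [h1, hfac, ← hc, ← mul_assoc, ← C_mul, ← mul_pow, inv_mul_cancel₀ hc0, one_pow, C_1,
      one_mul]

end HK
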