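import Pool.Agent.H95.HK.TA
import Pool.Agent.H95.HK.RL2

/-!
Module TA2 (project HK, helper95).  Representation of 2 M Σ [P_i] by points near Weierstrass points (generalises rep_class of module TA, whose proof may be adapted).
PROOF.  y_i ≠ 0 for i ∈ I₁ (F(t_i) ≠ 0: t_i ≠ a_i and v (t_i - a_j) = 1 for j ≠ i).  exists_pm for the points (t_i, - y_i), i ∈ I₁, and the exponent 2 M: pm_i; rep_lemma2:
u, w, c, t'.  Let f = el u w ≠ 0, S as in `fact`: S.map fst = roots of n = Σ_{I₁} 2 M • {t_i} + {a_i}_{I₀} + {t'_i}_{I₀}.  pow_mem: span {f} ≤ pI t_i (-y_i) ^ (2 M); the maximal ideals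
pI t_i (-y_i), i ∈ I₁, are different (t_i - t_j is a unit for v), so span {f} ≤ ∏_{I₁} pI t_i (-y_i) ^ (2 M) (coprime; or: by fact_unique every 2 M • {(t_i, -y_i)} ≤ S, and different
elements: the sum is ≤ S).  S = Σ_{I₁} 2 M • {(t_i, -y_i)} + S', S'.map fst = {a_i} + {t'_i} (indexed by I₀).  Choose a bijection: S' = {(a_i, b_i)} + {(t'_i, y'_i)};
b_i ^ 2 = F(a_i) = 0, so b_i = 0.  The product of the classes over S is 1 (cls_prod_eq_one_iff).
-/

namespace HK

open Polynomial

variable {K : Type*} [Field K] [IsAlgClosed K] [CharZero K] {g : ℕ} (a : Fin (2 * g + 1) → K)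
  [Fact (Function.Injective a)] {Γ : Type*} [LinearOrderedCommGroupWithZero Γ] (v : Valuation K Γ)

omit [IsAlgClosed K] [CharZero K] in
/-- choose second coordinates -/
private theorem ta2_split {ι : Type*} [DecidableEq ι] (f : ι → K) (I : Finset ι) :
    ∀ (S : Multiset (K × K)) (R : Multiset K), S.map Prod.fst = R + I.val.map f →
      ∃ (b : ι → K) (S' : Multiset (K × K)), S = S' + I.val.map (fun i => (f i, b i)) ∧
        S'.map Prod.fst = R := by
  classical
  induction I using Finset.induction_on with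
  | empty =>
    intro S R h
    exact ⟨fun _ => 0, S, by simp, by simpa using h⟩
  | insert i I hi ih =>
    intro S R h
    rw [Finset.insert_val_of_notMem hi, Multiset.map_cons] at h
    obtain ⟨b, S', hS, hS'⟩ := ih S (f i ::ₘ R) (by rw [h, Multiset.cons_add, Multiset.add_cons])
    rw [← Multiset.map_eq_cons] at hS'
    obtain ⟨P, hP, hPi, hR⟩ := hS'
    refine ⟨Function.update b i P.2, S'.erase P, ?_, hR⟩
    have e1 : I.val.map (fun j => (f j, Function.update b i P.2 j)) =
        I.val.map (fun j => (f j, b j)) := by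
      refine Multiset.map_congr rfl fun j hj => ?_
      have hji : j ≠ i := fun h => hi (h ▸ hj)
      rw [Function.update_of_ne hji]
    rw [Finset.insert_val_of_notMem hi, Multiset.map_cons, e1, Function.update_self, hS]
    have e2 : (f i, P.2) = P := by rw [← hPi]
    rw [e2, Multiset.add_cons, ← Multiset.cons_add, Multiset.cons_erase hP]

omit [IsAlgClosed K] [CharZero K] [Fact (Function.Injective a)] in
private theorem ta2_FF_eval (x : K) : (FF a).eval x = ∏ i, (x - a i) := by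
  unfold FF
  rw [eval_prod]
  simp

omit [IsAlgClosed K] [CharZero K] in
private theorem ta2_prod (I : Finset (Fin (2 * g + 1))) (t : Fin (2 * g + 1) → K) :
    ∏ i ∈ I, (X - C (t i)) = ((I.val.map t).map fun x => X - C x).prod := by
  rw [Multiset.map_map]
  rfl

omit [IsAlgClosed K] [CharZero K] [Fact (Function.Injective a)] in
private theorem ta2_inj (hd : ∀ i j, i ≠ j → v (a i - a j) = 1)
    (I : Finset (Fin (2 * g + 1))) (t : Fin (2 * g + 1) → K)
    (ht : ∀ i ∈ I, v (t i - a i) < 1) {i j : Fin (2 * g + 1)} (hi : i ∈ I) (hj : j ∈ I)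
    (h : t i = t j) : i = j := by
  by_contra hne
  have h1 := hd i j hne
  have h2 : a i - a j = (t j - a j) - (t i - a i) := by rw [h]; ring
  rw [h2] at h1
  have h3 := Valuation.map_sub v (t j - a j) (t i - a i)
  rw [h1] at h3
  exact absurd h3 (not_le.2 (max_lt (ht j hj) (ht i hi)))

/-- copies of different elements -/
private theorem ta2_sum_le {ι α : Type*} [DecidableEq α] (s : Finset ι) (f : ι → α)
    (hf : ∀ i ∈ s, ∀ j ∈ s, f i = f j → i = j) (n : ℕ) (S : Multiset α)
    (h : ∀ i ∈ s, Multiset.replicate n (f i) ≤ S) :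
    ∑ i ∈ s, Multiset.replicate n (f i) ≤ S := by
  classical
  rw [Multiset.le_iff_count]
  intro x
  rw [Multiset.count_sum']
  by_cases hx : ∃ i ∈ s, f i = x
  · obtain ⟨i, hi, rfl⟩ := hx
    rw [Finset.sum_eq_single_of_mem i hi]
    · exact Multiset.le_iff_count.1 (h i hi) _
    · intro j hj hji
      rw [Multiset.count_replicate, if_neg]
      intro e
      exact hji (hf j hj i hi e)
  · push Not at hx
    rw [Finset.sum_eq_zero]
    · exact Nat.zero_le _
    · intro i hi
      rw [Multiset.count_replicate, if_neg (hx i hi)]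

private theorem ta2_map_sum {ι α β : Type*} (s : Finset ι) (g : ι → Multiset α) (f : α → β) :
    (∑ i ∈ s, g i).map f = ∑ i ∈ s, (g i).map f :=
  map_sum (Multiset.mapAddMonoidHom f) g s

theorem rep_class2 (ha : ∀ i, v (a i) ≤ 1) (hd : ∀ i j, i ≠ j → v (a i - a j) = 1)
    (I₀ I₁ : Finset (Fin (2 * g + 1))) (hI₀ : I₀.card = g) (hsub : I₁ ⊆ I₀)
    (t y : Fin (2 * g + 1) → K) (hy : ∀ i ∈ I₁, y i ^ 2 = (FF a).eval (t i))
    (ht : ∀ i ∈ I₁, v (t i - a i) < 1) (hne : ∀ i ∈ I₁, t i ≠ a i) (M : ℕ) :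
    ∃ t' y' : Fin (2 * g + 1) → K, (∀ i ∈ I₀, y' i ^ 2 = (FF a).eval (t' i) ∧
      v (t' i - a i) < 1) ∧
      (∏ i ∈ I₁, cls a (t i) (-y i)) ^ (2 * M) * (∏ i ∈ I₀, cls a (a i) 0) *
        ∏ i ∈ I₀, cls a (t' i) (y' i) = 1 := by
  classical
  have hinj : ∀ i ∈ I₁, ∀ j ∈ I₁, t i = t j → i = j :=
    fun i hi j hj h => ta2_inj a v hd I₁ t ht hi hj h
  have hF0 : ∀ i ∈ I₁, (FF a).eval (t i) ≠ 0 := by
    intro i hi
    rw [ta2_FF_eval, Finset.prod_ne_zero_iff]
    intro k _ hk
    rw [sub_eq_zero] at hk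
    by_cases hki : k = i
    · exact hne i hi (hki ▸ hk)
    · have h1 := ht i hi
      rw [hk, hd k i hki] at h1
      exact lt_irrefl _ h1
  have hy₀ : ∀ i ∈ I₁, y i ≠ 0 := by
    intro i hi h
    apply hF0 i hi
    rw [← hy i hi, h]
    exact zero_pow two_ne_zero
  have hy' : ∀ i ∈ I₁, (-y i) ^ 2 = (FF a).eval (t i) := by
    intro i hi
    rw [neg_sq]
    exact hy i hi
  have hpmex : ∀ i, ∃ pm : K[X], i ∈ I₁ → pm.eval (t i) = -y i ∧
      (X - C (t i)) ^ (2 * M) ∣ FF a - pm ^ 2 := by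
    intro i
    by_cases hi : i ∈ I₁
    · obtain ⟨pm, h1, h2⟩ := exists_pm (FF a) (hy' i hi) (neg_ne_zero.2 (hy₀ i hi)) (2 * M)
      exact ⟨pm, fun _ => ⟨h1, h2⟩⟩
    · exact ⟨0, fun h => absurd h hi⟩
  choose pm hpm using hpmex
  obtain ⟨u, w, c, t', hc, huw, hn, hua, ht'⟩ :=
    rep_lemma2 a v ha hd I₀ I₁ hI₀ hsub t ht hne M pm fun i hi => (hpm i hi).2
  set m : Multiset K := (∑ i ∈ I₁, Multiset.replicate (2 * M) (t i)) + I₀.val.map a +
    I₀.val.map t' with hm
  have hn2 : u ^ 2 - w ^ 2 * FF a = C c * (m.map fun x => X - C x).prod := by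
    have h1 : ((∑ i ∈ I₁, Multiset.replicate (2 * M) (t i)).map fun x => X - C x).prod =
        ∏ i ∈ I₁, (X - C (t i)) ^ (2 * M) := by
      rw [ta2_map_sum, Multiset.prod_sum]
      refine Finset.prod_congr rfl fun i _ => ?_
      rw [Multiset.map_replicate, Multiset.prod_replicate]
    rw [hn, hm, Multiset.map_add, Multiset.map_add, Multiset.prod_add, Multiset.prod_add,
      h1, ← ta2_prod, ← ta2_prod]
    ring
  have hroots : (u ^ 2 - w ^ 2 * FF a).roots = m := by
    rw [hn2, roots_C_mul _ hc, roots_multiset_prod_X_sub_C]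
  have hn0 : u ^ 2 - w ^ 2 * FF a ≠ 0 := by
    rw [hn2]
    refine mul_ne_zero (C_ne_zero.2 hc) ?_
    exact (monic_multiset_prod_of_monic _ _ fun x _ => monic_X_sub_C x).ne_zero
  have h0 : u ≠ 0 ∨ w ≠ 0 := by
    by_contra h
    push Not at h
    apply hn0
    rw [h.1, h.2]
    ring
  obtain ⟨S, hS, hspan, hSr⟩ := fact a u w h0
  have hle : ∑ i ∈ I₁, Multiset.replicate (2 * M) (t i, -y i) ≤ S := by
    apply ta2_sum_le I₁ (fun i => (t i, -y i))
    · intro i hi j hj hij
      exact hinj i hi j hj (Prod.mk.inj hij).1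
    · intro i hi
      apply fact_unique a S _ hS
      · intro P hP
        rw [Multiset.eq_of_mem_replicate hP]
        exact hy' i hi
      · rw [← hspan, Multiset.map_replicate, Multiset.prod_replicate,
          Ideal.span_singleton_le_iff_mem]
        exact pow_mem (FF a) (hy' i hi) (neg_ne_zero.2 (hy₀ i hi)) (2 * M) (pm i)
          (hpm i hi).1 (hpm i hi).2 u w (huw i hi)
  obtain ⟨S₁, hS₁⟩ := Multiset.le_iff_exists_add.1 hle
  have hS₁m : S₁.map Prod.fst = I₀.val.map a + I₀.val.map t' := by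
    have h1 : S.map Prod.fst = (∑ i ∈ I₁, Multiset.replicate (2 * M) (t i)) +
        S₁.map Prod.fst := by
      rw [hS₁, Multiset.map_add, ta2_map_sum]
      congr 1
      refine Finset.sum_congr rfl fun i _ => ?_
      rw [Multiset.map_replicate]
    rw [hSr, hroots, hm, add_assoc] at h1
    exact (add_left_cancel h1).symm
  obtain ⟨y', S₂, hS₂, hS₂m⟩ := ta2_split t' I₀ S₁ _ hS₁m
  obtain ⟨b, S₃, hS₃, hS₃m⟩ := ta2_split a I₀ S₂ 0 (by rw [zero_add]; exact hS₂m)
  have hS₃0 : S₃ = 0 := Multiset.map_eq_zero.1 hS₃m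
  have hb : ∀ i ∈ I₀, b i = 0 := by
    intro i hi
    have hmemS : (a i, b i) ∈ S := by
      rw [hS₁, hS₂, hS₃]
      refine Multiset.mem_add.2 (Or.inr (Multiset.mem_add.2 (Or.inl (Multiset.mem_add.2
        (Or.inr ?_)))))
      exact Multiset.mem_map.2 ⟨i, hi, rfl⟩
    have h1 := hS _ hmemS
    have h2 : (FF a).eval (a i) = 0 := by
      rw [ta2_FF_eval]
      exact Finset.prod_eq_zero (Finset.mem_univ i) (sub_self _)
    change b i ^ 2 = (FF a).eval (a i) at h1
    rw [h2] at h1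
    exact pow_eq_zero_iff two_ne_zero |>.1 h1
  refine ⟨t', y', fun i hi => ⟨?_, ht' i hi⟩, ?_⟩
  · have hmemS : (t' i, y' i) ∈ S := by
      rw [hS₁, hS₂]
      exact Multiset.mem_add.2 (Or.inr (Multiset.mem_add.2 (Or.inr (Multiset.mem_map.2
        ⟨i, hi, rfl⟩))))
    exact hS _ hmemS
  · have hcls := (cls_prod_eq_one_iff a S).2 ⟨u, w, h0, hspan.symm⟩
    have e0 : ((∑ i ∈ I₁, Multiset.replicate (2 * M) (t i, -y i)).map
        fun P : K × K => cls a P.1 P.2).prod = (∏ i ∈ I₁, cls a (t i) (-y i)) ^ (2 * M) := by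
      rw [ta2_map_sum, Multiset.prod_sum, ← Finset.prod_pow]
      refine Finset.prod_congr rfl fun i _ => ?_
      rw [Multiset.map_replicate, Multiset.prod_replicate]
    rw [hS₁, hS₂, hS₃, hS₃0, zero_add, Multiset.map_add, Multiset.map_add, Multiset.prod_add,
      Multiset.prod_add, e0, Multiset.map_map, Multiset.map_map] at hcls
    rw [mul_assoc]
    have e1 : ∏ i ∈ I₀, cls a (a i) 0 =
        (I₀.val.map ((fun P : K × K => cls a P.1 P.2) ∘ fun i => (a i, b i))).prod := by
      rw [Finset.prod]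
      congr 1
      refine Multiset.map_congr rfl fun i hi => ?_
      change cls a (a i) 0 = cls a (a i) (b i)
      rw [hb i hi]
    have e2 : ∏ i ∈ I₀, cls a (t' i) (y' i) =
        (I₀.val.map ((fun P : K × K => cls a P.1 P.2) ∘ fun i => (t' i, y' i))).prod := rfl
    rw [e1, e2]
    exact hcls

end HK
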